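import Pool.Agent.KOL.Defs

/-!
# Project KOL: mollification of plurisubharmonic functions on `ℂ³`
-/

set_option autoImplicit false

open MeasureTheory Complex Filter Topology
open scoped ContDiff Real Convolution

namespace KOL.Mol

/-- the product kernel before normalisation -/
noncomputable def ker0 (w : C3) : ℝ := ∏ i, Real.smoothTransition (1 - 2 * ‖w i‖ ^ 2)

theorem ker0_contDiff : ContDiff ℝ ∞ ker0 := by
  unfold ker0
  refine contDiff_prod fun i _ => ?_
  refine Real.smoothTransition.contDiff.comp ?_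
  refine contDiff_const.sub (contDiff_const.mul ?_)
  exact (contDiff_norm_sq ℝ).comp (contDiff_apply ℝ ℂ i)

theorem ker0_nonneg (w : C3) : 0 ≤ ker0 w :=
  Finset.prod_nonneg fun _ _ => Real.smoothTransition.nonneg _

theorem ker0_supp {w : C3} (h : ker0 w ≠ 0) : ‖w‖ ≤ 1 := by
  rw [pi_norm_le_iff_of_nonneg zero_le_one]
  intro i
  by_contra hi
  push Not at hi
  apply h
  unfold ker0
  refine Finset.prod_eq_zero (Finset.mem_univ i) ?_
  refine Real.smoothTransition.zero_of_nonpos ?_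
  nlinarith [norm_nonneg (w i)]

theorem ker0_rot (c : ℂ) (hc : ‖c‖ = 1) (w : C3) : ker0 (c • w) = ker0 w := by
  unfold ker0
  simp [hc]

theorem ker0_zero : ker0 0 = 1 := by
  unfold ker0
  simp

/-- scaled kernel -/
noncomputable def kerS (n : ℕ) (w : C3) : ℝ := ker0 (((n : ℝ) + 1) • w)

theorem kerS_contDiff (n : ℕ) : ContDiff ℝ ∞ (kerS n) :=
  ker0_contDiff.comp (contDiff_const_smul _)

theorem kerS_nonneg (n : ℕ) (w : C3) : 0 ≤ kerS n w := ker0_nonneg _

theorem kerS_supp {n : ℕ} {w : C3} (h : kerS n w ≠ 0) : ‖w‖ ≤ 1 / ((n : ℝ) + 1) := by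
  have h1 := ker0_supp h
  have hn : (0 : ℝ) < (n : ℝ) + 1 := by positivity
  rw [norm_smul, Real.norm_of_nonneg hn.le] at h1
  rw [le_div_iff₀ hn]
  linarith

theorem kerS_rot (n : ℕ) (c : ℂ) (hc : ‖c‖ = 1) (w : C3) : kerS n (c • w) = kerS n w := by
  unfold kerS
  rw [smul_comm, ker0_rot c hc]

theorem kerS_compact (n : ℕ) : HasCompactSupport (kerS n) := by
  refine HasCompactSupport.intro (isCompact_closedBall (0 : C3) (1 / ((n : ℝ) + 1))) ?_
  intro w hw
  by_contra h
  exact hw (by simpa using kerS_supp h)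

theorem kerS_int (n : ℕ) : Integrable (kerS n) :=
  (kerS_contDiff n).continuous.integrable_of_hasCompactSupport (kerS_compact n)

theorem kerS_pos (n : ℕ) : 0 < ∫ w, kerS n w := by
  refine (kerS_contDiff n).continuous.integral_pos_of_hasCompactSupport_nonneg_nonzero
    (kerS_compact n) (fun w => kerS_nonneg n w) (x := 0) ?_
  unfold kerS
  rw [smul_zero, ker0_zero]
  exact one_ne_zero

/-- normalised kernel -/
noncomputable def ker (n : ℕ) (w : C3) : ℝ := (∫ w, kerS n w)⁻¹ * kerS n w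

theorem ker_contDiff (n : ℕ) : ContDiff ℝ ∞ (ker n) := contDiff_const.mul (kerS_contDiff n)

theorem ker_nonneg (n : ℕ) (w : C3) : 0 ≤ ker n w :=
  mul_nonneg (inv_nonneg.2 (kerS_pos n).le) (kerS_nonneg n w)

theorem ker_supp {n : ℕ} {w : C3} (h : ker n w ≠ 0) : ‖w‖ ≤ 1 / ((n : ℝ) + 1) :=
  kerS_supp (right_ne_zero_of_mul h)

theorem ker_rot (n : ℕ) (c : ℂ) (hc : ‖c‖ = 1) (w : C3) : ker n (c • w) = ker n w := by
  unfold ker
  rw [kerS_rot n c hc]

theorem ker_compact (n : ℕ) : HasCompactSupport (ker n) := (kerS_compact n).mul_left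

theorem ker_int (n : ℕ) : Integrable (ker n) := (kerS_int n).const_mul _

theorem ker_integral (n : ℕ) : ∫ w, ker n w = 1 := by
  unfold ker
  rw [integral_const_mul, inv_mul_cancel₀ (kerS_pos n).ne']


/-- circle mean of `u` over the boundary of the disc `z + D xi` -/
noncomputable def cmean (u : C3 → ℝ) (z ξ : C3) : ℝ :=
  (2 * π)⁻¹ * ∫ θ in (0 : ℝ)..(2 * π), u (z + exp (θ * I) • ξ)

/-- locally bounded -/
def LocBdd (u : C3 → ℝ) : Prop := ∀ R : ℝ, ∃ M : ℝ, ∀ z, ‖z‖ ≤ R → |u z| ≤ M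

noncomputable def mol (n : ℕ) (u : C3 → ℝ) (z : C3) : ℝ := ∫ w, u (z + w) * ker n w

theorem norm_exp_I (θ : ℝ) : ‖exp (θ * I)‖ = 1 := by
  rw [Complex.norm_exp_ofReal_mul_I]

theorem one_div_le (n : ℕ) : 1 / ((n : ℝ) + 1) ≤ 1 := by
  rw [div_le_one (by positivity)]
  linarith [(Nat.cast_nonneg n : (0 : ℝ) ≤ n)]

theorem smul_mp (c : ℂ) (hc : ‖c‖ = 1) : MeasurePreserving (fun w : C3 => c • w) := by
  have h : MeasurePreserving (fun z : ℂ => c * z) := by
    have := (rotation ⟨c, by simpa [Submonoid.unitSphere] using hc⟩).measurePreserving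
    convert this using 1
    funext z
    rw [rotation_apply]
  exact volume_preserving_pi (fun _ : Fin 3 => h)

theorem integral_smul_unit (c : ℂ) (hc : ‖c‖ = 1) (g : C3 → ℝ) :
    ∫ w, g (c • w) = ∫ w, g w := by
  have hc0 : c ≠ 0 := by
    intro h
    rw [h, norm_zero] at hc
    exact zero_ne_one hc
  exact (smul_mp c hc).integral_comp (Homeomorph.smulOfNeZero c hc0).measurableEmbedding g

theorem mol_rot (n : ℕ) (u : C3 → ℝ) (z : C3) (c : ℂ) (hc : ‖c‖ = 1) :
    mol n u z = ∫ w, u (z + c • w) * ker n w := by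
  unfold mol
  rw [← integral_smul_unit c hc (fun w => u (z + w) * ker n w)]
  simp only [ker_rot n c hc]

theorem bdd_near {u : C3 → ℝ} (hb : LocBdd u) (z : C3) (r : ℝ) :
    ∃ M : ℝ, 0 ≤ M ∧ ∀ w, ‖w‖ ≤ r → |u (z + w)| ≤ M := by
  obtain ⟨M, hM⟩ := hb (‖z‖ + r)
  refine ⟨max M 0, le_max_right _ _, fun w hw => ?_⟩
  refine (hM _ ?_).trans (le_max_left _ _)
  exact (norm_add_le _ _).trans (by linarith)

theorem integrable_prod {T : Type*} [MeasurableSpace T] (μ : Measure T) [IsFiniteMeasure μ]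
    (n : ℕ) (F : T → C3 → ℝ) (hF : Measurable (Function.uncurry F)) (M : ℝ)
    (hM : ∀ t w, ‖w‖ ≤ 1 → |F t w| ≤ M) :
    Integrable (fun p : T × C3 => F p.1 p.2 * ker n p.2) (μ.prod volume) := by
  have h0 : Integrable (fun p : T × C3 => M * ker n p.2) (μ.prod volume) :=
    (integrable_const (μ := μ) M).mul_prod (ker_int n)
  refine h0.mono' ?_ ?_
  · refine (Measurable.mul hF ?_).aestronglyMeasurable
    exact (ker_contDiff n).continuous.measurable.comp measurable_snd
  · refine Eventually.of_forall fun p => ?_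
    rw [Real.norm_eq_abs, abs_mul, abs_of_nonneg (ker_nonneg n p.2)]
    by_cases hk : ker n p.2 = 0
    · simp [hk]
    · exact mul_le_mul_of_nonneg_right (hM _ _ ((ker_supp hk).trans (one_div_le n)))
        (ker_nonneg n p.2)

theorem integrable_mol (n : ℕ) {u : C3 → ℝ} (hm : Measurable u) (hb : LocBdd u) (z : C3) :
    Integrable (fun w => u (z + w) * ker n w) := by
  obtain ⟨M, hM0, hM⟩ := bdd_near hb z 1
  refine ((ker_int n).const_mul M).mono' ?_ ?_
  · exact ((hm.comp (measurable_const_add z)).mul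
      (ker_contDiff n).continuous.measurable).aestronglyMeasurable
  · refine Eventually.of_forall fun w => ?_
    rw [Real.norm_eq_abs, abs_mul, abs_of_nonneg (ker_nonneg n w)]
    by_cases hk : ker n w = 0
    · simp [hk]
    · exact mul_le_mul_of_nonneg_right (hM _ ((ker_supp hk).trans (one_div_le n)))
        (ker_nonneg n w)

theorem two_pi_mul_cmean (u : C3 → ℝ) (z ξ : C3) :
    2 * π * cmean u z ξ = ∫ θ in Set.Ioc 0 (2 * π), u (z + exp (θ * I) • ξ) := by
  unfold cmean
  rw [mul_inv_cancel_left₀ (by positivity), intervalIntegral.integral_of_le (by positivity)]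

theorem meas_exp (z : C3) : Measurable (fun p : ℝ × C3 => z + exp (p.1 * I) • p.2) := by
  have : Continuous (fun p : ℝ × C3 => z + exp (p.1 * I) • p.2) := by fun_prop
  exact this.measurable

/-- the mollification is above `u` -/
theorem le_mol (n : ℕ) {u : C3 → ℝ} (hm : Measurable u) (hb : LocBdd u)
    (hs : ∀ z ξ, u z ≤ cmean u z ξ) (z : C3) : u z ≤ mol n u z := by
  obtain ⟨M, hM0, hM⟩ := bdd_near hb z 1
  have hint := integrable_prod (volume.restrict (Set.Ioc (0 : ℝ) (2 * π))) n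
    (fun θ w => u (z + exp (θ * I) • w)) (hm.comp (meas_exp z)) M
    (fun θ w hw => hM _ (by rw [norm_smul, norm_exp_I, one_mul]; exact hw))
  have h1 : ∫ θ in Set.Ioc (0 : ℝ) (2 * π), mol n u z = 2 * π * mol n u z := by
    rw [setIntegral_const, smul_eq_mul, Measure.real, Real.volume_Ioc,
      ENNReal.toReal_ofReal (by simpa using Real.two_pi_pos.le), sub_zero]
  have h2 : ∫ θ in Set.Ioc (0 : ℝ) (2 * π), mol n u z =
      ∫ w, ∫ θ in Set.Ioc (0 : ℝ) (2 * π), u (z + exp (θ * I) • w) * ker n w := by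
    rw [← integral_integral_swap hint]
    refine integral_congr_ae (Eventually.of_forall fun θ => ?_)
    exact mol_rot n u z _ (norm_exp_I θ)
  have h3 : ∀ w, ∫ θ in Set.Ioc (0 : ℝ) (2 * π), u (z + exp (θ * I) • w) * ker n w =
      2 * π * cmean u z w * ker n w := by
    intro w
    rw [integral_mul_const, two_pi_mul_cmean]
  have h4 : 2 * π * u z = ∫ w, 2 * π * u z * ker n w := by
    rw [integral_const_mul, ker_integral, mul_one]
  have h5 : 2 * π * u z ≤ 2 * π * mol n u z := by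
    rw [h4, ← h1, h2]
    refine integral_mono ((ker_int n).const_mul _) hint.swap.integral_prod_left ?_
    intro w
    simp only
    rw [h3 w]
    exact mul_le_mul_of_nonneg_right
      (mul_le_mul_of_nonneg_left (hs z w) Real.two_pi_pos.le) (ker_nonneg n w)
  exact le_of_mul_le_mul_left h5 Real.two_pi_pos

/-- the mollification has the sub-mean value property -/
theorem mol_submean (n : ℕ) {u : C3 → ℝ} (hm : Measurable u) (hb : LocBdd u)
    (hs : ∀ z ξ, u z ≤ cmean u z ξ) (z ξ : C3) : mol n u z ≤ cmean (mol n u) z ξ := by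
  obtain ⟨M, hM0, hM⟩ := bdd_near hb z (‖ξ‖ + 1)
  have hmeas : Measurable (Function.uncurry fun (θ : ℝ) (w : C3) =>
      u ((z + exp (θ * I) • ξ) + w)) := by
    refine hm.comp ?_
    have : Continuous (fun p : ℝ × C3 => (z + exp (p.1 * I) • ξ) + p.2) := by fun_prop
    exact this.measurable
  have hint := integrable_prod (volume.restrict (Set.Ioc (0 : ℝ) (2 * π))) n
    (fun θ w => u ((z + exp (θ * I) • ξ) + w)) hmeas M
    (fun θ w hw => by
      rw [add_assoc]
      refine hM _ ((norm_add_le _ _).trans ?_)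
      rw [norm_smul, norm_exp_I, one_mul]
      linarith)
  have h1 : 2 * π * cmean (mol n u) z ξ =
      ∫ w, ∫ θ in Set.Ioc (0 : ℝ) (2 * π), u ((z + exp (θ * I) • ξ) + w) * ker n w := by
    rw [two_pi_mul_cmean, ← integral_integral_swap hint]
    rfl
  have h3 : ∀ w, ∫ θ in Set.Ioc (0 : ℝ) (2 * π), u ((z + exp (θ * I) • ξ) + w) * ker n w =
      2 * π * cmean u (z + w) ξ * ker n w := by
    intro w
    rw [integral_mul_const, two_pi_mul_cmean]
    congr 2
    funext θ
    congr 1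
    abel
  have h5 : 2 * π * mol n u z ≤ 2 * π * cmean (mol n u) z ξ := by
    rw [h1]
    unfold mol
    rw [← integral_const_mul]
    refine integral_mono ((integrable_mol n hm hb z).const_mul _)
      hint.swap.integral_prod_left ?_
    intro w
    simp only
    rw [h3 w, ← mul_assoc]
    exact mul_le_mul_of_nonneg_right
      (mul_le_mul_of_nonneg_left (hs (z + w) ξ) Real.two_pi_pos.le) (ker_nonneg n w)
  exact le_of_mul_le_mul_left h5 Real.two_pi_pos


theorem neg_one_norm : ‖(-1 : ℂ)‖ = 1 := by simp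

theorem ker_neg (n : ℕ) (w : C3) : ker n (-w) = ker n w := by
  have := ker_rot n (-1) neg_one_norm w
  rwa [neg_smul, one_smul] at this

theorem locInt {u : C3 → ℝ} (hm : Measurable u) (hb : LocBdd u) : LocallyIntegrable u := by
  intro z
  obtain ⟨M, hM0, hM⟩ := bdd_near hb z 1
  refine ⟨Metric.closedBall z 1, Metric.closedBall_mem_nhds z one_pos, ?_⟩
  refine Measure.integrableOn_of_bounded (M := M)
    (isCompact_closedBall z 1).measure_lt_top.ne hm.aestronglyMeasurable ?_
  refine (ae_restrict_iff' measurableSet_closedBall).2 (Eventually.of_forall fun w hw => ?_)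
  have := hM (w - z) (by rw [← dist_eq_norm]; exact hw)
  rwa [add_sub_cancel] at this

theorem mol_eq_conv (n : ℕ) (u : C3 → ℝ) :
    mol n u = (ker n) ⋆[ContinuousLinearMap.lsmul ℝ ℝ, volume] u := by
  funext z
  unfold mol convolution
  rw [← integral_neg_eq_self]
  refine integral_congr_ae (Eventually.of_forall fun w => ?_)
  simp only [ContinuousLinearMap.lsmul_apply, smul_eq_mul, ker_neg, sub_eq_add_neg]
  ring

theorem mol_contDiff (n : ℕ) {u : C3 → ℝ} (hm : Measurable u) (hb : LocBdd u) :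
    ContDiff ℝ ∞ (mol n u) := by
  rw [mol_eq_conv]
  exact (ker_compact n).contDiff_convolution_left _ (ker_contDiff n) (locInt hm hb)

theorem mol_le_of_ball (n : ℕ) {u : C3 → ℝ} (hm : Measurable u) (hb : LocBdd u) (z : C3) (c : ℝ)
    (h : ∀ w, ‖w‖ ≤ 1 / ((n : ℝ) + 1) → u (z + w) ≤ c) : mol n u z ≤ c := by
  have h4 : c = ∫ w, c * ker n w := by
    rw [integral_const_mul, ker_integral, mul_one]
  rw [h4]
  unfold mol
  refine integral_mono (integrable_mol n hm hb z) ((ker_int n).const_mul _) ?_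
  intro w
  simp only
  by_cases hk : ker n w = 0
  · simp [hk]
  · exact mul_le_mul_of_nonneg_right (h w (ker_supp hk)) (ker_nonneg n w)

theorem le_mol_of_ball (n : ℕ) {u : C3 → ℝ} (hm : Measurable u) (hb : LocBdd u) (z : C3) (c : ℝ)
    (h : ∀ w, ‖w‖ ≤ 1 / ((n : ℝ) + 1) → c ≤ u (z + w)) : c ≤ mol n u z := by
  have h4 : c = ∫ w, c * ker n w := by
    rw [integral_const_mul, ker_integral, mul_one]
  rw [h4]
  unfold mol
  refine integral_mono ((ker_int n).const_mul _) (integrable_mol n hm hb z) ?_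
  intro w
  simp only
  by_cases hk : ker n w = 0
  · simp [hk]
  · exact mul_le_mul_of_nonneg_right (h w (ker_supp hk)) (ker_nonneg n w)

theorem mol_bdd (n : ℕ) {u : C3 → ℝ} (hm : Measurable u) (hb : LocBdd u) (R : ℝ) :
    ∀ M, (∀ z, ‖z‖ ≤ R + 1 → |u z| ≤ M) → ∀ z, ‖z‖ ≤ R → |mol n u z| ≤ M := by
  intro M hM z hz
  have hw : ∀ w : C3, ‖w‖ ≤ 1 / ((n : ℝ) + 1) → |u (z + w)| ≤ M := by
    intro w hw
    refine hM _ ((norm_add_le _ _).trans ?_)
    have := hw.trans (one_div_le n)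
    linarith
  rw [abs_le]
  exact ⟨le_mol_of_ball n hm hb z _ fun w h => (abs_le.1 (hw w h)).1,
    mol_le_of_ball n hm hb z _ fun w h => (abs_le.1 (hw w h)).2⟩

theorem tendsto_mol {u : C3 → ℝ} (hu : UpperSemicontinuous u) (hm : Measurable u)
    (hb : LocBdd u) (hs : ∀ z ξ, u z ≤ cmean u z ξ) (z : C3) :
    Tendsto (fun n => mol n u z) atTop (𝓝 (u z)) := by
  rw [Metric.tendsto_atTop]
  intro ε hε
  have h1 := hu z (u z + ε / 2) (by linarith)
  rw [Metric.eventually_nhds_iff] at h1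
  obtain ⟨δ, hδ, h1⟩ := h1
  obtain ⟨N, hN⟩ := exists_nat_one_div_lt hδ
  refine ⟨N, fun n hn => ?_⟩
  have hn' : 1 / ((n : ℝ) + 1) < δ := by
    refine lt_of_le_of_lt ?_ hN
    exact Nat.one_div_le_one_div hn
  have h2 : mol n u z ≤ u z + ε / 2 := by
    refine mol_le_of_ball n hm hb z _ fun w hw => (h1 ?_).le
    rw [dist_eq_norm, add_sub_cancel_left]
    exact lt_of_le_of_lt hw hn'
  have h3 := le_mol n hm hb hs z
  rw [Real.dist_eq, abs_lt]
  constructor <;> linarith

/-- locally uniform upper bound: used for `u < H` near a compact set -/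
theorem eventually_mol_lt {u H : C3 → ℝ} (hu : UpperSemicontinuous u) (hH : Continuous H)
    (hm : Measurable u) (hb : LocBdd u) (K : Set C3) (hK : IsCompact K)
    (h : ∀ z ∈ K, u z < H z) : ∀ᶠ n in atTop, ∀ z ∈ K, mol n u z < H z := by
  have key : ∀ z ∈ K, ∃ t ∈ 𝓝[K] z, ∀ᶠ n in (atTop : Filter ℕ), ∀ y ∈ t, mol n u y < H y := by
    intro z hz
    obtain ⟨c, hc1, hc2⟩ := exists_between (h z hz)
    obtain ⟨d, hd1, hd2⟩ := exists_between hc2
    have h1 := hu z c hc1
    rw [Metric.eventually_nhds_iff] at h1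
    obtain ⟨δ, hδ, h1⟩ := h1
    have h2 : ∀ᶠ y in 𝓝 z, d < H y := hH.continuousAt.eventually (lt_mem_nhds hd2)
    refine ⟨Metric.ball z (δ / 2) ∩ {y | d < H y}, mem_nhdsWithin_of_mem_nhds
      (inter_mem (Metric.ball_mem_nhds z (half_pos hδ)) h2), ?_⟩
    obtain ⟨N, hN⟩ := exists_nat_one_div_lt (half_pos hδ)
    refine (eventually_ge_atTop N).mono fun n hn y hy => ?_
    refine lt_of_le_of_lt (mol_le_of_ball n hm hb y c fun w hw => (h1 ?_).le) (hd1.trans hy.2)
    · have h3 : 1 / ((n : ℝ) + 1) ≤ 1 / ((N : ℝ) + 1) := Nat.one_div_le_one_div hn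
      have h4 : dist y z < δ / 2 := hy.1
      calc dist (y + w) z ≤ dist (y + w) y + dist y z := dist_triangle _ _ _
        _ = ‖w‖ + dist y z := by rw [dist_eq_norm, add_sub_cancel_left]
        _ < δ := by linarith
  exact hK.induction_on (p := fun s => ∀ᶠ n in (atTop : Filter ℕ), ∀ y ∈ s, mol n u y < H y)
    (by simp) (fun s t hst ht => ht.mono fun n hn y hy => hn y (hst hy))
    (fun s t hs ht => (hs.and ht).mono fun n hn y hy => hy.elim (hn.1 y) (hn.2 y)) key

/-- uniform convergence on compact sets for continuous `u` -/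
theorem mol_unif {u : C3 → ℝ} (hu : Continuous u) (hb : LocBdd u) (K : Set C3)
    (hK : IsCompact K) (ε : ℝ) (hε : 0 < ε) :
    ∀ᶠ n in atTop, ∀ z ∈ K, |mol n u z - u z| ≤ ε := by
  have hm := hu.measurable
  have hK' : IsCompact (Metric.cthickening 1 K) := hK.cthickening
  have huc := hK'.uniformContinuousOn_of_continuous hu.continuousOn
  rw [Metric.uniformContinuousOn_iff] at huc
  obtain ⟨δ, hδ, huc⟩ := huc ε hε
  obtain ⟨N, hN⟩ := exists_nat_one_div_lt hδ
  refine (eventually_ge_atTop N).mono fun n hn z hz => ?_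
  have hnd : 1 / ((n : ℝ) + 1) < δ := lt_of_le_of_lt (Nat.one_div_le_one_div hn) hN
  have hw : ∀ w : C3, ‖w‖ ≤ 1 / ((n : ℝ) + 1) → |u (z + w) - u z| < ε := by
    intro w hw
    have h1 := huc (z + w) (Metric.mem_cthickening_of_dist_le _ z 1 K hz (by
      rw [dist_eq_norm, add_sub_cancel_left]; exact hw.trans (one_div_le n))) z
      (Metric.self_subset_cthickening K hz) (by
        rw [dist_eq_norm, add_sub_cancel_left]; exact lt_of_le_of_lt hw hnd)
    rwa [Real.dist_eq] at h1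
  rw [abs_le]
  constructor
  · have := le_mol_of_ball n hm hb z (u z - ε) fun w h => by
      have := (abs_lt.1 (hw w h)).1
      linarith
    linarith
  · have := mol_le_of_ball n hm hb z (u z + ε) fun w h => by
      have := (abs_lt.1 (hw w h)).2
      linarith
    linarith


/-! ### the Levi form of a smooth function with the submean value property -/

theorem D2_circle (f : C3 → ℝ) (z ξ : C3) (θ : ℝ) :
    D2 f z (exp (θ * I) • ξ) (exp (θ * I) • ξ) =
      Real.cos θ ^ 2 * D2 f z ξ ξ +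
        Real.sin θ * Real.cos θ * (D2 f z ξ (I • ξ) + D2 f z (I • ξ) ξ) +
        Real.sin θ ^ 2 * D2 f z (I • ξ) (I • ξ) := by
  have h : exp (θ * I) • ξ = Real.cos θ • ξ + Real.sin θ • (I • ξ) := by
    rw [exp_mul_I, ← ofReal_cos, ← ofReal_sin, add_smul, mul_smul]
    rfl
  unfold D2
  rw [h]
  simp only [map_add, map_smul, add_apply, smul_apply,
    smul_eq_mul]
  ring

theorem int_cos_sq : ∫ θ in (0 : ℝ)..(2 * π), Real.cos θ ^ 2 = π := by
  rw [integral_cos_sq]
  simp

theorem int_sin_sq : ∫ θ in (0 : ℝ)..(2 * π), Real.sin θ ^ 2 = π := by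
  rw [integral_sin_sq]
  simp

theorem int_sin_cos : ∫ θ in (0 : ℝ)..(2 * π), Real.sin θ * Real.cos θ = 0 := by
  rw [integral_sin_mul_cos₁]
  simp

theorem int_D2_circle (f : C3 → ℝ) (z ξ : C3) :
    ∫ θ in (0 : ℝ)..(2 * π), D2 f z (exp (θ * I) • ξ) (exp (θ * I) • ξ) =
      4 * π * levi f z ξ := by
  simp only [D2_circle]
  rw [intervalIntegral.integral_add, intervalIntegral.integral_add,
    intervalIntegral.integral_mul_const, intervalIntegral.integral_mul_const,
    intervalIntegral.integral_mul_const, int_cos_sq, int_sin_sq, int_sin_cos]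
  · unfold levi
    ring
  all_goals
    refine Continuous.intervalIntegrable ?_ _ _
    fun_prop

theorem int_D1_circle (L : C3 →L[ℝ] ℝ) (ξ : C3) :
    ∫ θ in (0 : ℝ)..(2 * π), L (exp (θ * I) • ξ) = 0 := by
  have h : ∀ θ : ℝ, L (exp (θ * I) • ξ) = Real.cos θ * L ξ + Real.sin θ * L (I • ξ) := by
    intro θ
    have h : exp (θ * I) • ξ = Real.cos θ • ξ + Real.sin θ • (I • ξ) := by
      rw [exp_mul_I, ← ofReal_cos, ← ofReal_sin, add_smul, mul_smul]
      rfl
    rw [h, map_add, map_smul, map_smul, smul_eq_mul, smul_eq_mul]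
  simp only [h]
  rw [intervalIntegral.integral_add, intervalIntegral.integral_mul_const,
    intervalIntegral.integral_mul_const, integral_cos, integral_sin]
  · simp
  all_goals
    refine Continuous.intervalIntegrable ?_ _ _
    fun_prop

/-- second order expansion, with a crude remainder, uniformly in the direction -/
theorem taylor_two {f : C3 → ℝ} (hf : ContDiff ℝ ∞ f) (z : C3) (η : ℝ) (hη : 0 < η) :
    ∃ δ > 0, ∀ v : C3, ‖v‖ < δ →
      |f (z + v) - f z - fderiv ℝ f z v - D2 f z v v / 2| ≤ η * ‖v‖ ^ 2 := by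
  have hd : Differentiable ℝ f := hf.differentiable (by simp)
  have hf1 : ContDiff ℝ ∞ (fderiv ℝ f) := hf.fderiv_right (by simp)
  have hd1 : DifferentiableAt ℝ (fderiv ℝ f) z := (hf1.differentiable (by simp)) z
  have h1 := hd1.hasFDerivAt.isLittleO.bound hη
  rw [Metric.eventually_nhds_iff] at h1
  obtain ⟨δ, hδ, h1⟩ := h1
  refine ⟨δ, hδ, fun v hv => ?_⟩
  set k : ℝ → ℝ := fun s => f (z + s • v) - f z - s * fderiv ℝ f z v - s ^ 2 * (D2 f z v v / 2)
    with hk
  have hk' : ∀ s : ℝ, HasDerivAt k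
      (fderiv ℝ f (z + s • v) v - fderiv ℝ f z v - 2 * s * (D2 f z v v / 2)) s := by
    intro s
    have e1 : HasDerivAt (fun s : ℝ => z + s • v) v s := by
      simpa using ((hasDerivAt_id s).smul_const v).const_add z
    have e2 : HasDerivAt (fun s : ℝ => f (z + s • v)) (fderiv ℝ f (z + s • v) v) s :=
      (hd (z + s • v)).hasFDerivAt.comp_hasDerivAt s e1
    have e3 : HasDerivAt (fun s : ℝ => s * fderiv ℝ f z v) (fderiv ℝ f z v) s := by
      simpa using (hasDerivAt_id s).mul_const (fderiv ℝ f z v)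
    have e4 : HasDerivAt (fun s : ℝ => s ^ 2 * (D2 f z v v / 2)) (2 * s * (D2 f z v v / 2)) s := by
      simpa using (hasDerivAt_pow 2 s).mul_const (D2 f z v v / 2)
    exact ((e2.sub_const (f z)).sub e3).sub e4
  have hb : ∀ s ∈ Set.Ico (0 : ℝ) 1,
      ‖fderiv ℝ f (z + s • v) v - fderiv ℝ f z v - 2 * s * (D2 f z v v / 2)‖ ≤ η * ‖v‖ ^ 2 := by
    intro s hs
    have e1 : dist (z + s • v) z < δ := by
      rw [dist_eq_norm, add_sub_cancel_left, norm_smul, Real.norm_of_nonneg hs.1]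
      exact lt_of_le_of_lt (mul_le_of_le_one_left (norm_nonneg v) hs.2.le) hv
    have e2 := h1 e1
    rw [add_sub_cancel_left] at e2
    have e3 : fderiv ℝ f (z + s • v) v - fderiv ℝ f z v - 2 * s * (D2 f z v v / 2) =
        (fderiv ℝ f (z + s • v) - fderiv ℝ f z - (fderiv ℝ (fderiv ℝ f) z) (s • v)) v := by
      simp only [sub_apply, map_smul, smul_apply,
        smul_eq_mul, D2]
      ring
    rw [e3]
    refine (ContinuousLinearMap.le_opNorm _ _).trans ?_
    have e4 : ‖s • v‖ ≤ ‖v‖ := by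
      rw [norm_smul, Real.norm_of_nonneg hs.1]
      exact mul_le_of_le_one_left (norm_nonneg v) hs.2.le
    calc _ ≤ (η * ‖s • v‖) * ‖v‖ := mul_le_mul_of_nonneg_right e2 (norm_nonneg v)
      _ ≤ (η * ‖v‖) * ‖v‖ := by gcongr
      _ = η * ‖v‖ ^ 2 := by ring
  have h2 := norm_image_sub_le_of_norm_deriv_le_segment_01'
    (f := k) (C := η * ‖v‖ ^ 2) (fun s _ => (hk' s).hasDerivWithinAt) hb
  have e0 : k 0 = 0 := by simp [hk]
  have e1 : k 1 = f (z + v) - f z - fderiv ℝ f z v - D2 f z v v / 2 := by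
    simp [hk]
  rwa [e0, sub_zero, e1, Real.norm_eq_abs] at h2

theorem levi_nonneg {f : C3 → ℝ} (hf : ContDiff ℝ ∞ f) (hs : ∀ z ξ, f z ≤ cmean f z ξ)
    (z ξ : C3) : 0 ≤ levi f z ξ := by
  by_contra hneg
  push Not at hneg
  set c := -levi f z ξ with hc
  have hc0 : 0 < c := by linarith
  set η := c / (2 * (‖ξ‖ ^ 2 + 1)) with hη
  have hη0 : 0 < η := by positivity
  obtain ⟨δ, hδ, hT⟩ := taylor_two hf z η hη0
  set r := δ / (2 * (‖ξ‖ + 1)) with hr
  have hr0 : 0 < r := by positivity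
  have hrξ : r * ‖ξ‖ < δ := by
    rw [hr]
    have h1 : ‖ξ‖ < 2 * (‖ξ‖ + 1) := by linarith [norm_nonneg ξ]
    rw [div_mul_eq_mul_div, div_lt_iff₀ (by positivity)]
    exact mul_lt_mul_of_pos_left h1 hδ
  have h0 := hs z ((r : ℂ) • ξ)
  have hcont : Continuous fun θ : ℝ => f (z + exp (θ * I) • ((r : ℂ) • ξ)) := by
    have := hf.continuous
    fun_prop
  -- pointwise bound
  have hp : ∀ θ : ℝ, f (z + exp (θ * I) • ((r : ℂ) • ξ)) ≤
      f z + fderiv ℝ f z (exp (θ * I) • ((r : ℂ) • ξ)) +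
        D2 f z (exp (θ * I) • ((r : ℂ) • ξ)) (exp (θ * I) • ((r : ℂ) • ξ)) / 2 +
        η * (r * ‖ξ‖) ^ 2 := by
    intro θ
    have hn : ‖exp (θ * I) • ((r : ℂ) • ξ)‖ = r * ‖ξ‖ := by
      rw [norm_smul, norm_smul, norm_exp_I, one_mul, norm_real, Real.norm_of_nonneg hr0.le]
    have h1 := (abs_le.1 (hT (exp (θ * I) • ((r : ℂ) • ξ)) (by rw [hn]; exact hrξ))).2
    rw [hn] at h1
    linarith
  have hint : ∫ θ in (0 : ℝ)..(2 * π), f (z + exp (θ * I) • ((r : ℂ) • ξ)) ≤
      ∫ θ in (0 : ℝ)..(2 * π), (f z + fderiv ℝ f z (exp (θ * I) • ((r : ℂ) • ξ)) +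
        D2 f z (exp (θ * I) • ((r : ℂ) • ξ)) (exp (θ * I) • ((r : ℂ) • ξ)) / 2 +
        η * (r * ‖ξ‖) ^ 2) := by
    refine intervalIntegral.integral_mono (by positivity) (hcont.intervalIntegrable _ _) ?_ hp
    refine Continuous.intervalIntegrable ?_ _ _
    unfold D2
    fun_prop
  have hval : ∫ θ in (0 : ℝ)..(2 * π), (f z + fderiv ℝ f z (exp (θ * I) • ((r : ℂ) • ξ)) +
        D2 f z (exp (θ * I) • ((r : ℂ) • ξ)) (exp (θ * I) • ((r : ℂ) • ξ)) / 2 +
        η * (r * ‖ξ‖) ^ 2) =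
      2 * π * f z + 2 * π * levi f z ((r : ℂ) • ξ) + 2 * π * (η * (r * ‖ξ‖) ^ 2) := by
    rw [intervalIntegral.integral_add, intervalIntegral.integral_add,
      intervalIntegral.integral_add, intervalIntegral.integral_const,
      intervalIntegral.integral_const, int_D1_circle, intervalIntegral.integral_div,
      int_D2_circle]
    · simp only [smul_eq_mul, sub_zero]
      ring
    all_goals
      refine Continuous.intervalIntegrable ?_ _ _
      try simp only [D2]
      fun_prop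
  have hlev : levi f z ((r : ℂ) • ξ) = r ^ 2 * levi f z ξ := by
    have e1 : (r : ℂ) • ξ = r • ξ := rfl
    have e2 : I • ((r : ℂ) • ξ) = r • (I • ξ) := by
      rw [smul_comm]
      rfl
    unfold levi D2
    rw [e2, e1]
    simp only [map_smul, smul_apply, smul_eq_mul]
    ring
  have hfin : 2 * π * f z ≤ 2 * π * f z + 2 * π * (r ^ 2 * levi f z ξ) +
      2 * π * (η * (r * ‖ξ‖) ^ 2) := by
    calc 2 * π * f z ≤ 2 * π * cmean f z ((r : ℂ) • ξ) :=
          mul_le_mul_of_nonneg_left h0 Real.two_pi_pos.le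
      _ = ∫ θ in (0 : ℝ)..(2 * π), f (z + exp (θ * I) • ((r : ℂ) • ξ)) := by
          unfold cmean
          rw [mul_inv_cancel_left₀ (by positivity)]
      _ ≤ _ := hint
      _ = _ := by rw [hval, hlev]
  have h3 : 0 ≤ 2 * π * (r ^ 2 * (levi f z ξ + η * ‖ξ‖ ^ 2)) := by
    nlinarith [hfin]
  have h4 : η * ‖ξ‖ ^ 2 ≤ c / 2 := by
    rw [hη, div_mul_eq_mul_div, div_le_div_iff₀ (by positivity) (by positivity)]
    nlinarith [sq_nonneg ‖ξ‖]
  have h5 : levi f z ξ + η * ‖ξ‖ ^ 2 < 0 := by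
    have : levi f z ξ = -c := by rw [hc]; ring
    linarith
  have h6 : 2 * π * (r ^ 2 * (levi f z ξ + η * ‖ξ‖ ^ 2)) < 0 :=
    mul_neg_of_pos_of_neg Real.two_pi_pos (mul_neg_of_pos_of_neg (by positivity) h5)
  linarith

/-! ### interface for plurisubharmonic functions on `ℂ³` -/

theorem psh_usc {u : C3 → ℝ} (hu : Psh Set.univ u) : UpperSemicontinuous u :=
  upperSemicontinuousOn_univ_iff.1 hu.usc

theorem psh_meas {u : C3 → ℝ} (hu : Psh Set.univ u) : Measurable u := (psh_usc hu).measurable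

theorem psh_submean {u : C3 → ℝ} (hu : Psh Set.univ u) (z ξ : C3) : u z ≤ cmean u z ξ :=
  hu.sub z ξ fun _ _ => trivial

/-- smooth approximation of a locally bounded plurisubharmonic function from above -/
theorem exists_smooth {u : C3 → ℝ} (hu : Psh Set.univ u) (hb : LocBdd u) :
    (∀ n, ContDiff ℝ ∞ (mol n u)) ∧ (∀ n z, u z ≤ mol n u z) ∧
      (∀ n z ξ, 0 ≤ levi (mol n u) z ξ) ∧
      (∀ z, Tendsto (fun n => mol n u z) atTop (𝓝 (u z))) ∧
      (∀ R M, (∀ z, ‖z‖ ≤ R + 1 → |u z| ≤ M) → ∀ n z, ‖z‖ ≤ R → |mol n u z| ≤ M) :=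
  ⟨fun n => mol_contDiff n (psh_meas hu) hb,
    fun n z => le_mol n (psh_meas hu) hb (psh_submean hu) z,
    fun n z ξ => levi_nonneg (mol_contDiff n (psh_meas hu) hb)
      (mol_submean n (psh_meas hu) hb (psh_submean hu)) z ξ,
    fun z => tendsto_mol (psh_usc hu) (psh_meas hu) hb (psh_submean hu) z,
    fun R M h n z hz => mol_bdd n (psh_meas hu) hb R M h z hz⟩

end KOL.Mol
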