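import Mathlib

/-! # Smooth convex kinks on the line (module ONE) -/

set_option autoImplicit false

noncomputable section

namespace KOL

open MeasureTheory Set Filter
open scoped ContDiff Topology

/-- the bump used for the kinks -/
def kb : ContDiffBump (0 : ℝ) := ⟨1 / 2, 1, by norm_num, by norm_num⟩

/-- normalised even smooth bump on `(-1, 1)` -/
def kk (s : ℝ) : ℝ := kb.normed volume s

theorem kk_smooth : ContDiff ℝ ∞ kk := kb.contDiff_normed

theorem kk_nonneg (s : ℝ) : 0 ≤ kk s := kb.nonneg_normed s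

theorem kk_even (s : ℝ) : kk (-s) = kk s := kb.normed_neg s

theorem kk_zero (s : ℝ) (h : 1 ≤ |s|) : kk s = 0 := by
  have h1 : s ∉ Function.support (kb.normed (volume : Measure ℝ)) := by
    rw [kb.support_normed_eq]
    simp only [Metric.mem_ball, dist_zero_right, Real.norm_eq_abs, not_lt]
    exact h
  exact Function.notMem_support.1 h1

theorem kk_pos (s : ℝ) (h : |s| < 1) : 0 < kk s := by
  have h1 : s ∈ Function.support (kb.normed (volume : Measure ℝ)) := by
    rw [kb.support_normed_eq]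
    simp only [Metric.mem_ball, dist_zero_right, Real.norm_eq_abs]
    exact h
  exact lt_of_le_of_ne (kk_nonneg s) (Ne.symm h1)

theorem kk_cont : Continuous kk := kk_smooth.continuous

theorem kk_int (a b : ℝ) : IntervalIntegrable kk volume a b := kk_cont.intervalIntegrable a b

/-- first primitive -/
def QQ (s : ℝ) : ℝ := ∫ t in (-1)..s, kk t

theorem QQ_hasDeriv (s : ℝ) : HasDerivAt QQ (kk s) s :=
  intervalIntegral.integral_hasDerivAt_right (kk_int _ _)
    (kk_cont.stronglyMeasurableAtFilter _ _) kk_cont.continuousAt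

theorem QQ_deriv : deriv QQ = kk := funext fun s => (QQ_hasDeriv s).deriv

theorem QQ_diff : Differentiable ℝ QQ := fun s => (QQ_hasDeriv s).differentiableAt

theorem QQ_smooth : ContDiff ℝ ∞ QQ := by
  rw [contDiff_infty_iff_deriv]
  exact ⟨QQ_diff, by rw [QQ_deriv]; exact kk_smooth⟩

theorem QQ_cont : Continuous QQ := QQ_smooth.continuous

theorem QQ_mono : Monotone QQ := monotone_of_deriv_nonneg QQ_diff fun s => by
  rw [QQ_deriv]
  exact kk_nonneg s

theorem QQ_neg_one : QQ (-1) = 0 := by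
  unfold QQ
  exact intervalIntegral.integral_same

theorem QQ_low (s : ℝ) (h : s ≤ -1) : QQ s = 0 := by
  unfold QQ
  rw [intervalIntegral.integral_symm]
  have : ∫ t in s..(-1 : ℝ), kk t = ∫ _t in s..(-1 : ℝ), (0 : ℝ) := by
    refine intervalIntegral.integral_congr fun t ht => ?_
    rw [uIcc_of_le h] at ht
    refine kk_zero t ?_
    rw [abs_of_nonpos (by linarith [ht.2])]
    linarith [ht.2]
  rw [this]
  simp

theorem QQ_one : QQ 1 = 1 := by
  have h1 : ∫ t, kk t = 1 := kb.integral_normed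
  unfold QQ
  rw [intervalIntegral.integral_of_le (by norm_num)]
  refine Eq.trans (setIntegral_eq_integral_of_forall_compl_eq_zero fun t ht => ?_) h1
  refine kk_zero t ?_
  by_contra h
  rw [not_le, abs_lt] at h
  exact ht ⟨h.1, h.2.le⟩

theorem QQ_high (s : ℝ) (h : 1 ≤ s) : QQ s = 1 := by
  have h1 : QQ s = QQ 1 + ∫ t in (1 : ℝ)..s, kk t := by
    unfold QQ
    rw [intervalIntegral.integral_add_adjacent_intervals (kk_int _ _) (kk_int _ _)]
  have h2 : ∫ t in (1 : ℝ)..s, kk t = ∫ _t in (1 : ℝ)..s, (0 : ℝ) := by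
    refine intervalIntegral.integral_congr fun t ht => ?_
    rw [uIcc_of_le h] at ht
    refine kk_zero t ?_
    rw [abs_of_nonneg (by linarith [ht.1])]
    exact ht.1
  rw [h1, h2, QQ_one]
  simp

theorem QQ_nonneg (s : ℝ) : 0 ≤ QQ s := by
  rcases le_total s (-1) with h | h
  · exact (QQ_low s h).ge
  · rw [← QQ_neg_one]
    exact QQ_mono h

theorem QQ_le_one (s : ℝ) : QQ s ≤ 1 := by
  rcases le_total s 1 with h | h
  · rw [← QQ_one]
    exact QQ_mono h
  · exact (QQ_high s h).le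

theorem QQ_add_neg (s : ℝ) : QQ s + QQ (-s) = 1 := by
  have h1 : ∀ s, HasDerivAt (fun s => QQ s + QQ (-s)) 0 s := by
    intro s
    have h2 := (QQ_hasDeriv s).add ((QQ_hasDeriv (-s)).comp s (hasDerivAt_neg s))
    refine h2.congr_deriv ?_
    rw [kk_even]
    ring
  have h3 := is_const_of_deriv_eq_zero (fun s => (h1 s).differentiableAt)
    (fun s => (h1 s).deriv) s 1
  have h4 : QQ s + QQ (-s) = QQ 1 + QQ (-1) := h3
  rw [h4, QQ_one, QQ_neg_one, add_zero]

/-- the smooth version of `max s 0` -/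
def PP (s : ℝ) : ℝ := ∫ t in (-1)..s, QQ t

theorem PP_hasDeriv (s : ℝ) : HasDerivAt PP (QQ s) s :=
  intervalIntegral.integral_hasDerivAt_right (QQ_cont.intervalIntegrable _ _)
    (QQ_cont.stronglyMeasurableAtFilter _ _) QQ_cont.continuousAt

theorem PP_deriv : deriv PP = QQ := funext fun s => (PP_hasDeriv s).deriv

theorem PP_diff : Differentiable ℝ PP := fun s => (PP_hasDeriv s).differentiableAt

theorem PP_smooth : ContDiff ℝ ∞ PP := by
  rw [contDiff_infty_iff_deriv]
  exact ⟨PP_diff, by rw [PP_deriv]; exact QQ_smooth⟩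

theorem PP_cont : Continuous PP := PP_smooth.continuous

theorem PP_mono : Monotone PP := monotone_of_deriv_nonneg PP_diff fun s => by
  rw [PP_deriv]
  exact QQ_nonneg s

theorem PP_low (s : ℝ) (h : s ≤ -1) : PP s = 0 := by
  unfold PP
  rw [intervalIntegral.integral_symm]
  have : ∫ t in s..(-1 : ℝ), QQ t = ∫ _t in s..(-1 : ℝ), (0 : ℝ) := by
    refine intervalIntegral.integral_congr fun t ht => ?_
    rw [uIcc_of_le h] at ht
    exact QQ_low t ht.2
  rw [this]
  simp

theorem PP_nonneg (s : ℝ) : 0 ≤ PP s := by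
  rcases le_total s (-1) with h | h
  · exact (PP_low s h).ge
  · rw [← PP_low (-1) le_rfl]
    exact PP_mono h

theorem PP_sub_neg (s : ℝ) : PP s - PP (-s) = s := by
  have h1 : ∀ s, HasDerivAt (fun s => PP s - PP (-s) - s) 0 s := by
    intro s
    have h2 := ((PP_hasDeriv s).sub ((PP_hasDeriv (-s)).comp s (hasDerivAt_neg s))).sub
      (hasDerivAt_id s)
    refine h2.congr_deriv ?_
    have := QQ_add_neg s
    linarith
  have h3 := is_const_of_deriv_eq_zero (fun s => (h1 s).differentiableAt)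
    (fun s => (h1 s).deriv) s 0
  have h4 : PP s - PP (-s) - s = PP 0 - PP (-0) - 0 := h3
  rw [neg_zero, sub_self, sub_zero] at h4
  linarith

theorem PP_high (s : ℝ) (h : 1 ≤ s) : PP s = s := by
  have h1 := PP_sub_neg s
  rw [PP_low (-s) (by linarith)] at h1
  linarith

theorem PP_ge (s : ℝ) : s ≤ PP s := by
  have h1 := PP_sub_neg s
  have h2 := PP_nonneg (-s)
  linarith

theorem PP_ge_max (s : ℝ) : max s 0 ≤ PP s := max_le (PP_ge s) (PP_nonneg s)

theorem PP_le (s : ℝ) : PP s ≤ max s 0 + 1 := by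
  rcases le_total s 1 with h | h
  · have h1 : PP s ≤ 1 := by
      rw [← PP_high 1 le_rfl]
      exact PP_mono h
    have h2 : 0 ≤ max s 0 := le_max_right _ _
    linarith
  · rw [PP_high s h]
    have h2 : s ≤ max s 0 := le_max_left _ _
    linarith

theorem PP_convex : ConvexOn ℝ univ PP := by
  refine MonotoneOn.convexOn_of_deriv convex_univ PP_cont.continuousOn PP_diff.differentiableOn ?_
  rw [PP_deriv]
  exact QQ_mono.monotoneOn _

/-! ## Rescaled versions -/

/-- smooth version of `max s 0` at scale `d` -/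
def Pd (d s : ℝ) : ℝ := d * PP (s / d)

/-- smooth version of the Heaviside function at scale `d` -/
def Qd (d s : ℝ) : ℝ := QQ (s / d)

/-- bump of integral one at scale `d` -/
def kd (d s : ℝ) : ℝ := kk (s / d) / d

/-- smooth version of `|s|` at scale `d` -/
def Ad (d s : ℝ) : ℝ := Pd d s + Pd d (-s)

theorem Pd_smooth (d : ℝ) : ContDiff ℝ ∞ (Pd d) :=
  contDiff_const.mul (PP_smooth.comp (contDiff_id.div_const d))

theorem Qd_smooth (d : ℝ) : ContDiff ℝ ∞ (Qd d) := QQ_smooth.comp (contDiff_id.div_const d)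

theorem kd_smooth (d : ℝ) : ContDiff ℝ ∞ (kd d) :=
  (kk_smooth.comp (contDiff_id.div_const d)).div_const d

theorem Ad_smooth (d : ℝ) : ContDiff ℝ ∞ (Ad d) :=
  (Pd_smooth d).add ((Pd_smooth d).comp contDiff_neg)

theorem Pd_hasDeriv {d : ℝ} (hd : 0 < d) (s : ℝ) : HasDerivAt (Pd d) (Qd d s) s := by
  have h1 := ((PP_hasDeriv (s / d)).comp s ((hasDerivAt_id s).div_const d)).const_mul d
  refine h1.congr_deriv ?_
  unfold Qd
  field_simp

theorem Qd_hasDeriv (d : ℝ) (s : ℝ) : HasDerivAt (Qd d) (kd d s) s := by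
  have h1 := (QQ_hasDeriv (s / d)).comp s ((hasDerivAt_id s).div_const d)
  refine h1.congr_deriv ?_
  unfold kd
  ring

theorem Pd_deriv {d : ℝ} (hd : 0 < d) : deriv (Pd d) = Qd d :=
  funext fun s => (Pd_hasDeriv hd s).deriv

theorem Qd_deriv (d : ℝ) : deriv (Qd d) = kd d := funext fun s => (Qd_hasDeriv d s).deriv

theorem kd_nonneg {d : ℝ} (hd : 0 < d) (s : ℝ) : 0 ≤ kd d s :=
  div_nonneg (kk_nonneg _) hd.le

theorem kd_even (d s : ℝ) : kd d (-s) = kd d s := by
  unfold kd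
  rw [neg_div, kk_even]

theorem kd_zero {d : ℝ} (hd : 0 < d) (s : ℝ) (h : d ≤ |s|) : kd d s = 0 := by
  unfold kd
  rw [kk_zero, zero_div]
  rw [abs_div, abs_of_pos hd, le_div_iff₀ hd]
  linarith

theorem kd_pos {d : ℝ} (hd : 0 < d) (s : ℝ) (h : |s| < d) : 0 < kd d s := by
  refine div_pos (kk_pos _ ?_) hd
  rw [abs_div, abs_of_pos hd, div_lt_iff₀ hd]
  linarith

theorem Qd_nonneg (d s : ℝ) : 0 ≤ Qd d s := QQ_nonneg _

theorem Qd_le_one (d s : ℝ) : Qd d s ≤ 1 := QQ_le_one _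

theorem Qd_low {d : ℝ} (hd : 0 < d) (s : ℝ) (h : s ≤ -d) : Qd d s = 0 := by
  refine QQ_low _ ?_
  rw [div_le_iff₀ hd]
  linarith

theorem Qd_high {d : ℝ} (hd : 0 < d) (s : ℝ) (h : d ≤ s) : Qd d s = 1 := by
  refine QQ_high _ ?_
  rw [le_div_iff₀ hd]
  linarith

theorem Pd_nonneg {d : ℝ} (hd : 0 < d) (s : ℝ) : 0 ≤ Pd d s := mul_nonneg hd.le (PP_nonneg _)

theorem Pd_mono {d : ℝ} (hd : 0 < d) : Monotone (Pd d) := fun _ _ h =>
  mul_le_mul_of_nonneg_left (PP_mono (div_le_div_of_nonneg_right h hd.le)) hd.le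

theorem Pd_low {d : ℝ} (hd : 0 < d) (s : ℝ) (h : s ≤ -d) : Pd d s = 0 := by
  unfold Pd
  rw [PP_low, mul_zero]
  rw [div_le_iff₀ hd]
  linarith

theorem Pd_high {d : ℝ} (hd : 0 < d) (s : ℝ) (h : d ≤ s) : Pd d s = s := by
  unfold Pd
  rw [PP_high]
  · field_simp
  · rw [le_div_iff₀ hd]
    linarith

theorem Pd_ge {d : ℝ} (hd : 0 < d) (s : ℝ) : s ≤ Pd d s := by
  have h1 := mul_le_mul_of_nonneg_left (PP_ge (s / d)) hd.le
  have h2 : d * (s / d) = s := by field_simp
  rw [h2] at h1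
  exact h1

theorem Pd_ge_max {d : ℝ} (hd : 0 < d) (s : ℝ) : max s 0 ≤ Pd d s :=
  max_le (Pd_ge hd s) (Pd_nonneg hd s)

theorem Pd_le {d : ℝ} (hd : 0 < d) (s : ℝ) : Pd d s ≤ max s 0 + d := by
  have h1 := mul_le_mul_of_nonneg_left (PP_le (s / d)) hd.le
  have h2 : d * (max (s / d) 0 + 1) = max s 0 + d := by
    rw [mul_add, mul_max_of_nonneg _ _ hd.le]
    have : d * (s / d) = s := by field_simp
    rw [this, mul_zero, mul_one]
  rw [h2] at h1
  exact h1

theorem Pd_sub_neg {d : ℝ} (hd : 0 < d) (s : ℝ) : Pd d s - Pd d (-s) = s := by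
  unfold Pd
  rw [neg_div, ← mul_sub, PP_sub_neg]
  field_simp

theorem Ad_eq {d : ℝ} (hd : 0 < d) (s : ℝ) : Ad d s = 2 * Pd d s - s := by
  have := Pd_sub_neg hd s
  unfold Ad
  linarith

theorem Ad_even (d s : ℝ) : Ad d (-s) = Ad d s := by
  unfold Ad
  rw [neg_neg]
  ring

theorem Ad_ge {d : ℝ} (hd : 0 < d) (s : ℝ) : |s| ≤ Ad d s := by
  rw [abs_le']
  constructor
  · have h1 := Pd_ge hd s
    have h2 := Pd_nonneg hd (-s)
    unfold Ad
    linarith
  · have h1 := Pd_ge hd (-s)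
    have h2 := Pd_nonneg hd s
    unfold Ad
    linarith

theorem Ad_le {d : ℝ} (hd : 0 < d) (s : ℝ) : Ad d s ≤ |s| + 2 * d := by
  have h1 := Pd_le hd s
  have h2 := Pd_le hd (-s)
  have h3 : max s 0 + max (-s) 0 = |s| := by
    rcases le_total 0 s with h | h
    · rw [max_eq_left h, max_eq_right (by linarith), abs_of_nonneg h, add_zero]
    · rw [max_eq_right h, max_eq_left (by linarith), abs_of_nonpos h, zero_add]
  unfold Ad
  linarith

theorem Ad_far {d : ℝ} (hd : 0 < d) (s : ℝ) (h : d ≤ |s|) : Ad d s = |s| := by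
  unfold Ad
  rcases le_total 0 s with h0 | h0
  · rw [abs_of_nonneg h0] at h ⊢
    rw [Pd_high hd s h, Pd_low hd (-s) (by linarith), add_zero]
  · rw [abs_of_nonpos h0] at h ⊢
    rw [Pd_high hd (-s) h, Pd_low hd s (by linarith), zero_add]

theorem Ad_hasDeriv {d : ℝ} (hd : 0 < d) (s : ℝ) : HasDerivAt (Ad d) (2 * Qd d s - 1) s := by
  have h1 := ((Pd_hasDeriv hd s).const_mul 2).sub (hasDerivAt_id s)
  refine h1.congr_of_eventuallyEq (Eventually.of_forall fun t => ?_)
  exact Ad_eq hd t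

theorem Ad_deriv {d : ℝ} (hd : 0 < d) : deriv (Ad d) = fun s => 2 * Qd d s - 1 :=
  funext fun s => (Ad_hasDeriv hd s).deriv

theorem Ad_deriv2 {d : ℝ} (hd : 0 < d) : deriv (deriv (Ad d)) = fun s => 2 * kd d s := by
  rw [Ad_deriv hd]
  funext s
  exact (((Qd_hasDeriv d s).const_mul 2).sub_const 1).deriv

/-- the narrow bump is bounded by a constant times the wide one -/
theorem exists_kd_le : ∃ C : ℝ, 0 < C ∧ ∀ d : ℝ, 0 < d → ∀ s : ℝ, kd d s ≤ C * kd (2 * d) s := by
  obtain ⟨t0, hm0, h0⟩ := (isCompact_Icc (a := (-(1 / 2) : ℝ)) (b := 1 / 2)).exists_isMinOn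
    (nonempty_Icc.2 (by norm_num)) kk_cont.continuousOn
  obtain ⟨t1, hm1, h1⟩ := (isCompact_Icc (a := (-1 : ℝ)) (b := 1)).exists_isMaxOn
    (nonempty_Icc.2 (by norm_num)) kk_cont.continuousOn
  have ht0 : ∀ t : ℝ, |t| ≤ 1 / 2 → kk t0 ≤ kk t := fun t ht =>
    isMinOn_iff.1 h0 t (abs_le.1 ht)
  have ht1 : ∀ t : ℝ, |t| ≤ 1 → kk t ≤ kk t1 := fun t ht =>
    isMaxOn_iff.1 h1 t (abs_le.1 ht)
  have hp0 : 0 < kk t0 := kk_pos t0 (by
    have := abs_le.2 hm0
    linarith)
  have hp1 : 0 < kk t1 := lt_of_lt_of_le hp0 (ht1 t0 (by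
    have := abs_le.2 hm0
    linarith))
  refine ⟨2 * (kk t1 / kk t0), by positivity, fun d hd s => ?_⟩
  rcases lt_or_ge |s| d with h | h
  · have h2 : |s / d| ≤ 1 := by
      rw [abs_div, abs_of_pos hd, div_le_one hd]
      exact h.le
    have h3 : |s / (2 * d)| ≤ 1 / 2 := by
      rw [abs_div, abs_of_pos (by positivity : 0 < 2 * d), div_le_iff₀ (by positivity)]
      linarith
    have h4 := ht1 _ h2
    have h5 := ht0 _ h3
    unfold kd
    rw [div_le_iff₀ hd]
    have h6 : 2 * (kk t1 / kk t0) * (kk (s / (2 * d)) / (2 * d)) * d =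
        kk t1 * (kk (s / (2 * d)) / kk t0) := by
      field_simp
    rw [h6]
    have h7 : 1 ≤ kk (s / (2 * d)) / kk t0 := by
      rw [le_div_iff₀ hp0]
      linarith
    nlinarith
  · rw [kd_zero hd s h]
    have := kd_nonneg (by positivity : 0 < 2 * d) s
    positivity

end KOL

end
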