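import Pool.Agent.KOL.Defs
import Pool.Agent.KOL.Kink

/-! # Separable functions on `ℂ³` and their complex Hessian -/

set_option autoImplicit false

noncomputable section

namespace KOL

open MeasureTheory Set Filter Matrix
open scoped ContDiff Topology ComplexOrder

/-- the operator `∂² / ∂w ∂w̄` on real functions of one complex variable -/
def lap (g : ℂ → ℝ) (w : ℂ) : ℝ :=
  (1 / 4) * (fderiv ℝ (fderiv ℝ g) w 1 1 + fderiv ℝ (fderiv ℝ g) w Complex.I Complex.I)

/-- separable functions -/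
def sep (H : Fin 3 → ℂ → ℝ) (z : C3) : ℝ := ∑ j, H j (z j)

/-- products of sets -/
def Prod3 (O : Fin 3 → Set ℂ) : Set C3 := {z | ∀ j, z j ∈ O j}

theorem sep_smooth {H : Fin 3 → ℂ → ℝ} (hH : ∀ j, ContDiff ℝ ∞ (H j)) : ContDiff ℝ ∞ (sep H) :=
  ContDiff.sum fun j _ => (hH j).comp (contDiff_apply ℝ ℂ j)

/-- the coordinate projection -/
def prj (j : Fin 3) : C3 →L[ℝ] ℂ := ContinuousLinearMap.proj j

theorem prj_apply (j : Fin 3) (z : C3) : prj j z = z j := rfl

theorem fderiv_sep {H : Fin 3 → ℂ → ℝ} (hH : ∀ j, ContDiff ℝ ∞ (H j)) (z : C3) :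
    fderiv ℝ (sep H) z = ∑ j, (fderiv ℝ (H j) (z j)).comp (prj j) := by
  have h1 : HasFDerivAt (sep H) (∑ j, (fderiv ℝ (H j) (z j)).comp (prj j)) z := by
    have h2 : sep H = fun z => ∑ j ∈ Finset.univ, H j (prj j z) := rfl
    rw [h2]
    refine HasFDerivAt.fun_sum fun j _ => ?_
    exact ((hH j).differentiable (by simp) (z j)).hasFDerivAt.comp z (prj j).hasFDerivAt
  exact h1.fderiv

theorem D2_sep {H : Fin 3 → ℂ → ℝ} (hH : ∀ j, ContDiff ℝ ∞ (H j)) (z a b : C3) :
    D2 (sep H) z a b = ∑ j, fderiv ℝ (fderiv ℝ (H j)) (z j) (a j) (b j) := by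
  have h0 : fderiv ℝ (sep H) = fun z => ∑ j ∈ Finset.univ,
      ((ContinuousLinearMap.compL ℝ C3 ℂ ℝ).flip (prj j)) (fderiv ℝ (H j) (prj j z)) := by
    funext z
    rw [fderiv_sep hH]
    rfl
  have h1 : HasFDerivAt (fderiv ℝ (sep H)) (∑ j ∈ Finset.univ,
      ((ContinuousLinearMap.compL ℝ C3 ℂ ℝ).flip (prj j)).comp
        ((fderiv ℝ (fderiv ℝ (H j)) (z j)).comp (prj j))) z := by
    rw [h0]
    refine HasFDerivAt.fun_sum fun j _ => ?_
    have h2 : Differentiable ℝ (fderiv ℝ (H j)) :=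
      ((hH j).fderiv_right (m := ∞) (by simp)).differentiable (by simp)
    have h3 : HasFDerivAt (fun z : C3 => fderiv ℝ (H j) (prj j z))
        ((fderiv ℝ (fderiv ℝ (H j)) (z j)).comp (prj j)) z :=
      (h2 (z j)).hasFDerivAt.comp z (prj j).hasFDerivAt
    exact ((ContinuousLinearMap.compL ℝ C3 ℂ ℝ).flip (prj j)).hasFDerivAt.comp z h3
  unfold D2
  rw [h1.fderiv]
  simp only [_root_.sum_apply]
  refine Finset.sum_congr rfl fun j _ => ?_
  rfl

theorem Hess_sep {H : Fin 3 → ℂ → ℝ} (hH : ∀ j, ContDiff ℝ ∞ (H j)) (z : C3) :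
    Hess (sep H) z = Matrix.diagonal fun j => ((lap (H j) (z j) : ℝ) : ℂ) := by
  ext j k
  unfold Hess
  rw [D2_sep hH, D2_sep hH, D2_sep hH, D2_sep hH]
  by_cases hjk : j = k
  · subst hjk
    rw [Matrix.diagonal_apply_eq]
    have e1 : ∀ v w : ℂ, (∑ i, fderiv ℝ (fderiv ℝ (H i)) (z i) ((v • ev j : C3) i)
        ((w • ev j : C3) i)) = fderiv ℝ (fderiv ℝ (H j)) (z j) v w := by
      intro v w
      rw [Finset.sum_eq_single j]
      · simp [ev]
      · intro i _ hi
        simp [ev, Pi.single_eq_of_ne hi]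
      · simp
    have e2 := e1 1 1
    have e3 := e1 Complex.I Complex.I
    have e4 := e1 1 Complex.I
    have e5 := e1 Complex.I 1
    simp only [one_smul] at e2 e4 e5
    rw [e2, e3, e4, e5]
    have hs : fderiv ℝ (fderiv ℝ (H j)) (z j) 1 Complex.I =
        fderiv ℝ (fderiv ℝ (H j)) (z j) Complex.I 1 := by
      have := ((hH j).contDiffAt (x := z j)).isSymmSndFDerivAt (by
        rw [minSmoothness_of_isRCLikeNormedField]
        exact WithTop.coe_le_coe.2 le_top)
      exact this 1 Complex.I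
    rw [hs, sub_self]
    unfold lap
    push_cast
    ring
  · rw [Matrix.diagonal_apply_ne _ hjk]
    have e1 : ∀ v w : ℂ, (∑ i, fderiv ℝ (fderiv ℝ (H i)) (z i) ((v • ev j : C3) i)
        ((w • ev k : C3) i)) = 0 := by
      intro v w
      refine Finset.sum_eq_zero fun i _ => ?_
      by_cases hi : i = j
      · have hi' : i ≠ k := fun h => hjk (hi ▸ h)
        have : (w • ev k : C3) i = 0 := by simp [ev, Pi.single_eq_of_ne hi']
        rw [this]
        simp
      · have : (v • ev j : C3) i = 0 := by simp [ev, Pi.single_eq_of_ne hi]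
        rw [this]
        simp
    have e2 := e1 1 1
    have e3 := e1 Complex.I Complex.I
    have e4 := e1 1 Complex.I
    have e5 := e1 Complex.I 1
    simp only [one_smul] at e2 e4 e5
    rw [e2, e3, e4, e5]
    simp

/-! ## `lap` of functions of one real variable -/

theorem lap_congr {f g : ℂ → ℝ} {w : ℂ} (h : f =ᶠ[𝓝 w] g) : lap f w = lap g w := by
  unfold lap
  rw [(h.fderiv).fderiv_eq]

theorem lap_const (c : ℝ) (w : ℂ) : lap (fun _ => c) w = 0 := by
  unfold lap
  have : fderiv ℝ (fun _ : ℂ => c) = 0 := by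
    funext z
    simp
  rw [this]
  simp

theorem lap_add {f g : ℂ → ℝ} (hf : ContDiff ℝ ∞ f) (hg : ContDiff ℝ ∞ g) (w : ℂ) :
    lap (fun z => f z + g z) w = lap f w + lap g w := by
  have h1 : fderiv ℝ (fun z => f z + g z) = fun z => fderiv ℝ f z + fderiv ℝ g z := by
    funext z
    exact fderiv_fun_add (hf.differentiable (by simp) z) (hg.differentiable (by simp) z)
  have hf2 : Differentiable ℝ (fderiv ℝ f) :=
    (hf.fderiv_right (m := ∞) (by simp)).differentiable (by simp)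
  have hg2 : Differentiable ℝ (fderiv ℝ g) :=
    (hg.fderiv_right (m := ∞) (by simp)).differentiable (by simp)
  unfold lap
  rw [h1, fderiv_fun_add (hf2 w) (hg2 w)]
  simp only [_root_.add_apply]
  ring

theorem lap_const_mul {f : ℂ → ℝ} (hf : ContDiff ℝ ∞ f) (c : ℝ) (w : ℂ) :
    lap (fun z => c * f z) w = c * lap f w := by
  have h1 : fderiv ℝ (fun z => c * f z) = fun z => c • fderiv ℝ f z := by
    funext z
    exact fderiv_const_mul (hf.differentiable (by simp) z) c
  have hf2 : Differentiable ℝ (fderiv ℝ f) :=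
    (hf.fderiv_right (m := ∞) (by simp)).differentiable (by simp)
  unfold lap
  rw [h1, fderiv_fun_const_smul (hf2 w)]
  simp only [_root_.smul_apply, smul_eq_mul]
  ring

theorem two_le_infty : (2 : WithTop ℕ∞) ≤ ∞ := WithTop.coe_le_coe.2 le_top

/-- second derivative of a composition with a real function, in one direction -/
theorem D2_comp {f : ℝ → ℝ} {g : ℂ → ℝ} {w : ℂ} (hf : ContDiffAt ℝ 2 f (g w))
    (hg : ContDiffAt ℝ 2 g w) (v : ℂ) :
    fderiv ℝ (fderiv ℝ (fun z => f (g z))) w v v =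
      deriv (deriv f) (g w) * (fderiv ℝ g w v) ^ 2 + deriv f (g w) * fderiv ℝ (fderiv ℝ g) w v v := by
  have hg' : ∀ᶠ z in 𝓝 w, ContDiffAt ℝ 2 g z := hg.eventually (by simp)
  have hf' : ∀ᶠ z in 𝓝 w, ContDiffAt ℝ 2 f (g z) :=
    hg.continuousAt.eventually (hf.eventually (by simp))
  have h1 : fderiv ℝ (fun z => f (g z)) =ᶠ[𝓝 w] fun z => deriv f (g z) • fderiv ℝ g z := by
    filter_upwards [hg', hf'] with z hz hz'
    have h2 := ((hz'.differentiableAt (by simp)).hasDerivAt.comp_hasFDerivAt z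
      (hz.differentiableAt (by simp)).hasFDerivAt)
    exact h2.fderiv
  have hf1 : DifferentiableAt ℝ (deriv f) (g w) := by
    have h := (hf.fderiv_right (m := 1) (by norm_num)).differentiableAt (by simp)
    exact (h.clm_apply (differentiableAt_const (1 : ℝ)))
  have h3 : HasFDerivAt (fun z => deriv f (g z)) (deriv (deriv f) (g w) • fderiv ℝ g w) w :=
    hf1.hasDerivAt.comp_hasFDerivAt w (hg.differentiableAt (by simp)).hasFDerivAt
  have h4 : HasFDerivAt (fderiv ℝ g) (fderiv ℝ (fderiv ℝ g) w) w :=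
    ((hg.fderiv_right (m := 1) (by norm_num)).differentiableAt (by simp)).hasFDerivAt
  have h5 : HasFDerivAt (fun z => deriv f (g z) • fderiv ℝ g z) _ w := h3.smul h4
  rw [h1.fderiv_eq, h5.fderiv]
  simp only [_root_.add_apply, _root_.smul_apply, smul_eq_mul, ContinuousLinearMap.smulRight_apply]
  ring

theorem lap_comp {f : ℝ → ℝ} {g : ℂ → ℝ} {w : ℂ} (hf : ContDiffAt ℝ 2 f (g w))
    (hg : ContDiffAt ℝ 2 g w) :
    lap (fun z => f (g z)) w = (1 / 4) * (deriv (deriv f) (g w) *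
      ((fderiv ℝ g w 1) ^ 2 + (fderiv ℝ g w Complex.I) ^ 2)) + deriv f (g w) * lap g w := by
  unfold lap
  rw [D2_comp hf hg, D2_comp hf hg]
  ring

/-- the real part as a continuous real linear map -/
theorem fderiv_re (w : ℂ) : fderiv ℝ (fun z : ℂ => z.re) w = Complex.reCLM :=
  Complex.reCLM.hasFDerivAt.fderiv

theorem fderiv_im (w : ℂ) : fderiv ℝ (fun z : ℂ => z.im) w = Complex.imCLM :=
  Complex.imCLM.hasFDerivAt.fderiv

theorem re_smooth : ContDiff ℝ ∞ (fun z : ℂ => z.re) := Complex.reCLM.contDiff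

theorem im_smooth : ContDiff ℝ ∞ (fun z : ℂ => z.im) := Complex.imCLM.contDiff

theorem lap_re (w : ℂ) : lap (fun z => z.re) w = 0 := by
  unfold lap
  have : fderiv ℝ (fun z : ℂ => z.re) = fun _ => Complex.reCLM := funext fderiv_re
  rw [this]
  simp

theorem lap_im (w : ℂ) : lap (fun z => z.im) w = 0 := by
  unfold lap
  have : fderiv ℝ (fun z : ℂ => z.im) = fun _ => Complex.imCLM := funext fderiv_im
  rw [this]
  simp

theorem lap_of_re {f : ℝ → ℝ} (hf : ContDiff ℝ ∞ f) (w : ℂ) :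
    lap (fun z => f z.re) w = (1 / 4) * deriv (deriv f) w.re := by
  have h := lap_comp (g := fun z => z.re) (w := w) (hf.contDiffAt.of_le two_le_infty)
    (re_smooth.contDiffAt.of_le two_le_infty)
  rw [lap_re, fderiv_re] at h
  rw [h]
  simp

theorem lap_of_im {f : ℝ → ℝ} (hf : ContDiff ℝ ∞ f) (w : ℂ) :
    lap (fun z => f z.im) w = (1 / 4) * deriv (deriv f) w.im := by
  have h := lap_comp (g := fun z => z.im) (w := w) (hf.contDiffAt.of_le two_le_infty)
    (im_smooth.contDiffAt.of_le two_le_infty)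
  rw [lap_im, fderiv_im] at h
  rw [h]
  simp

/-! ## Functions of `log ‖w‖` -/

/-- the function `g (log ‖w‖)`, extended by zero at the origin -/
def logf (g : ℝ → ℝ) (w : ℂ) : ℝ := if w = 0 then 0 else g (Real.log ‖w‖)

theorem logf_of_ne (g : ℝ → ℝ) {w : ℂ} (h : w ≠ 0) : logf g w = g (Real.log ‖w‖) := if_neg h

theorem logf_zero (g : ℝ → ℝ) : logf g 0 = 0 := if_pos rfl

/-- near the origin `logf g` vanishes if `g` vanishes near `-∞` -/
theorem logf_small {g : ℝ → ℝ} {a : ℝ} (ha : ∀ s ≤ a, g s = 0) {w : ℂ} (h : ‖w‖ ≤ Real.exp a) :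
    logf g w = 0 := by
  by_cases h0 : w = 0
  · rw [h0, logf_zero]
  · rw [logf_of_ne g h0]
    refine ha _ ?_
    rw [Real.log_le_iff_le_exp (norm_pos_iff.2 h0)]
    exact h

theorem log_norm_eq {w : ℂ} : Real.log ‖w‖ = (1 / 2) * Real.log (w.re * w.re + w.im * w.im) := by
  have h1 : ‖w‖ = Real.sqrt (w.re * w.re + w.im * w.im) := by
    rw [Complex.norm_def, Complex.normSq_apply]
  rw [h1, Real.log_sqrt (by nlinarith [mul_self_nonneg w.re, mul_self_nonneg w.im])]
  ring

theorem nsq_smooth : ContDiff ℝ ∞ (fun w : ℂ => w.re * w.re + w.im * w.im) :=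
  (re_smooth.mul re_smooth).add (im_smooth.mul im_smooth)

theorem nsq_pos {w : ℂ} (h : w ≠ 0) : 0 < w.re * w.re + w.im * w.im := by
  have := Complex.normSq_pos.2 h
  rwa [Complex.normSq_apply] at this

theorem log_norm_smooth {w : ℂ} (h : w ≠ 0) : ContDiffAt ℝ ∞ (fun z : ℂ => Real.log ‖z‖) w := by
  have h1 : (fun z : ℂ => Real.log ‖z‖) =
      fun z : ℂ => (1 / 2) * Real.log (z.re * z.re + z.im * z.im) := funext fun z => log_norm_eq
  rw [h1]
  exact contDiffAt_const.mul (nsq_smooth.contDiffAt.log (nsq_pos h).ne')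

theorem logf_smooth {g : ℝ → ℝ} (hg : ContDiff ℝ ∞ g) {a : ℝ} (ha : ∀ s ≤ a, g s = 0) :
    ContDiff ℝ ∞ (logf g) := by
  rw [contDiff_iff_contDiffAt]
  intro w
  by_cases h : w = 0
  · have h1 : logf g =ᶠ[𝓝 w] fun _ => 0 := by
      rw [h]
      filter_upwards [Metric.ball_mem_nhds (0 : ℂ) (Real.exp_pos a)] with z hz
      refine logf_small ha ?_
      rw [Metric.mem_ball, dist_zero_right] at hz
      exact hz.le
    exact contDiffAt_const.congr_of_eventuallyEq h1
  · have h1 : logf g =ᶠ[𝓝 w] fun z => g (Real.log ‖z‖) := by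
      filter_upwards [isOpen_ne.mem_nhds h] with z hz
      exact logf_of_ne g hz
    exact ((hg.contDiffAt).comp w (log_norm_smooth h)).congr_of_eventuallyEq h1

/-- the derivative of `|w|²` -/
theorem nsq_fderiv (w : ℂ) : fderiv ℝ (fun w : ℂ => w.re * w.re + w.im * w.im) w =
    (2 * w.re) • Complex.reCLM + (2 * w.im) • Complex.imCLM := by
  have h1 : HasFDerivAt (fun w : ℂ => w.re * w.re + w.im * w.im)
      ((w.re • Complex.reCLM + w.re • Complex.reCLM) +
        (w.im • Complex.imCLM + w.im • Complex.imCLM)) w :=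
    (Complex.reCLM.hasFDerivAt.mul Complex.reCLM.hasFDerivAt).add
      (Complex.imCLM.hasFDerivAt.mul Complex.imCLM.hasFDerivAt)
  rw [h1.fderiv, two_mul, two_mul, add_smul, add_smul]

theorem nsq_D2 (w v : ℂ) : fderiv ℝ (fderiv ℝ (fun w : ℂ => w.re * w.re + w.im * w.im)) w v v =
    2 * v.re ^ 2 + 2 * v.im ^ 2 := by
  have h0 : fderiv ℝ (fun w : ℂ => w.re * w.re + w.im * w.im) = fun w =>
      (2 * w.re) • Complex.reCLM + (2 * w.im) • Complex.imCLM := funext nsq_fderiv
  have h1 : HasFDerivAt (fun w : ℂ => (2 * w.re) • Complex.reCLM + (2 * w.im) • Complex.imCLM)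
      (((2 : ℝ) • Complex.reCLM).smulRight Complex.reCLM +
        ((2 : ℝ) • Complex.imCLM).smulRight Complex.imCLM) w := by
    refine HasFDerivAt.add ?_ ?_
    · exact (Complex.reCLM.hasFDerivAt.const_mul 2).smul_const Complex.reCLM
    · exact (Complex.imCLM.hasFDerivAt.const_mul 2).smul_const Complex.imCLM
  rw [h0, h1.fderiv]
  simp only [_root_.add_apply, _root_.smul_apply, smul_eq_mul, ContinuousLinearMap.smulRight_apply,
    Complex.reCLM_apply, Complex.imCLM_apply]
  ring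

theorem log_norm_fderiv {w : ℂ} (h : w ≠ 0) (v : ℂ) : fderiv ℝ (fun z : ℂ => Real.log ‖z‖) w v =
    (w.re * v.re + w.im * v.im) / (w.re * w.re + w.im * w.im) := by
  have h1 : (fun z : ℂ => Real.log ‖z‖) =
      fun z : ℂ => (1 / 2) * Real.log (z.re * z.re + z.im * z.im) := funext fun z => log_norm_eq
  have hp := nsq_pos h
  have h2 : HasFDerivAt (fun z : ℂ => (1 / 2) * Real.log (z.re * z.re + z.im * z.im))
      ((1 / 2 : ℝ) • ((w.re * w.re + w.im * w.im)⁻¹ •
        fderiv ℝ (fun w : ℂ => w.re * w.re + w.im * w.im) w)) w :=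
    ((nsq_smooth.differentiable (by simp) w).hasFDerivAt.log hp.ne').const_mul (1 / 2)
  rw [h1, h2.fderiv, nsq_fderiv]
  simp only [_root_.add_apply, _root_.smul_apply, smul_eq_mul, Complex.reCLM_apply,
    Complex.imCLM_apply]
  field_simp

theorem lap_log_norm {w : ℂ} (h : w ≠ 0) : lap (fun z : ℂ => Real.log ‖z‖) w = 0 := by
  have h1 : (fun z : ℂ => Real.log ‖z‖) =
      fun z : ℂ => (fun t => (1 / 2) * Real.log t) (z.re * z.re + z.im * z.im) :=
    funext fun z => log_norm_eq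
  have hp := nsq_pos h
  have hf : ContDiffAt ℝ 2 (fun t : ℝ => (1 / 2) * Real.log t) (w.re * w.re + w.im * w.im) :=
    contDiffAt_const.mul (contDiffAt_id.log hp.ne')
  rw [h1, lap_comp (g := fun w : ℂ => w.re * w.re + w.im * w.im) hf
    (nsq_smooth.contDiffAt.of_le two_le_infty)]
  have hd : ∀ t : ℝ, deriv (fun t : ℝ => (1 / 2) * Real.log t) t = (1 / 2) * t⁻¹ := by
    intro t
    rw [deriv_const_mul_field, Real.deriv_log]
  have hd1 : deriv (fun t : ℝ => (1 / 2) * Real.log t) = fun t => (1 / 2) * t⁻¹ := funext hd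
  have hd2 : deriv (deriv (fun t : ℝ => (1 / 2) * Real.log t)) (w.re * w.re + w.im * w.im) =
      -(1 / 2) * ((w.re * w.re + w.im * w.im) ^ 2)⁻¹ := by
    rw [hd1, deriv_const_mul_field, deriv_inv]
    ring
  rw [hd2, hd1, nsq_fderiv]
  unfold lap
  rw [nsq_D2, nsq_D2]
  simp only [_root_.add_apply, _root_.smul_apply, smul_eq_mul, Complex.reCLM_apply,
    Complex.imCLM_apply, Complex.one_re, Complex.one_im, Complex.I_re, Complex.I_im]
  field_simp
  ring

theorem lap_logf {g : ℝ → ℝ} (hg : ContDiff ℝ ∞ g) {w : ℂ} (h : w ≠ 0) :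
    lap (logf g) w = deriv (deriv g) (Real.log ‖w‖) / (4 * ‖w‖ ^ 2) := by
  have h1 : logf g =ᶠ[𝓝 w] fun z => g (Real.log ‖z‖) := by
    filter_upwards [isOpen_ne.mem_nhds h] with z hz
    exact logf_of_ne g hz
  rw [lap_congr h1, lap_comp (g := fun z : ℂ => Real.log ‖z‖) (hg.contDiffAt.of_le two_le_infty)
    ((log_norm_smooth h).of_le two_le_infty), lap_log_norm h, log_norm_fderiv h,
    log_norm_fderiv h]
  have hp := nsq_pos h
  have h2 : ‖w‖ ^ 2 = w.re * w.re + w.im * w.im := by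
    rw [← Complex.normSq_eq_norm_sq, Complex.normSq_apply]
  rw [h2]
  simp only [Complex.one_re, Complex.one_im, Complex.I_re, Complex.I_im, mul_one, mul_zero,
    add_zero, zero_add]
  have h3 : (w.re / (w.re * w.re + w.im * w.im)) ^ 2 + (w.im / (w.re * w.re + w.im * w.im)) ^ 2 =
      1 / (w.re * w.re + w.im * w.im) := by
    rw [div_pow, div_pow, ← add_div, pow_two, pow_two, pow_two]
    rw [div_mul_eq_div_div, div_self hp.ne']
  rw [h3]
  generalize w.re * w.re + w.im * w.im = N at hp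
  rw [div_mul_eq_div_div]
  ring

theorem lap_logf_small {g : ℝ → ℝ} {a : ℝ} (ha : ∀ s ≤ a, g s = 0) {w : ℂ}
    (h : ‖w‖ < Real.exp a) : lap (logf g) w = 0 := by
  have h1 : logf g =ᶠ[𝓝 w] fun _ => 0 := by
    have : w ∈ Metric.ball (0 : ℂ) (Real.exp a) := by
      rw [Metric.mem_ball, dist_zero_right]
      exact h
    filter_upwards [Metric.isOpen_ball.mem_nhds this] with z hz
    rw [Metric.mem_ball, dist_zero_right] at hz
    exact logf_small ha hz.le
  rw [lap_congr h1, lap_const]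

theorem lap_logf_nonneg {g : ℝ → ℝ} (hg : ContDiff ℝ ∞ g) {a : ℝ} (ha : ∀ s ≤ a, g s = 0)
    (hc : ∀ s, 0 ≤ deriv (deriv g) s) (w : ℂ) : 0 ≤ lap (logf g) w := by
  by_cases h : w = 0
  · rw [h, lap_logf_small ha (by rw [norm_zero]; exact Real.exp_pos _)]
  · rw [lap_logf hg h]
    have := hc (Real.log ‖w‖)
    positivity

end KOL

end
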