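import Pool.Agent.KOL.Line
import Pool.Agent.KOL.Sep
import Pool.Agent.KOL.Mol

/-! # Project KOL, row BAR: the barrier argument at one node -/

set_option autoImplicit false

noncomputable section

namespace KOL

open MeasureTheory Set Filter Matrix
open scoped ContDiff Topology ComplexOrder

/-- comparison with a smooth separable function -/
def CMP_stmt : Prop := ∀ u : C3 → ℝ, Psh univ u → Mol.LocBdd u → ∀ ν : Measure C3, IsMA univ u ν →
  ∀ H : Fin 3 → ℂ → ℝ, (∀ j, ContDiff ℝ ∞ (H j)) →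
  ∀ O : Fin 3 → Set ℂ, (∀ j, IsOpen (O j)) → (∀ j, Bornology.IsBounded (O j)) →
  (∀ j, ∀ w ∈ O j, 0 ≤ lap (H j) w) →
  ∀ K : Set C3, IsCompact K → K ⊆ Prod3 O → ∀ d : ℝ, 0 < d →
  (∀ z ∈ Prod3 O, z ∉ K → u z ≤ sep H z - d) →
  ∃ G : ℝ → ℝ, Continuous G ∧ (∀ t ≤ 0, G t = 0) ∧ (∀ t > 0, 0 < G t) ∧
    (∫ z in Prod3 O, G (u z - sep H z) ∂ν) ≤
      ∫ z in Prod3 O, G (u z - sep H z) * ∏ j, lap (H j) (z j)

/-! ### the one-dimensional functions -/

theorem PP_zero_le : PP 0 ≤ 1 / 2 := by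
  unfold PP
  have h1 : ∫ t in (-1 : ℝ)..0, QQ t ≤ ∫ _t in (-1 : ℝ)..0, (1 / 2 : ℝ) := by
    refine intervalIntegral.integral_mono_on (by norm_num) (QQ_cont.intervalIntegrable _ _)
      intervalIntegrable_const fun t ht => ?_
    have h2 : QQ t ≤ QQ 0 := QQ_mono ht.2
    have h3 := QQ_add_neg 0
    rw [neg_zero] at h3
    linarith
  refine h1.trans ?_
  rw [intervalIntegral.integral_const]
  norm_num

theorem Pd_zero_le {d : ℝ} (hd : 0 < d) : Pd d 0 ≤ d / 2 := by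
  unfold Pd
  rw [zero_div]
  have := PP_zero_le
  nlinarith

theorem Ad_zero_le {d : ℝ} (hd : 0 < d) : Ad d 0 ≤ d := by
  unfold Ad
  rw [neg_zero]
  have := Pd_zero_le hd
  linarith

/-- first coordinate, real part -/
def f0 (X W ε c κ Δ x : ℝ) : ℝ :=
  -x ^ 2 - ε * ((x - X) ^ 2 - W ^ 2) + c + κ * (x - X) + Δ * Ad (1 / 16) ((x - X) / W)

/-- first coordinate, imaginary part -/
def g0 (ε Y y : ℝ) : ℝ := y ^ 2 + ε * (y - Y) ^ 2

/-- the other coordinates -/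
def g1 (q Δ t : ℝ) : ℝ := 2 * Δ * Pd (1 / 16) ((t + q) / q)

theorem f0_smooth (X W ε c κ Δ : ℝ) : ContDiff ℝ ∞ (f0 X W ε c κ Δ) := by
  unfold f0
  have h1 : ContDiff ℝ ∞ fun x : ℝ => Ad (1 / 16) ((x - X) / W) :=
    (Ad_smooth _).comp ((contDiff_id.sub contDiff_const).div_const W)
  fun_prop

theorem g0_smooth (ε Y : ℝ) : ContDiff ℝ ∞ (g0 ε Y) := by
  unfold g0
  fun_prop

theorem g1_smooth (q Δ : ℝ) : ContDiff ℝ ∞ (g1 q Δ) := by
  unfold g1
  have h1 : ContDiff ℝ ∞ fun x : ℝ => Pd (1 / 16) ((x + q) / q) :=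
    (Pd_smooth _).comp ((contDiff_id.add contDiff_const).div_const q)
  fun_prop

theorem f0_deriv2 {W : ℝ} (hW : W ≠ 0) (X ε c κ Δ x : ℝ) :
    deriv (deriv (f0 X W ε c κ Δ)) x =
      -2 - ε * 2 + Δ * (2 * kd (1 / 16) ((x - X) / W) / W ^ 2) := by
  have h1 : ∀ x, HasDerivAt (f0 X W ε c κ Δ)
      (-(2 * x) - ε * (2 * (x - X)) + κ + Δ * ((2 * Qd (1 / 16) ((x - X) / W) - 1) * (1 / W))) x := by
    intro x
    have e1 : HasDerivAt (fun x : ℝ => (x - X) / W) (1 / W) x :=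
      ((hasDerivAt_id x).sub_const X).div_const W
    have e2 : HasDerivAt (fun x : ℝ => Ad (1 / 16) ((x - X) / W))
        ((2 * Qd (1 / 16) ((x - X) / W) - 1) * (1 / W)) x :=
      (Ad_hasDeriv (by norm_num) _).comp x e1
    have e3 : HasDerivAt (fun x : ℝ => x ^ 2) (2 * x) x := by
      simpa using hasDerivAt_pow 2 x
    have e4 : HasDerivAt (fun x : ℝ => (x - X) ^ 2) (2 * (x - X)) x := by
      have := ((hasDerivAt_id x).sub_const X).fun_pow 2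
      simpa using this
    have e5 := (((e3.neg.sub ((e4.sub_const (W ^ 2)).const_mul ε)).add_const c).add
      (((hasDerivAt_id x).sub_const X).const_mul κ)).add (e2.const_mul Δ)
    refine e5.congr_deriv ?_
    ring
  have h2 : deriv (f0 X W ε c κ Δ) = fun x =>
      -(2 * x) - ε * (2 * (x - X)) + κ + Δ * ((2 * Qd (1 / 16) ((x - X) / W) - 1) * (1 / W)) :=
    funext fun x => (h1 x).deriv
  rw [h2]
  have e1 : HasDerivAt (fun x : ℝ => (x - X) / W) (1 / W) x :=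
    ((hasDerivAt_id x).sub_const X).div_const W
  have e2 : HasDerivAt (fun x : ℝ => Qd (1 / 16) ((x - X) / W))
      (kd (1 / 16) ((x - X) / W) * (1 / W)) x :=
    (Qd_hasDeriv _ _).comp x e1
  have e3 := (((((hasDerivAt_id x).const_mul 2).neg.sub
    ((((hasDerivAt_id x).sub_const X).const_mul 2).const_mul ε)).add_const κ).add
      ((((e2.const_mul 2).sub_const 1).mul_const (1 / W)).const_mul Δ))
  have e4 := e3.deriv
  have e5 : deriv (fun x : ℝ => -(2 * x) - ε * (2 * (x - X)) + κ +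
      Δ * ((2 * Qd (1 / 16) ((x - X) / W) - 1) * (1 / W))) x =
      -(2 * 1) - ε * (2 * 1) + Δ * (2 * (kd (1 / 16) ((x - X) / W) * (1 / W)) * (1 / W)) := e4
  rw [e5]
  field_simp

theorem g0_deriv2 (ε Y y : ℝ) : deriv (deriv (g0 ε Y)) y = 2 + ε * 2 := by
  have h1 : ∀ y, HasDerivAt (g0 ε Y) (2 * y + ε * (2 * (y - Y))) y := by
    intro x
    have e3 : HasDerivAt (fun x : ℝ => x ^ 2) (2 * x) x := by
      simpa using hasDerivAt_pow 2 x
    have e4 : HasDerivAt (fun x : ℝ => (x - Y) ^ 2) (2 * (x - Y)) x := by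
      have := ((hasDerivAt_id x).sub_const Y).fun_pow 2
      simpa using this
    exact e3.add (e4.const_mul ε)
  have h2 : deriv (g0 ε Y) = fun y => 2 * y + ε * (2 * (y - Y)) := funext fun y => (h1 y).deriv
  rw [h2]
  have e3 := ((hasDerivAt_id y).const_mul 2).add
    ((((hasDerivAt_id y).sub_const Y).const_mul 2).const_mul ε)
  have e4 : deriv (fun y : ℝ => 2 * y + ε * (2 * (y - Y))) y = 2 * 1 + ε * (2 * 1) := e3.deriv
  rw [e4]
  ring

theorem g1_deriv2 {q : ℝ} (hq : q ≠ 0) (Δ t : ℝ) : deriv (deriv (g1 q Δ)) t =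
    2 * Δ * (kd (1 / 16) ((t + q) / q) / q ^ 2) := by
  have h1 : ∀ t, HasDerivAt (g1 q Δ) (2 * Δ * (Qd (1 / 16) ((t + q) / q) * (1 / q))) t := by
    intro t
    have e1 : HasDerivAt (fun x : ℝ => (x + q) / q) (1 / q) t :=
      ((hasDerivAt_id t).add_const q).div_const q
    exact ((Pd_hasDeriv (by norm_num) _).comp t e1).const_mul (2 * Δ)
  have h2 : deriv (g1 q Δ) = fun t => 2 * Δ * (Qd (1 / 16) ((t + q) / q) * (1 / q)) :=
    funext fun t => (h1 t).deriv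
  rw [h2]
  have e1 : HasDerivAt (fun x : ℝ => (x + q) / q) (1 / q) t :=
    ((hasDerivAt_id t).add_const q).div_const q
  have e2 : HasDerivAt (fun x : ℝ => Qd (1 / 16) ((x + q) / q))
      (kd (1 / 16) ((t + q) / q) * (1 / q)) t := (Qd_hasDeriv _ _).comp t e1
  have e3 := (((e2.mul_const (1 / q))).const_mul (2 * Δ)).deriv
  have e4 : deriv (fun t : ℝ => 2 * Δ * (Qd (1 / 16) ((t + q) / q) * (1 / q))) t =
    2 * Δ * (kd (1 / 16) ((t + q) / q) * (1 / q) * (1 / q)) := e3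
  rw [e4]
  field_simp

theorem g1_low {q Δ : ℝ} (hq : 0 < q) (t : ℝ) (ht : t ≤ -(17 / 16) * q) : g1 q Δ t = 0 := by
  unfold g1
  rw [Pd_low (by norm_num), mul_zero]
  rw [div_le_iff₀ hq]
  linarith

/-- the barrier -/
def bar (X W q1 q2 ε Y c κ Δ : ℝ) : Fin 3 → ℂ → ℝ :=
  ![fun w => f0 X W ε c κ Δ w.re + g0 ε Y w.im, logf (g1 q1 Δ), logf (g1 q2 Δ)]

theorem bar_smooth {X W q1 q2 ε Y c κ Δ : ℝ} (hq1 : 0 < q1) (hq2 : 0 < q2) (j : Fin 3) :
    ContDiff ℝ ∞ (bar X W q1 q2 ε Y c κ Δ j) := by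
  fin_cases j
  · exact ((f0_smooth X W ε c κ Δ).comp re_smooth).add ((g0_smooth ε Y).comp im_smooth)
  · exact logf_smooth (g1_smooth q1 Δ) (g1_low hq1)
  · exact logf_smooth (g1_smooth q2 Δ) (g1_low hq2)

theorem lap_bar0 {X W q1 q2 ε Y c κ Δ : ℝ} (hW : 0 < W) (w : ℂ) :
    lap (bar X W q1 q2 ε Y c κ Δ 0) w = Δ / 2 * bump0 X W w := by
  have h1 : bar X W q1 q2 ε Y c κ Δ 0 = fun w => f0 X W ε c κ Δ w.re + g0 ε Y w.im := rfl
  rw [h1, lap_add (f := fun w : ℂ => f0 X W ε c κ Δ w.re) (g := fun w : ℂ => g0 ε Y w.im)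
    ((f0_smooth X W ε c κ Δ).comp re_smooth) ((g0_smooth ε Y).comp im_smooth),
    lap_of_re (f0_smooth X W ε c κ Δ), lap_of_im (g0_smooth ε Y), f0_deriv2 hW.ne', g0_deriv2]
  unfold bump0
  ring

theorem lap_logf_g1 {q Δ : ℝ} (hq : 0 < q) (w : ℂ) :
    lap (logf (g1 q Δ)) w = Δ / 2 * bump1 q w := by
  unfold bump1 sg
  by_cases h : w = 0
  · rw [h, lap_logf_small (g1_low hq) (by rw [norm_zero]; exact Real.exp_pos _)]
    rw [norm_zero, Real.log_zero, zero_add, div_self hq.ne', kd_zero (by norm_num)]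
    · ring
    · rw [abs_one]
      norm_num
  · rw [lap_logf (g1_smooth q Δ) h, g1_deriv2 hq.ne']
    have hw : ‖w‖ ≠ 0 := norm_ne_zero_iff.2 h
    field_simp
    ring

theorem bump0_nonneg (X W : ℝ) (w : ℂ) : 0 ≤ bump0 X W w := by
  unfold bump0
  have := kd_nonneg (d := 1 / 16) (by norm_num) ((w.re - X) / W)
  positivity

theorem bump1_nonneg (q : ℝ) (w : ℂ) : 0 ≤ bump1 q w := by
  unfold bump1
  have := kd_nonneg (d := 1 / 16) (by norm_num) (sg q w)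
  positivity

theorem bump_nonneg (X W q1 q2 : ℝ) (z : C3) : 0 ≤ bump X W q1 q2 z :=
  mul_nonneg (mul_nonneg (bump0_nonneg _ _ _) (bump1_nonneg _ _)) (bump1_nonneg _ _)

theorem lap_bar_nonneg {X W q1 q2 ε Y c κ Δ : ℝ} (hW : 0 < W) (hq1 : 0 < q1) (hq2 : 0 < q2)
    (hΔ : 0 < Δ) (j : Fin 3) (w : ℂ) : 0 ≤ lap (bar X W q1 q2 ε Y c κ Δ j) w := by
  fin_cases j
  · have := bump0_nonneg X W w
    change 0 ≤ lap (bar X W q1 q2 ε Y c κ Δ 0) w
    rw [lap_bar0 hW]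
    positivity
  · have := bump1_nonneg q1 w
    change 0 ≤ lap (logf (g1 q1 Δ)) w
    rw [lap_logf_g1 hq1]
    positivity
  · have := bump1_nonneg q2 w
    change 0 ≤ lap (logf (g1 q2 Δ)) w
    rw [lap_logf_g1 hq2]
    positivity

theorem prod_lap_bar {X W q1 q2 ε Y c κ Δ : ℝ} (hW : 0 < W) (hq1 : 0 < q1) (hq2 : 0 < q2)
    (z : C3) : ∏ j, lap (bar X W q1 q2 ε Y c κ Δ j) (z j) = Δ ^ 3 / 8 * bump X W q1 q2 z := by
  rw [Fin.prod_univ_three, lap_bar0 hW]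
  have h1 : bar X W q1 q2 ε Y c κ Δ 1 = logf (g1 q1 Δ) := rfl
  have h2 : bar X W q1 q2 ε Y c κ Δ 2 = logf (g1 q2 Δ) := rfl
  rw [h1, h2, lap_logf_g1 hq1, lap_logf_g1 hq2]
  unfold bump
  ring

end KOL

end
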