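import Pool.Agent.KOL.Bar

set_option autoImplicit false
noncomputable section
namespace KOL
open MeasureTheory Set Filter Matrix
open scoped ContDiff Topology ComplexOrder

/-- a plurisubharmonic function which is at most `F` almost everywhere in an open set is at most `F` there -/
theorem le_of_ae_le {u F : C3 → ℝ} (hu : Psh univ u) (hb : Mol.LocBdd u) (hF : Continuous F)
    {B : Set C3} (hB : IsOpen B) (h : ∀ᵐ z, z ∈ B → u z ≤ F z) {z : C3} (hz : z ∈ B) :
    u z ≤ F z := by
  refine le_of_forall_pos_le_add fun η hη => ?_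
  have h1 : ∀ᶠ w in 𝓝 z, w ∈ B ∧ F w ≤ F z + η := by
    refine (hB.eventually_mem hz).and ?_
    exact (hF.continuousAt.eventually (Iic_mem_nhds (show F z < F z + η by linarith)))
  rw [Metric.eventually_nhds_iff] at h1
  obtain ⟨r, hr, h2⟩ := h1
  obtain ⟨n, hn⟩ := exists_nat_one_div_lt hr
  have hm := Mol.psh_meas hu
  refine (Mol.le_mol n hm hb (Mol.psh_submean hu) z).trans ?_
  have h4 : F z + η = ∫ w, (F z + η) * Mol.ker n w := by
    rw [integral_const_mul, Mol.ker_integral, mul_one]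
  rw [h4]
  unfold Mol.mol
  have h5 : ∀ᵐ w : C3, z + w ∈ B → u (z + w) ≤ F (z + w) :=
    (measurePreserving_add_left volume z).quasiMeasurePreserving.ae h
  refine integral_mono_ae (Mol.integrable_mol n hm hb z) ((Mol.ker_int n).const_mul _) ?_
  filter_upwards [h5] with w hw
  by_cases hk : Mol.ker n w = 0
  · rw [hk, mul_zero, mul_zero]
  · have h6 : dist (z + w) z < r := by
      rw [dist_eq_norm, add_sub_cancel_left]
      exact (Mol.ker_supp hk).trans_lt hn
    obtain ⟨h7, h8⟩ := h2 h6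
    exact mul_le_mul_of_nonneg_right ((hw h7).trans h8) (Mol.ker_nonneg n w)

theorem lap_cont {g : ℂ → ℝ} (hg : ContDiff ℝ ∞ g) : Continuous (lap g) := by
  have h1 : ContDiff ℝ ∞ (fderiv ℝ g) := hg.fderiv_right (by simp)
  have h2 : ContDiff ℝ ∞ (fderiv ℝ (fderiv ℝ g)) := h1.fderiv_right (by simp)
  have h3 := h2.continuous
  unfold lap
  fun_prop

theorem isOpen_Prod3 {O : Fin 3 → Set ℂ} (hO : ∀ j, IsOpen (O j)) : IsOpen (Prod3 O) := by
  have : Prod3 O = Set.pi univ O := by
    ext z
    simp [Prod3]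
  rw [this]
  exact isOpen_set_pi Set.finite_univ fun j _ => hO j

theorem isCompact_Prod3 {K : Fin 3 → Set ℂ} (hK : ∀ j, IsCompact (K j)) : IsCompact (Prod3 K) := by
  have : Prod3 K = Set.pi univ K := by
    ext z
    simp [Prod3]
  rw [this]
  exact isCompact_univ_pi hK

theorem bdd_Prod3 {O : Fin 3 → Set ℂ} (hO : ∀ j, Bornology.IsBounded (O j)) :
    Bornology.IsBounded (Prod3 O) := by
  have : Prod3 O = Set.pi univ O := by
    ext z
    simp [Prod3]
  rw [this]
  exact Bornology.IsBounded.pi hO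

theorem meas_sg (q : ℝ) : Measurable (sg q) := by
  unfold sg
  fun_prop

theorem meas_bump0 (X W : ℝ) : Measurable (bump0 X W) := by
  unfold bump0
  have h1 := (kd_smooth (1 / 16)).continuous.measurable
  have h2 : Measurable fun w : ℂ => (w.re - X) / W := by fun_prop
  exact (h1.comp h2).div_const _

theorem meas_bump1 (q : ℝ) : Measurable (bump1 q) := by
  unfold bump1
  have h1 := (kd_smooth (1 / 16)).continuous.measurable
  exact (h1.comp (meas_sg q)).div (by fun_prop)

theorem meas_bump (X W q1 q2 : ℝ) : Measurable (bump X W q1 q2) := by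
  unfold bump
  have h0 := (meas_bump0 X W).comp (measurable_pi_apply (0 : Fin 3) : Measurable fun z : C3 => z 0)
  have h1 := (meas_bump1 q1).comp (measurable_pi_apply (1 : Fin 3) : Measurable fun z : C3 => z 1)
  have h2 := (meas_bump1 q2).comp (measurable_pi_apply (2 : Fin 3) : Measurable fun z : C3 => z 2)
  exact (h0.mul h1).mul h2

theorem meas_box (X W q1 q2 : ℝ) : MeasurableSet (Prod3 (boxO X W q1 q2)) := by
  have h0 : Measurable fun z : C3 => |((z 0).re - X) / W| := by fun_prop
  have h1 : Measurable fun z : C3 => |sg q1 (z 1)| :=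
    (((meas_sg q1).comp (measurable_pi_apply (1 : Fin 3))).abs : _)
  have h2 : Measurable fun z : C3 => |sg q2 (z 2)| :=
    (((meas_sg q2).comp (measurable_pi_apply (2 : Fin 3))).abs : _)
  have h3 : Prod3 (boxO X W q1 q2) = {z : C3 | |((z 0).re - X) / W| < 1 / 16} ∩
      ({z : C3 | |sg q1 (z 1)| < 1 / 16} ∩ {z : C3 | |sg q2 (z 2)| < 1 / 16}) := by
    ext z
    simp only [Prod3, Fin.forall_fin_succ, boxO]
    simp
  rw [h3]
  exact (measurableSet_lt h0 measurable_const).inter
    ((measurableSet_lt h1 measurable_const).inter (measurableSet_lt h2 measurable_const))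

theorem bump_zero {X W q1 q2 : ℝ} {z : C3} (h : z ∉ Prod3 (boxO X W q1 q2)) :
    bump X W q1 q2 z = 0 := by
  have h1 : ¬ (|((z 0).re - X) / W| < 1 / 16 ∧ |sg q1 (z 1)| < 1 / 16 ∧ |sg q2 (z 2)| < 1 / 16) := by
    intro h2
    refine h ?_
    simp only [Prod3, Fin.forall_fin_succ, boxO]
    simpa using h2
  unfold bump
  by_cases h3 : |((z 0).re - X) / W| < 1 / 16
  · by_cases h4 : |sg q1 (z 1)| < 1 / 16
    · have h5 : 1 / 16 ≤ |sg q2 (z 2)| := by
        by_contra h5
        push Not at h5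
        exact h1 ⟨h3, h4, h5⟩
      have : bump1 q2 (z 2) = 0 := by
        unfold bump1
        rw [kd_zero (by norm_num) _ h5, zero_div]
      rw [this, mul_zero]
    · push Not at h4
      have : bump1 q1 (z 1) = 0 := by
        unfold bump1
        rw [kd_zero (by norm_num) _ h4, zero_div]
      rw [this, mul_zero, zero_mul]
  · push Not at h3
    have : bump0 X W (z 0) = 0 := by
      unfold bump0
      rw [kd_zero (by norm_num) _ h3, zero_div]
    rw [this, zero_mul, zero_mul]

theorem bump_pos {X W q1 q2 : ℝ} (hW : 0 < W) (hq1 : 0 < q1) (hq2 : 0 < q2) {z : C3}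
    (h0 : |((z 0).re - X) / W| < 1 / 16) (h1 : |sg q1 (z 1)| < 1 / 16)
    (h2 : |sg q2 (z 2)| < 1 / 16) : 0 < bump X W q1 q2 z := by
  have key : ∀ q : ℝ, 0 < q → ∀ w : ℂ, |sg q w| < 1 / 16 → 0 < bump1 q w := by
    intro q hq w hw
    have hw0 : w ≠ 0 := by
      intro hw0
      rw [hw0] at hw
      unfold sg at hw
      rw [norm_zero, Real.log_zero, zero_add, div_self hq.ne', abs_one] at hw
      norm_num at hw
    have h3 := kd_pos (d := 1 / 16) (by norm_num) _ hw
    have h4 : 0 < ‖w‖ := norm_pos_iff.2 hw0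
    unfold bump1
    positivity
  have h3 := kd_pos (d := 1 / 16) (by norm_num) _ h0
  have h4 : 0 < bump0 X W (z 0) := by
    unfold bump0
    positivity
  exact mul_pos (mul_pos h4 (key q1 hq1 _ h1)) (key q2 hq2 _ h2)

/-- lower bounds of `ν` on the box are lower bounds as measures -/
theorem withDensity_le {X W q1 q2 Δ : ℝ} {ν : Measure C3}
    (h : ∀ s : Set C3, MeasurableSet s → (∀ z ∈ s, ∀ j, z j ∈ boxO X W q1 q2 j) →
      ∫⁻ z in s, ENNReal.ofReal (Δ ^ 3 / 4 * bump X W q1 q2 z) ≤ ν s) :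
    (volume.withDensity fun z => ENNReal.ofReal (Δ ^ 3 / 4 * bump X W q1 q2 z)) ≤ ν := by
  rw [Measure.le_iff]
  intro s hs
  rw [withDensity_apply _ hs]
  have hB := meas_box X W q1 q2
  have h1 : ∫⁻ z in s, ENNReal.ofReal (Δ ^ 3 / 4 * bump X W q1 q2 z) =
      ∫⁻ z in s ∩ Prod3 (boxO X W q1 q2), ENNReal.ofReal (Δ ^ 3 / 4 * bump X W q1 q2 z) := by
    rw [← lintegral_inter_add_sdiff _ s hB]
    have h2 : ∫⁻ z in s \ Prod3 (boxO X W q1 q2),
        ENNReal.ofReal (Δ ^ 3 / 4 * bump X W q1 q2 z) = 0 := by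
      rw [setLIntegral_congr_fun (hs.diff hB) (g := fun _ => 0)]
      · simp
      · intro z hz
        change ENNReal.ofReal (Δ ^ 3 / 4 * bump X W q1 q2 z) = 0
        rw [bump_zero hz.2, mul_zero, ENNReal.ofReal_zero]
    rw [h2, add_zero]
  rw [h1]
  exact (h _ (hs.inter hB) fun z hz => hz.2).trans (measure_mono inter_subset_left)

end KOL
end
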