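import Pool.Agent.KOL.Bar2

set_option autoImplicit false
noncomputable section
namespace KOL
open MeasureTheory Set Filter Matrix
open scoped ContDiff Topology ComplexOrder

theorem norm_sub_bdd {f : C3 → ℝ} (hf : Mol.LocBdd f) {B : Set C3} (hB : Bornology.IsBounded B) :
    ∃ M, ∀ z ∈ B, |f z| ≤ M := by
  obtain ⟨R, hR⟩ := hB.exists_norm_le
  obtain ⟨M, hM⟩ := hf R
  exact ⟨M, fun z hz => hM z (hR z hz)⟩

theorem locBdd_of_cont {f : C3 → ℝ} (hf : Continuous f) : Mol.LocBdd f := by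
  intro R
  obtain ⟨M, hM⟩ := (isCompact_closedBall (0 : C3) R).exists_bound_of_continuousOn hf.continuousOn
  refine ⟨M, fun z hz => ?_⟩
  have := hM z (by rw [Metric.mem_closedBall, dist_zero_right]; exact hz)
  rwa [Real.norm_eq_abs] at this

/-- the consequence of the comparison: `u ≤ sep H` almost everywhere in the bump box -/
theorem ae_le_of_cmp (hcmp : CMP_stmt) {u : C3 → ℝ} (hu : Psh univ u) (hb : Mol.LocBdd u)
    {ν : Measure C3} (hν : IsMA univ u ν) {X W q1 q2 ε Y c κ Δ : ℝ} (hW : 0 < W) (hq1 : 0 < q1)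
    (hq2 : 0 < q2) (hΔ : 0 < Δ)
    (h : ∀ s : Set C3, MeasurableSet s → (∀ z ∈ s, ∀ j, z j ∈ boxO X W q1 q2 j) →
      ∫⁻ z in s, ENNReal.ofReal (Δ ^ 3 / 4 * bump X W q1 q2 z) ≤ ν s)
    {O : Fin 3 → Set ℂ} (hO : ∀ j, IsOpen (O j)) (hOb : ∀ j, Bornology.IsBounded (O j))
    {K : Set C3} (hK : IsCompact K) (hKO : K ⊆ Prod3 O) {d : ℝ} (hd : 0 < d)
    (hlt : ∀ z ∈ Prod3 O, z ∉ K → u z ≤ sep (bar X W q1 q2 ε Y c κ Δ) z - d) :
    ∀ᵐ z, z ∈ Prod3 O → z ∈ Prod3 (boxO X W q1 q2) →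
      u z ≤ sep (bar X W q1 q2 ε Y c κ Δ) z := by
  obtain ⟨G, hG, hG0, hG1, hint⟩ := hcmp u hu hb ν hν (bar X W q1 q2 ε Y c κ Δ)
    (bar_smooth hq1 hq2) O hO hOb (fun j w _ => lap_bar_nonneg hW hq1 hq2 hΔ j w) K hK hKO d hd hlt
  have hS : Continuous (sep (bar X W q1 q2 ε Y c κ Δ)) :=
    (sep_smooth (bar_smooth hq1 hq2)).continuous
  set H := bar X W q1 q2 ε Y c κ Δ with hH
  set g : C3 → ℝ := fun z => G (u z - sep H z) with hg
  have hgm : Measurable g := hG.measurable.comp ((Mol.psh_meas hu).sub hS.measurable)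
  have hg0 : ∀ z, 0 ≤ g z := by
    intro z
    rcases le_or_gt (u z - sep H z) 0 with h1 | h1
    · exact (hG0 _ h1).ge
    · exact (hG1 _ h1).le
  have hOo := isOpen_Prod3 hO
  have hOm := hOo.measurableSet
  have hObd := bdd_Prod3 hOb
  obtain ⟨M1, hM1⟩ := norm_sub_bdd hb hObd
  obtain ⟨M2, hM2⟩ := norm_sub_bdd (locBdd_of_cont hS) hObd
  obtain ⟨M3, hM3⟩ := (isCompact_Icc (a := -(M1 + M2)) (b := M1 + M2)).exists_bound_of_continuousOn
    hG.continuousOn
  have hgb : ∀ z ∈ Prod3 O, ‖g z‖ ≤ M3 := by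
    intro z hz
    refine hM3 _ ?_
    have h1 := abs_le.1 (hM1 z hz)
    have h2 := abs_le.1 (hM2 z hz)
    exact ⟨by linarith [h1.1, h2.2], by linarith [h1.2, h2.1]⟩
  have hcl : IsCompact (closure (Prod3 O)) := hObd.isCompact_closure
  have hνO : ν (Prod3 O) < ⊤ := by
    obtain ⟨T1, m1, T2, m2, hC⟩ := hν
    exact (measure_mono subset_closure).trans_lt (hC.fin _ hcl (subset_univ _))
  have hvO : volume (Prod3 O) < ⊤ :=
    (measure_mono subset_closure).trans_lt hcl.measure_lt_top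
  have hgi : IntegrableOn g (Prod3 O) ν := by
    refine Measure.integrableOn_of_bounded (M := M3) hνO.ne hgm.aestronglyMeasurable ?_
    exact (ae_restrict_iff' hOm).2 (Eventually.of_forall hgb)
  -- the density
  have hPc : Continuous fun z : C3 => ∏ j, lap (H j) (z j) := by
    refine continuous_finsetProd _ fun j _ => ?_
    exact (lap_cont (bar_smooth hq1 hq2 j)).comp (continuous_apply j)
  have hP : ∀ z : C3, ∏ j, lap (H j) (z j) = Δ ^ 3 / 8 * bump X W q1 q2 z := fun z =>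
    prod_lap_bar hW hq1 hq2 z
  have hgPi : IntegrableOn (fun z => g z * ∏ j, lap (H j) (z j)) (Prod3 O) := by
    obtain ⟨M4, hM4⟩ := norm_sub_bdd (locBdd_of_cont hPc) hObd
    refine Measure.integrableOn_of_bounded (M := M3 * M4) hvO.ne
      (hgm.mul hPc.measurable).aestronglyMeasurable ?_
    refine (ae_restrict_iff' hOm).2 (Eventually.of_forall fun z hz => ?_)
    rw [norm_mul]
    exact mul_le_mul (hgb z hz) (hM4 z hz) (norm_nonneg _) ((norm_nonneg _).trans (hgb z hz))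
  -- comparison of measures
  have hle := withDensity_le h
  have h1 : ∫ z in Prod3 O, g z ∂(volume.withDensity fun z =>
      ENNReal.ofReal (Δ ^ 3 / 4 * bump X W q1 q2 z)) ≤ ∫ z in Prod3 O, g z ∂ν :=
    integral_mono_measure (Measure.restrict_mono le_rfl hle) (Eventually.of_forall hg0) hgi
  have hbm : Measurable fun z => ENNReal.ofReal (Δ ^ 3 / 4 * bump X W q1 q2 z) :=
    ((meas_bump X W q1 q2).const_mul _).ennreal_ofReal
  rw [setIntegral_withDensity_eq_setIntegral_toReal_smul hbm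
    (Eventually.of_forall fun z => ENNReal.ofReal_lt_top) g hOm] at h1
  have h2 : ∫ z in Prod3 O, (ENNReal.ofReal (Δ ^ 3 / 4 * bump X W q1 q2 z)).toReal • g z =
      2 * ∫ z in Prod3 O, g z * ∏ j, lap (H j) (z j) := by
    rw [← integral_const_mul]
    refine integral_congr_ae (Eventually.of_forall fun z => ?_)
    have h3 := bump_nonneg X W q1 q2 z
    simp only [smul_eq_mul]
    rw [ENNReal.toReal_ofReal (by positivity), hP z]
    ring
  rw [h2] at h1
  have h4 : ∀ z, 0 ≤ g z * ∏ j, lap (H j) (z j) := fun z => by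
    rw [hP]
    have := bump_nonneg X W q1 q2 z
    have := hg0 z
    positivity
  have h5 : ∫ z in Prod3 O, g z * ∏ j, lap (H j) (z j) = 0 := by
    have h6 : 0 ≤ ∫ z in Prod3 O, g z * ∏ j, lap (H j) (z j) := integral_nonneg h4
    linarith
  have h6 := (setIntegral_eq_zero_iff_of_nonneg_ae (Eventually.of_forall h4) hgPi).1 h5
  have h7 := (ae_restrict_iff' hOm).1 h6
  filter_upwards [h7] with z hz hzO hzB
  have h8 : g z * ∏ j, lap (H j) (z j) = 0 := hz hzO
  rw [hP] at h8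
  have h9 : 0 < bump X W q1 q2 z := bump_pos hW hq1 hq2 (hzB 0) (hzB 1) (hzB 2)
  have h10 : g z = 0 := by
    rcases mul_eq_zero.1 h8 with h | h
    · exact h
    · exact absurd h (by positivity)
  by_contra hc
  push Not at hc
  have h11 := hG1 (u z - sep H z) (by linarith)
  have h12 : g z = G (u z - sep H z) := rfl
  linarith

end KOL
end
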