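import Pool.Agent.KOL.Bar3

set_option autoImplicit false
noncomputable section
namespace KOL
open MeasureTheory Set Filter Matrix
open scoped ContDiff Topology ComplexOrder

theorem locBdd_omega {φ : C3 → ℝ} (hφ : OmegaPsh φ) : Mol.LocBdd fun z => φ z + sq z := by
  obtain ⟨B, hB⟩ := hφ.bdd
  have hs : Continuous sq := by
    unfold sq
    exact continuous_finsetSum _ fun j _ => Complex.continuous_normSq.comp (continuous_apply j)
  intro R
  obtain ⟨M, hM⟩ := locBdd_of_cont hs R
  refine ⟨B + M, fun z hz => ?_⟩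
  exact (abs_add_le _ _).trans (add_le_add (hB z) (hM z hz))

theorem sep_bar (X W q1 q2 ε Y c κ Δ : ℝ) (z : C3) : sep (bar X W q1 q2 ε Y c κ Δ) z =
    f0 X W ε c κ Δ (z 0).re + g0 ε Y (z 0).im + logf (g1 q1 Δ) (z 1) + logf (g1 q2 Δ) (z 2) := by
  unfold sep
  rw [Fin.sum_univ_three]
  rfl

theorem logf_g1_nonneg {q Δ : ℝ} (hΔ : 0 < Δ) (w : ℂ) : 0 ≤ logf (g1 q Δ) w := by
  unfold logf g1
  split_ifs with h
  · exact le_rfl
  · have := Pd_nonneg (d := 1 / 16) (by norm_num) ((Real.log ‖w‖ + q) / q)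
    positivity

theorem logf_g1_ge {q Δ η : ℝ} (hq : 0 < q) (hΔ : 0 < Δ) {w : ℂ}
    (hw : Real.exp (-((1 / 2 + η) * q)) < ‖w‖) : Δ - 2 * Δ * η ≤ logf (g1 q Δ) w := by
  have h0 : 0 < ‖w‖ := (Real.exp_pos _).trans hw
  rw [logf_of_ne _ (norm_pos_iff.1 h0)]
  have h1 : -((1 / 2 + η) * q) < Real.log ‖w‖ := (Real.lt_log_iff_exp_lt h0).2 hw
  unfold g1
  have h2 : 1 / 2 - η ≤ (Real.log ‖w‖ + q) / q := by
    rw [le_div_iff₀ hq]
    linarith
  have h3 := Pd_ge (d := 1 / 16) (by norm_num) ((Real.log ‖w‖ + q) / q)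
  nlinarith

theorem logf_g1_torus {q Δ : ℝ} (hΔ : 0 < Δ) {w : ℂ} (hw : ‖w‖ = Real.exp (-q)) :
    logf (g1 q Δ) w ≤ Δ / 16 := by
  have h0 : 0 < ‖w‖ := by rw [hw]; exact Real.exp_pos _
  rw [logf_of_ne _ (norm_pos_iff.1 h0), hw, Real.log_exp]
  unfold g1
  rw [neg_add_cancel, zero_div]
  have := Pd_zero_le (d := 1 / 16) (by norm_num)
  nlinarith

theorem isCompact_box (X Y a b : ℝ) : IsCompact {w : ℂ | |w.re - X| ≤ a ∧ |w.im - Y| ≤ b} := by
  refine Metric.isCompact_of_isClosed_isBounded ?_ ?_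
  · exact (isClosed_le (f := fun w : ℂ => |w.re - X|) (g := fun _ => a) (by fun_prop)
      continuous_const).inter (isClosed_le (f := fun w : ℂ => |w.im - Y|) (g := fun _ => b)
      (by fun_prop) continuous_const)
  · refine (Metric.isBounded_closedBall (x := (⟨X, Y⟩ : ℂ)) (r := a + b)).subset ?_
    intro w hw
    rw [Metric.mem_closedBall, dist_eq_norm]
    refine (Complex.norm_le_abs_re_add_abs_im _).trans ?_
    exact add_le_add hw.1 hw.2

theorem isCompact_disc (a : ℝ) : IsCompact {w : ℂ | ‖w‖ ≤ a} := by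
  have : {w : ℂ | ‖w‖ ≤ a} = Metric.closedBall 0 a := by
    ext w
    simp
  rw [this]
  exact isCompact_closedBall _ _

theorem isOpen_sg (q : ℝ) : IsOpen {w : ℂ | w ≠ 0 ∧ |sg q w| < 1 / 16} := by
  have h1 : ContinuousOn (fun w : ℂ => |sg q w|) {w | w ≠ 0} := by
    intro w hw
    unfold sg
    refine ContinuousAt.continuousWithinAt ?_
    have h2 : ContinuousAt (fun w : ℂ => Real.log ‖w‖) w :=
      continuous_norm.continuousAt.log (norm_ne_zero_iff.2 hw)
    exact ((h2.add continuousAt_const).div_const q).abs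
  exact h1.isOpen_inter_preimage isOpen_ne isOpen_Iio

/-- the bound on the torus, with errors -/
theorem bar_torus (hcmp : CMP_stmt) (hstrip : STRIP_stmt) {φ : C3 → ℝ} {ν : Measure C3}
    (hφ : OmegaPsh φ) (hν : IsMA univ (fun z => φ z + sq z) ν)
    {X W q1 q2 bp bm Δ : ℝ} (hW : 0 < W) (hq1 : 0 < q1) (hq2 : 0 < q2) (hΔ : 0 < Δ)
    (hp : ∀ z : C3, (z 0).re = X + W → ‖z 1‖ ≤ Real.exp (-(q1 / 2)) →
      ‖z 2‖ ≤ Real.exp (-(q2 / 2)) → psi φ z ≤ bp)
    (hm : ∀ z : C3, (z 0).re = X - W → ‖z 1‖ ≤ Real.exp (-(q1 / 2)) →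
      ‖z 2‖ ≤ Real.exp (-(q2 / 2)) → psi φ z ≤ bm)
    (h : ∀ s : Set C3, MeasurableSet s → (∀ z ∈ s, ∀ j, z j ∈ boxO X W q1 q2 j) →
      ∫⁻ z in s, ENNReal.ofReal (Δ ^ 3 / 4 * bump X W q1 q2 z) ≤ ν s)
    {ε δ : ℝ} (hε : 0 < ε) (hδ : 0 < δ) {z : C3} (hz0 : (z 0).re = X)
    (hz1 : ‖z 1‖ = Real.exp (-q1)) (hz2 : ‖z 2‖ = Real.exp (-q2)) :
    psi φ z ≤ (bp + bm) / 2 - Δ / 2 + ε * W ^ 2 + δ := by
  set Y := (z 0).im with hY
  set κ := (bp - bm) / (2 * W) with hκ
  set c := (bp + bm) / 2 - Δ + δ with hc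
  -- the chord bound
  have chord : ∀ w : C3, |(w 0).re - X| ≤ W → ‖w 1‖ ≤ Real.exp (-(q1 / 2)) →
      ‖w 2‖ ≤ Real.exp (-(q2 / 2)) → psi φ w ≤ (bp + bm) / 2 + κ * ((w 0).re - X) := by
    intro w h0 h1 h2
    have h3 := abs_le.1 h0
    have h4 := hstrip φ hφ (X - W) (X + W) bm bp (by linarith) w
      (fun w' h5 h6 h7 => hm w' h5 (by rw [h6]; exact h1) (by rw [h7]; exact h2))
      (fun w' h5 h6 h7 => hp w' h5 (by rw [h6]; exact h1) (by rw [h7]; exact h2))
      (by linarith [h3.1]) (by linarith [h3.2])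
    refine h4.trans (le_of_eq ?_)
    have e1 : X + W - (X - W) = 2 * W := by ring
    rw [hκ, e1]
    field_simp
    ring
  set η := min (1 / 4) (δ / (4 * Δ)) with hη
  have hη0 : 0 < η := lt_min (by norm_num) (by positivity)
  have hη1 : η ≤ 1 / 4 := min_le_left _ _
  have hη2 : 2 * Δ * η ≤ δ / 2 := by
    have h1 : η ≤ δ / (4 * Δ) := min_le_right _ _
    calc 2 * Δ * η ≤ 2 * Δ * (δ / (4 * Δ)) := by gcongr
      _ = δ / 2 := by field_simp; ring
  set R := Δ / ε + 2 with hR
  have hR0 : 2 < R := by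
    have : 0 < Δ / ε := by positivity
    linarith
  set O : Fin 3 → Set ℂ := ![{w | |w.re - X| < W ∧ |w.im - Y| < R},
    {w | ‖w‖ < Real.exp (-(q1 / 2))}, {w | ‖w‖ < Real.exp (-(q2 / 2))}] with hOdef
  set K : Fin 3 → Set ℂ := ![{w | |w.re - X| ≤ (1 - η) * W ∧ |w.im - Y| ≤ R - 1},
    {w | ‖w‖ ≤ Real.exp (-((1 / 2 + η) * q1))}, {w | ‖w‖ ≤ Real.exp (-((1 / 2 + η) * q2))}]
    with hKdef
  have hO : ∀ j, IsOpen (O j) := by
    intro j
    fin_cases j
    · exact (isOpen_lt (f := fun w : ℂ => |w.re - X|) (g := fun _ => W) (by fun_prop)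
        continuous_const).inter (isOpen_lt (f := fun w : ℂ => |w.im - Y|) (g := fun _ => R)
        (by fun_prop) continuous_const)
    · exact isOpen_lt continuous_norm continuous_const
    · exact isOpen_lt continuous_norm continuous_const
  have hOb : ∀ j, Bornology.IsBounded (O j) := by
    intro j
    fin_cases j
    · exact (isCompact_box X Y W R).isBounded.subset fun w hw => ⟨hw.1.le, hw.2.le⟩
    · exact (isCompact_disc _).isBounded.subset fun w (hw : ‖w‖ < _) => hw.le
    · exact (isCompact_disc _).isBounded.subset fun w (hw : ‖w‖ < _) => hw.le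
  have hK : ∀ j, IsCompact (K j) := by
    intro j
    fin_cases j
    · exact isCompact_box _ _ _ _
    · exact isCompact_disc _
    · exact isCompact_disc _
  have hexp : ∀ q : ℝ, 0 < q → Real.exp (-((1 / 2 + η) * q)) < Real.exp (-(q / 2)) := by
    intro q hq
    rw [Real.exp_lt_exp]
    nlinarith
  have hKO : Prod3 K ⊆ Prod3 O := by
    intro w hw j
    have hj := hw j
    fin_cases j
    · change |(w 0).re - X| < W ∧ |(w 0).im - Y| < R
      have hj' : |(w 0).re - X| ≤ (1 - η) * W ∧ |(w 0).im - Y| ≤ R - 1 := hj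
      exact ⟨by nlinarith [hj'.1], by linarith [hj'.2]⟩
    · exact lt_of_le_of_lt (show ‖w 1‖ ≤ Real.exp (-((1 / 2 + η) * q1)) from hj) (hexp q1 hq1)
    · exact lt_of_le_of_lt (show ‖w 2‖ ≤ Real.exp (-((1 / 2 + η) * q2)) from hj) (hexp q2 hq2)
  have hu : Psh univ fun z => φ z + sq z := hφ.psh
  have hb := locBdd_omega hφ
  have key := ae_le_of_cmp hcmp hu hb hν (ε := ε) (Y := Y) (c := c) (κ := κ) hW hq1 hq2 hΔ h hO hOb
    (isCompact_Prod3 hK) hKO (d := δ / 2) (by positivity) ?_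
  · -- the bound at `z`
    set O' : Fin 3 → Set ℂ := ![{w | |(w.re - X) / W| < 1 / 16},
      {w | w ≠ 0 ∧ |sg q1 w| < 1 / 16}, {w | w ≠ 0 ∧ |sg q2 w| < 1 / 16}] with hO'def
    have hBo : IsOpen (Prod3 O ∩ Prod3 O') := by
      refine (isOpen_Prod3 hO).inter (isOpen_Prod3 fun j => ?_)
      fin_cases j
      · exact isOpen_lt (f := fun w : ℂ => |(w.re - X) / W|) (g := fun _ => 1 / 16) (by fun_prop)
          continuous_const
      · exact isOpen_sg q1
      · exact isOpen_sg q2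
    have h1 := le_of_ae_le hu hb (sep_smooth (bar_smooth (X := X) (W := W) (ε := ε) (Y := Y)
      (c := c) (κ := κ) (Δ := Δ) hq1 hq2)).continuous hBo (z := z) ?_ ?_
    · rw [sep_bar, hz0] at h1
      have h2 := logf_g1_torus hΔ hz1
      have h3 := logf_g1_torus hΔ hz2
      have h4 : f0 X W ε c κ Δ X ≤ -X ^ 2 + ε * W ^ 2 + c + Δ / 16 := by
        unfold f0
        rw [sub_self, zero_div]
        have := Ad_zero_le (d := 1 / 16) (by norm_num)
        nlinarith
      have h5 : g0 ε Y (z 0).im = Y ^ 2 := by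
        unfold g0
        rw [← hY]
        ring
      rw [h5] at h1
      unfold psi
      rw [hz0]
      have h6 : (z 0).im = Y := rfl
      rw [h6]
      linarith
    · filter_upwards [key] with w hw hwB
      refine hw hwB.1 ?_
      intro j
      fin_cases j
      · exact hwB.2 0
      · exact (show w 1 ≠ 0 ∧ |sg q1 (w 1)| < 1 / 16 from hwB.2 1).2
      · exact (show w 2 ≠ 0 ∧ |sg q2 (w 2)| < 1 / 16 from hwB.2 2).2
    · have hsg : ∀ q : ℝ, 0 < q → ∀ w : ℂ, ‖w‖ = Real.exp (-q) → |sg q w| < 1 / 16 := by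
        intro q hq w hw
        unfold sg
        rw [hw, Real.log_exp, neg_add_cancel, zero_div, abs_zero]
        norm_num
      refine ⟨?_, ?_⟩
      · intro j
        fin_cases j
        · change |(z 0).re - X| < W ∧ |(z 0).im - Y| < R
          rw [hz0, sub_self, abs_zero, ← hY, sub_self, abs_zero]
          exact ⟨hW, by linarith⟩
        · change ‖z 1‖ < Real.exp (-(q1 / 2))
          rw [hz1, Real.exp_lt_exp]
          linarith
        · change ‖z 2‖ < Real.exp (-(q2 / 2))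
          rw [hz2, Real.exp_lt_exp]
          linarith
      · intro j
        fin_cases j
        · change |((z 0).re - X) / W| < 1 / 16
          rw [hz0, sub_self, zero_div, abs_zero]
          norm_num
        · refine ⟨?_, hsg q1 hq1 _ hz1⟩
          change z 1 ≠ 0
          rw [← norm_pos_iff, hz1]
          exact Real.exp_pos _
        · refine ⟨?_, hsg q2 hq2 _ hz2⟩
          change z 2 ≠ 0
          rw [← norm_pos_iff, hz2]
          exact Real.exp_pos _
  · -- the inequality near the boundary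
    intro w hwO hwK
    have hw0 : |(w 0).re - X| < W ∧ |(w 0).im - Y| < R := hwO 0
    have hw1 : ‖w 1‖ < Real.exp (-(q1 / 2)) := hwO 1
    have hw2 : ‖w 2‖ < Real.exp (-(q2 / 2)) := hwO 2
    have hch := chord w hw0.1.le hw1.le hw2.le
    unfold psi at hch
    have hL1 := logf_g1_nonneg (q := q1) hΔ (w 1)
    have hL2 := logf_g1_nonneg (q := q2) hΔ (w 2)
    rw [sep_bar]
    unfold f0 g0
    have hAge := Ad_ge (d := 1 / 16) (by norm_num) (((w 0).re - X) / W)
    have hsq : ((w 0).re - X) ^ 2 ≤ W ^ 2 := sq_le_sq' (by linarith [(abs_lt.1 hw0.1).1])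
      (abs_lt.1 hw0.1).2.le
    have hsq' : 0 ≤ ε * (W ^ 2 - ((w 0).re - X) ^ 2) := mul_nonneg hε.le (by linarith)
    have hyy : 0 ≤ ε * ((w 0).im - Y) ^ 2 := by positivity
    have hA0 : 0 ≤ Ad (1 / 16) (((w 0).re - X) / W) := (abs_nonneg _).trans hAge
    have hDA : 0 ≤ Δ * Ad (1 / 16) (((w 0).re - X) / W) := mul_nonneg hΔ.le hA0
    -- it is enough that one of the terms compensates `- Δ`
    have enough : Δ - δ / 2 ≤ ε * ((w 0).im - Y) ^ 2 + Δ * Ad (1 / 16) (((w 0).re - X) / W) +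
        logf (g1 q1 Δ) (w 1) + logf (g1 q2 Δ) (w 2) := by
      by_cases c1 : |(w 0).re - X| ≤ (1 - η) * W
      · by_cases c2 : |(w 0).im - Y| ≤ R - 1
        · by_cases c3 : ‖w 1‖ ≤ Real.exp (-((1 / 2 + η) * q1))
          · by_cases c4 : ‖w 2‖ ≤ Real.exp (-((1 / 2 + η) * q2))
            · exfalso
              refine hwK fun j => ?_
              fin_cases j
              · exact ⟨c1, c2⟩
              · exact c3
              · exact c4
            · push Not at c4
              have := logf_g1_ge hq2 hΔ c4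
              linarith
          · push Not at c3
            have := logf_g1_ge hq1 hΔ c3
            linarith
        · push Not at c2
          have h1 : Δ ≤ ε * ((w 0).im - Y) ^ 2 := by
            have h2 : Δ / ε ≤ ((w 0).im - Y) ^ 2 := by
              rw [← sq_abs]
              have : 0 < Δ / ε := by positivity
              nlinarith
            rw [div_le_iff₀ hε] at h2
            linarith
          linarith
      · push Not at c1
        have h1 : 1 - η ≤ |((w 0).re - X) / W| := by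
          rw [abs_div, abs_of_pos hW, le_div_iff₀ hW]
          exact c1.le
        have h2 : Δ - Δ * η ≤ Δ * Ad (1 / 16) (((w 0).re - X) / W) := by
          have := mul_le_mul_of_nonneg_left (h1.trans hAge) hΔ.le
          linarith
        have h3 : Δ * η ≤ 2 * Δ * η := by nlinarith
        linarith
    have e1 : c = (bp + bm) / 2 - Δ + δ := hc
    rw [e1]
    linarith

end KOL
end
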