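import Pool.Agent.KOL.CmpId

/-!
# Project KOL: the comparison lemma
-/

set_option autoImplicit false

open MeasureTheory Filter Topology Matrix
open scoped ContDiff ComplexConjugate ComplexOrder

namespace KOL.Cmp

/-- pairing with `T₂` -/
noncomputable def P2 (Θ₂ : C3 → Mat) (z : C3) (A : Mat) : ℂ := (A * Θ₂ z).trace / 3

/-- pairing with `dd^c h ∧ T₁` -/
noncomputable def P1 (h : C3 → ℝ) (Θ₁ : C3 → Mat) (z : C3) (A : Mat) : ℂ := D A (Hess h z) (Θ₁ z)

/-- pairing with `(dd^c h)²` -/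
noncomputable def P0 (h : C3 → ℝ) (z : C3) (A : Mat) : ℂ := D A (Hess h z) (Hess h z)

section pair

variable {m : Measure C3} {L : C3 → Mat → ℂ} {K : Set C3} {A B : C3 → Mat}

theorem Pair.split (P : Pair m L K) (hK : IsCompact K) (hA : GF K A) {a b : C3 → ℝ}
    (ha : MB fun z => (a z : ℂ)) (hb : MB fun z => (b z : ℂ)) :
    ∫ z, (L z (((a z - b z : ℝ) : ℂ) • A z)).re ∂m =
      (∫ z, (a z : ℂ) * L z (A z) ∂m).re - (∫ z, (b z : ℂ) * L z (A z) ∂m).re := by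
  have i1 : ∀ a : C3 → ℝ, MB (fun z => (a z : ℂ)) → Integrable (fun z => (a z : ℂ) * L z (A z)) m := by
    intro a ha
    have := P.intC hK (hA.smul ha)
    simpa only [P.smul] using this
  have r1 : ∀ a : C3 → ℝ, MB (fun z => (a z : ℂ)) →
      (∫ z, (a z : ℂ) * L z (A z) ∂m).re = ∫ z, ((a z : ℂ) * L z (A z)).re ∂m := fun a ha =>
    (integral_re (i1 a ha)).symm
  have ir : ∀ a : C3 → ℝ, MB (fun z => (a z : ℂ)) →
      Integrable (fun z => ((a z : ℂ) * L z (A z)).re) m := fun a ha => (i1 a ha).re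
  rw [r1 a ha, r1 b hb, ← integral_sub (ir a ha) (ir b hb)]
  refine integral_congr_ae (Eventually.of_forall fun z => ?_)
  simp only [P.smul, Complex.ofReal_sub]
  rw [sub_mul, Complex.sub_re]

theorem Pair.step (P : Pair m L K) (hK : IsCompact K) {A₁ A₂ B₁ B₂ : C3 → Mat} (h1 : GF K A₁)
    (h2 : GF K A₂) (h3 : GF K B₁) (h4 : MBM B₂) (e : ∀ z, A z = A₁ z + A₂ z)
    (p1 : ∀ z ∈ K, (B₁ z - A₁ z).PosSemidef) (p2 : ∀ z ∈ K, (B₂ z - A₂ z).PosSemidef) :
    ∫ z, (L z (A z)).re ∂m ≤ ∫ z, (L z (B₁ z)).re ∂m + ∫ z in K, (L z (B₂ z)).re ∂m := by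
  have e1 : ∫ z, (L z (A z)).re ∂m = ∫ z, (L z (A₁ z)).re ∂m + ∫ z, (L z (A₂ z)).re ∂m := by
    rw [← integral_add (P.intR hK h1) (P.intR hK h2)]
    refine integral_congr_ae (Eventually.of_forall fun z => ?_)
    simp only [e, P.add, Complex.add_re]
  have e2 : ∫ z in K, (L z (B₁ z)).re ∂m = ∫ z, (L z (B₁ z)).re ∂m := by
    refine setIntegral_eq_integral_of_forall_compl_eq_zero fun z hz => ?_
    rw [h3.zero z hz, P.zero, Complex.zero_re]
  have l1 := P.mono hK h1 h3.mb p1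
  have l2 := P.mono hK h2 h4 p2
  rw [e1, ← e2]
  exact add_le_add l1 l2

end pair

theorem gf_Hess {K : Set C3} {F : C3 → ℝ} (hF : ContDiff ℝ ∞ F) (hs : tsupport F ⊆ K) :
    GF K (Hess F) :=
  ⟨MBM.hess hF, fun _ hz => Hess_eq_zero hF fun h => hz (hs h)⟩

section chain

variable {u : C3 → ℝ} {Θ₁ Θ₂ : C3 → Mat} {m₁ m₂ ν : Measure C3} {h : C3 → ℝ} {K : Set C3}

theorem mb_real {f : C3 → ℝ} (hf : Continuous f) : MB fun z => (f z : ℂ) :=
  MB.of_cont (Complex.continuous_ofReal.comp hf)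

/-- the closedness identity -/
theorem ident0 (hc : Chain Set.univ u Θ₁ m₁ Θ₂ m₂ ν) (hum : Measurable u) (hub : Mol.LocBdd u)
    (hh : ContDiff ℝ ∞ h) {F : C3 → ℝ} (hF : ContDiff ℝ ∞ F) (hFc : HasCompactSupport F) :
    ∫ z, (P2 Θ₂ z (Hess F z)).re ∂m₂ = 0 ∧ ∫ z, (P1 h Θ₁ z (Hess F z)).re ∂m₁ = 0 ∧
      ∫ z, (P0 h z (Hess F z)).re = 0 := by
  have hFs := sm_ofReal hF
  have hFc' := compact_ofReal hFc
  have hG : Sm fun _ => (1 : ℂ) := sm_const 1
  have gf : GF (tsupport F) (Hess F) := gf_Hess hF le_rfl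
  have e : ∀ z, Hess F z = HessC (fun w => (F w : ℂ)) z := Hess_eq hF
  have hp2 := pair2 (K := ∅) hc
  have c2 := b1 hc hum hub hG hFs hFc'
  have c1 := b2 hc hum hub hG hFs hFc' (cl_Hess hh)
  have c0 := ibp_D hG hFs (Or.inr hFc') (cl_Hess hh) (cl_Hess hh)
  simp_rw [HessC_one, D_zero_mid, mul_zero, one_mul, integral_zero] at c2
  simp_rw [HessC_one, D_zero_left, mul_zero, one_mul, integral_zero] at c1 c0
  simp_rw [← e] at c2 c1 c0
  have i2 : Integrable (fun z => (Hess F z * Θ₂ z).trace / 3) m₂ :=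
    int_supp hc.pos₂.fin (by
      have := ((MBM.hess hF).trace (MBM.of_pos hc.pos₂)).mul (MB.const (1 / 3))
      simpa only [mul_one_div] using this) hFc fun z hz => by
        rw [Hess_eq_zero hF hz, Matrix.zero_mul, Matrix.trace_zero, zero_div]
  have i1 : Integrable (fun z => D (Hess F z) (Hess h z) (Θ₁ z)) m₁ :=
    int_supp hc.pos₁.fin ((MBM.hess hF).D (MBM.hess hh) (MBM.of_pos hc.pos₁)) hFc fun z hz => by
        rw [Hess_eq_zero hF hz, D_zero_left]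
  have i0 : Integrable (fun z => D (Hess F z) (Hess h z) (Hess h z)) volume :=
    int_supp (fun K hK _ => hK.measure_lt_top) ((MBM.hess hF).D (MBM.hess hh) (MBM.hess hh)) hFc
      fun z hz => by rw [Hess_eq_zero hF hz, D_zero_left]
  refine ⟨?_, ?_, ?_⟩
  · have h2 : ∫ z, (P2 Θ₂ z (Hess F z)).re ∂m₂ = (∫ z, (Hess F z * Θ₂ z).trace / 3 ∂m₂).re :=
      integral_re i2
    rw [h2, c2, Complex.zero_re]
  · have h2 : ∫ z, (P1 h Θ₁ z (Hess F z)).re ∂m₁ =
        (∫ z, D (Hess F z) (Hess h z) (Θ₁ z) ∂m₁).re := integral_re i1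
    rw [h2, c1, Complex.zero_re]
  · have h2 : ∫ z, (P0 h z (Hess F z)).re = (∫ z, D (Hess F z) (Hess h z) (Hess h z)).re :=
      integral_re i0
    rw [h2, c0, Complex.zero_re]

/-- the main identity -/
theorem ident (hc : Chain Set.univ u Θ₁ m₁ Θ₂ m₂ ν) (hum : Measurable u) (hub : Mol.LocBdd u)
    (hh : ContDiff ℝ ∞ h) (hK : IsCompact K) (hp : ∀ z ∈ K, (Hess h z).PosSemidef)
    {χ : C3 → ℝ} (hχ : Test Set.univ χ) (hs : tsupport χ ⊆ K) :
    ∫ z, χ z ∂ν - ∫ z, χ z * (Hess h z).det.re =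
      ∫ z, (P2 Θ₂ z (((u z - h z : ℝ) : ℂ) • Hess χ z)).re ∂m₂ +
      ∫ z, (P1 h Θ₁ z (((u z - h z : ℝ) : ℂ) • Hess χ z)).re ∂m₁ +
      ∫ z, (P0 h z (((u z - h z : ℝ) : ℂ) • Hess χ z)).re := by
  have hF := sm_ofReal hχ.smooth
  have hFc := compact_ofReal hχ.comp
  have hG := sm_ofReal hh
  have gf : GF K (Hess χ) := gf_Hess hχ.smooth hs
  have mu := MB.of_locBdd hum hub
  have mh := mb_real hh.continuous
  have e : ∀ z, Hess χ z = HessC (fun w => (χ w : ℂ)) z := Hess_eq hχ.smooth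
  have eh : ∀ z, Hess h z = HessC (fun w => (h w : ℂ)) z := Hess_eq hh
  have c3 := hc.e3 hχ
  have c2 := b1 hc hum hub hG hF hFc
  have c1 := b2 hc hum hub hG hF hFc (cl_Hess hh)
  have c0 := ibp_D hG hF (Or.inr hFc) (cl_Hess hh) (cl_Hess hh)
  simp_rw [← e, ← eh] at c2 c1 c0
  have s2 := (pair2 (K := K) hc).split hK gf mu mh
  have s1 := (pair1 hc hh hp).split hK gf mu mh
  have s0 := (pair0 hh hp).split hK gf mu mh
  have hdet : ∀ z, D (Hess h z) (Hess h z) (Hess h z) = (((Hess h z).det.re : ℝ) : ℂ) := by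
    intro z
    have hH := Hess_isHermitian hh z
    rw [← D_self, D_re hH hH hH]
  have c0' : ∫ z, (h z : ℂ) * D (Hess χ z) (Hess h z) (Hess h z) =
      ((∫ z, χ z * (Hess h z).det.re : ℝ) : ℂ) := by
    rw [c0, ← integral_complex_ofReal]
    refine integral_congr_ae (Eventually.of_forall fun z => ?_)
    simp only [hdet, Complex.ofReal_mul]
  have c1' : ∫ z, (h z : ℂ) * D (Hess χ z) (Hess h z) (Θ₁ z) ∂m₁ =
      ∫ z, (u z : ℂ) * D (Hess χ z) (Hess h z) (Hess h z) := by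
    rw [c1]
    refine integral_congr_ae (Eventually.of_forall fun z => ?_)
    simp only [D_comm12 (Hess h z)]
  have c3' : ((∫ z, χ z ∂ν : ℝ) : ℂ) = ∫ z, (u z : ℂ) * ((Hess χ z * Θ₂ z).trace / 3) ∂m₂ := by
    rw [← c3, integral_complex_ofReal]
  have r2 : ∫ z, (P2 Θ₂ z (((u z - h z : ℝ) : ℂ) • Hess χ z)).re ∂m₂ = _ := s2
  have r1 : ∫ z, (P1 h Θ₁ z (((u z - h z : ℝ) : ℂ) • Hess χ z)).re ∂m₁ = _ := s1
  have r0 : ∫ z, (P0 h z (((u z - h z : ℝ) : ℂ) • Hess χ z)).re = _ := s0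
  rw [r2, r1, r0]
  rw [← c3', c2, c1', c0', Complex.ofReal_re, Complex.ofReal_re]
  ring

theorem Hess_zero_fun (z : C3) : Hess (fun _ => (0 : ℝ)) z = 0 := by
  rw [Hess_eq contDiff_const]
  exact HessC_const _ _

theorem mb_sub {a b : C3 → ℝ} (ha : MB fun z => (a z : ℂ)) (hb : MB fun z => (b z : ℂ)) :
    MB fun z => ((a z - b z : ℝ) : ℂ) := by
  have h1 := ha.add ((MB.const (-1)).mul hb)
  have e : (fun z => ((a z - b z : ℝ) : ℂ)) = fun z => (a z : ℂ) + (-1) * (b z : ℂ) := by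
    funext z
    push_cast
    ring
  rw [e]
  exact h1

theorem psd_smul {A : Mat} (hA : A.PosSemidef) {t : ℝ} (ht : 0 ≤ t) : ((t : ℂ) • A).PosSemidef :=
  hA.smul (Complex.zero_le_real.2 ht)

/-- one step of the approximation -/
theorem step (hc : Chain Set.univ u Θ₁ m₁ Θ₂ m₂ ν) (hum : Measurable u) (hub : Mol.LocBdd u)
    (hh : ContDiff ℝ ∞ h) (hK : IsCompact K) (hp : ∀ z ∈ K, (Hess h z).PosSemidef) {N : Set C3}
    (hN : IsOpen N) {κ : C3 → ℝ} (hκ : ContDiff ℝ ∞ κ) (hκ1 : ∀ z ∈ N, κ z = 1)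
    (hκs : tsupport κ ⊆ K) {X F : ℝ → ℝ} (hX : ContDiff ℝ ∞ X) (hF : ContDiff ℝ ∞ F)
    (hX0 : ∀ t ≤ 0, X t = 0) (hF0 : ∀ t ≤ 0, F t = 0) (hX1 : ∀ t, 0 ≤ deriv X t)
    (hX2 : ∀ t, 0 ≤ deriv (deriv X) t) (hF1 : ∀ t, deriv F t = t * deriv X t)
    (hF2 : ∀ t, deriv (deriv F) t = deriv X t + t * deriv (deriv X) t) {ψ : C3 → ℝ}
    (hψ : ContDiff ℝ ∞ ψ) (hψp : ∀ z, (Hess ψ z).PosSemidef) (hψu : ∀ z, u z ≤ ψ z)
    (hneg : ∀ z ∈ K, z ∉ N → ψ z - h z < 0) {c : ℝ} (hcK : ∀ z ∈ K, deriv X (ψ z - h z) ≤ c)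
    (hc0 : 0 ≤ c) :
    ∫ z, κ z * X (ψ z - h z) ∂ν - ∫ z, κ z * X (ψ z - h z) * (Hess h z).det.re ≤
      ∫ z in K, (P2 Θ₂ z (((c * (ψ z - u z) : ℝ) : ℂ) • Hess h z)).re ∂m₂ +
      ∫ z in K, (P1 h Θ₁ z (((c * (ψ z - u z) : ℝ) : ℂ) • Hess h z)).re ∂m₁ +
      ∫ z in K, (P0 h z (((c * (ψ z - u z) : ℝ) : ℂ) • Hess h z)).re := by
  have hg : ContDiff ℝ ∞ fun z => ψ z - h z := hψ.sub hh
  have hXg : ContDiff ℝ ∞ fun z => X (ψ z - h z) := hX.comp hg
  have hFg : ContDiff ℝ ∞ fun z => F (ψ z - h z) := hF.comp hg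
  have hχs : ContDiff ℝ ∞ fun z => κ z * X (ψ z - h z) := hκ.mul hXg
  have hΦs : ContDiff ℝ ∞ fun z => κ z * F (ψ z - h z) := hκ.mul hFg
  have ts1 : tsupport (fun z => κ z * X (ψ z - h z)) ⊆ K :=
    (tsupport_mul_subset_left).trans hκs
  have ts2 : tsupport (fun z => κ z * F (ψ z - h z)) ⊆ K :=
    (tsupport_mul_subset_left).trans hκs
  have cs1 : HasCompactSupport (fun z => κ z * X (ψ z - h z)) :=
    IsCompact.of_isClosed_subset hK (isClosed_tsupport _) ts1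
  have cs2 : HasCompactSupport (fun z => κ z * F (ψ z - h z)) :=
    IsCompact.of_isClosed_subset hK (isClosed_tsupport _) ts2
  have tχ : Test Set.univ (fun z => κ z * X (ψ z - h z)) := ⟨hχs, cs1, Set.subset_univ _⟩
  have mu := MB.of_locBdd hum hub
  have mh := mb_real hh.continuous
  have mψ := mb_real hψ.continuous
  have gχ : GF K (Hess fun z => κ z * X (ψ z - h z)) := gf_Hess hχs ts1
  have gΦ : GF K (Hess fun z => κ z * F (ψ z - h z)) := gf_Hess hΦs ts2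
  -- pointwise Hessians
  have inN : ∀ {T : ℝ → ℝ}, ContDiff ℝ ∞ T → ∀ z ∈ N, Hess (fun z => κ z * T (ψ z - h z)) z =
      ((deriv T (ψ z - h z) : ℝ) : ℂ) • (Hess ψ z - Hess h z) +
        ((deriv (deriv T) (ψ z - h z) : ℝ) : ℂ) • rk (grad (fun w => ψ w - h w) z) := by
    intro T hT z hz
    have e : (fun z => κ z * T (ψ z - h z)) =ᶠ[𝓝 z] fun z => T (ψ z - h z) := by
      filter_upwards [hN.mem_nhds hz] with w hw
      rw [hκ1 w hw, one_mul]
    rw [Hess_congr e, Hess_comp hT hg, Hess_sub hψ hh]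
  have outN : ∀ {T : ℝ → ℝ}, (∀ t ≤ 0, T t = 0) → ∀ z ∈ K, z ∉ N →
      Hess (fun z => κ z * T (ψ z - h z)) z = 0 := by
    intro T hT z hzK hz
    have e : (fun z => κ z * T (ψ z - h z)) =ᶠ[𝓝 z] fun _ => (0 : ℝ) := by
      have h1 : ∀ᶠ w in 𝓝 z, ψ w - h w < 0 :=
        hg.continuous.continuousAt.eventually (gt_mem_nhds (hneg z hzK hz))
      filter_upwards [h1] with w hw
      rw [hT _ hw.le, mul_zero]
    rw [Hess_congr e, Hess_zero_fun]
  have p1 : ∀ z ∈ K, (Hess (fun z => κ z * F (ψ z - h z)) z -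
      ((ψ z - h z : ℝ) : ℂ) • Hess (fun z => κ z * X (ψ z - h z)) z).PosSemidef := by
    intro z hz
    by_cases hzN : z ∈ N
    · have e : Hess (fun z => κ z * F (ψ z - h z)) z -
          ((ψ z - h z : ℝ) : ℂ) • Hess (fun z => κ z * X (ψ z - h z)) z =
          ((deriv X (ψ z - h z) : ℝ) : ℂ) • rk (grad (fun w => ψ w - h w) z) := by
        rw [inN hF z hzN, inN hX z hzN, hF1, hF2]
        ext j k
        simp only [Matrix.sub_apply, Matrix.add_apply, Matrix.smul_apply, smul_eq_mul]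
        push_cast
        ring
      rw [e]
      exact psd_smul (rk_posSemidef _) (hX1 _)
    · rw [outN hF0 z hz hzN, outN hX0 z hz hzN, smul_zero, sub_zero]
      exact Matrix.PosSemidef.zero
  have p2 : ∀ z ∈ K, (((c * (ψ z - u z) : ℝ) : ℂ) • Hess h z -
      ((u z - ψ z : ℝ) : ℂ) • Hess (fun z => κ z * X (ψ z - h z)) z).PosSemidef := by
    intro z hz
    have hu0 : 0 ≤ ψ z - u z := sub_nonneg.2 (hψu z)
    by_cases hzN : z ∈ N
    · have e : ((c * (ψ z - u z) : ℝ) : ℂ) • Hess h z -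
          ((u z - ψ z : ℝ) : ℂ) • Hess (fun z => κ z * X (ψ z - h z)) z =
          (((ψ z - u z) * (c - deriv X (ψ z - h z)) : ℝ) : ℂ) • Hess h z +
          (((ψ z - u z) * deriv X (ψ z - h z) : ℝ) : ℂ) • Hess ψ z +
          (((ψ z - u z) * deriv (deriv X) (ψ z - h z) : ℝ) : ℂ) •
            rk (grad (fun w => ψ w - h w) z) := by
        rw [inN hX z hzN]
        ext j k
        simp only [Matrix.sub_apply, Matrix.add_apply, Matrix.smul_apply, smul_eq_mul]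
        push_cast
        ring
      rw [e]
      exact ((psd_smul (hp z hz) (mul_nonneg hu0 (sub_nonneg.2 (hcK z hz)))).add
        (psd_smul (hψp z) (mul_nonneg hu0 (hX1 _)))).add
        (psd_smul (rk_posSemidef _) (mul_nonneg hu0 (hX2 _)))
    · rw [outN hX0 z hz hzN, smul_zero, sub_zero]
      exact psd_smul (hp z hz) (mul_nonneg hc0 hu0)
  have hA : ∀ z, ((u z - h z : ℝ) : ℂ) • Hess (fun z => κ z * X (ψ z - h z)) z =
      ((ψ z - h z : ℝ) : ℂ) • Hess (fun z => κ z * X (ψ z - h z)) z +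
      ((u z - ψ z : ℝ) : ℂ) • Hess (fun z => κ z * X (ψ z - h z)) z := by
    intro z
    rw [← add_smul]
    congr 1
    push_cast
    ring
  have hB : MBM fun z => ((c * (ψ z - u z) : ℝ) : ℂ) • Hess h z := by
    refine MBM.smul ?_ (MBM.hess hh)
    have h1 := (MB.const (c : ℂ)).mul (mb_sub mψ mu)
    simpa only [Complex.ofReal_mul] using h1
  have g1 := gχ.smul (mb_sub mψ mh)
  have g2 := gχ.smul (mb_sub mu mψ)
  have s2 := (pair2 (K := K) hc).step hK g1 g2 gΦ hB hA p1 p2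
  have s1 := (pair1 hc hh hp).step hK g1 g2 gΦ hB hA p1 p2
  have s0 := (pair0 hh hp).step hK g1 g2 gΦ hB hA p1 p2
  obtain ⟨z2, z1, z0⟩ := ident0 hc hum hub hh hΦs cs2
  have id := ident hc hum hub hh hK hp tχ ts1
  rw [id]
  simp only [P2, P1, P0] at z2 z1 z0 ⊢
  rw [z2, zero_add] at s2
  rw [z1, zero_add] at s1
  rw [z0, zero_add] at s0
  exact add_le_add (add_le_add s2 s1) s0

end chain

/-! ### limits -/

section lim

variable {m : Measure C3} {L : C3 → Mat → ℂ} {K : Set C3} {u h : C3 → ℝ}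

theorem lim0 (P : Pair m L K) (hK : IsCompact K) (hh : ContDiff ℝ ∞ h) (hum : Measurable u)
    {ψ : ℕ → C3 → ℝ} (hψ : ∀ n, Continuous (ψ n)) {M : ℝ}
    (hM : ∀ n, ∀ z ∈ K, |ψ n z - u z| ≤ M)
    (hlim : ∀ z, Tendsto (fun n => ψ n z) atTop (𝓝 (u z))) (c : ℝ) :
    Tendsto (fun n => ∫ z in K, (L z (((c * (ψ n z - u z) : ℝ) : ℂ) • Hess h z)).re ∂m) atTop
      (𝓝 0) := by
  have hi := P.intOn hK (MBM.hess hh)
  have e : ∀ n z, (L z (((c * (ψ n z - u z) : ℝ) : ℂ) • Hess h z)).re =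
      c * (ψ n z - u z) * (L z (Hess h z)).re := by
    intro n z
    rw [P.smul, Complex.re_ofReal_mul]
  have hL : Measurable fun z => (L z (Hess h z)).re :=
    Complex.measurable_re.comp (P.mb _ (MBM.hess hh)).meas
  have h0 : (0 : ℝ) = ∫ _ in K, (0 : ℝ) ∂m := by simp
  simp_rw [e]
  rw [h0]
  refine tendsto_integral_of_dominated_convergence (fun z => |c| * M * |(L z (Hess h z)).re|)
    (fun n => ?_) (hi.abs.const_mul _) (fun n => ?_) ?_
  · exact (((((hψ n).measurable.sub hum).const_mul c).mul hL).aestronglyMeasurable)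
  · refine (ae_restrict_iff' hK.isClosed.measurableSet).2 (Eventually.of_forall fun z hz => ?_)
    rw [Real.norm_eq_abs, abs_mul, abs_mul]
    exact mul_le_mul_of_nonneg_right (mul_le_mul_of_nonneg_left (hM n z hz) (abs_nonneg _))
      (abs_nonneg _)
  · refine Eventually.of_forall fun z => ?_
    have h1 : Tendsto (fun n => ψ n z - u z) atTop (𝓝 (u z - u z)) := (hlim z).sub_const _
    have h2 := (h1.const_mul c).mul_const (L z (Hess h z)).re
    rwa [sub_self, mul_zero, zero_mul] at h2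

theorem limX (hm : FinOn Set.univ m) (hK : IsCompact K) (hh : Continuous h)
    {κ : C3 → ℝ} (hκ : Continuous κ) {X : ℝ → ℝ} (hX : Continuous X) {w : C3 → ℝ}
    (hw : Continuous w) {ψ : ℕ → C3 → ℝ} (hψ : ∀ n, Continuous (ψ n)) {M : ℝ}
    (hM : ∀ n, ∀ z ∈ K, |ψ n z - h z| ≤ M)
    (hlim : ∀ z, Tendsto (fun n => ψ n z) atTop (𝓝 (u z))) :
    Tendsto (fun n => ∫ z in K, κ z * X (ψ n z - h z) * w z ∂m) atTop
      (𝓝 (∫ z in K, κ z * X (u z - h z) * w z ∂m)) := by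
  obtain ⟨C, hC⟩ := (isCompact_Icc (a := -M) (b := M)).exists_bound_of_continuousOn hX.continuousOn
  have hi : IntegrableOn (fun z => |κ z * w z| * C) K m := by
    have hc : Continuous fun z => |κ z * w z| * C := ((hκ.mul hw).abs).mul continuous_const
    obtain ⟨B, hB⟩ := hK.exists_bound_of_continuousOn hc.continuousOn
    refine Measure.integrableOn_of_bounded (M := B) (hm _ hK (Set.subset_univ _)).ne
      hc.measurable.aestronglyMeasurable ?_
    exact (ae_restrict_iff' hK.isClosed.measurableSet).2 (Eventually.of_forall hB)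
  refine tendsto_integral_of_dominated_convergence (fun z => |κ z * w z| * C)
    (fun n => ?_) hi (fun n => ?_) ?_
  · exact ((hκ.mul (hX.comp ((hψ n).sub hh))).mul hw).measurable.aestronglyMeasurable
  · refine (ae_restrict_iff' hK.isClosed.measurableSet).2 (Eventually.of_forall fun z hz => ?_)
    have h1 := hC _ (abs_le.1 (hM n z hz))
    have e : κ z * X (ψ n z - h z) * w z = (κ z * w z) * X (ψ n z - h z) := by ring
    rw [e, Real.norm_eq_abs, abs_mul]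
    exact mul_le_mul_of_nonneg_left h1 (abs_nonneg _)
  · refine Eventually.of_forall fun z => ?_
    have h1 : Tendsto (fun n => ψ n z - h z) atTop (𝓝 (u z - h z)) := (hlim z).sub_const _
    exact (((hX.tendsto _).comp h1).const_mul _).mul_const _

end lim

end KOL.Cmp

namespace KOL

open KOL.Cmp

/-- the comparison lemma -/
theorem cmp_aux {u : C3 → ℝ} (hu : Psh Set.univ u) (hb : ∀ R : ℝ, ∃ B : ℝ, ∀ z, ‖z‖ ≤ R → |u z| ≤ B)
    {ν : Measure C3} (hν : IsMA Set.univ u ν) {H : Fin 3 → ℂ → ℝ} (hH : ∀ j, ContDiff ℝ ∞ (H j))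
    {O : Fin 3 → Set ℂ} (hO : ∀ j, IsOpen (O j)) (h0 : ∀ j, ∀ w ∈ O j, 0 ≤ lap (H j) w)
    {K : Set C3} (hK : IsCompact K) (hKO : K ⊆ Prod3 O) {d : ℝ} (hd : 0 < d)
    (hlt : ∀ z ∈ Prod3 O, z ∉ K → u z ≤ sep H z - d) :
    ∃ X : ℝ → ℝ, Continuous X ∧ (∀ t ≤ 0, X t = 0) ∧ (∀ t, 0 < t → 0 < X t) ∧
      ∫ z in Prod3 O, X (u z - sep H z) ∂ν ≤
        ∫ z in Prod3 O, X (u z - sep H z) * ∏ j, lap (H j) (z j) := by
  obtain ⟨X, F, hX, hF, hX0, hF0, hXp, hX1, hX2, hF1, hF2⟩ := exists_aux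
  refine ⟨X, hX.continuous, hX0, hXp, ?_⟩
  obtain ⟨Θ₁, m₁, Θ₂, m₂, hc⟩ := hν
  have hub : Mol.LocBdd u := hb
  have hum : Measurable u := Mol.psh_meas hu
  have hh : ContDiff ℝ ∞ (sep H) := sep_smooth hH
  have hPO : IsOpen (Prod3 O) := by
    have : Prod3 O = ⋂ j, (fun z : C3 => z j) ⁻¹' O j := by
      ext z
      simp [Prod3]
    rw [this]
    exact isOpen_iInter_of_finite fun j => (hO j).preimage (continuous_apply j)
  obtain ⟨κ, N, K', hκ, hN, hK', hKN, hNK, hKO', hκ1, hκs, hκ0, hκl⟩ := exists_cut hK hPO hKO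
  obtain ⟨hψs, hψu, hψl, hψt, hψb⟩ := Mol.exists_smooth hu hub
  have hpsd : ∀ z ∈ K', (Hess (sep H) z).PosSemidef := by
    intro z hz
    rw [Hess_sep hH]
    exact Matrix.PosSemidef.diagonal fun j => Complex.zero_le_real.2 (h0 j _ (hKO' hz j))
  have hdet : ∀ z, (Hess (sep H) z).det.re = ∏ j, lap (H j) (z j) := by
    intro z
    rw [Hess_sep hH, Matrix.det_diagonal, ← Complex.ofReal_prod, Complex.ofReal_re]
  -- bounds
  obtain ⟨R, hR⟩ := hK'.isBounded.subset_closedBall (0 : C3)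
  obtain ⟨M, hM⟩ := hub (R + 1)
  obtain ⟨M', hM'⟩ := hK'.exists_bound_of_continuousOn hh.continuous.continuousOn
  have hnorm : ∀ z ∈ K', ‖z‖ ≤ R := fun z hz => by
    have := hR hz
    rwa [mem_closedBall_zero_iff] at this
  have hψM : ∀ n, ∀ z ∈ K', |Mol.mol n u z| ≤ M := fun n z hz =>
    hψb R M hM n z (hnorm z hz)
  have huM : ∀ z ∈ K', |u z| ≤ M := fun z hz => hM z ((hnorm z hz).trans (by linarith))
  have hb1 : ∀ n, ∀ z ∈ K', |Mol.mol n u z - u z| ≤ M + M := fun n z hz =>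
    (abs_sub _ _).trans (add_le_add (hψM n z hz) (huM z hz))
  have hb2 : ∀ n, ∀ z ∈ K', |Mol.mol n u z - sep H z| ≤ M + M' := fun n z hz =>
    (abs_sub _ _).trans (add_le_add (hψM n z hz) (hM' z hz))
  -- monotonicity of `X'`
  have hXd : ContDiff ℝ ∞ (deriv X) := contDiff_deriv hX
  have hmono : Monotone (deriv X) := monotone_of_deriv_nonneg (hXd.differentiable (by simp)) hX2
  set c := deriv X (M + M') with hcdef
  have hcK : ∀ n, ∀ z ∈ K', deriv X (Mol.mol n u z - sep H z) ≤ c := fun n z hz =>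
    hmono ((le_abs_self _).trans (hb2 n z hz))
  have hsh : ∀ z ∈ K' \ N, u z < sep H z := by
    intro z hz
    have := hlt z (hKO' hz.1) fun h => hz.2 (hKN h)
    linarith
  have hev := Mol.eventually_mol_lt (Mol.psh_usc hu) hh.continuous hum hub (K' \ N)
    (hK'.diff hN) hsh
  have hst : ∀ᶠ n in atTop,
      ∫ z, κ z * X (Mol.mol n u z - sep H z) ∂ν -
        ∫ z, κ z * X (Mol.mol n u z - sep H z) * (Hess (sep H) z).det.re ≤
      ∫ z in K', (P2 Θ₂ z (((c * (Mol.mol n u z - u z) : ℝ) : ℂ) • Hess (sep H) z)).re ∂m₂ +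
      ∫ z in K', (P1 (sep H) Θ₁ z (((c * (Mol.mol n u z - u z) : ℝ) : ℂ) • Hess (sep H) z)).re ∂m₁ +
      ∫ z in K', (P0 (sep H) z (((c * (Mol.mol n u z - u z) : ℝ) : ℂ) • Hess (sep H) z)).re := by
    filter_upwards [hev] with n hn
    refine step hc hum hub hh hK' hpsd hN hκ hκ1 hκs hX hF hX0 hF0 hX1 hX2 hF1 hF2 (hψs n)
      (fun z => hess_psd (hψs n) z (hψl n z)) (hψu n) (fun z hz hzN => ?_) (hcK n) (hX1 _)
    have := hn z ⟨hz, hzN⟩
    linarith
  have hoff : ∀ z, z ∉ K' → κ z = 0 := fun z hz => by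
    by_contra h
    exact hz (hκs (subset_tsupport _ h))
  have hψc : ∀ n, Continuous (Mol.mol n u) := fun n => (hψs n).continuous
  have hdc : Continuous fun z => (Hess (sep H) z).det.re := by
    refine Complex.continuous_re.comp (Continuous.matrix_det ?_)
    exact continuous_pi fun j => continuous_pi fun k => continuous_Hess hh j k
  -- limits
  have l1 := limX (m := ν) (u := u) hc.fin hK' hh.continuous hκ.continuous hX.continuous
    (continuous_const (y := (1 : ℝ))) hψc hb2 hψt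
  have l2 := limX (m := (volume : Measure C3)) (u := u) (fun K hK _ => hK.measure_lt_top) hK'
    hh.continuous hκ.continuous hX.continuous hdc hψc hb2 hψt
  have t2 := lim0 (u := u) (pair2 (K := K') hc) hK' hh hum hψc hb1 hψt c
  have t1 := lim0 (u := u) (pair1 hc hh hpsd) hK' hh hum hψc hb1 hψt c
  have t0 := lim0 (u := u) (pair0 hh hpsd) hK' hh hum hψc hb1 hψt c
  have t := (t2.add t1).add t0
  have l := l1.sub l2
  have eK : ∀ (m : Measure C3) (f : C3 → ℝ) (w : C3 → ℝ),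
      ∫ z in K', κ z * X (f z - sep H z) * w z ∂m = ∫ z, κ z * X (f z - sep H z) * w z ∂m := by
    intro m f w
    refine setIntegral_eq_integral_of_forall_compl_eq_zero fun z hz => ?_
    rw [hoff z hz, zero_mul, zero_mul]
  have hfin := le_of_tendsto_of_tendsto l t (by
    filter_upwards [hst] with n hn
    rw [eK, eK]
    simp only [mul_one]
    exact hn)
  rw [add_zero, add_zero] at hfin
  have eO : ∀ (m : Measure C3) (w : C3 → ℝ),
      ∫ z in K', κ z * X (u z - sep H z) * w z ∂m = ∫ z in Prod3 O, X (u z - sep H z) * w z ∂m := by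
    intro m w
    rw [eK, ← integral_indicator hPO.measurableSet]
    refine integral_congr_ae (Eventually.of_forall fun z => ?_)
    simp only
    by_cases hz : z ∈ Prod3 O
    · rw [Set.indicator_of_mem hz]
      by_cases hzK : z ∈ K
      · rw [hκ1 z (hKN hzK), one_mul]
      · have h1 : X (u z - sep H z) = 0 := hX0 _ (by
          have := hlt z hz hzK
          linarith)
        rw [h1, mul_zero]
    · rw [Set.indicator_of_notMem hz, hoff z fun h => hz (hKO' h), zero_mul, zero_mul]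
  rw [eO, eO] at hfin
  simp only [mul_one, hdet] at hfin
  linarith

/-- the comparison lemma, in the form used for the barriers -/
theorem cmp {u : C3 → ℝ} (hu : Psh Set.univ u) (hb : ∀ R : ℝ, ∃ B : ℝ, ∀ z, ‖z‖ ≤ R → |u z| ≤ B)
    {ν : Measure C3} (hν : IsMA Set.univ u ν) {H : Fin 3 → ℂ → ℝ} (hH : ∀ j, ContDiff ℝ ∞ (H j))
    {O : Fin 3 → Set ℂ} (hO : ∀ j, IsOpen (O j)) (_hOb : ∀ j, Bornology.IsBounded (O j))
    (h0 : ∀ j, ∀ w ∈ O j, 0 ≤ lap (H j) w) {K : Set C3} (hK : IsCompact K) (hKO : K ⊆ Prod3 O)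
    {d : ℝ} (hd : 0 < d) (hlt : ∀ z ∈ Prod3 O, z ∉ K → u z ≤ sep H z - d) :
    ∃ X : ℝ → ℝ, Continuous X ∧ (∀ t ≤ 0, X t = 0) ∧ (∀ t > 0, 0 < X t) ∧
      ∫ z in Prod3 O, X (u z - sep H z) ∂ν ≤
        ∫ z in Prod3 O, X (u z - sep H z) * ∏ j, lap (H j) (z j) :=
  cmp_aux hu hb hν hH hO h0 hK hKO hd hlt

end KOL
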