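import Pool.Agent.KOL.BarF
import Pool.Agent.KOL.Cmp

/-! # Project KOL: row BAR without hypotheses -/

set_option autoImplicit false

namespace KOL

theorem cmp_stmt : CMP_stmt := fun _ hu hb _ hν _ hH _ hO hOb h0 _ hK hKO _ hd hlt =>
  cmp hu hb hν hH hO hOb h0 hK hKO hd hlt

/-- **Row BAR** -/
theorem bar_stmt : BAR_stmt := bar_of cmp_stmt

end KOL
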