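import Pool.Agent.KOL.Mol

/-!
# Project KOL: maximum principles on discs and on periodic strips
-/

set_option autoImplicit false

open MeasureTheory Complex Filter Topology
open scoped ContDiff Real

namespace KOL.Max

open KOL.Mol

theorem meas_circ (w : ℂ) (ρ : ℝ) : Measurable fun θ : ℝ => w + ρ * exp (θ * I) := by
  have : Continuous fun θ : ℝ => w + ρ * exp (θ * I) := by fun_prop
  exact this.measurable

theorem circ_mem (w : ℂ) (ρ : ℝ) (hρ : 0 ≤ ρ) (θ : ℝ) :
    w + ρ * exp (θ * I) ∈ Metric.closedBall w ρ := by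
  rw [Metric.mem_closedBall, dist_eq_norm, add_sub_cancel_left, norm_mul, norm_exp_I, mul_one,
    norm_real, Real.norm_of_nonneg hρ]

theorem circ_int {f : ℂ → ℝ} (hf : Measurable f) (w : ℂ) (ρ : ℝ) (hρ : 0 ≤ ρ) (B : ℝ)
    (hB : ∀ v ∈ Metric.closedBall w ρ, |f v| ≤ B) :
    IntegrableOn (fun θ : ℝ => f (w + ρ * exp (θ * I))) (Set.Ioc 0 (2 * π)) := by
  refine Measure.integrableOn_of_bounded (M := B) ?_ (hf.comp (meas_circ w ρ)).aestronglyMeasurable
    (Eventually.of_forall fun θ => ?_)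
  · rw [Real.volume_Ioc]
    exact ENNReal.ofReal_ne_top
  · exact hB _ (circ_mem w ρ hρ θ)

/-- a rightmost maximum point violates the submean inequality -/
theorem core {f : ℂ → ℝ} (hf : Measurable f) (w0 : ℂ) (ρ : ℝ) (hρ : 0 < ρ) (m B : ℝ)
    (hB : ∀ w ∈ Metric.closedBall w0 ρ, |f w| ≤ B)
    (h1 : ∀ w ∈ Metric.closedBall w0 ρ, f w ≤ m)
    (h2 : ∀ w ∈ Metric.closedBall w0 ρ, w0.re < w.re → f w < m)
    (h3 : m ≤ (2 * π)⁻¹ * ∫ θ in (0 : ℝ)..(2 * π), f (w0 + ρ * exp (θ * I))) : False := by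
  have hint := circ_int hf w0 ρ hρ.le B hB
  have hmi : IntegrableOn (fun _ : ℝ => m) (Set.Ioc 0 (2 * π)) :=
    integrableOn_const (by rw [Real.volume_Ioc]; exact ENNReal.ofReal_ne_top)
  have h4 : 2 * π * m ≤ ∫ θ in Set.Ioc (0 : ℝ) (2 * π), f (w0 + ρ * exp (θ * I)) := by
    rw [intervalIntegral.integral_of_le (by positivity)] at h3
    have := mul_le_mul_of_nonneg_left h3 Real.two_pi_pos.le
    rwa [mul_inv_cancel_left₀ (by positivity)] at this
  have h5 : ∫ θ in Set.Ioc (0 : ℝ) (2 * π), (m - f (w0 + ρ * exp (θ * I))) ≤ 0 := by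
    rw [integral_sub hmi hint, setIntegral_const, smul_eq_mul, Measure.real, Real.volume_Ioc,
      ENNReal.toReal_ofReal (by simpa using Real.two_pi_pos.le), sub_zero]
    linarith
  have hnn : 0 ≤ᵐ[volume.restrict (Set.Ioc (0 : ℝ) (2 * π))]
      fun θ => m - f (w0 + ρ * exp (θ * I)) :=
    Eventually.of_forall fun θ => sub_nonneg.2 (h1 _ (circ_mem w0 ρ hρ.le θ))
  have h6 : ∫ θ in Set.Ioc (0 : ℝ) (2 * π), (m - f (w0 + ρ * exp (θ * I))) = 0 :=
    le_antisymm h5 (integral_nonneg_of_ae hnn)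
  rw [integral_eq_zero_iff_of_nonneg_ae hnn (hmi.sub hint)] at h6
  have h7 : ∀ᵐ θ ∂(volume.restrict (Set.Ioo (0 : ℝ) (π / 2))), False := by
    have h8 : volume.restrict (Set.Ioo (0 : ℝ) (π / 2)) ≤
        volume.restrict (Set.Ioc (0 : ℝ) (2 * π)) := by
      have hsub : Set.Ioo (0 : ℝ) (π / 2) ⊆ Set.Ioc 0 (2 * π) := by
        intro x hx
        exact ⟨hx.1, by linarith [hx.2, Real.pi_pos]⟩
      exact Measure.restrict_mono hsub le_rfl
    have h9 := (ae_mono h8) h6
    filter_upwards [h9, ae_restrict_mem measurableSet_Ioo] with θ h10 h11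
    have h12 := h2 _ (circ_mem w0 ρ hρ.le θ) (by
      have hc : 0 < Real.cos θ := Real.cos_pos_of_mem_Ioo
        ⟨by linarith [h11.1, Real.pi_pos], h11.2⟩
      have e : (w0 + ρ * exp (θ * I)).re = w0.re + ρ * Real.cos θ := by
        rw [add_re, re_ofReal_mul, exp_ofReal_mul_I_re]
      rw [e]
      have := mul_pos hρ hc
      linarith)
    have h13 : m - f (w0 + ρ * exp (θ * I)) = 0 := h10
    linarith
  rw [ae_iff] at h7
  simp only [not_false_eq_true, Set.ofPred_true, Measure.restrict_apply_univ, Real.volume_Ioo,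
    sub_zero, ENNReal.ofReal_eq_zero] at h7
  linarith [Real.pi_pos]

/-- Maximum principle on a compact set `S` with exceptional set `B`. -/
theorem max_compact {f : ℂ → ℝ} (hf : Measurable f) (husc : UpperSemicontinuous f)
    (S B : Set ℂ) (hS : IsCompact S)
    (hSB : ∀ w ∈ S, w ∉ B → ∃ ρ > 0, Metric.closedBall w ρ ⊆ S)
    (hb : ∃ b : ℝ, ∀ w ∈ S, |f w| ≤ b)
    (hs : ∀ (w : ℂ) (ρ : ℝ), 0 < ρ → f w ≤ (2 * π)⁻¹ * ∫ θ in (0 : ℝ)..(2 * π), f (w + ρ * exp (θ * I)))
    (M : ℝ) (hM : ∀ w ∈ B, f w ≤ M) : ∀ w ∈ S, f w ≤ M := by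
  intro w1 hw1
  by_contra hlt
  push Not at hlt
  obtain ⟨wm, hwm, hmax⟩ := UpperSemicontinuousOn.exists_isMaxOn ⟨w1, hw1⟩ hS
    (husc.upperSemicontinuousOn S)
  have hKc : IsCompact (S ∩ {w | f wm ≤ f w}) := by
    refine hS.inter_right ?_
    have := husc.isClosed_preimage (f wm)
    exact this
  obtain ⟨w0, hw0, hre⟩ := hKc.exists_isMaxOn ⟨wm, hwm, (by simp : wm ∈ {w | f wm ≤ f w})⟩
    (continuous_re.continuousOn (s := S ∩ {w | f wm ≤ f w}))
  have hm : M < f wm := lt_of_lt_of_le hlt (hmax hw1)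
  have hw0B : w0 ∉ B := fun h => absurd (hM w0 h) (not_le.2 (lt_of_lt_of_le hm hw0.2))
  obtain ⟨ρ, hρ, hball⟩ := hSB w0 hw0.1 hw0B
  obtain ⟨b, hb⟩ := hb
  refine core hf w0 ρ hρ (f wm) b (fun w hw => hb w (hball hw)) (fun w hw => hmax (hball hw))
    (fun w hw hlt' => ?_) (hw0.2.trans (hs w0 ρ hρ))
  by_contra hge
  push Not at hge
  have := hre (⟨hball hw, hge⟩ : w ∈ S ∩ {w | f wm ≤ f w})
  exact absurd this (not_le.2 hlt')

/-- Maximum principle on the strip `a ≤ Re w ≤ b` for functions with period `i`. -/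
theorem max_strip {f : ℂ → ℝ} (hf : Measurable f) (husc : UpperSemicontinuous f)
    (a b : ℝ) (hper : ∀ w, f (w + I) = f w)
    (hb : ∃ B : ℝ, ∀ w : ℂ, a ≤ w.re → w.re ≤ b → |f w| ≤ B)
    (hs : ∀ (w : ℂ) (ρ : ℝ), 0 < ρ → f w ≤ (2 * π)⁻¹ * ∫ θ in (0 : ℝ)..(2 * π), f (w + ρ * exp (θ * I)))
    (M : ℝ) (hMa : ∀ w : ℂ, w.re = a → f w ≤ M) (hMb : ∀ w : ℂ, w.re = b → f w ≤ M) :
    ∀ w : ℂ, a ≤ w.re → w.re ≤ b → f w ≤ M := by
  intro w1 hw1a hw1b
  by_contra hlt
  push Not at hlt
  -- reduction modulo the period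
  have hperZ : ∀ (n : ℤ) (w : ℂ), f (w + n * I) = f w := by
    intro n
    induction n using Int.induction_on with
    | zero => intro w; simp
    | succ n ih =>
      intro w
      have : w + ((n : ℤ) + 1 : ℤ) * I = (w + (n : ℤ) * I) + I := by push_cast; ring
      rw [this, hper, ih]
    | pred n ih =>
      intro w
      have h1 := hper (w + ((-(n : ℤ) - 1 : ℤ) : ℂ) * I)
      have : w + ((-(n : ℤ) - 1 : ℤ) : ℂ) * I + I = w + ((-(n : ℤ) : ℤ) : ℂ) * I := by
        push_cast; ring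
      rw [this, ih] at h1
      exact h1.symm
  have hred : ∀ w : ℂ, ∃ w' : ℂ, w'.re = w.re ∧ 0 ≤ w'.im ∧ w'.im ≤ 1 ∧ f w' = f w := by
    intro w
    refine ⟨w + (-⌊w.im⌋ : ℤ) * I, ?_, ?_, ?_, hperZ _ _⟩
    · simp
    · simp only [Int.cast_neg, add_im, mul_im, neg_re, intCast_re, I_im, mul_one, neg_im,
        intCast_im, neg_zero, I_re, mul_zero, add_zero]
      linarith [Int.floor_le w.im]
    · simp only [Int.cast_neg, add_im, mul_im, neg_re, intCast_re, I_im, mul_one, neg_im,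
        intCast_im, neg_zero, I_re, mul_zero, add_zero]
      linarith [Int.lt_floor_add_one w.im]
  set S : Set ℂ := {w | a ≤ w.re ∧ w.re ≤ b ∧ 0 ≤ w.im ∧ w.im ≤ 1} with hSdef
  have hS : IsCompact S := by
    have : S = equivRealProdCLM.symm '' (Set.Icc a b ×ˢ Set.Icc (0 : ℝ) 1) := by
      ext w
      constructor
      · intro hw
        exact ⟨(w.re, w.im), ⟨⟨hw.1, hw.2.1⟩, ⟨hw.2.2.1, hw.2.2.2⟩⟩, by
          apply Complex.ext <;> simp⟩
      · rintro ⟨p, hp, rfl⟩
        obtain ⟨⟨h1, h2⟩, h3, h4⟩ := hp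
        exact ⟨by simpa using h1, by simpa using h2, by simpa using h3, by simpa using h4⟩
    rw [this]
    exact (isCompact_Icc.prod isCompact_Icc).image equivRealProdCLM.symm.continuous
  obtain ⟨w1', e1, e2, e3, e4⟩ := hred w1
  have hw1' : w1' ∈ S := ⟨by rw [e1]; exact hw1a, by rw [e1]; exact hw1b, e2, e3⟩
  obtain ⟨wm, hwm, hmax⟩ := UpperSemicontinuousOn.exists_isMaxOn ⟨w1', hw1'⟩ hS
    (husc.upperSemicontinuousOn S)
  have hglob : ∀ w : ℂ, a ≤ w.re → w.re ≤ b → f w ≤ f wm := by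
    intro w ha hb'
    obtain ⟨w', g1, g2, g3, g4⟩ := hred w
    rw [← g4]
    exact hmax (⟨by rw [g1]; exact ha, by rw [g1]; exact hb', g2, g3⟩ : w' ∈ S)
  have hKc : IsCompact (S ∩ {w | f wm ≤ f w}) := by
    refine hS.inter_right ?_
    have := husc.isClosed_preimage (f wm)
    exact this
  obtain ⟨w0, hw0, hre⟩ := hKc.exists_isMaxOn ⟨wm, hwm, (by simp : wm ∈ {w | f wm ≤ f w})⟩
    (continuous_re.continuousOn (s := S ∩ {w | f wm ≤ f w}))
  have hm : M < f wm := lt_of_lt_of_le (by rw [e4]; exact hlt) (hmax hw1')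
  have hw0a : w0.re ≠ a := fun h => absurd (hMa w0 h) (not_le.2 (lt_of_lt_of_le hm hw0.2))
  have hw0b : w0.re ≠ b := fun h => absurd (hMb w0 h) (not_le.2 (lt_of_lt_of_le hm hw0.2))
  have ha : a < w0.re := lt_of_le_of_ne hw0.1.1 (Ne.symm hw0a)
  have hb1 : w0.re < b := lt_of_le_of_ne hw0.1.2.1 hw0b
  obtain ⟨ρ, hρ, hρa, hρb⟩ : ∃ ρ > 0, a ≤ w0.re - ρ ∧ w0.re + ρ ≤ b :=
    ⟨min (w0.re - a) (b - w0.re), lt_min (by linarith) (by linarith),
      by linarith [min_le_left (w0.re - a) (b - w0.re)],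
      by linarith [min_le_right (w0.re - a) (b - w0.re)]⟩
  have hball : ∀ w ∈ Metric.closedBall w0 ρ, a ≤ w.re ∧ w.re ≤ b := by
    intro w hw
    rw [Metric.mem_closedBall, dist_eq_norm] at hw
    have h1 := (abs_re_le_norm (w - w0)).trans hw
    rw [sub_re, abs_le] at h1
    constructor <;> linarith [h1.1, h1.2]
  obtain ⟨B, hB⟩ := hb
  refine core hf w0 ρ hρ (f wm) B (fun w hw => hB w (hball w hw).1 (hball w hw).2)
    (fun w hw => hglob w (hball w hw).1 (hball w hw).2) (fun w hw hlt' => ?_)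
    (hw0.2.trans (hs w0 ρ hρ))
  by_contra hge
  push Not at hge
  obtain ⟨w', g1, g2, g3, g4⟩ := hred w
  have := hre (⟨⟨by rw [g1]; exact (hball w hw).1, by rw [g1]; exact (hball w hw).2, g2, g3⟩,
    by rw [Set.mem_ofPred_eq, g4]; exact hge⟩ : w' ∈ S ∩ {w | f wm ≤ f w})
  rw [Set.mem_ofPred_eq, g1] at this
  exact absurd this (not_le.2 hlt')

/-! ### plurisubharmonic functions -/

theorem update_circ (z : C3) (j : Fin 3) (w : ℂ) (ρ θ : ℝ) :
    Function.update z j w + exp (θ * I) • ((ρ : ℂ) • ev j) =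
      Function.update z j (w + ρ * exp (θ * I)) := by
  funext k
  by_cases h : k = j
  · subst h
    simp [ev, mul_comm]
  · simp [ev, Function.update_of_ne h, Pi.single_eq_of_ne h]

theorem slice_submean {u : C3 → ℝ} (hu : Psh Set.univ u) (z : C3) (j : Fin 3) (w : ℂ) (ρ : ℝ) :
    u (Function.update z j w) ≤
      (2 * π)⁻¹ * ∫ θ in (0 : ℝ)..(2 * π), u (Function.update z j (w + ρ * exp (θ * I))) := by
  have h := psh_submean hu (Function.update z j w) ((ρ : ℂ) • ev j)
  unfold cmean at h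
  simp only [update_circ] at h
  exact h

theorem slice_cont (z : C3) (j : Fin 3) : Continuous fun w : ℂ => Function.update z j w :=
  continuous_const.update j continuous_id

/-- the disc maximum principle -/
theorem max_disc {u : C3 → ℝ} (hu : Psh Set.univ u) (hb : LocBdd u) (z : C3) (j : Fin 3)
    (r M : ℝ) (h : ∀ ζ : ℂ, ‖ζ‖ = r → u (Function.update z j ζ) ≤ M) (hz : ‖z j‖ ≤ r) :
    u z ≤ M := by
  have husc : UpperSemicontinuous fun w : ℂ => u (Function.update z j w) :=
    (psh_usc hu).comp (slice_cont z j)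
  have key := max_compact (f := fun w : ℂ => u (Function.update z j w)) husc.measurable husc
    (Metric.closedBall 0 r) {w | ‖w‖ = r} (isCompact_closedBall 0 r) ?_ ?_
    (fun w ρ _ => slice_submean hu z j w ρ) M (fun w hw => h w hw) (z j)
    (by rw [mem_closedBall_zero_iff]; exact hz)
  · simpa using key
  · intro w hw hw'
    rw [mem_closedBall_zero_iff] at hw
    have hlt : ‖w‖ < r := lt_of_le_of_ne hw hw'
    refine ⟨r - ‖w‖, by linarith, fun v hv => ?_⟩
    rw [Metric.mem_closedBall, dist_eq_norm] at hv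
    rw [mem_closedBall_zero_iff]
    calc ‖v‖ = ‖(v - w) + w‖ := by rw [sub_add_cancel]
      _ ≤ ‖v - w‖ + ‖w‖ := norm_add_le _ _
      _ ≤ r := by linarith
  · obtain ⟨B, hB⟩ := hb (max ‖z‖ r)
    refine ⟨B, fun w hw => hB _ ?_⟩
    rw [mem_closedBall_zero_iff] at hw
    rw [pi_norm_le_iff_of_nonneg (le_max_of_le_left (norm_nonneg _))]
    intro k
    by_cases hk : k = j
    · subst hk
      rw [Function.update_self]
      exact hw.trans (le_max_right _ _)
    · rw [Function.update_of_ne hk]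
      exact (norm_le_pi_norm z k).trans (le_max_left _ _)

/-- the harmonic correction on the first coordinate -/
noncomputable def hcor (z : C3) (c p q : ℝ) (w : ℂ) : ℝ :=
  2 * (w.re - c) ^ 2 - (p * w.re + q) - sq (Function.update z 0 w)

theorem sq_update (z : C3) (w : ℂ) :
    sq (Function.update z 0 w) = w.re ^ 2 + w.im ^ 2 + (normSq (z 1) + normSq (z 2)) := by
  unfold sq
  rw [Fin.sum_univ_three]
  simp [normSq_apply w]
  ring

theorem hcor_circ (z : C3) (c p q : ℝ) (w : ℂ) (ρ θ : ℝ) :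
    hcor z c p q (w + ρ * exp (θ * I)) = hcor z c p q w +
      (2 * ρ * w.re - (4 * c + p) * ρ) * Real.cos θ - 2 * ρ * w.im * Real.sin θ +
      ρ ^ 2 * (Real.cos θ ^ 2 - Real.sin θ ^ 2) := by
  have e1 : (w + ρ * exp (θ * I)).re = w.re + ρ * Real.cos θ := by
    rw [add_re, re_ofReal_mul, exp_ofReal_mul_I_re]
  have e2 : (w + ρ * exp (θ * I)).im = w.im + ρ * Real.sin θ := by
    rw [add_im, im_ofReal_mul, exp_ofReal_mul_I_im]
  unfold hcor
  rw [sq_update, sq_update, e1, e2]
  ring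

theorem hcor_mean (z : C3) (c p q : ℝ) (w : ℂ) (ρ : ℝ) :
    (2 * π)⁻¹ * ∫ θ in (0 : ℝ)..(2 * π), hcor z c p q (w + ρ * exp (θ * I)) =
      hcor z c p q w := by
  simp only [hcor_circ]
  rw [intervalIntegral.integral_add, intervalIntegral.integral_sub,
    intervalIntegral.integral_add, intervalIntegral.integral_const,
    intervalIntegral.integral_const_mul, intervalIntegral.integral_const_mul,
    intervalIntegral.integral_const_mul, intervalIntegral.integral_sub,
    int_cos_sq, int_sin_sq, integral_cos, integral_sin]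
  · simp
    field_simp
  all_goals
    refine Continuous.intervalIntegrable ?_ _ _
    fun_prop

theorem sq_cont : Continuous sq := by
  unfold sq
  refine continuous_finsetSum _ fun j _ => ?_
  exact continuous_normSq.comp (continuous_apply j)

theorem hcor_cont (z : C3) (c p q : ℝ) : Continuous (hcor z c p q) := by
  unfold hcor
  have := sq_cont.comp (slice_cont z 0)
  have h2 : Continuous fun w : ℂ => w.re := continuous_re
  exact (((h2.sub continuous_const).pow 2).const_mul 2 |>.sub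
    ((h2.const_mul p).add continuous_const)).sub this

theorem locBdd_sq {φ : C3 → ℝ} (hb : ∃ B, ∀ z, |φ z| ≤ B) : LocBdd fun z => φ z + sq z := by
  obtain ⟨B, hB⟩ := hb
  intro R
  obtain ⟨C, hC⟩ := (isCompact_closedBall (0 : C3) R).exists_bound_of_continuousOn
    sq_cont.continuousOn
  refine ⟨B + C, fun z hz => (abs_add_le _ _).trans (add_le_add (hB z) ?_)⟩
  exact hC z (by rw [mem_closedBall_zero_iff]; exact hz)

/-- the strip maximum principle for bounded `ω`-plurisubharmonic functions which are periodic in the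
imaginary direction of the first coordinate -/
theorem max_strip_psh {φ : C3 → ℝ} (hφ : Psh Set.univ fun z => φ z + sq z)
    (hb : ∃ B, ∀ z, |φ z| ≤ B) (hper : ∀ z, φ (z + I • ev 0) = φ z) (z : C3)
    (a b c p q : ℝ)
    (hA : ∀ y : ℝ, φ (Function.update z 0 (a + y * I)) + 2 * (a - c) ^ 2 ≤ p * a + q)
    (hB : ∀ y : ℝ, φ (Function.update z 0 (b + y * I)) + 2 * (b - c) ^ 2 ≤ p * b + q) :
    ∀ x y : ℝ, a ≤ x → x ≤ b →
      φ (Function.update z 0 (x + y * I)) + 2 * (x - c) ^ 2 ≤ p * x + q := by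
  set f : ℂ → ℝ := fun w => (φ (Function.update z 0 w) + sq (Function.update z 0 w)) +
    hcor z c p q w with hf
  have hfe : ∀ w, f w = φ (Function.update z 0 w) + 2 * (w.re - c) ^ 2 - (p * w.re + q) := by
    intro w
    simp only [hf, hcor]
    ring
  have husc : UpperSemicontinuous f :=
    ((psh_usc hφ).comp (slice_cont z 0)).add (hcor_cont z c p q).upperSemicontinuous
  have hlb := locBdd_sq hb
  have key := max_strip (f := f) husc.measurable husc a b ?_ ?_ ?_ 0 ?_ ?_
  · intro x y hx1 hx2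
    have h1 := key (x + y * I) (by simpa using hx1) (by simpa using hx2)
    rw [hfe] at h1
    simp only [add_re, ofReal_re, mul_re, I_re, mul_zero, ofReal_im, I_im, mul_one, sub_self,
      add_zero] at h1
    linarith
  · intro w
    rw [hfe, hfe]
    have e1 : Function.update z 0 (w + I) = Function.update z 0 w + I • ev 0 := by
      funext k
      by_cases h : k = 0
      · subst h
        simp [ev]
      · simp [ev, Function.update_of_ne h, Pi.single_eq_of_ne h]
    rw [e1, hper]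
    simp
  · obtain ⟨B, hB'⟩ := hb
    refine ⟨B + (2 * (|a| + |b| + |c|) ^ 2 + (|p| * (|a| + |b|) + |q|)), fun w h1 h2 => ?_⟩
    rw [hfe]
    have hw : |w.re| ≤ |a| + |b| := by
      rw [abs_le]
      constructor
      · linarith [neg_abs_le a, abs_nonneg b]
      · linarith [le_abs_self b, abs_nonneg a]
    have h3 : |w.re - c| ≤ |a| + |b| + |c| := (abs_sub _ _).trans (by linarith)
    have h4 : |2 * (w.re - c) ^ 2| ≤ 2 * (|a| + |b| + |c|) ^ 2 := by
      rw [abs_mul, abs_two, abs_pow]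
      exact mul_le_mul_of_nonneg_left (pow_le_pow_left₀ (abs_nonneg _) h3 2) zero_le_two
    have h5 : |p * w.re + q| ≤ |p| * (|a| + |b|) + |q| := by
      refine (abs_add_le _ _).trans (add_le_add ?_ le_rfl)
      rw [abs_mul]
      exact mul_le_mul_of_nonneg_left hw (abs_nonneg _)
    calc |φ (Function.update z 0 w) + 2 * (w.re - c) ^ 2 - (p * w.re + q)|
        ≤ |φ (Function.update z 0 w) + 2 * (w.re - c) ^ 2| + |p * w.re + q| := abs_sub _ _
      _ ≤ |φ (Function.update z 0 w)| + |2 * (w.re - c) ^ 2| + |p * w.re + q| :=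
          add_le_add (abs_add_le _ _) le_rfl
      _ ≤ _ := by
          have := hB' (Function.update z 0 w)
          linarith
  · intro w ρ hρ
    have h1 := slice_submean hφ z 0 w ρ
    have h2 := hcor_mean z c p q w ρ
    have hi1 : IntervalIntegrable (fun θ : ℝ =>
        φ (Function.update z 0 (w + ρ * exp (θ * I))) +
          sq (Function.update z 0 (w + ρ * exp (θ * I)))) volume 0 (2 * π) := by
      rw [intervalIntegrable_iff_integrableOn_Ioc_of_le (by positivity)]
      obtain ⟨B, hB'⟩ := hlb (‖z‖ + (‖w‖ + ρ))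
      refine circ_int (f := fun v => φ (Function.update z 0 v) + sq (Function.update z 0 v))
        ((psh_meas hφ).comp (slice_cont z 0).measurable) w ρ hρ.le B fun v hv => hB' _ ?_
      rw [Metric.mem_closedBall, dist_eq_norm] at hv
      have hv2 : ‖v‖ ≤ ‖w‖ + ρ := by
        calc ‖v‖ = ‖w + (v - w)‖ := by rw [add_sub_cancel]
          _ ≤ ‖w‖ + ‖v - w‖ := norm_add_le _ _
          _ ≤ _ := by linarith
      rw [pi_norm_le_iff_of_nonneg (by positivity)]
      intro k
      by_cases hk : k = 0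
      · subst hk
        rw [Function.update_self]
        linarith [norm_nonneg z]
      · rw [Function.update_of_ne hk]
        linarith [norm_le_pi_norm z k, norm_nonneg w]
    have hi2 : IntervalIntegrable (fun θ : ℝ => hcor z c p q (w + ρ * exp (θ * I)))
        volume 0 (2 * π) := by
      refine Continuous.intervalIntegrable ?_ _ _
      exact (hcor_cont z c p q).comp (by fun_prop)
    have h3 : ∫ θ in (0 : ℝ)..(2 * π), f (w + ρ * exp (θ * I)) =
        (∫ θ in (0 : ℝ)..(2 * π), (φ (Function.update z 0 (w + ρ * exp (θ * I))) +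
          sq (Function.update z 0 (w + ρ * exp (θ * I))))) +
        ∫ θ in (0 : ℝ)..(2 * π), hcor z c p q (w + ρ * exp (θ * I)) :=
      intervalIntegral.integral_add hi1 hi2
    rw [h3, mul_add, h2]
    exact add_le_add h1 le_rfl
  · intro w hw
    rw [hfe]
    have e : w = (a : ℂ) + (w.im : ℂ) * I := by
      rw [← hw]; exact (re_add_im w).symm
    have h1 := hA w.im
    rw [← e] at h1
    rw [hw]
    linarith
  · intro w hw
    rw [hfe]
    have e : w = (b : ℂ) + (w.im : ℂ) * I := by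
      rw [← hw]; exact (re_add_im w).symm
    have h1 := hB w.im
    rw [← e] at h1
    rw [hw]
    linarith

end KOL.Max
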