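import Pool.Agent.KOL.Line
import Pool.Agent.KOL.Max

/-!
# Project KOL: row STRIP
-/

set_option autoImplicit false

open MeasureTheory Complex Filter Topology
open scoped ContDiff Real

namespace KOL

open KOL.Mol KOL.Max

theorem latt_I : latt 0 (Pi.single 0 1) = I • ev 0 := by
  funext j
  by_cases h : j = 0
  · subst h
    simp [latt, ev]
  · simp [latt, ev, h]

theorem OmegaPsh.perI {φ : C3 → ℝ} (hφ : OmegaPsh φ) (z : C3) : φ (z + I • ev 0) = φ z := by
  rw [← latt_I]
  exact hφ.per _ _ z

theorem psi_eq (φ : C3 → ℝ) (z : C3) :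
    psi φ z = φ z + 2 * (z 0).re ^ 2 + (normSq (z 1) + normSq (z 2)) := by
  unfold psi sq
  rw [Fin.sum_univ_three, normSq_apply (z 0)]
  ring

/-- the maximum principle on strips -/
theorem strip : STRIP_stmt := by
  intro φ hφ a b A B hab z hA hB ha hb
  set K := normSq (z 1) + normSq (z 2) with hK
  set p := (B - A) / (b - a) with hp
  have hpa : p * b + (A - K - p * a) = B - K := by
    rw [hp]
    have : b - a ≠ 0 := (sub_pos.2 hab).ne'
    field_simp
    ring
  have h1 : ∀ y : ℝ, φ (Function.update z 0 (a + y * I)) + 2 * (a - 0) ^ 2 ≤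
      p * a + (A - K - p * a) := by
    intro y
    have h := hA (Function.update z 0 (a + y * I)) (by simp) (by simp) (by simp)
    rw [psi_eq] at h
    simp only [Function.update_self, add_re, ofReal_re, mul_re, I_re, mul_zero, ofReal_im, I_im,
      mul_one, sub_self, add_zero, ne_eq, one_ne_zero, not_false_eq_true,
      Function.update_of_ne, Fin.reduceEq] at h
    linarith
  have h2 : ∀ y : ℝ, φ (Function.update z 0 (b + y * I)) + 2 * (b - 0) ^ 2 ≤
      p * b + (A - K - p * a) := by
    intro y
    have h := hB (Function.update z 0 (b + y * I)) (by simp) (by simp) (by simp)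
    rw [psi_eq] at h
    simp only [Function.update_self, add_re, ofReal_re, mul_re, I_re, mul_zero, ofReal_im, I_im,
      mul_one, sub_self, add_zero, ne_eq, one_ne_zero, not_false_eq_true,
      Function.update_of_ne, Fin.reduceEq] at h
    rw [hpa]
    linarith
  have key := max_strip_psh hφ.psh hφ.bdd hφ.perI z a b 0 p (A - K - p * a) h1 h2
    (z 0).re (z 0).im ha hb
  rw [re_add_im, Function.update_eq_self] at key
  rw [psi_eq, mul_comm (B - A), div_mul_eq_mul_div]
  have e : ((z 0).re - a) * (B - A) / (b - a) = p * ((z 0).re - a) := by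
    rw [hp]
    ring
  rw [e]
  linarith

end KOL
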