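import Pool.Agent.KOL.Bar4
import Pool.Agent.KOL.Max
import Pool.Agent.KOL.Strip

set_option autoImplicit false
noncomputable section
namespace KOL
open MeasureTheory Set Filter Matrix
open scoped ContDiff Topology ComplexOrder

/-- **Row BAR** from the comparison principle -/
theorem bar_of (hcmp : CMP_stmt) : BAR_stmt := by
  have hstrip : STRIP_stmt := strip
  intro φ ν hφ hν X W q1 q2 bp bm Δ hW hq1 hq2 hΔ hp hm h
  set β := (bp + bm) / 2 - Δ / 2 with hβ
  -- the torus
  have h1 : ∀ z : C3, (z 0).re = X → ‖z 1‖ = Real.exp (-q1) → ‖z 2‖ = Real.exp (-q2) →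
      psi φ z ≤ β := by
    intro z hz0 hz1 hz2
    refine le_of_forall_pos_le_add fun η hη => ?_
    have h2 := bar_torus hcmp hstrip hφ hν hW hq1 hq2 hΔ hp hm h
      (ε := η / (2 * W ^ 2)) (δ := η / 2) (by positivity) (by positivity) hz0 hz1 hz2
    have h3 : η / (2 * W ^ 2) * W ^ 2 = η / 2 := by field_simp
    rw [h3] at h2
    linarith
  have hu : Psh univ fun z => φ z + sq z := hφ.psh
  have hb := locBdd_omega hφ
  -- one disc
  have h2 : ∀ z : C3, (z 0).re = X → ‖z 1‖ = Real.exp (-q1) → ‖z 2‖ ≤ Real.exp (-q2) →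
      psi φ z ≤ β := by
    intro z hz0 hz1 hz2
    have h3 := Max.max_disc hu hb z 2 (Real.exp (-q2)) (β - ((z 0).re ^ 2 - (z 0).im ^ 2)) ?_ hz2
    · unfold psi
      linarith
    · intro ζ hζ
      have h4 := h1 (Function.update z 2 ζ) (by simpa using hz0) (by simpa using hz1)
        (by simpa using hζ)
      unfold psi at h4
      have h5 : (Function.update z 2 ζ : C3) 0 = z 0 := by simp
      rw [h5] at h4
      linarith
  intro z hz0 hz1 hz2
  have h3 := Max.max_disc hu hb z 1 (Real.exp (-q1)) (β - ((z 0).re ^ 2 - (z 0).im ^ 2)) ?_ hz1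
  · unfold psi
    linarith
  · intro ζ hζ
    have h4 := h2 (Function.update z 1 ζ) (by simpa using hz0) (by simpa using hζ)
      (by simpa using hz2)
    unfold psi at h4
    have h5 : (Function.update z 1 ζ : C3) 0 = z 0 := by simp
    rw [h5] at h4
    linarith

end KOL
end
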