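import Pool.Agent.KOL.Line
import Pool.Agent.Kolodziej.Atoms

/-!
# Project KOL: the blocks of atoms (row BLK)
-/

set_option autoImplicit false

namespace KOL

open MeasureTheory Matrix Set
open Pool.Agent.Kolodziej

noncomputable section

lemma atoms_ncard (w : ℝ) (K : ℕ) (L : ℝ) (n : ℕ) :
    ∀ (U : ℝ → ℝ) (T : ℝ) (j : ℤ) (q1 q2 : ℝ), (atoms w K L n U T j q1 q2).ncard + 1 ≤ 2 ^ n := by
  induction n with
  | zero =>
    intro U T j q1 q2
    show (∅ : Set Atom).ncard + 1 ≤ 2 ^ 0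
    simp
  | succ n ih =>
    intro U T j q1 q2
    have hsub : atoms w K L (n + 1) U T j q1 q2 ⊆
        ({(⟨U, j * w, w, q1, q2⟩ : Atom)} ∪
          atoms w K L n (topple w U (j * w)) (T + rr w U (j * w)) (j + 1) (q1 / L ^ (3 ^ (n + 1))) (q2 / L)) ∪
          atoms w K L n (topple w U (j * w)) (T + rr w U (j * w)) (j - 1) (q1 / L) (q2 / L ^ (3 ^ (n + 1))) := by
      intro a ha
      rw [mem_atoms_succ] at ha
      rcases ha.2 with ⟨_, h⟩ | h | h
      · exact Or.inl (Or.inl h)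
      · exact Or.inl (Or.inr h)
      · exact Or.inr h
    have f1 := atoms_finite w K L n (topple w U (j * w)) (T + rr w U (j * w)) (j + 1)
      (q1 / L ^ (3 ^ (n + 1))) (q2 / L)
    have f2 := atoms_finite w K L n (topple w U (j * w)) (T + rr w U (j * w)) (j - 1)
      (q1 / L) (q2 / L ^ (3 ^ (n + 1)))
    have h1 := Set.ncard_le_ncard hsub (((Set.finite_singleton _).union f1).union f2)
    have h2 := Set.ncard_union_le ({(⟨U, j * w, w, q1, q2⟩ : Atom)} ∪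
          atoms w K L n (topple w U (j * w)) (T + rr w U (j * w)) (j + 1) (q1 / L ^ (3 ^ (n + 1))) (q2 / L))
          (atoms w K L n (topple w U (j * w)) (T + rr w U (j * w)) (j - 1) (q1 / L) (q2 / L ^ (3 ^ (n + 1))))
    have h3 := Set.ncard_union_le {(⟨U, j * w, w, q1, q2⟩ : Atom)}
          (atoms w K L n (topple w U (j * w)) (T + rr w U (j * w)) (j + 1) (q1 / L ^ (3 ^ (n + 1))) (q2 / L))
    have h4 : ({(⟨U, j * w, w, q1, q2⟩ : Atom)} : Set Atom).ncard = 1 := Set.ncard_singleton _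
    have i1 := ih (topple w U (j * w)) (T + rr w U (j * w)) (j + 1) (q1 / L ^ (3 ^ (n + 1))) (q2 / L)
    have i2 := ih (topple w U (j * w)) (T + rr w U (j * w)) (j - 1) (q1 / L) (q2 / L ^ (3 ^ (n + 1)))
    have e : 2 ^ (n + 1) = 2 ^ n + 2 ^ n := by ring
    omega

/-- The lattice parameter of block `k`. -/
def Rk (k : ℕ) : ℕ := 2 ^ (k + 2)
def wk (k : ℕ) : ℝ := 1 / (Rk k : ℝ) ^ 2
def Kk (k : ℕ) : ℕ := 10 * (Rk k) ^ 2
def Dk (k : ℕ) : ℕ := 4 * (Kk k) ^ 2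
def ck (k : ℕ) : ℝ := (1 / 2) ^ k
def U0 (k : ℕ) : ℝ → ℝ := fun x => ck k + max x 0
def rhok (k : ℕ) : ℝ := Classical.choose (exists_rmin (wk k) (Kk k) (Dk k) (U0 k) 0 0)
def Lk (k : ℕ) : ℝ := 2 + 2000 / rhok k
def Mk (k : ℕ) : ℝ := 1000 * 2 ^ (Dk k + k)
def Sk : ℕ → ℝ
  | 0 => Mk 0
  | k + 1 => Lk k * (Sk k * Lk k ^ ee (Dk k)) + Mk (k + 1)
def Qk (k : ℕ) : ℝ := Sk k * Lk k ^ ee (Dk k)
/-- the blocks -/
def blk (k : ℕ) : Set Atom :=
  atoms (wk k) (Kk k) (Lk k) (Dk k) (U0 k) 0 0 (Qk k) (Qk k)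

lemma Rk_pos (k : ℕ) : 0 < Rk k := by unfold Rk; positivity

lemma Rk_pos' (k : ℕ) : (0 : ℝ) < Rk k := by exact_mod_cast Rk_pos k

lemma wk_pos (k : ℕ) : 0 < wk k := by
  have := Rk_pos' k
  unfold wk; positivity

lemma Rk_ge_nat (k : ℕ) : 4 ≤ Rk k := by
  unfold Rk
  calc 4 = 2 ^ 2 := by norm_num
    _ ≤ 2 ^ (k + 2) := Nat.pow_le_pow_right (by norm_num) (by omega)

lemma Rk_ge (k : ℕ) : (4 : ℝ) ≤ Rk k := by exact_mod_cast Rk_ge_nat k

lemma wk_le (k : ℕ) : wk k ≤ 1 := by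
  have := Rk_ge k
  unfold wk
  rw [div_le_one (by positivity)]
  nlinarith

lemma wk_Kk (k : ℕ) : wk k * Kk k = 10 := by
  have := Rk_pos' k
  unfold wk Kk
  push_cast
  field_simp

lemma rhok_spec (k : ℕ) : 0 < rhok k ∧ ∀ (L q1 q2 : ℝ),
    ∀ a ∈ atoms (wk k) (Kk k) L (Dk k) (U0 k) 0 0 q1 q2, rhok k ≤ a.r :=
  Classical.choose_spec (exists_rmin (wk k) (Kk k) (Dk k) (U0 k) 0 0)

lemma Lk_ge (k : ℕ) : 2 ≤ Lk k := by
  have := (rhok_spec k).1
  unfold Lk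
  have : 0 ≤ 2000 / rhok k := by positivity
  linarith

lemma Lk_pos (k : ℕ) : 0 < Lk k := lt_of_lt_of_le (by norm_num) (Lk_ge k)

lemma Mk_ge (k : ℕ) : 1000 ≤ Mk k := by
  unfold Mk
  have : (1 : ℝ) ≤ 2 ^ (Dk k + k) := one_le_pow₀ (by norm_num)
  linarith

lemma Sk_ge_Mk (k : ℕ) : Mk k ≤ Sk k := by
  induction k with
  | zero => exact le_rfl
  | succ k ih =>
    have h1 := Lk_ge k
    have h2 : 1 ≤ Lk k ^ ee (Dk k) := one_le_pow₀ (by linarith)
    have h3 := Mk_ge k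
    have h4 : 0 ≤ Lk k * (Sk k * Lk k ^ ee (Dk k)) := by
      apply mul_nonneg (by linarith)
      apply mul_nonneg (by linarith) (by linarith)
    show Mk (k + 1) ≤ Lk k * (Sk k * Lk k ^ ee (Dk k)) + Mk (k + 1)
    linarith

lemma Sk_ge (k : ℕ) : 1000 ≤ Sk k := le_trans (Mk_ge k) (Sk_ge_Mk k)

lemma Qk_ge (k : ℕ) : Sk k ≤ Qk k := by
  have h1 := Lk_ge k
  have h2 : 1 ≤ Lk k ^ ee (Dk k) := one_le_pow₀ (by linarith)
  have := Sk_ge k
  unfold Qk
  nlinarith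

lemma Qk_pos (k : ℕ) : 0 < Qk k := by
  have := Sk_ge k; have := Qk_ge k; linarith

lemma Sk_succ (k : ℕ) : Lk k * Qk k ≤ Sk (k + 1) := by
  have := Mk_ge (k + 1)
  show Lk k * (Sk k * Lk k ^ ee (Dk k)) ≤ Lk k * (Sk k * Lk k ^ ee (Dk k)) + Mk (k + 1)
  linarith

lemma Sk_mono' (k : ℕ) : Sk k ≤ Sk (k + 1) := by
  have h := Sk_succ k
  have := Lk_ge k; have := Qk_ge k; have := Qk_pos k
  nlinarith

lemma Sk_mono {k l : ℕ} (h : k ≤ l) : Sk k ≤ Sk l := monotone_nat_of_le_succ Sk_mono' h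

lemma massLe_zero (k : ℕ) : MassLe (ck k) (Rk k) (wk k) (U0 k) 0 := by
  unfold MassLe
  apply le_of_eq
  apply Finset.sum_eq_zero
  intro i _
  show ck k + max ((i : ℝ) * wk k) 0 - (ck k + max ((i : ℝ) * wk k) 0) = 0
  ring

lemma blk_props (k : ℕ) {a : Atom} (ha : a ∈ blk k) :
    InBlock (ck k) (Rk k) (wk k) a ∧ a.q1 ≤ Qk k ∧ a.q2 ≤ Qk k ∧ Sk k ≤ a.q1 ∧ Sk k ≤ a.q2 := by
  have hL := Lk_ge k
  obtain ⟨h1, _, h2, h3, h4, h5⟩ := atoms_props (Rk_pos k) rfl (wk_Kk k)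
    (by linarith : 1 < Lk k) (Dk k) (U0 k) 0 0 (Qk k) (Qk k) (good_init (ck k)) (massLe_zero k)
    (Qk_pos k) (Qk_pos k) a ha
  have e : Qk k / Lk k ^ ee (Dk k) = Sk k := by
    unfold Qk
    have : 0 < Lk k ^ ee (Dk k) := pow_pos (Lk_pos k) _
    field_simp
  rw [e] at h4 h5
  exact ⟨h1, h2, h3, h4, h5⟩

lemma ck_pos (k : ℕ) : 0 < ck k := by unfold ck; positivity

lemma ck_le (k : ℕ) : ck k ≤ 1 := by
  unfold ck; exact pow_le_one₀ (by norm_num) (by norm_num)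

lemma two_div_Rk (k : ℕ) : 2 / (Rk k : ℝ) = (1 / 2) ^ (k + 1) := by
  unfold Rk
  push_cast
  rw [one_div, inv_pow]
  field_simp
  ring

lemma ck_step {k l : ℕ} (h : k < l) : ck l + 2 / (Rk l : ℝ) ≤ ck k := by
  have h1 : ck l ≤ ck (k + 1) := by
    unfold ck
    exact pow_le_pow_of_le_one (by norm_num) (by norm_num) h
  have h2 : 2 / (Rk l : ℝ) ≤ ck (k + 1) := by
    rw [two_div_Rk]
    exact pow_le_pow_of_le_one (by norm_num) (by norm_num) (by omega)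
  have h3 : ck (k + 1) + ck (k + 1) = ck k := by
    unfold ck
    rw [pow_succ]; ring
  linarith

lemma blk_rel {k l : ℕ} {a b : Atom} (ha : a ∈ blk k) (hb : b ∈ blk l) (hab : a ≠ b) :
    Rel (Lk l) a b := by
  obtain ⟨ha1, ha2, ha3, ha4, ha5⟩ := blk_props k ha
  obtain ⟨hb1, hb2, hb3, hb4, hb5⟩ := blk_props l hb
  rcases lt_trichotomy k l with h | h | h
  · left
    intro x
    have h1 := hb1.post_le x
    have h2 := ha1.reg.good.base x
    have h3 := ck_step h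
    linarith
  · subst h
    have hL := Lk_ge k
    exact atoms_rel (Rk_pos k) rfl (wk_Kk k) (by linarith : 1 < Lk k) (Dk k) (U0 k) 0 0
      (Qk k) (Qk k) (good_init (ck k)) (massLe_zero k) (Qk_pos k) (Qk_pos k) a ha b hb hab
  · right; left
    have h1 : Lk l * b.q1 ≤ Lk l * Qk l := mul_le_mul_of_nonneg_left hb2 (Lk_pos l).le
    have h2 : Lk l * Qk l ≤ Sk k := le_trans (Sk_succ l) (Sk_mono h)
    linarith

lemma blk_kill (l : ℕ) {b : Atom} (hb : b ∈ blk l) : 2000 ≤ b.r * (Lk l - 1) := by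
  obtain ⟨h1, h2⟩ := rhok_spec l
  have h3 := h2 _ _ _ b hb
  have h4 : 0 ≤ 2000 / rhok l := by positivity
  have h5 : rhok l * (Lk l - 1) = rhok l + 2000 := by
    unfold Lk; field_simp; ring
  have h6 : rhok l * (Lk l - 1) ≤ b.r * (Lk l - 1) :=
    mul_le_mul_of_nonneg_right h3 (by have := Lk_ge l; linarith)
  linarith

/-- The expected raise of each block is at least one quarter. -/
lemma GG_blk (k : ℕ) : 1 / 4 ≤ GG (wk k) (Kk k) (Dk k) (U0 k) 0 0 := by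
  have hw := wk_pos k
  have hw1 := wk_le k
  have hK : 0 < (Kk k : ℝ) := by
    have : 0 < Kk k := by unfold Kk; have := Rk_pos k; positivity
    exact_mod_cast this
  have hD : (Dk k : ℝ) = 4 * (Kk k : ℝ) ^ 2 := by unfold Dk; push_cast; ring
  have hD0 : 0 < (Dk k : ℝ) := by rw [hD]; positivity
  have h := GG_ge hw (wk_Kk k) hD0 (Dk k) (U0 k) 0 0 (good_init (ck k)) le_rfl
    (by linarith) (by simp) le_rfl
  have e1 : U0 k (((0 : ℤ) : ℝ) * wk k) = ck k := by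
    simp [U0]
  rw [e1] at h
  have e2 : ((Dk k : ℝ) - (Dk k : ℝ) + (Kk k : ℝ) ^ 2 - ((0 : ℤ) : ℝ) ^ 2) / (Dk k : ℝ) = 1 / 4 := by
    rw [hD]; push_cast; field_simp; ring
  rw [e2] at h
  push_cast at h
  linarith

lemma two_pow_Rk (k : ℕ) : (k : ℝ) ≤ 2 ^ k := by
  exact_mod_cast (Nat.lt_two_pow_self).le

/-- intervals in the logarithmic coordinate are disjoint -/
lemma sg_disj {q q' : ℝ} (hq : 0 < q) (h : 2 * q ≤ q') {w : ℂ} (h1 : |sg q w| < 1 / 16)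
    (h2 : |sg q' w| < 1 / 16) : False := by
  have hq' : 0 < q' := by linarith
  have a1 := abs_lt.1 h1
  have a2 := abs_lt.1 h2
  unfold sg at a1 a2
  rw [lt_div_iff₀ hq, div_lt_iff₀ hq] at a1
  rw [lt_div_iff₀ hq', div_lt_iff₀ hq'] at a2
  linarith [a1.1, a2.2]

lemma reg_disj {k l : ℕ} {a b : Atom} (ha : a ∈ blk k) (hb : b ∈ blk l) (hab : a ≠ b) :
    Disjoint (reg a) (reg b) := by
  rw [Set.disjoint_left]
  intro z hza hzb
  obtain ⟨ha1, _⟩ := blk_props k ha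
  obtain ⟨hb1, _⟩ := blk_props l hb
  have hLk := Lk_ge k
  have hLl := Lk_ge l
  have q1a := ha1.reg.q1pos
  have q2a := ha1.reg.q2pos
  have q1b := hb1.reg.q1pos
  have q2b := hb1.reg.q2pos
  rcases blk_rel ha hb hab with h | h | h
  · rcases blk_rel hb ha hab.symm with h' | h' | h'
    · have e1 := h b.x
      have e2 := h' b.x
      have f1 : b.post b.x = b.U b.x + b.r := topple_self hb1.reg.hw hb1.reg.good b.x
      have f2 : a.U b.x ≤ a.post b.x := le_topple _ _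
      rw [f1] at e1
      have := hb1.reg.rpos
      linarith
    · exact sg_disj q1a (le_trans (mul_le_mul_of_nonneg_right hLk q1a.le) h') hza.2.1 hzb.2.1
    · exact sg_disj q2a (le_trans (mul_le_mul_of_nonneg_right hLk q2a.le) h') hza.2.2 hzb.2.2
  · exact sg_disj q1b (le_trans (mul_le_mul_of_nonneg_right hLl q1b.le) h) hzb.2.1 hza.2.1
  · exact sg_disj q2b (le_trans (mul_le_mul_of_nonneg_right hLl q2b.le) h) hzb.2.2 hza.2.2

/-- **Row BLK** -/
theorem blocks : Blocks blk ck Rk wk Lk Sk where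
  fin := fun k => atoms_finite _ _ _ _ _ _ _ _ _
  inb := fun k a ha => (blk_props k ha).1
  S_le := fun k a ha => ⟨(blk_props k ha).2.2.2.1, (blk_props k ha).2.2.2.2⟩
  c_pos := ck_pos
  c_le := ck_le
  c_lim := tendsto_pow_atTop_nhds_zero_of_lt_one (by norm_num) (by norm_num)
  w_pos := wk_pos
  w_le := wk_le
  R_ge := Rk_ge_nat
  R_le := by
    intro k
    rw [two_div_Rk]
    exact pow_le_pow_of_le_one (by norm_num) (by norm_num) (by omega)
  S_ge := fun k => le_trans (by norm_num) (Sk_ge k)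
  S_grow := by
    intro k
    refine le_trans ?_ (Sk_ge_Mk k)
    unfold Mk
    have h1 := two_pow_Rk k
    have h2 : (2 : ℝ) ^ k ≤ 2 ^ (Dk k + k) := pow_le_pow_right₀ (by norm_num) (by omega)
    have h3 : (0 : ℝ) ≤ 2 ^ (Dk k + k) := by positivity
    linarith
  L_ge := Lk_ge
  kill := fun k a ha => blk_kill k ha
  rel := fun k l a ha b hb hab => blk_rel ha hb hab
  disj := by
    have key : ∀ k l, k < l → Disjoint (blk k) (blk l) := by
      intro k l h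
      rw [Set.disjoint_left]
      intro a ha hb
      obtain ⟨_, h1, _⟩ := blk_props k ha
      obtain ⟨_, _, _, h2, _⟩ := blk_props l hb
      have h3 := Sk_succ k
      have h4 := Sk_mono h
      have h5 := Lk_ge k
      have h6 := Qk_pos k
      nlinarith
    intro k l hkl
    rcases lt_or_gt_of_ne hkl with h | h
    · exact key k l h
    · exact (key l k h).symm
  reg_disj := fun k l a ha b hb hab => reg_disj ha hb hab
  mass := by
    intro k
    have h1 := atoms_ncard (wk k) (Kk k) (Lk k) (Dk k) (U0 k) 0 0 (Qk k) (Qk k)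
    have h2 : ((blk k).ncard : ℝ) ≤ 2 ^ Dk k := by
      have : (blk k).ncard ≤ 2 ^ Dk k := le_trans (Nat.le_succ _) h1
      exact_mod_cast this
    have h3 : Mk k ≤ Sk k := Sk_ge_Mk k
    have h0 := Mk_ge k
    have h4 : Mk k ^ 2 ≤ Sk k ^ 2 := pow_le_pow_left₀ (by linarith) h3 2
    have h5 : Mk k ^ 2 = 10 ^ 6 * (2 ^ (Dk k)) * (2 ^ k) * 2 ^ (Dk k + k) := by
      unfold Mk
      rw [pow_add]; ring
    rw [div_le_div_iff₀ (by nlinarith) (by norm_num)]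
    have h6 : (1 : ℝ) ≤ 2 ^ (Dk k + k) := one_le_pow₀ (by norm_num)
    have h7 : (1 / 2 : ℝ) ^ k * 2 ^ k = 1 := by
      rw [← mul_pow]; norm_num
    have h8 : (0 : ℝ) < (1 / 2) ^ k := by positivity
    calc ((blk k).ncard : ℝ) * 10 ^ 6 ≤ 2 ^ Dk k * 10 ^ 6 := by
          apply mul_le_mul_of_nonneg_right h2 (by norm_num)
      _ = (1 / 2 : ℝ) ^ k * (10 ^ 6 * (2 ^ (Dk k)) * (2 ^ k) * 1) := by
          linear_combination (-(10 : ℝ) ^ 6 * 2 ^ Dk k) * h7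
      _ ≤ (1 / 2 : ℝ) ^ k * (10 ^ 6 * (2 ^ (Dk k)) * (2 ^ k) * 2 ^ (Dk k + k)) := by
          apply mul_le_mul_of_nonneg_left _ h8.le
          apply mul_le_mul_of_nonneg_left h6 (by positivity)
      _ = (1 / 2 : ℝ) ^ k * Mk k ^ 2 := by rw [h5]
      _ ≤ (1 / 2 : ℝ) ^ k * Sk k ^ 2 := mul_le_mul_of_nonneg_left h4 h8.le

end

end KOL
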