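import Pool.Agent.KOL.Defs

/-!
# Project KOL: calculus of `∂_j`, `∂̄_k` on `ℂ³`
-/

set_option autoImplicit false

namespace KOL

open MeasureTheory Matrix
open scoped ContDiff ComplexOrder ComplexConjugate

/-- smooth complex functions -/
abbrev Sm (F : C3 → ℂ) : Prop := ContDiff ℝ ∞ F

/-- directional derivative -/
noncomputable def pd (v : C3) (F : C3 → ℂ) (z : C3) : ℂ := fderiv ℝ F z v

/-- `∂_j` -/
noncomputable def dz (j : Fin 3) (F : C3 → ℂ) (z : C3) : ℂ :=
  (1 / 2 : ℂ) * (pd (ev j) F z - Complex.I * pd (Complex.I • ev j) F z)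

/-- `∂̄_k` -/
noncomputable def dzb (k : Fin 3) (F : C3 → ℂ) (z : C3) : ℂ :=
  (1 / 2 : ℂ) * (pd (ev k) F z + Complex.I * pd (Complex.I • ev k) F z)

section pd
variable {F G : C3 → ℂ}

theorem Sm.diff (hF : Sm F) (z : C3) : DifferentiableAt ℝ F z :=
  (hF.differentiable (by simp)).differentiableAt

theorem sm_const (c : ℂ) : Sm fun _ => c := contDiff_const

theorem sm_ofReal {f : C3 → ℝ} (hf : ContDiff ℝ ∞ f) : Sm fun z => (f z : ℂ) :=
  Complex.ofRealCLM.contDiff.comp hf

theorem Sm.pd (hF : Sm F) (v : C3) : Sm (pd v F) := by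
  have h : ContDiff ℝ ∞ (fderiv ℝ F) := hF.fderiv_right (by simp)
  exact h.clm_apply contDiff_const

theorem pd_const (v : C3) (c : ℂ) (z : C3) : pd v (fun _ => c) z = 0 := by
  rw [pd, fderiv_fun_const]
  rfl

theorem pd_add (hF : Sm F) (hG : Sm G) (v z : C3) : pd v (fun w => F w + G w) z = pd v F z + pd v G z := by
  rw [pd, fderiv_fun_add (hF.diff z) (hG.diff z)]
  rfl

theorem pd_sub (hF : Sm F) (hG : Sm G) (v z : C3) : pd v (fun w => F w - G w) z = pd v F z - pd v G z := by
  rw [pd, fderiv_fun_sub (hF.diff z) (hG.diff z)]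
  rfl

theorem pd_mul (hF : Sm F) (hG : Sm G) (v z : C3) :
    pd v (fun w => F w * G w) z = pd v F z * G z + F z * pd v G z := by
  rw [pd, fderiv_fun_mul (hF.diff z) (hG.diff z)]
  simp only [_root_.add_apply, _root_.smul_apply, smul_eq_mul, pd]
  ring

theorem pd_const_mul (hF : Sm F) (c : ℂ) (v z : C3) : pd v (fun w => c * F w) z = c * pd v F z := by
  rw [pd_mul (sm_const c) hF, pd_const, zero_mul, zero_add]

theorem pd_comm (hF : Sm F) (v w z : C3) : pd v (pd w F) z = pd w (pd v F) z := by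
  have h : ContDiff ℝ ∞ (fderiv ℝ F) := hF.fderiv_right (by simp)
  have key : ∀ a b : C3, pd a (pd b F) z = fderiv ℝ (fderiv ℝ F) z a b := by
    intro a b
    have h1 : DifferentiableAt ℝ (fderiv ℝ F) z := (h.differentiable (by simp)).differentiableAt
    have h2 : fderiv ℝ (fun y => fderiv ℝ F y b) z = (fderiv ℝ (fderiv ℝ F) z).flip b := by
      rw [fderiv_clm_apply h1 (differentiableAt_const b)]
      simp
    rw [pd]
    change fderiv ℝ (fun y => fderiv ℝ F y b) z a = _
    rw [h2]
    rfl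
  rw [key, key]
  refine (hF.contDiffAt.isSymmSndFDerivAt ?_).eq v w
  rw [minSmoothness_of_isRCLikeNormedField]
  exact WithTop.coe_le_coe.2 (le_top : (2 : ℕ∞) ≤ ⊤)

theorem tsupport_pd (v : C3) (F : C3 → ℂ) : tsupport (pd v F) ⊆ tsupport F :=
  tsupport_fderiv_apply_subset ℝ v

theorem compact_pd (h : HasCompactSupport F) (v : C3) : HasCompactSupport (pd v F) :=
  h.fderiv_apply ℝ v

theorem pd_ofReal {f : C3 → ℝ} {z : C3} (hf : DifferentiableAt ℝ f z) (v : C3) :
    pd v (fun w => (f w : ℂ)) z = ((fderiv ℝ f z v : ℝ) : ℂ) := by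
  have h := (Complex.ofRealCLM.hasFDerivAt.comp z hf.hasFDerivAt).fderiv
  rw [pd]
  change fderiv ℝ (Complex.ofRealCLM ∘ f) z v = _
  rw [h]
  rfl

theorem pd_conj (hF : Sm F) (v z : C3) : pd v (fun w => conj (F w)) z = conj (pd v F z) := by
  have h := (Complex.conjCLE.toContinuousLinearMap.hasFDerivAt.comp z (hF.diff z).hasFDerivAt).fderiv
  rw [pd]
  change fderiv ℝ (Complex.conjCLE.toContinuousLinearMap ∘ F) z v = _
  rw [h]
  rfl

theorem integrable_of_compact {H : C3 → ℂ} (hH : Continuous H) (hc : HasCompactSupport H) : Integrable H volume :=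
  hH.integrable_of_hasCompactSupport hc

/-- integration by parts -/
theorem ibp_pd (hF : Sm F) (hG : Sm G) (hc : HasCompactSupport F ∨ HasCompactSupport G) (v : C3) :
    ∫ z, F z * pd v G z = - ∫ z, pd v F z * G z := by
  have hpF := (hF.pd v).continuous
  have hpG := (hG.pd v).continuous
  refine integral_mul_fderiv_eq_neg_fderiv_mul_of_integrable (μ := volume) ?_ ?_ ?_ (fun x _ => hF.diff x)
    fun x _ => hG.diff x
  · refine integrable_of_compact (hpF.mul hG.continuous) ?_
    rcases hc with h | h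
    · exact (compact_pd h v).mul_right
    · exact h.mul_left
  · refine integrable_of_compact (hF.continuous.mul hpG) ?_
    rcases hc with h | h
    · exact h.mul_right
    · exact (compact_pd h v).mul_left
  · refine integrable_of_compact (hF.continuous.mul hG.continuous) ?_
    rcases hc with h | h
    · exact h.mul_right
    · exact h.mul_left

end pd

section dz
variable {F G : C3 → ℂ}

theorem Sm.dz (hF : Sm F) (j : Fin 3) : Sm (dz j F) :=
  contDiff_const.mul ((hF.pd _).sub (contDiff_const.mul (hF.pd _)))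

theorem Sm.dzb (hF : Sm F) (j : Fin 3) : Sm (dzb j F) :=
  contDiff_const.mul ((hF.pd _).add (contDiff_const.mul (hF.pd _)))

theorem dz_const (j : Fin 3) (c : ℂ) (z : C3) : dz j (fun _ => c) z = 0 := by
  rw [dz, pd_const, pd_const]
  ring

theorem dzb_const (j : Fin 3) (c : ℂ) (z : C3) : dzb j (fun _ => c) z = 0 := by
  rw [dzb, pd_const, pd_const]
  ring

theorem dz_add (hF : Sm F) (hG : Sm G) (j : Fin 3) (z : C3) : dz j (fun w => F w + G w) z = dz j F z + dz j G z := by
  rw [dz, pd_add hF hG, pd_add hF hG, dz, dz]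
  ring

theorem dzb_add (hF : Sm F) (hG : Sm G) (j : Fin 3) (z : C3) :
    dzb j (fun w => F w + G w) z = dzb j F z + dzb j G z := by
  rw [dzb, pd_add hF hG, pd_add hF hG, dzb, dzb]
  ring

theorem dz_sub (hF : Sm F) (hG : Sm G) (j : Fin 3) (z : C3) : dz j (fun w => F w - G w) z = dz j F z - dz j G z := by
  rw [dz, pd_sub hF hG, pd_sub hF hG, dz, dz]
  ring

theorem dzb_sub (hF : Sm F) (hG : Sm G) (j : Fin 3) (z : C3) :
    dzb j (fun w => F w - G w) z = dzb j F z - dzb j G z := by
  rw [dzb, pd_sub hF hG, pd_sub hF hG, dzb, dzb]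
  ring

theorem dz_mul (hF : Sm F) (hG : Sm G) (j : Fin 3) (z : C3) :
    dz j (fun w => F w * G w) z = dz j F z * G z + F z * dz j G z := by
  rw [dz, pd_mul hF hG, pd_mul hF hG, dz, dz]
  ring

theorem dzb_mul (hF : Sm F) (hG : Sm G) (j : Fin 3) (z : C3) :
    dzb j (fun w => F w * G w) z = dzb j F z * G z + F z * dzb j G z := by
  rw [dzb, pd_mul hF hG, pd_mul hF hG, dzb, dzb]
  ring

theorem dz_const_mul (hF : Sm F) (c : ℂ) (j : Fin 3) (z : C3) : dz j (fun w => c * F w) z = c * dz j F z := by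
  rw [dz_mul (sm_const c) hF, dz_const, zero_mul, zero_add]

theorem dzb_const_mul (hF : Sm F) (c : ℂ) (j : Fin 3) (z : C3) : dzb j (fun w => c * F w) z = c * dzb j F z := by
  rw [dzb_mul (sm_const c) hF, dzb_const, zero_mul, zero_add]

theorem dz_sum {ι : Type*} (s : Finset ι) {f : ι → C3 → ℂ} (hf : ∀ i, Sm (f i)) (j : Fin 3) (z : C3) :
    dz j (fun w => ∑ i ∈ s, f i w) z = ∑ i ∈ s, dz j (f i) z := by
  classical
  induction s using Finset.induction_on with
  | empty => simpa using dz_const j 0 z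
  | insert a s ha ih =>
    simp only [Finset.sum_insert ha]
    rw [dz_add (hf a) (ContDiff.sum fun i _ => hf i), ih]

theorem dzb_sum {ι : Type*} (s : Finset ι) {f : ι → C3 → ℂ} (hf : ∀ i, Sm (f i)) (j : Fin 3) (z : C3) :
    dzb j (fun w => ∑ i ∈ s, f i w) z = ∑ i ∈ s, dzb j (f i) z := by
  classical
  induction s using Finset.induction_on with
  | empty => simpa using dzb_const j 0 z
  | insert a s ha ih =>
    simp only [Finset.sum_insert ha]
    rw [dzb_add (hf a) (ContDiff.sum fun i _ => hf i), ih]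

/-- a directional derivative of a combination of directional derivatives -/
theorem pd_comb (hF : Sm F) (a b : ℂ) (v v' w z : C3) :
    pd w (fun y => (1 / 2 : ℂ) * (a * pd v F y + b * pd v' F y)) z =
      (1 / 2 : ℂ) * (a * pd w (pd v F) z + b * pd w (pd v' F) z) := by
  have h1 := hF.pd v
  have h2 := hF.pd v'
  have h3 : Sm fun y => a * pd v F y := contDiff_const.mul h1
  have h4 : Sm fun y => b * pd v' F y := contDiff_const.mul h2
  rw [pd_const_mul (h3.add h4), pd_add h3 h4, pd_const_mul h1, pd_const_mul h2]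

theorem dz_eq (j : Fin 3) (F : C3 → ℂ) :
    dz j F = fun y => (1 / 2 : ℂ) * (1 * pd (ev j) F y + (-Complex.I) * pd (Complex.I • ev j) F y) := by
  funext y
  rw [dz]
  ring

theorem dzb_eq (j : Fin 3) (F : C3 → ℂ) :
    dzb j F = fun y => (1 / 2 : ℂ) * (1 * pd (ev j) F y + Complex.I * pd (Complex.I • ev j) F y) := by
  funext y
  rw [dzb]
  ring

theorem dz_dz_comm (hF : Sm F) (j k : Fin 3) (z : C3) : dz j (dz k F) z = dz k (dz j F) z := by
  rw [dz, dz_eq k F, pd_comb hF, pd_comb hF, dz, dz_eq j F, pd_comb hF, pd_comb hF, pd_comm hF (ev j) (ev k),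
    pd_comm hF (ev j) (Complex.I • ev k), pd_comm hF (Complex.I • ev j) (ev k),
    pd_comm hF (Complex.I • ev j) (Complex.I • ev k)]
  ring

theorem dzb_dzb_comm (hF : Sm F) (j k : Fin 3) (z : C3) : dzb j (dzb k F) z = dzb k (dzb j F) z := by
  rw [dzb, dzb_eq k F, pd_comb hF, pd_comb hF, dzb, dzb_eq j F, pd_comb hF, pd_comb hF, pd_comm hF (ev j) (ev k),
    pd_comm hF (ev j) (Complex.I • ev k), pd_comm hF (Complex.I • ev j) (ev k),
    pd_comm hF (Complex.I • ev j) (Complex.I • ev k)]
  ring

theorem dz_dzb_comm (hF : Sm F) (j k : Fin 3) (z : C3) : dz j (dzb k F) z = dzb k (dz j F) z := by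
  rw [dz, dzb_eq k F, pd_comb hF, pd_comb hF, dzb, dz_eq j F, pd_comb hF, pd_comb hF, pd_comm hF (ev j) (ev k),
    pd_comm hF (ev j) (Complex.I • ev k), pd_comm hF (Complex.I • ev j) (ev k),
    pd_comm hF (Complex.I • ev j) (Complex.I • ev k)]
  ring

theorem tsupport_dz (j : Fin 3) (F : C3 → ℂ) : tsupport (dz j F) ⊆ tsupport F := by
  refine closure_minimal (fun z hz => ?_) isClosed_closure
  by_contra h
  apply hz
  have h1 : ∀ v, pd v F z = 0 := fun v => by
    by_contra h2
    exact h (tsupport_pd v F (subset_closure h2))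
  rw [dz, h1, h1]
  ring

theorem tsupport_dzb (j : Fin 3) (F : C3 → ℂ) : tsupport (dzb j F) ⊆ tsupport F := by
  refine closure_minimal (fun z hz => ?_) isClosed_closure
  by_contra h
  apply hz
  have h1 : ∀ v, pd v F z = 0 := fun v => by
    by_contra h2
    exact h (tsupport_pd v F (subset_closure h2))
  rw [dzb, h1, h1]
  ring

theorem compact_dz (h : HasCompactSupport F) (j : Fin 3) : HasCompactSupport (dz j F) :=
  IsCompact.of_isClosed_subset h (isClosed_tsupport _) (tsupport_dz j F)

theorem compact_dzb (h : HasCompactSupport F) (j : Fin 3) : HasCompactSupport (dzb j F) :=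
  IsCompact.of_isClosed_subset h (isClosed_tsupport _) (tsupport_dzb j F)

theorem dz_conj (hF : Sm F) (j : Fin 3) (z : C3) : dz j (fun w => conj (F w)) z = conj (dzb j F z) := by
  rw [dz, pd_conj hF, pd_conj hF, dzb, map_mul, map_add, map_mul, Complex.conj_I]
  have h : conj (1 / 2 : ℂ) = 1 / 2 := by
    rw [map_div₀, map_one]
    congr 1
    exact Complex.conj_ofReal 2
  rw [h]
  ring

theorem ibp_mul {G : C3 → ℂ} (hF : Sm F) (hG : Sm G) (hc : HasCompactSupport F ∨ HasCompactSupport G) (v : C3) :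
    Integrable (fun z => F z * pd v G z) volume := by
  refine integrable_of_compact (hF.continuous.mul (hG.pd v).continuous) ?_
  rcases hc with h | h
  · exact h.mul_right
  · exact (compact_pd h v).mul_left

/-- integration by parts for `∂_j` -/
theorem ibp_dz (hF : Sm F) (hG : Sm G) (hc : HasCompactSupport F ∨ HasCompactSupport G) (j : Fin 3) :
    ∫ z, F z * dz j G z = - ∫ z, dz j F z * G z := by
  have hc' := hc.symm
  have i1 := ibp_mul hF hG hc (ev j)
  have i2 := ibp_mul hF hG hc (Complex.I • ev j)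
  have i3 : Integrable (fun z => pd (ev j) F z * G z) volume := by
    simpa only [mul_comm] using ibp_mul hG hF hc' (ev j)
  have i4 : Integrable (fun z => pd (Complex.I • ev j) F z * G z) volume := by
    simpa only [mul_comm] using ibp_mul hG hF hc' (Complex.I • ev j)
  have e1 : ∀ z, F z * dz j G z =
      (1 / 2 : ℂ) * (F z * pd (ev j) G z) - (Complex.I / 2) * (F z * pd (Complex.I • ev j) G z) := by
    intro z
    rw [dz]
    ring
  have e2 : ∀ z, dz j F z * G z =
      (1 / 2 : ℂ) * (pd (ev j) F z * G z) - (Complex.I / 2) * (pd (Complex.I • ev j) F z * G z) := by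
    intro z
    rw [dz]
    ring
  simp_rw [e1, e2]
  rw [integral_sub (i1.const_mul _) (i2.const_mul _), integral_sub (i3.const_mul _) (i4.const_mul _),
    integral_const_mul, integral_const_mul, integral_const_mul, integral_const_mul, ibp_pd hF hG hc, ibp_pd hF hG hc]
  ring

/-- integration by parts for `∂̄_j` -/
theorem ibp_dzb (hF : Sm F) (hG : Sm G) (hc : HasCompactSupport F ∨ HasCompactSupport G) (j : Fin 3) :
    ∫ z, F z * dzb j G z = - ∫ z, dzb j F z * G z := by
  have hc' := hc.symm
  have i1 := ibp_mul hF hG hc (ev j)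
  have i2 := ibp_mul hF hG hc (Complex.I • ev j)
  have i3 : Integrable (fun z => pd (ev j) F z * G z) volume := by
    simpa only [mul_comm] using ibp_mul hG hF hc' (ev j)
  have i4 : Integrable (fun z => pd (Complex.I • ev j) F z * G z) volume := by
    simpa only [mul_comm] using ibp_mul hG hF hc' (Complex.I • ev j)
  have e1 : ∀ z, F z * dzb j G z =
      (1 / 2 : ℂ) * (F z * pd (ev j) G z) + (Complex.I / 2) * (F z * pd (Complex.I • ev j) G z) := by
    intro z
    rw [dzb]
    ring
  have e2 : ∀ z, dzb j F z * G z =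
      (1 / 2 : ℂ) * (pd (ev j) F z * G z) + (Complex.I / 2) * (pd (Complex.I • ev j) F z * G z) := by
    intro z
    rw [dzb]
    ring
  simp_rw [e1, e2]
  rw [integral_add (i1.const_mul _) (i2.const_mul _), integral_add (i3.const_mul _) (i4.const_mul _),
    integral_const_mul, integral_const_mul, integral_const_mul, integral_const_mul, ibp_pd hF hG hc, ibp_pd hF hG hc]
  ring

end dz

end KOL
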