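import Pool.Agent.KOL.HessC
import Pool.Agent.KOL.Mol

/-!
# Project KOL: the relation `Chain` tested with complex matrix valued functions
-/

set_option autoImplicit false

open MeasureTheory Filter Topology Matrix
open scoped ContDiff ComplexConjugate

namespace KOL

/-- locally bounded complex function -/
def LocZ (G : C3 → ℂ) : Prop := ∀ R : ℝ, ∃ M : ℝ, ∀ z, ‖z‖ ≤ R → ‖G z‖ ≤ M

theorem LocZ.of_cont {G : C3 → ℂ} (hG : Continuous G) : LocZ G := by
  intro R
  obtain ⟨C, hC⟩ := (isCompact_closedBall (0 : C3) R).exists_bound_of_continuousOn hG.continuousOn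
  exact ⟨C, fun z hz => hC z (by rw [mem_closedBall_zero_iff]; exact hz)⟩

theorem LocZ.mul {F G : C3 → ℂ} (hF : LocZ F) (hG : LocZ G) : LocZ fun z => F z * G z := by
  intro R
  obtain ⟨M, hM⟩ := hF R
  obtain ⟨N, hN⟩ := hG R
  refine ⟨|M| * |N|, fun z hz => ?_⟩
  rw [norm_mul]
  exact mul_le_mul ((hM z hz).trans (le_abs_self _)) ((hN z hz).trans (le_abs_self _))
    (norm_nonneg _) (abs_nonneg _)

theorem LocZ.of_bdd {G : C3 → ℂ} (M : ℝ) (h : ∀ z, ‖G z‖ ≤ M) : LocZ G := fun _ => ⟨M, fun z _ => h z⟩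

theorem LocZ.of_locBdd {u : C3 → ℝ} (hu : Mol.LocBdd u) : LocZ fun z => (u z : ℂ) := by
  intro R
  obtain ⟨M, hM⟩ := hu R
  exact ⟨M, fun z hz => by rw [Complex.norm_real]; exact hM z hz⟩

/-- integrability against a locally finite measure -/
theorem int_gen {m : Measure C3} (hm : FinOn Set.univ m) {F G : C3 → ℂ} (hF : Continuous F)
    (hFc : HasCompactSupport F) (hG : Measurable G) (hGb : LocZ G) :
    Integrable (fun z => F z * G z) m := by
  obtain ⟨R, hR⟩ := hFc.isCompact.isBounded.subset_closedBall (0 : C3)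
  obtain ⟨M, hM⟩ := (LocZ.of_cont hF).mul hGb R
  have h1 : IntegrableOn (fun z => F z * G z) (tsupport F) m := by
    refine Measure.integrableOn_of_bounded (M := M) (hm _ hFc (Set.subset_univ _)).ne
      (hF.measurable.mul hG).aestronglyMeasurable ?_
    refine (ae_restrict_iff' hFc.isClosed.measurableSet).2 (Eventually.of_forall fun z hz => ?_)
    exact hM z (by have := hR hz; rwa [mem_closedBall_zero_iff] at this)
  refine (integrableOn_iff_integrable_of_support_subset ?_).1 h1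
  intro z hz
  exact subset_tsupport F (left_ne_zero_of_mul hz)

section chain

variable {u : C3 → ℝ} {Θ₁ Θ₂ : C3 → Mat} {m₁ m₂ ν : Measure C3}

theorem IsPos.locZ {U : Set C3} {Θ : C3 → Mat} {m : Measure C3} (h : IsPos U Θ m) (j k : Fin 3) :
    LocZ fun z => Θ z j k := LocZ.of_bdd 1 fun z => h.bdd z j k

/-- real and imaginary part as tests -/
theorem test_re {F : C3 → ℂ} (hF : Sm F) (hc : HasCompactSupport F) :
    Test Set.univ fun z => (F z).re :=
  ⟨Complex.reCLM.contDiff.comp hF, hc.comp_left (g := Complex.re) Complex.zero_re,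
    Set.subset_univ _⟩

theorem test_im {F : C3 → ℂ} (hF : Sm F) (hc : HasCompactSupport F) :
    Test Set.univ fun z => (F z).im :=
  ⟨Complex.imCLM.contDiff.comp hF, hc.comp_left (g := Complex.im) Complex.zero_im,
    Set.subset_univ _⟩

theorem HessC_split {F : C3 → ℂ} (hF : Sm F) (hc : HasCompactSupport F) (z : C3) :
    HessC F z = Hess (fun z => (F z).re) z + Complex.I • Hess (fun z => (F z).im) z := by
  have h1 := (test_re hF hc).smooth
  have h2 := (test_im hF hc).smooth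
  rw [Hess_eq h1, Hess_eq h2, ← HessC_const_mul (sm_ofReal h2), ← HessC_add (sm_ofReal h1)
    (contDiff_const.mul (sm_ofReal h2))]
  congr 1
  funext w
  rw [mul_comm]
  exact (Complex.re_add_im (F w)).symm

theorem meas_Hess_entry {χ : C3 → ℝ} (h : ContDiff ℝ ∞ χ) (j k : Fin 3) :
    Measurable fun z => Hess χ z j k := (continuous_Hess h j k).measurable

/-- (E1) -/
theorem Chain.e1 (hc : Chain Set.univ u Θ₁ m₁ Θ₂ m₂ ν) (hum : Measurable u)
    (hub : Mol.LocBdd u) {F : C3 → ℂ} (hF : Sm F) (hFc : HasCompactSupport F) (j k : Fin 3) :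
    ∫ z, F z * Θ₁ z j k ∂m₁ = ∫ z, (u z : ℂ) * HessC F z j k := by
  have t1 := test_re hF hFc
  have t2 := test_im hF hFc
  have e1 := hc.eq₁ _ t1 j k
  have e2 := hc.eq₁ _ t2 j k
  have hT := (hc.pos₁.locZ j k)
  have hTm := hc.pos₁.meas j k
  have i1 : Integrable (fun z => (((F z).re : ℝ) : ℂ) * Θ₁ z j k) m₁ :=
    int_gen hc.pos₁.fin (sm_ofReal t1.smooth).continuous (compact_ofReal t1.comp) hTm hT
  have i2 : Integrable (fun z => (((F z).im : ℝ) : ℂ) * Θ₁ z j k) m₁ :=
    int_gen hc.pos₁.fin (sm_ofReal t2.smooth).continuous (compact_ofReal t2.comp) hTm hT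
  have hvol : FinOn Set.univ (volume : Measure C3) := fun K hK _ => hK.measure_lt_top
  have hum' : Measurable fun z => (u z : ℂ) := Complex.measurable_ofReal.comp hum
  have i3 : Integrable (fun z => (u z : ℂ) * Hess (fun z => (F z).re) z j k) := by
    have := int_gen hvol (continuous_Hess t1.smooth j k) (compact_Hess t1.smooth t1.comp j k)
      hum' (LocZ.of_locBdd hub)
    simpa only [mul_comm] using this
  have i4 : Integrable (fun z => (u z : ℂ) * Hess (fun z => (F z).im) z j k) := by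
    have := int_gen hvol (continuous_Hess t2.smooth j k) (compact_Hess t2.smooth t2.comp j k)
      hum' (LocZ.of_locBdd hub)
    simpa only [mul_comm] using this
  have f1 : ∀ z, F z * Θ₁ z j k = (((F z).re : ℝ) : ℂ) * Θ₁ z j k +
      Complex.I * ((((F z).im : ℝ) : ℂ) * Θ₁ z j k) := by
    intro z
    conv_lhs => rw [← Complex.re_add_im (F z)]
    ring
  have f2 : ∀ z, (u z : ℂ) * HessC F z j k = (u z : ℂ) * Hess (fun z => (F z).re) z j k +
      Complex.I * ((u z : ℂ) * Hess (fun z => (F z).im) z j k) := by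
    intro z
    rw [HessC_split hF hFc z, Matrix.add_apply, Matrix.smul_apply, smul_eq_mul]
    ring
  simp_rw [f1, f2]
  rw [integral_add i1 (i2.const_mul _), integral_add i3 (i4.const_mul _), integral_const_mul,
    integral_const_mul, e1, e2]

/-! ### measurable locally bounded functions and matrix fields -/

/-- measurable and locally bounded -/
structure MB (G : C3 → ℂ) : Prop where
  meas : Measurable G
  loc : LocZ G

theorem MB.const (c : ℂ) : MB fun _ => c := ⟨measurable_const, LocZ.of_bdd ‖c‖ fun _ => le_rfl⟩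

theorem MB.of_cont {G : C3 → ℂ} (h : Continuous G) : MB G := ⟨h.measurable, LocZ.of_cont h⟩

theorem MB.mul {F G : C3 → ℂ} (hF : MB F) (hG : MB G) : MB fun z => F z * G z :=
  ⟨hF.meas.mul hG.meas, hF.loc.mul hG.loc⟩

theorem MB.add {F G : C3 → ℂ} (hF : MB F) (hG : MB G) : MB fun z => F z + G z := by
  refine ⟨hF.meas.add hG.meas, fun R => ?_⟩
  obtain ⟨M, hM⟩ := hF.loc R
  obtain ⟨N, hN⟩ := hG.loc R
  exact ⟨M + N, fun z hz => (norm_add_le _ _).trans (add_le_add (hM z hz) (hN z hz))⟩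

theorem MB.sum {ι : Type*} (s : Finset ι) {f : ι → C3 → ℂ} (h : ∀ i ∈ s, MB (f i)) :
    MB fun z => ∑ i ∈ s, f i z := by
  classical
  induction s using Finset.induction_on with
  | empty => simpa using MB.const 0
  | insert a s ha ih =>
    have h2 := (h a (Finset.mem_insert_self a s)).add (ih fun i hi => h i (Finset.mem_insert_of_mem hi))
    have e : (fun z => ∑ i ∈ insert a s, f i z) = fun z => f a z + ∑ i ∈ s, f i z := by
      funext z
      rw [Finset.sum_insert ha]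
    rw [e]
    exact h2

/-- matrix fields with measurable locally bounded entries -/
def MBM (A : C3 → Mat) : Prop := ∀ j k, MB fun z => A z j k

theorem MBM.const (A : Mat) : MBM fun _ => A := fun _ _ => MB.const _

theorem MBM.hessC {F : C3 → ℂ} (hF : Sm F) : MBM (HessC F) := fun j k =>
  MB.of_cont (sm_HessC hF j k).continuous

theorem MBM.hess {f : C3 → ℝ} (hf : ContDiff ℝ ∞ f) : MBM (Hess f) := fun j k =>
  MB.of_cont (continuous_Hess hf j k)

theorem MBM.of_pos {Θ : C3 → Mat} {m : Measure C3} (h : IsPos Set.univ Θ m) : MBM Θ := fun j k =>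
  ⟨h.meas j k, h.locZ j k⟩

theorem D_expand_all (X B C : Mat) : D X B C = ∑ j, ∑ k, ∑ l, ∑ m, ∑ p, ∑ q,
    X j k * (B l m * C p q * D (E j k) (E l m) (E p q)) := by
  rw [D_eq_sum_left]
  refine Finset.sum_congr rfl fun j _ => Finset.sum_congr rfl fun k _ => ?_
  rw [D_expand, Finset.mul_sum]
  refine Finset.sum_congr rfl fun l _ => ?_
  rw [Finset.mul_sum]
  refine Finset.sum_congr rfl fun m _ => ?_
  rw [Finset.mul_sum]
  refine Finset.sum_congr rfl fun p _ => ?_
  rw [Finset.mul_sum]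

theorem MBM.D {A B C : C3 → Mat} (hA : MBM A) (hB : MBM B) (hC : MBM C) :
    MB fun z => KOL.D (A z) (B z) (C z) := by
  have e : (fun z => KOL.D (A z) (B z) (C z)) = fun z => ∑ j, ∑ k, ∑ l, ∑ m, ∑ p, ∑ q,
    A z j k * (B z l m * C z p q * KOL.D (E j k) (E l m) (E p q)) := by
    funext z
    exact D_expand_all _ _ _
  rw [e]
  exact MB.sum _ fun j _ => MB.sum _ fun k _ => MB.sum _ fun l _ => MB.sum _ fun m _ =>
    MB.sum _ fun p _ => MB.sum _ fun q _ => (hA j k).mul (((hB l m).mul (hC p q)).mul (MB.const _))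

theorem MBM.trace {A B : C3 → Mat} (hA : MBM A) (hB : MBM B) :
    MB fun z => (A z * B z).trace := by
  have e : (fun z => (A z * B z).trace) = fun z => ∑ j, ∑ k, A z j k * B z k j := by
    funext z
    rfl
  rw [e]
  exact MB.sum _ fun j _ => MB.sum _ fun k _ => (hA j k).mul (hB k j)

/-- `F * G` is integrable if `F` is continuous with compact support and `G` is measurable and
locally bounded -/
theorem int_mb {m : Measure C3} (hm : FinOn Set.univ m) {F G : C3 → ℂ} (hF : Continuous F)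
    (hFc : HasCompactSupport F) (hG : MB G) : Integrable (fun z => F z * G z) m :=
  int_gen hm hF hFc hG.meas hG.loc

/-- a measurable locally bounded function which vanishes outside a compact set is integrable -/
theorem int_supp {m : Measure C3} (hm : FinOn Set.univ m) {G : C3 → ℂ} (hG : MB G) {K : Set C3}
    (hK : IsCompact K) (h0 : ∀ z, z ∉ K → G z = 0) : Integrable G m := by
  obtain ⟨R, hR⟩ := hK.isBounded.subset_closedBall (0 : C3)
  obtain ⟨M, hM⟩ := hG.loc R
  have h1 : IntegrableOn G K m := by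
    refine Measure.integrableOn_of_bounded (M := M) (hm _ hK (Set.subset_univ _)).ne
      hG.meas.aestronglyMeasurable ?_
    refine (ae_restrict_iff' hK.isClosed.measurableSet).2 (Eventually.of_forall fun z hz => ?_)
    exact hM z (by have := hR hz; rwa [mem_closedBall_zero_iff] at this)
  refine (integrableOn_iff_integrable_of_support_subset ?_).1 h1
  intro z hz
  by_contra hzK
  exact hz (h0 z hzK)

theorem MB.of_locBdd {u : C3 → ℝ} (hum : Measurable u) (hub : Mol.LocBdd u) :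
    MB fun z => (u z : ℂ) :=
  ⟨Complex.measurable_ofReal.comp hum, LocZ.of_locBdd hub⟩

theorem tr_re_herm {A B : Mat} (hA : A.IsHermitian) (hB : B.IsHermitian) :
    ((((A * B).trace).re : ℝ) : ℂ) = (A * B).trace := by
  rw [← Complex.conj_eq_iff_re]
  have h : conj ((A * B).trace) = ((A * B)ᴴ).trace := (Matrix.trace_conjTranspose _).symm
  rw [h, Matrix.conjTranspose_mul, hA.eq, hB.eq, Matrix.trace_mul_comm]

theorem herm_parts (A : Mat) : ∃ A₁ A₂ : Mat, A₁.IsHermitian ∧ A₂.IsHermitian ∧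
    A = A₁ + Complex.I • A₂ := by
  refine ⟨(1 / 2 : ℂ) • (A + Aᴴ), (-Complex.I / 2) • (A - Aᴴ), ?_, ?_, ?_⟩
  · rw [Matrix.IsHermitian, Matrix.conjTranspose_smul, Matrix.conjTranspose_add,
      Matrix.conjTranspose_conjTranspose, add_comm]
    congr 1
    simp
  · rw [Matrix.IsHermitian, Matrix.conjTranspose_smul, Matrix.conjTranspose_sub,
      Matrix.conjTranspose_conjTranspose]
    ext j k
    simp only [Matrix.smul_apply, Matrix.sub_apply, smul_eq_mul, star_div₀, star_neg]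
    simp
    ring
  · ext j k
    simp only [Matrix.add_apply, Matrix.smul_apply, Matrix.sub_apply, smul_eq_mul]
    linear_combination (1 / 2 : ℂ) * (A j k - Aᴴ j k) * (Complex.I_mul_I)

/-- (E2), real tests and Hermitian constants -/
theorem Chain.e2_real (hc : Chain Set.univ u Θ₁ m₁ Θ₂ m₂ ν) {χ : C3 → ℝ}
    (hχ : Test Set.univ χ) {A : Mat} (hA : A.IsHermitian) :
    ∫ z, (χ z : ℂ) * ((A * Θ₂ z).trace / 3) ∂m₂ =
      ∫ z, (u z : ℂ) * D A (Hess χ z) (Θ₁ z) ∂m₁ := by
  have h := hc.eq₂ χ hχ A hA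
  have e1 : ∀ z, (χ z : ℂ) * ((A * Θ₂ z).trace / 3) =
      ((χ z * ((A * Θ₂ z).trace.re / 3) : ℝ) : ℂ) := by
    intro z
    rw [← tr_re_herm hA (hc.pos₂.pos z).1]
    push_cast
    rfl
  have e2 : ∀ z, (u z : ℂ) * D A (Hess χ z) (Θ₁ z) =
      ((u z * (D A (Hess χ z) (Θ₁ z)).re : ℝ) : ℂ) := by
    intro z
    rw [Complex.ofReal_mul, D_re hA (Hess_isHermitian hχ.smooth z) (hc.pos₁.pos z).1]
  simp_rw [e1, e2]
  rw [integral_complex_ofReal, integral_complex_ofReal, h]

/-- (E2), real tests -/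
theorem Chain.e2_mat (hc : Chain Set.univ u Θ₁ m₁ Θ₂ m₂ ν) (hum : Measurable u)
    (hub : Mol.LocBdd u) {χ : C3 → ℝ} (hχ : Test Set.univ χ) (A : Mat) :
    ∫ z, (χ z : ℂ) * ((A * Θ₂ z).trace / 3) ∂m₂ =
      ∫ z, (u z : ℂ) * D A (Hess χ z) (Θ₁ z) ∂m₁ := by
  obtain ⟨A₁, A₂, h1, h2, rfl⟩ := herm_parts A
  have hΘ₂ := MBM.of_pos hc.pos₂
  have hΘ₁ := MBM.of_pos hc.pos₁
  have hu := MB.of_locBdd hum hub
  have i1 : ∀ A : Mat, Integrable (fun z => (χ z : ℂ) * ((A * Θ₂ z).trace / 3)) m₂ := fun A =>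
    int_mb hc.pos₂.fin (sm_ofReal hχ.smooth).continuous (compact_ofReal hχ.comp)
      (((MBM.const A).trace hΘ₂).mul (MB.const _))
  have i2 : ∀ A : Mat, Integrable (fun z => (u z : ℂ) * D A (Hess χ z) (Θ₁ z)) m₁ := fun A =>
    int_supp hc.pos₁.fin (hu.mul ((MBM.const A).D (MBM.hess hχ.smooth) hΘ₁)) hχ.comp
      fun z hz => by rw [Hess_eq_zero hχ.smooth hz, D_zero_mid, mul_zero]
  have f1 : ∀ z, (χ z : ℂ) * (((A₁ + Complex.I • A₂) * Θ₂ z).trace / 3) =
      (χ z : ℂ) * ((A₁ * Θ₂ z).trace / 3) + Complex.I * ((χ z : ℂ) * ((A₂ * Θ₂ z).trace / 3)) := by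
    intro z
    rw [Matrix.add_mul, Matrix.trace_add, Matrix.smul_mul, Matrix.trace_smul, smul_eq_mul]
    ring
  have f2 : ∀ z, (u z : ℂ) * D (A₁ + Complex.I • A₂) (Hess χ z) (Θ₁ z) =
      (u z : ℂ) * D A₁ (Hess χ z) (Θ₁ z) + Complex.I * ((u z : ℂ) * D A₂ (Hess χ z) (Θ₁ z)) := by
    intro z
    rw [D_add_left, D_smul_left]
    ring
  simp_rw [f1, f2]
  rw [integral_add (i1 _) ((i1 _).const_mul _), integral_add (i2 _) ((i2 _).const_mul _),
    integral_const_mul, integral_const_mul, hc.e2_real hχ h1, hc.e2_real hχ h2]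

/-- (E2) -/
theorem Chain.e2 (hc : Chain Set.univ u Θ₁ m₁ Θ₂ m₂ ν) (hum : Measurable u)
    (hub : Mol.LocBdd u) {F : C3 → ℂ} (hF : Sm F) (hFc : HasCompactSupport F) (A : Mat) :
    ∫ z, F z * ((A * Θ₂ z).trace / 3) ∂m₂ = ∫ z, (u z : ℂ) * D A (HessC F z) (Θ₁ z) ∂m₁ := by
  have t1 := test_re hF hFc
  have t2 := test_im hF hFc
  have hΘ₂ := MBM.of_pos hc.pos₂
  have hΘ₁ := MBM.of_pos hc.pos₁
  have hu := MB.of_locBdd hum hub
  have i1 : ∀ χ : C3 → ℝ, Test Set.univ χ →
      Integrable (fun z => (χ z : ℂ) * ((A * Θ₂ z).trace / 3)) m₂ := fun χ hχ =>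
    int_mb hc.pos₂.fin (sm_ofReal hχ.smooth).continuous (compact_ofReal hχ.comp)
      (((MBM.const A).trace hΘ₂).mul (MB.const _))
  have i2 : ∀ χ : C3 → ℝ, Test Set.univ χ →
      Integrable (fun z => (u z : ℂ) * D A (Hess χ z) (Θ₁ z)) m₁ := fun χ hχ =>
    int_supp hc.pos₁.fin (hu.mul ((MBM.const A).D (MBM.hess hχ.smooth) hΘ₁)) hχ.comp
      fun z hz => by rw [Hess_eq_zero hχ.smooth hz, D_zero_mid, mul_zero]
  have f1 : ∀ z, F z * ((A * Θ₂ z).trace / 3) = (((F z).re : ℝ) : ℂ) * ((A * Θ₂ z).trace / 3) +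
      Complex.I * ((((F z).im : ℝ) : ℂ) * ((A * Θ₂ z).trace / 3)) := by
    intro z
    conv_lhs => rw [← Complex.re_add_im (F z)]
    ring
  have f2 : ∀ z, (u z : ℂ) * D A (HessC F z) (Θ₁ z) =
      (u z : ℂ) * D A (Hess (fun z => (F z).re) z) (Θ₁ z) +
      Complex.I * ((u z : ℂ) * D A (Hess (fun z => (F z).im) z) (Θ₁ z)) := by
    intro z
    rw [HessC_split hF hFc z, D_add_mid, D_smul_mid]
    ring
  simp_rw [f1, f2]
  rw [integral_add (i1 _ t1) ((i1 _ t2).const_mul _), integral_add (i2 _ t1) ((i2 _ t2).const_mul _),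
    integral_const_mul, integral_const_mul, hc.e2_mat hum hub t1, hc.e2_mat hum hub t2]

/-- (E2) for matrix fields -/
theorem Chain.e2M (hc : Chain Set.univ u Θ₁ m₁ Θ₂ m₂ ν) (hum : Measurable u)
    (hub : Mol.LocBdd u) {A : C3 → Mat} (hA : ∀ j k, Sm fun z => A z j k)
    (hAc : ∀ j k, HasCompactSupport fun z => A z j k) :
    ∫ z, (A z * Θ₂ z).trace / 3 ∂m₂ =
      ∫ z, (u z : ℂ) * ∑ j, ∑ k, D (E j k) (HessC (fun w => A w j k) z) (Θ₁ z) ∂m₁ := by
  have hΘ₂ := MBM.of_pos hc.pos₂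
  have hΘ₁ := MBM.of_pos hc.pos₁
  have hu := MB.of_locBdd hum hub
  have f1 : ∀ z, (A z * Θ₂ z).trace / 3 = ∑ j, ∑ k, A z j k * ((E j k * Θ₂ z).trace / 3) := by
    intro z
    conv_lhs => rw [eq_sum_E (A z)]
    rw [Finset.sum_mul, Matrix.trace_sum, Finset.sum_div]
    refine Finset.sum_congr rfl fun j _ => ?_
    rw [Finset.sum_mul, Matrix.trace_sum, Finset.sum_div]
    refine Finset.sum_congr rfl fun k _ => ?_
    rw [Matrix.smul_mul, Matrix.trace_smul, smul_eq_mul]
    ring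
  have i1 : ∀ j k, Integrable (fun z => A z j k * ((E j k * Θ₂ z).trace / 3)) m₂ := fun j k =>
    int_mb hc.pos₂.fin (hA j k).continuous (hAc j k)
      (((MBM.const (E j k)).trace hΘ₂).mul (MB.const _))
  have i2 : ∀ j k, Integrable (fun z => (u z : ℂ) * D (E j k) (HessC (fun w => A w j k) z) (Θ₁ z)) m₁ :=
    fun j k => int_supp hc.pos₁.fin (hu.mul ((MBM.const _).D (MBM.hessC (hA j k)) hΘ₁)) (hAc j k)
      fun z hz => by rw [HessC_eq_zero hz, D_zero_mid, mul_zero]
  simp_rw [f1, Finset.mul_sum]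
  rw [integral_finsetSum _ fun j _ => integrable_finsetSum _ fun k _ => i1 j k,
    integral_finsetSum _ fun j _ => integrable_finsetSum _ fun k _ => i2 j k]
  refine Finset.sum_congr rfl fun j _ => ?_
  rw [integral_finsetSum _ fun k _ => i1 j k, integral_finsetSum _ fun k _ => i2 j k]
  exact Finset.sum_congr rfl fun k _ => hc.e2 hum hub (hA j k) (hAc j k) _

/-- (E1) for matrix fields: `∑_pq ∫ G_pq Θ₁_pq` -/
theorem Chain.e1M (hc : Chain Set.univ u Θ₁ m₁ Θ₂ m₂ ν) (hum : Measurable u)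
    (hub : Mol.LocBdd u) {A : C3 → Mat} (hA : ∀ j k, Sm fun z => A z j k)
    (hAc : ∀ j k, HasCompactSupport fun z => A z j k) :
    ∫ z, ∑ p, ∑ q, A z p q * Θ₁ z p q ∂m₁ =
      ∫ z, (u z : ℂ) * ∑ p, ∑ q, HessC (fun w => A w p q) z p q := by
  have hΘ₁ := MBM.of_pos hc.pos₁
  have hu := MB.of_locBdd hum hub
  have hvol : FinOn Set.univ (volume : Measure C3) := fun K hK _ => hK.measure_lt_top
  have i1 : ∀ j k, Integrable (fun z => A z j k * Θ₁ z j k) m₁ := fun j k =>
    int_mb hc.pos₁.fin (hA j k).continuous (hAc j k) (hΘ₁ j k)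
  have i2 : ∀ j k, Integrable (fun z => (u z : ℂ) * HessC (fun w => A w j k) z j k) := fun j k =>
    int_supp hvol (hu.mul (MBM.hessC (hA j k) j k)) (hAc j k)
      fun z hz => by rw [HessC_eq_zero hz, Matrix.zero_apply, mul_zero]
  simp_rw [Finset.mul_sum]
  rw [integral_finsetSum _ fun j _ => integrable_finsetSum _ fun k _ => i1 j k,
    integral_finsetSum _ fun j _ => integrable_finsetSum _ fun k _ => i2 j k]
  refine Finset.sum_congr rfl fun j _ => ?_
  rw [integral_finsetSum _ fun k _ => i1 j k, integral_finsetSum _ fun k _ => i2 j k]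
  exact Finset.sum_congr rfl fun k _ => hc.e1 hum hub (hA j k) (hAc j k) j k

/-- (E3) -/
theorem Chain.e3 (hc : Chain Set.univ u Θ₁ m₁ Θ₂ m₂ ν) {χ : C3 → ℝ} (hχ : Test Set.univ χ) :
    ∫ z, (χ z : ℂ) ∂ν = ∫ z, (u z : ℂ) * ((Hess χ z * Θ₂ z).trace / 3) ∂m₂ := by
  have h := hc.eq₃ χ hχ
  have e2 : ∀ z, (u z : ℂ) * ((Hess χ z * Θ₂ z).trace / 3) =
      ((u z * ((Hess χ z * Θ₂ z).trace.re / 3) : ℝ) : ℂ) := by
    intro z
    rw [Complex.ofReal_mul, Complex.ofReal_div,
      tr_re_herm (Hess_isHermitian hχ.smooth z) (hc.pos₂.pos z).1, Complex.ofReal_ofNat]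
  simp_rw [e2]
  rw [integral_complex_ofReal, integral_complex_ofReal, h]

end chain

end KOL
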