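import Pool.Agent.KOL.Neg
import Pool.Agent.KOL.Blk
import Pool.Agent.KOL.Strip

/-!
# Project KOL: the assembly
-/

set_option autoImplicit false

namespace KOL

open MeasureTheory Set

/-- the final theorem from the rows BAR and MU -/
theorem final (bar : BAR_stmt) (mu : MU_stmt) :
    ∃ μ : Measure C3, TorusProb μ ∧ LocDom μ ∧
      ∀ φ : C3 → ℝ, OmegaPsh φ → ¬ IsMA Set.univ (fun z => φ z + sq z) μ := by
  obtain ⟨μ, h1, h2, h3⟩ := mu _ _ _ _ _ _ blocks
  exact ⟨μ, h1, h2, fun φ hφ hμ => neg bar strip φ μ hφ hμ h3⟩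

end KOL
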