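import Pool.Agent.KOL.Ibp

/-!
# Project KOL: the equations of a chain for complex test functions and arbitrary matrices
-/

set_option autoImplicit false

namespace KOL

open MeasureTheory Matrix
open scoped ContDiff ComplexOrder ComplexConjugate

/-- bounded Borel functions with compact support in `U` -/
structure TB (U : Set C3) (X : C3 → ℂ) : Prop where
  meas : Measurable X
  ex : ∃ K : Set C3, IsCompact K ∧ K ⊆ U ∧ (∀ z, z ∉ K → X z = 0) ∧ ∃ B : ℝ, ∀ z, ‖X z‖ ≤ B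

/-- locally bounded Borel functions on `U` -/
structure LocC (U : Set C3) (Q : C3 → ℂ) : Prop where
  meas : Measurable (U.indicator Q)
  bdd : ∀ K : Set C3, IsCompact K → K ⊆ U → ∃ B : ℝ, ∀ z ∈ K, ‖Q z‖ ≤ B

/-- locally bounded real Borel functions on `U` -/
structure LocB (U : Set C3) (u : C3 → ℝ) : Prop where
  meas : Measurable (U.indicator u)
  bdd : ∀ K : Set C3, IsCompact K → K ⊆ U → ∃ B : ℝ, ∀ z ∈ K, |u z| ≤ B

/-- complex test functions -/
structure TestC (U : Set C3) (F : C3 → ℂ) : Prop where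
  sm : Sm F
  comp : HasCompactSupport F
  sub : tsupport F ⊆ U

section
variable {U V : Set C3} {X Y P Q F G : C3 → ℂ}

theorem TB.integrable (h : TB U X) {m : Measure C3} (hm : FinOn U m) : Integrable X m := by
  obtain ⟨K, hK, hKU, h0, B, hB⟩ := h.ex
  have h1 : IntegrableOn X K m :=
    Measure.integrableOn_of_bounded (M := B) (hm K hK hKU).ne h.meas.aestronglyMeasurable
      (Filter.Eventually.of_forall hB)
  refine (integrableOn_iff_integrable_of_support_subset fun z hz => ?_).1 h1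
  by_contra h2
  exact hz (h0 z h2)

theorem TB.add (h : TB U X) (h' : TB U Y) : TB U fun z => X z + Y z := by
  obtain ⟨K, hK, hKU, h0, B, hB⟩ := h.ex
  obtain ⟨K', hK', hKU', h0', B', hB'⟩ := h'.ex
  refine ⟨h.meas.add h'.meas, K ∪ K', hK.union hK', Set.union_subset hKU hKU', fun z hz => ?_, B + B', fun z => ?_⟩
  · rw [Set.mem_union, not_or] at hz
    rw [h0 z hz.1, h0' z hz.2, add_zero]
  · exact (norm_add_le _ _).trans (add_le_add (hB z) (hB' z))

theorem TB.zero : TB U fun _ => 0 :=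
  ⟨measurable_const, ∅, isCompact_empty, Set.empty_subset _, fun _ _ => rfl, 0, fun _ => by simp⟩

theorem TB.sum {ι : Type*} (s : Finset ι) {f : ι → C3 → ℂ} (h : ∀ i, TB U (f i)) :
    TB U fun z => ∑ i ∈ s, f i z := by
  classical
  induction s using Finset.induction_on with
  | empty => simpa using TB.zero
  | insert a s ha ih =>
    simp only [Finset.sum_insert ha]
    exact (h a).add ih

theorem TB.mul (h : TB U X) (hQ : LocC U Q) : TB U fun z => X z * Q z := by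
  obtain ⟨K, hK, hKU, h0, B, hB⟩ := h.ex
  obtain ⟨B', hB'⟩ := hQ.bdd K hK hKU
  have e : (fun z => X z * Q z) = fun z => X z * U.indicator Q z := by
    funext z
    by_cases hz : z ∈ K
    · rw [Set.indicator_of_mem (hKU hz)]
    · rw [h0 z hz, zero_mul, zero_mul]
  refine ⟨?_, K, hK, hKU, fun z hz => ?_, B * max B' 0, fun z => ?_⟩
  · rw [e]
    exact h.meas.mul hQ.meas
  · rw [h0 z hz, zero_mul]
  · by_cases hz : z ∈ K
    · rw [norm_mul]
      exact mul_le_mul (hB z) ((hB' z hz).trans (le_max_left _ _)) (norm_nonneg _) ((norm_nonneg _).trans (hB z))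
    · rw [h0 z hz, zero_mul, norm_zero]
      exact mul_nonneg ((norm_nonneg _).trans (hB z)) (le_max_right _ _)

theorem LocC.const (hU : MeasurableSet U) (c : ℂ) : LocC U fun _ => c :=
  ⟨measurable_const.indicator hU, fun _ _ _ => ⟨‖c‖, fun _ _ => le_rfl⟩⟩

theorem TB.const_mul (h : TB U X) (c : ℂ) : TB U fun z => c * X z := by
  obtain ⟨K, hK, hKU, h0, B, hB⟩ := h.ex
  refine ⟨measurable_const.mul h.meas, K, hK, hKU, fun z hz => ?_, ‖c‖ * B, fun z => ?_⟩
  · rw [h0 z hz, mul_zero]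
  · rw [norm_mul]
    exact mul_le_mul_of_nonneg_left (hB z) (norm_nonneg _)

theorem TB.of_eq (h : TB U X) (e : ∀ z, Y z = X z) : TB U Y := by
  have : Y = X := funext e
  rwa [this]

theorem TB.mono (h : TB U X) (hUV : U ⊆ V) : TB V X := by
  obtain ⟨K, hK, hKU, h0, hB⟩ := h.ex
  exact ⟨h.meas, K, hK, hKU.trans hUV, h0, hB⟩

theorem FinOn.mono {m : Measure C3} (h : FinOn V m) (hUV : U ⊆ V) : FinOn U m :=
  fun K hK hKU => h K hK (hKU.trans hUV)

theorem finOn_volume (U : Set C3) : FinOn U volume := fun _ hK _ => hK.measure_lt_top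

theorem TestC.tb (h : TestC U F) : TB U F := by
  obtain ⟨B, hB⟩ := h.comp.exists_bound_of_continuous h.sm.continuous
  exact ⟨h.sm.continuous.measurable, tsupport F, h.comp, h.sub, fun z hz => image_eq_zero_of_notMem_tsupport hz, B, hB⟩

theorem TestC.mono (h : TestC U F) (hUV : U ⊆ V) : TestC V F := ⟨h.sm, h.comp, h.sub.trans hUV⟩

theorem TestC.mul_left (hP : Sm P) (h : TestC U F) : TestC U fun z => P z * F z :=
  ⟨hP.mul h.sm, h.comp.mul_left, (tsupport_mul_subset_right).trans h.sub⟩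

theorem TestC.const_mul (h : TestC U F) (c : ℂ) : TestC U fun z => c * F z := h.mul_left (sm_const c)

theorem TestC.hess (h : TestC U F) (j k : Fin 3) : TestC U fun z => HessC F z j k :=
  ⟨sm_HessC h.sm j k, compact_HessC h.comp j k, (tsupport_HessC F j k).trans h.sub⟩

theorem TestC.re (h : TestC U F) : Test U fun z => (F z).re := by
  have hs : tsupport (fun z => (F z).re) ⊆ tsupport F := closure_mono fun z hz h1 => hz (by
    change (F z).re = 0
    rw [h1, Complex.zero_re])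
  exact ⟨Complex.reCLM.contDiff.comp h.sm, IsCompact.of_isClosed_subset h.comp (isClosed_tsupport _) hs,
    hs.trans h.sub⟩

theorem TestC.im (h : TestC U F) : Test U fun z => (F z).im := by
  have hs : tsupport (fun z => (F z).im) ⊆ tsupport F := closure_mono fun z hz h1 => hz (by
    change (F z).im = 0
    rw [h1, Complex.zero_im])
  exact ⟨Complex.imCLM.contDiff.comp h.sm, IsCompact.of_isClosed_subset h.comp (isClosed_tsupport _) hs,
    hs.trans h.sub⟩

theorem Test.c {χ : C3 → ℝ} (h : Test U χ) : TestC U fun z => (χ z : ℂ) :=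
  ⟨sm_ofReal h.smooth, compact_ofReal h.comp, (tsupport_ofReal χ).trans h.sub⟩

theorem Test.mono {χ : C3 → ℝ} (h : Test U χ) (hUV : U ⊆ V) : Test V χ := ⟨h.smooth, h.comp, h.sub.trans hUV⟩

theorem LocB.c {u : C3 → ℝ} (h : LocB U u) : LocC U fun z => (u z : ℂ) := by
  refine ⟨?_, fun K hK hKU => ?_⟩
  · have e : U.indicator (fun z => (u z : ℂ)) = fun z => ((U.indicator u z : ℝ) : ℂ) := by
      funext z
      by_cases hz : z ∈ U
      · rw [Set.indicator_of_mem hz, Set.indicator_of_mem hz]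
      · rw [Set.indicator_of_notMem hz, Set.indicator_of_notMem hz, Complex.ofReal_zero]
    rw [e]
    exact Complex.measurable_ofReal.comp h.meas
  · obtain ⟨B, hB⟩ := h.bdd K hK hKU
    refine ⟨B, fun z hz => ?_⟩
    rw [Complex.norm_real, Real.norm_eq_abs]
    exact hB z hz

theorem IsPos.locC {Θ : C3 → Mat} {m : Measure C3} (hU : MeasurableSet U) (h : IsPos U Θ m) (j k : Fin 3) :
    LocC U fun z => Θ z j k :=
  ⟨(h.meas j k).indicator hU, fun _ _ _ => ⟨1, fun z _ => h.bdd z j k⟩⟩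

theorem LocC.mul (hP : LocC U P) (hQ : LocC U Q) : LocC U fun z => P z * Q z := by
  refine ⟨?_, fun K hK hKU => ?_⟩
  · have e : U.indicator (fun z => P z * Q z) = fun z => U.indicator P z * U.indicator Q z := by
      funext z
      by_cases hz : z ∈ U
      · rw [Set.indicator_of_mem hz, Set.indicator_of_mem hz, Set.indicator_of_mem hz]
      · rw [Set.indicator_of_notMem hz, Set.indicator_of_notMem hz, zero_mul]
    rw [e]
    exact hP.meas.mul hQ.meas
  · obtain ⟨B, hB⟩ := hP.bdd K hK hKU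
    obtain ⟨B', hB'⟩ := hQ.bdd K hK hKU
    refine ⟨B * B', fun z hz => ?_⟩
    rw [norm_mul]
    exact mul_le_mul (hB z hz) (hB' z hz) (norm_nonneg _) ((norm_nonneg _).trans (hB z hz))

theorem LocC.of_continuous (hU : MeasurableSet U) (hP : Continuous P) : LocC U P :=
  ⟨hP.measurable.indicator hU, fun K hK _ => by
    obtain ⟨B, hB⟩ := hK.exists_bound_of_continuousOn hP.continuousOn
    exact ⟨B, hB⟩⟩

theorem HessC_re_im (hF : Sm F) (z : C3) :
    HessC F z = Hess (fun w => (F w).re) z + Complex.I • Hess (fun w => (F w).im) z := by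
  have h1 : ContDiff ℝ ∞ fun w => (F w).re := Complex.reCLM.contDiff.comp hF
  have h2 : ContDiff ℝ ∞ fun w => (F w).im := Complex.imCLM.contDiff.comp hF
  have e : F = fun w => ((F w).re : ℂ) + Complex.I * ((F w).im : ℂ) := by
    funext w
    rw [mul_comm]
    exact (Complex.re_add_im _).symm
  rw [Hess_eq h1, Hess_eq h2, ← HessC_const_mul (sm_ofReal h2),
    ← HessC_add (sm_ofReal h1) (contDiff_const.mul (sm_ofReal h2)), ← e]

end

/-! ### complexified equations -/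

section chain
variable {U : Set C3} {u : C3 → ℝ} {Θ₁ Θ₂ : C3 → Mat} {m₁ m₂ ν : Measure C3} {F : C3 → ℂ}

/-- `c1` from its own equation -/
theorem c1_of (hU : MeasurableSet U) (hp : IsPos U Θ₁ m₁) (hu : LocB U u)
    (heq : ∀ χ, Test U χ → ∀ j k, ∫ z, (χ z : ℂ) * Θ₁ z j k ∂m₁ = ∫ z, (u z : ℂ) * Hess χ z j k)
    (hF : TestC U F) (j k : Fin 3) :
    ∫ z, F z * Θ₁ z j k ∂m₁ = ∫ z, (u z : ℂ) * HessC F z j k := by
  have hr := hF.re
  have hi := hF.im
  have l1 : ∀ χ, Test U χ → Integrable (fun z => (χ z : ℂ) * Θ₁ z j k) m₁ := fun χ hχ =>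
    (hχ.c.tb.mul (hp.locC hU j k)).integrable hp.fin
  have l2 : ∀ χ, Test U χ → Integrable (fun z => (u z : ℂ) * Hess χ z j k) volume := by
    intro χ hχ
    refine (((hχ.c.hess j k).tb.mul hu.c).of_eq fun z => ?_).integrable (finOn_volume U)
    rw [Hess_eq hχ.smooth]
    ring
  have e1 : ∀ z, F z * Θ₁ z j k = ((F z).re : ℂ) * Θ₁ z j k + Complex.I * (((F z).im : ℂ) * Θ₁ z j k) := by
    intro z
    conv_lhs => rw [← Complex.re_add_im (F z)]
    ring
  have e2 : ∀ z, (u z : ℂ) * HessC F z j k = (u z : ℂ) * Hess (fun w => (F w).re) z j k +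
      Complex.I * ((u z : ℂ) * Hess (fun w => (F w).im) z j k) := by
    intro z
    rw [HessC_re_im hF.sm, Matrix.add_apply, Matrix.smul_apply, smul_eq_mul]
    ring
  simp_rw [e1, e2]
  rw [integral_add (l1 _ hr) ((l1 _ hi).const_mul _), integral_add (l2 _ hr) ((l2 _ hi).const_mul _),
    integral_const_mul, integral_const_mul, heq _ hr, heq _ hi]

theorem Chain.c1 (hU : MeasurableSet U) (h : Chain U u Θ₁ m₁ Θ₂ m₂ ν) (hu : LocB U u) (hF : TestC U F) (j k : Fin 3) :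
    ∫ z, F z * Θ₁ z j k ∂m₁ = ∫ z, (u z : ℂ) * HessC F z j k := c1_of hU h.pos₁ hu h.eq₁ hF j k

theorem trace_eq_sum (A M : Mat) : (A * M).trace = ∑ j, ∑ k, A j k * M k j := by
  simp only [Matrix.trace, Matrix.diag_apply, Matrix.mul_apply]

theorem tb_trace (hU : MeasurableSet U) {m : Measure C3} {Θ : C3 → Mat} (hΘ : IsPos U Θ m) (hF : TB U F) (A : Mat) :
    TB U fun z => F z * ((A * Θ z).trace / 3) := by
  have h : TB U fun z => ∑ j, ∑ k, (A j k / 3) * (F z * Θ z k j) :=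
    TB.sum _ fun j => TB.sum _ fun k => (hF.mul (hΘ.locC hU k j)).const_mul _
  refine h.of_eq fun z => ?_
  rw [trace_eq_sum, Finset.sum_div, Finset.mul_sum]
  refine Finset.sum_congr rfl fun j _ => ?_
  rw [Finset.sum_div, Finset.mul_sum]
  refine Finset.sum_congr rfl fun k _ => ?_
  ring

theorem tb_D (hU : MeasurableSet U) {m : Measure C3} {Θ : C3 → Mat} (hΘ : IsPos U Θ m) (hu : LocB U u)
    (hF : TestC U F) (A : Mat) : TB U fun z => (u z : ℂ) * D A (HessC F z) (Θ z) := by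
  have h : TB U fun z => ∑ l, ∑ m, ∑ p, ∑ q, D A (E l m) (E p q) * ((HessC F z l m * u z) * Θ z p q) :=
    TB.sum _ fun l => TB.sum _ fun m => TB.sum _ fun p => TB.sum _ fun q =>
      ((((hF.hess l m).tb).mul hu.c).mul (hΘ.locC hU p q)).const_mul _
  refine h.of_eq fun z => ?_
  rw [D_expand, Finset.mul_sum]
  refine Finset.sum_congr rfl fun l _ => ?_
  rw [Finset.mul_sum]
  refine Finset.sum_congr rfl fun m _ => ?_
  rw [Finset.mul_sum]
  refine Finset.sum_congr rfl fun p _ => ?_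
  rw [Finset.mul_sum]
  refine Finset.sum_congr rfl fun q _ => ?_
  ring

theorem tb_hess_trace (hU : MeasurableSet U) {m : Measure C3} {Θ : C3 → Mat} (hΘ : IsPos U Θ m) (hu : LocB U u)
    (hF : TestC U F) : TB U fun z => (u z : ℂ) * ((HessC F z * Θ z).trace / 3) := by
  have h : TB U fun z => ∑ j, ∑ k, (1 / 3 : ℂ) * ((HessC F z j k * u z) * Θ z k j) :=
    TB.sum _ fun j => TB.sum _ fun k => ((((hF.hess j k).tb).mul hu.c).mul (hΘ.locC hU k j)).const_mul _
  refine h.of_eq fun z => ?_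
  rw [trace_eq_sum, Finset.sum_div, Finset.mul_sum]
  refine Finset.sum_congr rfl fun j _ => ?_
  rw [Finset.sum_div, Finset.mul_sum]
  refine Finset.sum_congr rfl fun k _ => ?_
  ring

theorem trace_re {A M : Mat} (hA : A.IsHermitian) (hM : M.IsHermitian) : (((A * M).trace.re : ℝ) : ℂ) = (A * M).trace := by
  refine Complex.conj_eq_iff_re.1 ?_
  have h : conj (A * M).trace = ((A * M)ᴴ).trace := (Matrix.trace_conjTranspose _).symm
  rw [h, Matrix.conjTranspose_mul, hA.eq, hM.eq, Matrix.trace_mul_comm]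

/-- the two halves of a matrix -/
theorem herm_split (A : Mat) : ∃ P Q : Mat, P.IsHermitian ∧ Q.IsHermitian ∧ A = P + Complex.I • Q := by
  refine ⟨(1 / 2 : ℂ) • (A + Aᴴ), (1 / 2 : ℂ) • (Complex.I • (Aᴴ - A)), ?_, ?_, ?_⟩
  · ext j k
    simp only [Matrix.conjTranspose_apply, Matrix.smul_apply, Matrix.add_apply, smul_eq_mul, star_mul', star_add,
      star_star]
    rw [add_comm (A j k)]
    congr 1
    simp
  · ext j k
    simp only [Matrix.conjTranspose_apply, Matrix.smul_apply, Matrix.sub_apply, smul_eq_mul, star_mul', star_sub,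
      star_star]
    have h1 : star (1 / 2 : ℂ) = 1 / 2 := by simp
    have h2 : star Complex.I = -Complex.I := Complex.conj_I
    rw [h1, h2]
    ring
  · ext j k
    simp only [Matrix.smul_apply, Matrix.add_apply, Matrix.sub_apply, smul_eq_mul]
    linear_combination (-(1 / 2 : ℂ) * (Aᴴ j k - A j k)) * Complex.I_mul_I

/-- the second equation -/
def Eq2 (U : Set C3) (u : C3 → ℝ) (Θ₁ : C3 → Mat) (m₁ : Measure C3) (Θ₂ : C3 → Mat) (m₂ : Measure C3) : Prop :=
  ∀ χ, Test U χ → ∀ A : Mat, A.IsHermitian →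
    ∫ z, χ z * ((A * Θ₂ z).trace.re / 3) ∂m₂ = ∫ z, u z * (D A (Hess χ z) (Θ₁ z)).re ∂m₁

theorem c2_aux (hp₁ : IsPos U Θ₁ m₁) (hp₂ : IsPos U Θ₂ m₂) (heq : Eq2 U u Θ₁ m₁ Θ₂ m₂) {χ : C3 → ℝ} (hχ : Test U χ)
    {A : Mat} (hA : A.IsHermitian) :
    ∫ z, (χ z : ℂ) * ((A * Θ₂ z).trace / 3) ∂m₂ = ∫ z, (u z : ℂ) * D A (Hess χ z) (Θ₁ z) ∂m₁ := by
  have e1 : ∀ z, (χ z : ℂ) * ((A * Θ₂ z).trace / 3) = ((χ z * ((A * Θ₂ z).trace.re / 3) : ℝ) : ℂ) := by
    intro z
    push_cast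
    rw [trace_re hA (hp₂.pos z).1]
  have e2 : ∀ z, (u z : ℂ) * D A (Hess χ z) (Θ₁ z) = ((u z * (D A (Hess χ z) (Θ₁ z)).re : ℝ) : ℂ) := by
    intro z
    push_cast
    rw [D_re hA (Hess_isHermitian hχ.smooth z) (hp₁.pos z).1]
  simp_rw [e1, e2]
  rw [integral_complex_ofReal, integral_complex_ofReal, heq _ hχ _ hA]

theorem c2_aux2 (hU : MeasurableSet U) (hp₁ : IsPos U Θ₁ m₁) (hp₂ : IsPos U Θ₂ m₂) (heq : Eq2 U u Θ₁ m₁ Θ₂ m₂)
    (hu : LocB U u) {χ : C3 → ℝ} (hχ : Test U χ) (A : Mat) :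
    ∫ z, (χ z : ℂ) * ((A * Θ₂ z).trace / 3) ∂m₂ = ∫ z, (u z : ℂ) * D A (Hess χ z) (Θ₁ z) ∂m₁ := by
  obtain ⟨P, Q, hP, hQ, rfl⟩ := herm_split A
  have l1 : ∀ A : Mat, Integrable (fun z => (χ z : ℂ) * ((A * Θ₂ z).trace / 3)) m₂ := fun A =>
    (tb_trace hU hp₂ hχ.c.tb A).integrable hp₂.fin
  have l2 : ∀ A : Mat, Integrable (fun z => (u z : ℂ) * D A (Hess χ z) (Θ₁ z)) m₁ := by
    intro A
    have := (tb_D hU hp₁ hu hχ.c A).integrable hp₁.fin
    simpa only [Hess_eq hχ.smooth] using this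
  have e1 : ∀ z, (χ z : ℂ) * (((P + Complex.I • Q) * Θ₂ z).trace / 3) =
      (χ z : ℂ) * ((P * Θ₂ z).trace / 3) + Complex.I * ((χ z : ℂ) * ((Q * Θ₂ z).trace / 3)) := by
    intro z
    rw [Matrix.add_mul, Matrix.trace_add, Matrix.smul_mul, Matrix.trace_smul, smul_eq_mul]
    ring
  have e2 : ∀ z, (u z : ℂ) * D (P + Complex.I • Q) (Hess χ z) (Θ₁ z) =
      (u z : ℂ) * D P (Hess χ z) (Θ₁ z) + Complex.I * ((u z : ℂ) * D Q (Hess χ z) (Θ₁ z)) := by
    intro z
    rw [D_add_left, D_smul_left]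
    ring
  simp_rw [e1, e2]
  rw [integral_add (l1 P) ((l1 Q).const_mul _), integral_add (l2 P) ((l2 Q).const_mul _), integral_const_mul,
    integral_const_mul, c2_aux hp₁ hp₂ heq hχ hP, c2_aux hp₁ hp₂ heq hχ hQ]

/-- `c2` from its own equation -/
theorem c2_of (hU : MeasurableSet U) (hp₁ : IsPos U Θ₁ m₁) (hp₂ : IsPos U Θ₂ m₂) (heq : Eq2 U u Θ₁ m₁ Θ₂ m₂)
    (hu : LocB U u) (hF : TestC U F) (A : Mat) :
    ∫ z, F z * ((A * Θ₂ z).trace / 3) ∂m₂ = ∫ z, (u z : ℂ) * D A (HessC F z) (Θ₁ z) ∂m₁ := by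
  have hr := hF.re
  have hi := hF.im
  have l1 : ∀ χ : C3 → ℝ, Test U χ → Integrable (fun z => (χ z : ℂ) * ((A * Θ₂ z).trace / 3)) m₂ := fun χ hχ =>
    (tb_trace hU hp₂ hχ.c.tb A).integrable hp₂.fin
  have l2 : ∀ χ : C3 → ℝ, Test U χ → Integrable (fun z => (u z : ℂ) * D A (Hess χ z) (Θ₁ z)) m₁ := by
    intro χ hχ
    have := (tb_D hU hp₁ hu hχ.c A).integrable hp₁.fin
    simpa only [Hess_eq hχ.smooth] using this
  have e1 : ∀ z, F z * ((A * Θ₂ z).trace / 3) = ((F z).re : ℂ) * ((A * Θ₂ z).trace / 3) +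
      Complex.I * (((F z).im : ℂ) * ((A * Θ₂ z).trace / 3)) := by
    intro z
    conv_lhs => rw [← Complex.re_add_im (F z)]
    ring
  have e2 : ∀ z, (u z : ℂ) * D A (HessC F z) (Θ₁ z) = (u z : ℂ) * D A (Hess (fun w => (F w).re) z) (Θ₁ z) +
      Complex.I * ((u z : ℂ) * D A (Hess (fun w => (F w).im) z) (Θ₁ z)) := by
    intro z
    rw [HessC_re_im hF.sm, D_add_mid, D_smul_mid]
    ring
  simp_rw [e1, e2]
  rw [integral_add (l1 _ hr) ((l1 _ hi).const_mul _), integral_add (l2 _ hr) ((l2 _ hi).const_mul _),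
    integral_const_mul, integral_const_mul, c2_aux2 hU hp₁ hp₂ heq hu hr, c2_aux2 hU hp₁ hp₂ heq hu hi]

theorem Chain.c2 (hU : MeasurableSet U) (h : Chain U u Θ₁ m₁ Θ₂ m₂ ν) (hu : LocB U u) (hF : TestC U F) (A : Mat) :
    ∫ z, F z * ((A * Θ₂ z).trace / 3) ∂m₂ = ∫ z, (u z : ℂ) * D A (HessC F z) (Θ₁ z) ∂m₁ :=
  c2_of hU h.pos₁ h.pos₂ h.eq₂ hu hF A

theorem Chain.c3_aux (h : Chain U u Θ₁ m₁ Θ₂ m₂ ν) {χ : C3 → ℝ} (hχ : Test U χ) :
    ∫ z, (χ z : ℂ) ∂ν = ∫ z, (u z : ℂ) * ((Hess χ z * Θ₂ z).trace / 3) ∂m₂ := by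
  have e2 : ∀ z, (u z : ℂ) * ((Hess χ z * Θ₂ z).trace / 3) = ((u z * ((Hess χ z * Θ₂ z).trace.re / 3) : ℝ) : ℂ) := by
    intro z
    push_cast
    rw [trace_re (Hess_isHermitian hχ.smooth z) (h.pos₂.pos z).1]
  simp_rw [e2]
  rw [integral_complex_ofReal, integral_complex_ofReal, h.eq₃ _ hχ]

theorem Chain.c3 (hU : MeasurableSet U) (h : Chain U u Θ₁ m₁ Θ₂ m₂ ν) (hu : LocB U u) (hF : TestC U F) :
    ∫ z, F z ∂ν = ∫ z, (u z : ℂ) * ((HessC F z * Θ₂ z).trace / 3) ∂m₂ := by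
  have hr := hF.re
  have hi := hF.im
  have l1 : ∀ χ : C3 → ℝ, Test U χ → Integrable (fun z => (χ z : ℂ)) ν := fun χ hχ => hχ.c.tb.integrable h.fin
  have l2 : ∀ χ : C3 → ℝ, Test U χ → Integrable (fun z => (u z : ℂ) * ((Hess χ z * Θ₂ z).trace / 3)) m₂ := by
    intro χ hχ
    have := (tb_hess_trace hU h.pos₂ hu hχ.c).integrable h.pos₂.fin
    simpa only [Hess_eq hχ.smooth] using this
  have e1 : ∀ z, F z = ((F z).re : ℂ) + Complex.I * ((F z).im : ℂ) := by
    intro z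
    conv_lhs => rw [← Complex.re_add_im (F z)]
    ring
  have e2 : ∀ z, (u z : ℂ) * ((HessC F z * Θ₂ z).trace / 3) =
      (u z : ℂ) * ((Hess (fun w => (F w).re) z * Θ₂ z).trace / 3) +
      Complex.I * ((u z : ℂ) * ((Hess (fun w => (F w).im) z * Θ₂ z).trace / 3)) := by
    intro z
    rw [HessC_re_im hF.sm, Matrix.add_mul, Matrix.trace_add, Matrix.smul_mul, Matrix.trace_smul, smul_eq_mul]
    ring
  have e3 : ∫ z, F z ∂ν = ∫ z, ((F z).re : ℂ) + Complex.I * ((F z).im : ℂ) ∂ν :=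
    integral_congr_ae (Filter.Eventually.of_forall e1)
  rw [e3]
  simp_rw [e2]
  rw [integral_add (l1 _ hr) ((l1 _ hi).const_mul _), integral_add (l2 _ hr) ((l2 _ hi).const_mul _),
    integral_const_mul, integral_const_mul, h.c3_aux hr, h.c3_aux hi]

end chain

end KOL
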