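import Pool.Agent.KOL.Rmk
import Pool.Agent.KOL.Mol
import Pool.Agent.KOL.Cx

/-!
# Existence of the Bedford-Taylor products of a locally bounded plurisubharmonic function on `ℂ³`
-/

set_option autoImplicit false

namespace KOL

open MeasureTheory Matrix Set Filter
open scoped ContDiff ComplexOrder Topology

/-! ### the Levi form and the Hessian -/

theorem C3_eq (x : C3) : x = ∑ j, ((x j).re • ev j + (x j).im • (Complex.I • ev j)) := by
  ext k
  simp only [Finset.sum_apply, Pi.add_apply, Pi.smul_apply, ev, Fin.sum_univ_three]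
  fin_cases k <;> simp

theorem Hess_re (f : C3 → ℝ) (z : C3) (j k : Fin 3) :
    (Hess f z j k).re = (1 / 4) * (D2 f z (ev j) (ev k) + D2 f z (Complex.I • ev j) (Complex.I • ev k)) := by
  rw [Hess, show (1 / 4 : ℂ) = ((1 / 4 : ℝ) : ℂ) by push_cast; rfl, Complex.re_ofReal_mul]
  simp

theorem Hess_im (f : C3 → ℝ) (z : C3) (j k : Fin 3) :
    (Hess f z j k).im = (1 / 4) * (D2 f z (ev j) (Complex.I • ev k) - D2 f z (Complex.I • ev j) (ev k)) := by
  rw [Hess, show (1 / 4 : ℂ) = ((1 / 4 : ℝ) : ℂ) by push_cast; rfl, Complex.im_ofReal_mul]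
  simp

theorem trace_Hess (f : C3 → ℝ) (z x : C3) : (rk x * Hess f z).trace.re = levi f z (star x) := by
  have h2 : Complex.I • star x = ∑ j, ((-(star x j).im) • ev j + (star x j).re • (Complex.I • ev j)) := by
    conv_lhs => rw [C3_eq (star x)]
    rw [Finset.smul_sum]
    refine Finset.sum_congr rfl fun j _ => ?_
    rw [smul_add, smul_comm Complex.I ((star x j).re), smul_comm Complex.I ((star x j).im), smul_smul Complex.I,
      Complex.I_mul_I]
    simp only [neg_smul, one_smul, smul_neg]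
    abel
  have h3 : ∀ (a b : Fin 3 → ℝ), D2 f z (∑ j, (a j • ev j + b j • (Complex.I • ev j)))
      (∑ j, (a j • ev j + b j • (Complex.I • ev j))) =
      ∑ j, ∑ k, (a j * a k * D2 f z (ev j) (ev k) + a j * b k * D2 f z (ev j) (Complex.I • ev k) +
        b j * a k * D2 f z (Complex.I • ev j) (ev k) +
        b j * b k * D2 f z (Complex.I • ev j) (Complex.I • ev k)) := by
    intro a b
    simp only [D2, map_add, map_smul, _root_.add_apply, _root_.smul_apply, Fin.sum_univ_three, smul_eq_mul]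
    ring
  have e1 : (rk x * Hess f z).trace.re =
      ∑ j, ∑ k, (((x j).re * (x k).re + (x j).im * (x k).im) * (Hess f z k j).re -
        ((x j).im * (x k).re - (x j).re * (x k).im) * (Hess f z k j).im) := by
    simp only [Matrix.trace, Matrix.diag_apply, Matrix.mul_apply, rk_apply, Complex.re_sum, Complex.mul_re,
      Complex.mul_im, Complex.conj_re, Complex.conj_im]
    refine Finset.sum_congr rfl fun j _ => Finset.sum_congr rfl fun k _ => ?_
    ring
  have d1 := h3 (fun j => (star x j).re) (fun j => (star x j).im)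
  rw [← C3_eq (star x)] at d1
  have d2 := h3 (fun j => -(star x j).im) (fun j => (star x j).re)
  rw [← h2] at d2
  rw [levi, d1, d2, e1]
  simp only [Hess_re, Hess_im, Fin.sum_univ_three, Pi.star_apply, Complex.star_def, Complex.conj_re, Complex.conj_im]
  ring

theorem posSemidef_Hess {f : C3 → ℝ} (hf : ContDiff ℝ ∞ f) {z : C3} (h : ∀ ξ, 0 ≤ levi f z ξ) :
    (Hess f z).PosSemidef :=
  posSemidef_of_trace (Hess_isHermitian hf z) fun x => by
    rw [trace_Hess]
    exact h _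

/-! ### integrability and dominated convergence -/

theorem integrable_cpt {F : Type*} [NormedAddCommGroup F] {m : Measure C3} [IsLocallyFiniteMeasure m] {h : C3 → F}
    (hm : AEStronglyMeasurable h m) {K : Set C3} (hK : IsCompact K) (h0 : ∀ z, z ∉ K → h z = 0) {C : ℝ}
    (hC : ∀ z ∈ K, ‖h z‖ ≤ C) : Integrable h m := by
  have h1 : IntegrableOn h K m := Measure.integrableOn_of_bounded hK.measure_lt_top.ne hm
    ((ae_restrict_iff' hK.measurableSet).2 (ae_of_all _ hC))
  exact (integrableOn_iff_integrable_of_support_subset fun z hz => by_contra fun h => hz (h0 z h)).1 h1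

/-- a measurable function which is bounded and vanishes outside a compact set -/
structure Cpt (h : C3 → ℝ) : Prop where
  meas : Measurable h
  ex : ∃ (K : Set C3) (C : ℝ), IsCompact K ∧ (∀ z, z ∉ K → h z = 0) ∧ ∀ z, |h z| ≤ C

theorem Cpt.integrable {h : C3 → ℝ} (hh : Cpt h) (m : Measure C3) [IsLocallyFiniteMeasure m] : Integrable h m := by
  obtain ⟨K, C, hK, h0, hC⟩ := hh.ex
  exact integrable_cpt hh.meas.aestronglyMeasurable hK h0 fun z _ => hC z

theorem Cpt.add {h g : C3 → ℝ} (hh : Cpt h) (hg : Cpt g) : Cpt fun z => h z + g z := by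
  obtain ⟨K, C, hK, h0, hC⟩ := hh.ex
  obtain ⟨K', C', hK', h0', hC'⟩ := hg.ex
  refine ⟨hh.meas.add hg.meas, K ∪ K', C + C', hK.union hK', fun z hz => ?_, fun z => ?_⟩
  · rw [mem_union, not_or] at hz
    simp only [h0 z hz.1, h0' z hz.2, add_zero]
  · exact (abs_add_le _ _).trans (add_le_add (hC z) (hC' z))

theorem Cpt.mul_bdd {h g : C3 → ℝ} (hh : Cpt h) (hg : Measurable g) {B : ℝ} (hB : ∀ z, |g z| ≤ B) :
    Cpt fun z => h z * g z := by
  obtain ⟨K, C, hK, h0, hC⟩ := hh.ex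
  refine ⟨hh.meas.mul hg, K, C * B, hK, fun z hz => ?_, fun z => ?_⟩
  · simp only [h0 z hz, zero_mul]
  · rw [abs_mul]
    exact mul_le_mul (hC z) (hB z) (abs_nonneg _) ((abs_nonneg _).trans (hC z))

theorem Cpt.const_mul {h : C3 → ℝ} (hh : Cpt h) (c : ℝ) : Cpt fun z => c * h z := by
  have := hh.mul_bdd (g := fun _ => c) measurable_const (B := |c|) fun _ => le_rfl
  simpa only [mul_comm] using this

/-- the product with a locally bounded function -/
theorem Cpt.mul_loc {h u : C3 → ℝ} (hh : Cpt h) (hu : Measurable u) (hb : Mol.LocBdd u) : Cpt fun z => u z * h z := by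
  obtain ⟨K, C, hK, h0, hC⟩ := hh.ex
  obtain ⟨R, hR⟩ := hK.isBounded.subset_closedBall (0 : C3)
  obtain ⟨M, hM⟩ := hb R
  have hC0 : 0 ≤ C := (abs_nonneg _).trans (hC 0)
  refine ⟨hu.mul hh.meas, K, |M| * C, hK, fun z hz => ?_, fun z => ?_⟩
  · simp only [h0 z hz, mul_zero]
  · by_cases hz : z ∈ K
    · rw [abs_mul]
      refine mul_le_mul ((hM z ?_).trans (le_abs_self M)) (hC z) (abs_nonneg _) (abs_nonneg _)
      simpa using hR hz
    · simp only [h0 z hz, mul_zero, abs_zero]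
      positivity

theorem tendsto_mol_integral {m : Measure C3} [IsLocallyFiniteMeasure m] {u : C3 → ℝ} (hu : Psh univ u)
    (hb : Mol.LocBdd u) {h : C3 → ℝ} (hh : Cpt h) :
    Tendsto (fun n => ∫ z, Mol.mol n u z * h z ∂m) atTop (𝓝 (∫ z, u z * h z ∂m)) := by
  obtain ⟨K, C, hK, h0, hC⟩ := hh.ex
  obtain ⟨hs, -, -, ht, hbd⟩ := Mol.exists_smooth hu hb
  obtain ⟨R, hR⟩ := hK.isBounded.subset_closedBall (0 : C3)
  obtain ⟨M, hM⟩ := hb (R + 1)
  refine tendsto_integral_of_dominated_convergence (fun z => |M| * |h z|) (fun n => ?_) ?_ (fun n => ?_) ?_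
  · exact ((hs n).continuous.measurable.mul hh.meas).aestronglyMeasurable
  · exact ((hh.integrable m).abs).const_mul _
  · refine ae_of_all _ fun z => ?_
    by_cases hz : z ∈ K
    · rw [norm_mul, Real.norm_eq_abs, Real.norm_eq_abs]
      refine mul_le_mul_of_nonneg_right ?_ (abs_nonneg _)
      exact (hbd R M hM n z (by simpa using hR hz)).trans (le_abs_self M)
    · simp [h0 z hz]
  · exact ae_of_all _ fun z => (ht z).mul_const _

/-- the abstract step: a positive pairing which is closed gives the next product -/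
theorem exists_next {m : Measure C3} [IsLocallyFiniteMeasure m] {u : C3 → ℝ} (hu : Psh univ u) (hb : Mol.LocBdd u)
    (q : Mat → (C3 → ℝ) → C3 → ℝ) (hq : ∀ A χ, Test univ χ → Cpt (q A χ))
    (haddA : ∀ A B χ z, Test univ χ → q (A + B) χ z = q A χ z + q B χ z)
    (hsmulA : ∀ (c : ℝ) A χ z, Test univ χ → q (c • A) χ z = c * q A χ z)
    (hadd : ∀ A χ χ' z, Test univ χ → Test univ χ' → q A (χ + χ') z = q A χ z + q A χ' z)
    (hsmul : ∀ (c : ℝ) A χ z, Test univ χ → q A (c • χ) z = c * q A χ z)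
    (hpos : ∀ A χ, A.PosSemidef → Test univ χ → (∀ z, 0 ≤ χ z) → ∀ n, 0 ≤ ∫ z, Mol.mol n u z * q A χ z ∂m) :
    ∃ (Θ : C3 → Mat) (m' : Measure C3), IsLocallyFiniteMeasure m' ∧ IsPos univ Θ m' ∧
      ∀ A χ, A.IsHermitian → Test univ χ → ∫ z, u z * q A χ z ∂m = ∫ z, χ z * (A * Θ z).trace.re ∂m' := by
  have hum := Mol.psh_meas hu
  have hi : ∀ A χ, Test univ χ → Integrable (fun z => u z * q A χ z) m := fun A χ hχ =>
    ((hq A χ hχ).mul_loc hum hb).integrable m
  refine exists_matrix_measure (fun A χ => ∫ z, u z * q A χ z ∂m) (fun A B χ hχ => ?_) (fun c A χ hχ => ?_)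
    (fun A χ χ' hχ hχ' => ?_) (fun c A χ hχ => ?_) (fun A χ hA hχ h0 => ?_)
  · simp only [haddA _ _ χ _ hχ, mul_add]
    exact integral_add (hi A χ hχ) (hi B χ hχ)
  · simp only [hsmulA _ _ χ _ hχ]
    rw [← integral_const_mul]
    congr 1
    ext z
    ring
  · simp only [hadd _ _ _ _ hχ hχ', mul_add]
    exact integral_add (hi A χ hχ) (hi A χ' hχ')
  · simp only [hsmul _ _ χ _ hχ]
    rw [← integral_const_mul]
    congr 1
    ext z
    ring
  · exact ge_of_tendsto' (tendsto_mol_integral hu hb (hq A χ hχ)) (hpos A χ hA hχ h0)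

/-- the abstract last step -/
theorem exists_last {m : Measure C3} [IsLocallyFiniteMeasure m] {u : C3 → ℝ} (hu : Psh univ u) (hb : Mol.LocBdd u)
    (q : (C3 → ℝ) → C3 → ℝ) (hq : ∀ χ, Test univ χ → Cpt (q χ))
    (hadd : ∀ χ χ' z, Test univ χ → Test univ χ' → q (χ + χ') z = q χ z + q χ' z)
    (hsmul : ∀ (c : ℝ) χ z, Test univ χ → q (c • χ) z = c * q χ z)
    (hpos : ∀ χ, Test univ χ → (∀ z, 0 ≤ χ z) → ∀ n, 0 ≤ ∫ z, Mol.mol n u z * q χ z ∂m) :
    ∃ ν : Measure C3, IsLocallyFiniteMeasure ν ∧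
      ∀ χ, Test univ χ → ∫ z, u z * q χ z ∂m = ∫ z, χ z ∂ν := by
  have hum := Mol.psh_meas hu
  have hi : ∀ χ, Test univ χ → Integrable (fun z => u z * q χ z) m := fun χ hχ =>
    ((hq χ hχ).mul_loc hum hb).integrable m
  refine exists_measure (fun χ => ∫ z, u z * q χ z ∂m) (fun χ χ' hχ hχ' => ?_) (fun c χ hχ => ?_)
    (fun χ hχ h0 => ?_)
  · simp only [hadd _ _ _ hχ hχ', mul_add]
    exact integral_add (hi χ hχ) (hi χ' hχ')
  · simp only [hsmul _ χ _ hχ]
    rw [← integral_const_mul]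
    congr 1
    ext z
    ring
  · exact ge_of_tendsto' (tendsto_mol_integral hu hb (hq χ hχ)) (hpos χ hχ h0)

/-! ### first step -/

theorem Cpt.of_continuous {h : C3 → ℝ} (hc : Continuous h) (hs : HasCompactSupport h) : Cpt h := by
  obtain ⟨C, hC⟩ := hs.exists_bound_of_continuous hc
  exact ⟨hc.measurable, tsupport h, C, hs, fun z hz => image_eq_zero_of_notMem_tsupport hz, fun z => hC z⟩

theorem ibp_HessC {F G : C3 → ℂ} (hF : Sm F) (hG : Sm G) (hc : HasCompactSupport F ∨ HasCompactSupport G)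
    (j k : Fin 3) : ∫ z, F z * HessC G z j k = ∫ z, G z * HessC F z j k := by
  have h1 : ∫ z, F z * HessC G z j k = - ∫ z, dz j F z * dzb k G z :=
    ibp_dz hF (hG.dzb k) (hc.imp id fun h => compact_dzb h k) j
  have h2 : ∫ z, dz j F z * dzb k G z = - ∫ z, dzb k (dz j F) z * G z :=
    ibp_dzb (hF.dz j) hG (hc.imp (fun h => compact_dz h j) id) k
  rw [h1, h2, neg_neg]
  refine integral_congr_ae (ae_of_all _ fun z => ?_)
  simp only [HessC]
  rw [← dz_dzb_comm hF, mul_comm]

theorem trace_nonneg {A B : Mat} (hA : A.PosSemidef) (hB : B.PosSemidef) : 0 ≤ (A * B).trace.re := by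
  obtain ⟨x, rfl⟩ := exists_rk hA
  rw [Finset.sum_mul, Matrix.trace_sum, Complex.re_sum]
  refine Finset.sum_nonneg fun l _ => ?_
  rw [← rk_trace]
  exact (Complex.nonneg_iff.1 (hB.dotProduct_mulVec_nonneg (x l))).1

theorem trace_E (j k : Fin 3) (M : Mat) : (E j k * M).trace = M k j := by
  rw [E_eq_vec, Matrix.trace, Fin.sum_univ_three]
  simp only [Matrix.diag_apply, Matrix.mul_apply, Fin.sum_univ_three, Matrix.vecMulVec_apply]
  fin_cases j <;> fin_cases k <;> simp

theorem trace_hb_true {M : Mat} (hM : M.IsHermitian) (j k : Fin 3) : (hb (j, k, true) * M).trace.re = 2 * (M j k).re := by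
  have h : (M k j).re = (M j k).re := by rw [← hM.apply k j]; rfl
  simp only [hb, if_true, Matrix.add_mul, Matrix.trace_add, trace_E, Complex.add_re, h]
  ring

theorem trace_hb_false {M : Mat} (hM : M.IsHermitian) (j k : Fin 3) :
    (hb (j, k, false) * M).trace.re = 2 * (M j k).im := by
  have h : (M k j).im = -(M j k).im := by rw [← hM.apply k j]; rfl
  simp only [hb, Bool.false_eq_true, if_false, Matrix.smul_mul, Matrix.sub_mul, Matrix.trace_smul, Matrix.trace_sub,
    trace_E, smul_eq_mul, Complex.mul_re, Complex.sub_re, Complex.sub_im, Complex.I_re, Complex.I_im, h]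
  ring

theorem hb_isHermitian (i : Fin 3 × Fin 3 × Bool) : (hb i).IsHermitian := by
  rw [hb_eq]
  exact ((rk_posSemidef _).1.sub (rk_posSemidef _).1).sub (rk_posSemidef _).1

theorem Test.hess_add {χ χ' : C3 → ℝ} (h : Test univ χ) (h' : Test univ χ') (z : C3) :
    Hess (χ + χ') z = Hess χ z + Hess χ' z := Hess_add h.smooth h'.smooth z

theorem Test.hess_smul {χ : C3 → ℝ} (h : Test univ χ) (c : ℝ) (z : C3) :
    Hess (c • χ) z = (c : ℂ) • Hess χ z := Hess_const_mul h.smooth c z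

theorem cpt_q1 (A : Mat) {χ : C3 → ℝ} (hχ : Test univ χ) : Cpt fun z => (A * Hess χ z).trace.re := by
  refine Cpt.of_continuous ?_ ?_
  · simp only [Matrix.trace, Matrix.diag_apply, Matrix.mul_apply]
    exact Complex.continuous_re.comp (continuous_finsetSum _ fun j _ => continuous_finsetSum _ fun k _ =>
      continuous_const.mul (continuous_Hess hχ.smooth k j))
  · refine HasCompactSupport.intro hχ.comp fun z hz => ?_
    rw [Hess_eq_zero hχ.smooth hz, Matrix.mul_zero, Matrix.trace_zero, Complex.zero_re]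

theorem ibp_trace (A : Mat) {f g : C3 → ℝ} (hf : ContDiff ℝ ∞ f) (hg : ContDiff ℝ ∞ g)
    (hc : HasCompactSupport f ∨ HasCompactSupport g) :
    ∫ z, f z * (A * Hess g z).trace.re = ∫ z, g z * (A * Hess f z).trace.re := by
  have key : ∀ {p q : C3 → ℝ}, ContDiff ℝ ∞ p → ContDiff ℝ ∞ q → (HasCompactSupport p ∨ HasCompactSupport q) →
      ∫ z, p z * (A * Hess q z).trace.re =
        (∑ j, ∑ k, A j k * ∫ z, (p z : ℂ) * HessC (fun w => (q w : ℂ)) z k j).re := by
    intro p q hp hq hpq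
    have hi : ∀ j k, Integrable (fun z => (p z : ℂ) * HessC (fun w => (q w : ℂ)) z k j) volume := by
      intro j k
      refine integrable_of_compact ((sm_ofReal hp).continuous.mul (sm_HessC (sm_ofReal hq) k j).continuous) ?_
      rcases hpq with h | h
      · exact (compact_ofReal h).mul_right
      · exact (compact_HessC (compact_ofReal h) k j).mul_left
    have e : ∀ z, p z * (A * Hess q z).trace.re =
        (∑ j, ∑ k, A j k * ((p z : ℂ) * HessC (fun w => (q w : ℂ)) z k j)).re := by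
      intro z
      rw [← Complex.re_ofReal_mul, Hess_eq hq]
      congr 1
      simp only [Matrix.trace, Matrix.diag_apply, Matrix.mul_apply, Finset.mul_sum]
      refine Finset.sum_congr rfl fun j _ => Finset.sum_congr rfl fun k _ => ?_
      ring
    simp_rw [e]
    have hi3 : ∀ j k, Integrable (fun z => A j k * ((p z : ℂ) * HessC (fun w => (q w : ℂ)) z k j)) volume :=
      fun j k => (hi j k).const_mul _
    have hi4 : ∀ j, Integrable (fun z => ∑ k, A j k * ((p z : ℂ) * HessC (fun w => (q w : ℂ)) z k j)) volume :=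
      fun j => integrable_finsetSum _ fun k _ => hi3 j k
    have hi2 : Integrable (fun z => ∑ j, ∑ k, A j k * ((p z : ℂ) * HessC (fun w => (q w : ℂ)) z k j)) volume :=
      integrable_finsetSum _ fun j _ => hi4 j
    have h3 := (integral_re hi2)
    have h4 : ∫ z, (∑ j, ∑ k, A j k * ((p z : ℂ) * HessC (fun w => (q w : ℂ)) z k j)).re =
        (∫ z, ∑ j, ∑ k, A j k * ((p z : ℂ) * HessC (fun w => (q w : ℂ)) z k j)).re := h3
    rw [h4, integral_finsetSum _ fun j _ => hi4 j]
    congr 1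
    refine Finset.sum_congr rfl fun j _ => ?_
    rw [integral_finsetSum _ fun k _ => hi3 j k]
    exact Finset.sum_congr rfl fun k _ => integral_const_mul _ _
  rw [key hf hg hc, key hg hf hc.symm]
  congr 1
  refine Finset.sum_congr rfl fun j _ => Finset.sum_congr rfl fun k _ => ?_
  rw [ibp_HessC (sm_ofReal hf) (sm_ofReal hg) (hc.imp compact_ofReal compact_ofReal)]

section chain
variable {u : C3 → ℝ}

theorem mol_psd (hu : Psh univ u) (hb : Mol.LocBdd u) (n : ℕ) (z : C3) : (Hess (Mol.mol n u) z).PosSemidef :=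
  posSemidef_Hess ((Mol.exists_smooth hu hb).1 n) fun ξ => (Mol.exists_smooth hu hb).2.2.1 n z ξ

/-- the first product -/
theorem exists_T1 (hu : Psh univ u) (hb : Mol.LocBdd u) :
    ∃ (Θ : C3 → Mat) (m : Measure C3), IsLocallyFiniteMeasure m ∧ IsPos univ Θ m ∧
      ∀ χ, Test univ χ → ∀ j k, ∫ z, (χ z : ℂ) * Θ z j k ∂m = ∫ z, (u z : ℂ) * Hess χ z j k := by
  obtain ⟨Θ, m, hm, hp, h⟩ := exists_next (m := volume) hu hb (fun A χ z => (A * Hess χ z).trace.re)
    (fun A χ hχ => cpt_q1 A hχ)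
    (fun A B χ z hχ => by rw [Matrix.add_mul, Matrix.trace_add, Complex.add_re])
    (fun c A χ z hχ => by
      rw [Matrix.smul_mul, Matrix.trace_smul, Complex.smul_re, smul_eq_mul])
    (fun A χ χ' z hχ hχ' => by rw [hχ.hess_add hχ', Matrix.mul_add, Matrix.trace_add, Complex.add_re])
    (fun c A χ z hχ => by
      rw [hχ.hess_smul, Matrix.mul_smul, Matrix.trace_smul, smul_eq_mul, Complex.re_ofReal_mul])
    (fun A χ hA hχ h0 n => by
      rw [ibp_trace A ((Mol.exists_smooth hu hb).1 n) hχ.smooth (Or.inr hχ.comp)]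
      exact integral_nonneg fun z => mul_nonneg (h0 z) (trace_nonneg hA (mol_psd hu hb n z)))
  refine ⟨Θ, m, hm, hp, fun χ hχ j k => ?_⟩
  have hiT : Integrable (fun z => (χ z : ℂ) * Θ z j k) m := by
    refine integrable_cpt (K := tsupport χ) (C := 1 * (Classical.choose
      (hχ.comp.exists_bound_of_continuous hχ.smooth.continuous)))
      (((Complex.continuous_ofReal.comp hχ.smooth.continuous).measurable.mul (hp.meas j k)).aestronglyMeasurable)
      hχ.comp (fun z hz => by rw [image_eq_zero_of_notMem_tsupport hz, Complex.ofReal_zero, zero_mul]) fun z _ => ?_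
    rw [norm_mul, mul_comm, Complex.norm_real]
    exact mul_le_mul (hp.bdd z j k)
      (Classical.choose_spec (hχ.comp.exists_bound_of_continuous hχ.smooth.continuous) z) (norm_nonneg _) zero_le_one
  have hum := Mol.psh_meas hu
  have hcH := continuous_Hess hχ.smooth j k
  have hiH : Integrable (fun z => (u z : ℂ) * Hess χ z j k) volume := by
    have h1 : Cpt fun z => (Hess χ z j k).re := Cpt.of_continuous (Complex.continuous_re.comp hcH)
      ((compact_Hess hχ.smooth hχ.comp j k).comp_left Complex.zero_re)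
    have h2 : Cpt fun z => (Hess χ z j k).im := Cpt.of_continuous (Complex.continuous_im.comp hcH)
      ((compact_Hess hχ.smooth hχ.comp j k).comp_left Complex.zero_im)
    have h3 := (((h1.mul_loc hum hb).integrable volume).ofReal (𝕜 := ℂ)).add
      ((((h2.mul_loc hum hb).integrable volume).ofReal (𝕜 := ℂ)).mul_const Complex.I)
    refine h3.congr (ae_of_all _ fun z => ?_)
    show ((u z * (Hess χ z j k).re : ℝ) : ℂ) + ((u z * (Hess χ z j k).im : ℝ) : ℂ) * Complex.I = _
    have h5 := Complex.re_add_im (Hess χ z j k)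
    push_cast
    linear_combination (u z : ℂ) * h5
  have e1 := h _ χ (hb_isHermitian (j, k, true)) hχ
  have e2 := h _ χ (hb_isHermitian (j, k, false)) hχ
  simp only [trace_hb_true (Hess_isHermitian hχ.smooth _), trace_hb_true (hp.pos _).1] at e1
  simp only [trace_hb_false (Hess_isHermitian hχ.smooth _), trace_hb_false (hp.pos _).1] at e2
  apply Complex.ext
  · have r1 : ∫ z, ((χ z : ℂ) * Θ z j k).re ∂m = (∫ z, (χ z : ℂ) * Θ z j k ∂m).re := integral_re hiT
    have r2 : ∫ z, ((u z : ℂ) * Hess χ z j k).re = (∫ z, (u z : ℂ) * Hess χ z j k).re := integral_re hiH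
    rw [← r1, ← r2]
    simp only [Complex.re_ofReal_mul]
    have r3 : ∫ z, u z * (2 * (Hess χ z j k).re) = 2 * ∫ z, u z * (Hess χ z j k).re := by
      rw [← integral_const_mul]; congr 1; ext z; ring
    have r4 : ∫ z, χ z * (2 * (Θ z j k).re) ∂m = 2 * ∫ z, χ z * (Θ z j k).re ∂m := by
      rw [← integral_const_mul]; congr 1; ext z; ring
    linarith
  · have r1 : ∫ z, ((χ z : ℂ) * Θ z j k).im ∂m = (∫ z, (χ z : ℂ) * Θ z j k ∂m).im := integral_im hiT
    have r2 : ∫ z, ((u z : ℂ) * Hess χ z j k).im = (∫ z, (u z : ℂ) * Hess χ z j k).im := integral_im hiH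
    rw [← r1, ← r2]
    simp only [Complex.im_ofReal_mul]
    have r3 : ∫ z, u z * (2 * (Hess χ z j k).im) = 2 * ∫ z, u z * (Hess χ z j k).im := by
      rw [← integral_const_mul]; congr 1; ext z; ring
    have r4 : ∫ z, χ z * (2 * (Θ z j k).im) ∂m = 2 * ∫ z, χ z * (Θ z j k).im ∂m := by
      rw [← integral_const_mul]; congr 1; ext z; ring
    linarith

end chain

/-! ### partial chains -/

section partialChain
variable {U : Set C3} {u : C3 → ℝ} {Θ₁ Θ₂ : C3 → Mat} {m₁ m₂ : Measure C3} {F G : C3 → ℂ}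

/-- `∑ ∂_j ∂̄_k (F D(E_jk, B, C)) = D(Hess F, B, C)` for closed `B`, `C` -/
theorem sum_HessC_D {B C : C3 → Mat} (hF : Sm F) (hB : Cl B) (hC : Cl C) (z : C3) :
    ∑ j, ∑ k, HessC (fun w => F w * D (E j k) (B w) (C w)) z j k = D (HessC F z) (B z) (C z) := by
  have hs : ∀ j k, Sm fun w => D (E j k) (B w) (C w) := fun j k => sm_D _ hB.sm hC.sm
  have h1 : ∑ j, ∑ k, dzb k F z * dz j (fun w => D (E j k) (B w) (C w)) z = 0 := by
    rw [Finset.sum_comm]
    refine Finset.sum_eq_zero fun k _ => ?_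
    rw [← Finset.mul_sum, div_row hB hC k z, mul_zero]
  have h2 : ∑ j, ∑ k, dz j F z * dzb k (fun w => D (E j k) (B w) (C w)) z = 0 := by
    refine Finset.sum_eq_zero fun j _ => ?_
    rw [← Finset.mul_sum, div_col hB hC j z, mul_zero]
  have h3 : ∑ j, ∑ k, F z * HessC (fun w => D (E j k) (B w) (C w)) z j k = 0 := by
    refine Finset.sum_eq_zero fun j _ => ?_
    rw [← Finset.mul_sum]
    have e : ∑ k, HessC (fun w => D (E j k) (B w) (C w)) z j k =
        dz j (fun w => ∑ k, dzb k (fun w => D (E j k) (B w) (C w)) w) z := by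
      rw [dz_sum _ fun k => (hs j k).dzb k]
      rfl
    have e2 : (fun w => ∑ k, dzb k (fun w => D (E j k) (B w) (C w)) w) = fun _ => 0 := by
      funext w
      exact div_col hB hC j w
    rw [e, e2, dz_const, mul_zero]
  simp_rw [HessC_mul hF (hs _ _), Finset.sum_add_distrib]
  rw [h1, h2, h3, add_zero, add_zero, add_zero]
  exact (D_eq_sum_left _ _ _).symm

theorem compact_D (hG : HasCompactSupport G) (X A : Mat) : HasCompactSupport fun z => D X A (HessC G z) := by
  refine HasCompactSupport.intro hG fun z hz => ?_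
  rw [HessC_eq_zero hz, D_zero_right]

theorem closed1 (hp : IsPos univ Θ₁ m₁) (hu : LocB univ u)
    (h : ∀ χ, Test univ χ → ∀ j k, ∫ z, (χ z : ℂ) * Θ₁ z j k ∂m₁ = ∫ z, (u z : ℂ) * Hess χ z j k)
    (hF : Sm F) (hG : Sm G) (hc : HasCompactSupport F ∨ HasCompactSupport G) (A : Mat) :
    ∫ z, F z * D A (HessC G z) (Θ₁ z) ∂m₁ = ∫ z, (u z : ℂ) * D (HessC F z) A (HessC G z) := by
  have hT : ∀ j k, TestC univ fun z => F z * D (E j k) A (HessC G z) := by
    intro j k
    refine ⟨hF.mul (sm_D _ (cl_const A).sm (cl_HessC hG).sm), ?_, subset_univ _⟩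
    rcases hc with h | h
    · exact h.mul_right
    · exact (compact_D h _ A).mul_left
  have e1 : ∀ z, F z * D A (HessC G z) (Θ₁ z) = ∑ j, ∑ k, (F z * D (E j k) A (HessC G z)) * Θ₁ z j k := by
    intro z
    rw [D_comm13, D_comm23, D_eq_sum_left, Finset.mul_sum]
    refine Finset.sum_congr rfl fun j _ => ?_
    rw [Finset.mul_sum]
    refine Finset.sum_congr rfl fun k _ => ?_
    rw [D_comm23]
    ring
  have i1 : ∀ j k, Integrable (fun z => (F z * D (E j k) A (HessC G z)) * Θ₁ z j k) m₁ := fun j k =>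
    ((hT j k).tb.mul (hp.locC MeasurableSet.univ j k)).integrable hp.fin
  have i2 : ∀ j, Integrable (fun z => ∑ k, (F z * D (E j k) A (HessC G z)) * Θ₁ z j k) m₁ := fun j =>
    integrable_finsetSum _ fun k _ => i1 j k
  have i3 : ∀ j k, Integrable (fun z => (u z : ℂ) * HessC (fun w => F w * D (E j k) A (HessC G w)) z j k) volume := by
    intro j k
    refine ((((hT j k).hess j k).tb.mul hu.c).of_eq fun z => ?_).integrable (finOn_volume univ)
    ring
  have i4 : ∀ j, Integrable (fun z => ∑ k, (u z : ℂ) * HessC (fun w => F w * D (E j k) A (HessC G w)) z j k) volume :=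
    fun j => integrable_finsetSum _ fun k _ => i3 j k
  simp_rw [e1]
  rw [integral_finsetSum _ fun j _ => i2 j]
  have e2 : ∀ z, (u z : ℂ) * D (HessC F z) A (HessC G z) =
      ∑ j, ∑ k, (u z : ℂ) * HessC (fun w => F w * D (E j k) A (HessC G w)) z j k := by
    intro z
    rw [← sum_HessC_D hF (cl_const A) (cl_HessC hG) z, Finset.mul_sum]
    refine Finset.sum_congr rfl fun j _ => ?_
    rw [Finset.mul_sum]
  simp_rw [e2]
  rw [integral_finsetSum _ fun j _ => i4 j]
  refine Finset.sum_congr rfl fun j _ => ?_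
  rw [integral_finsetSum _ fun k _ => i1 j k, integral_finsetSum _ fun k _ => i3 j k]
  exact Finset.sum_congr rfl fun k _ => c1_of MeasurableSet.univ hp hu h (hT j k) j k

theorem closed2 (hp₁ : IsPos univ Θ₁ m₁) (hp₂ : IsPos univ Θ₂ m₂) (hu : LocB univ u)
    (h : ∀ χ, Test univ χ → ∀ A : Mat, A.IsHermitian →
      ∫ z, χ z * ((A * Θ₂ z).trace.re / 3) ∂m₂ = ∫ z, u z * (D A (Hess χ z) (Θ₁ z)).re ∂m₁)
    (hF : Sm F) (hG : Sm G) (hc : HasCompactSupport F ∨ HasCompactSupport G) :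
    ∫ z, F z * ((HessC G z * Θ₂ z).trace / 3) ∂m₂ = ∫ z, (u z : ℂ) * D (HessC G z) (HessC F z) (Θ₁ z) ∂m₁ := by
  have hT : ∀ j k, TestC univ fun z => F z * HessC G z j k := by
    intro j k
    refine ⟨hF.mul (sm_HessC hG j k), ?_, subset_univ _⟩
    rcases hc with h | h
    · exact h.mul_right
    · exact (compact_HessC h j k).mul_left
  have e1 : ∀ z, F z * ((HessC G z * Θ₂ z).trace / 3) =
      ∑ j, ∑ k, (F z * HessC G z j k) * ((E j k * Θ₂ z).trace / 3) := by
    intro z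
    rw [trace_eq_sum, Finset.sum_div, Finset.mul_sum]
    refine Finset.sum_congr rfl fun j _ => ?_
    rw [Finset.sum_div, Finset.mul_sum]
    refine Finset.sum_congr rfl fun k _ => ?_
    rw [trace_E]
    ring
  have i1 : ∀ j k, Integrable (fun z => (F z * HessC G z j k) * ((E j k * Θ₂ z).trace / 3)) m₂ := fun j k =>
    (tb_trace MeasurableSet.univ hp₂ (hT j k).tb (E j k)).integrable hp₂.fin
  have i2 : ∀ j, Integrable (fun z => ∑ k, (F z * HessC G z j k) * ((E j k * Θ₂ z).trace / 3)) m₂ := fun j =>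
    integrable_finsetSum _ fun k _ => i1 j k
  have i3 : ∀ j k, Integrable (fun z => (u z : ℂ) * D (E j k) (HessC (fun w => F w * HessC G w j k) z) (Θ₁ z)) m₁ :=
    fun j k => (tb_D MeasurableSet.univ hp₁ hu (hT j k) (E j k)).integrable hp₁.fin
  have i4 : ∀ j, Integrable (fun z => ∑ k, (u z : ℂ) *
      D (E j k) (HessC (fun w => F w * HessC G w j k) z) (Θ₁ z)) m₁ :=
    fun j => integrable_finsetSum _ fun k _ => i3 j k
  simp_rw [e1]
  rw [integral_finsetSum _ fun j _ => i2 j]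
  have e2 : ∀ z, (u z : ℂ) * D (HessC G z) (HessC F z) (Θ₁ z) =
      ∑ j, ∑ k, (u z : ℂ) * D (E j k) (HessC (fun w => F w * HessC G w j k) z) (Θ₁ z) := by
    intro z
    rw [← sum_HessC_mul hF hG (Θ₁ z) z, Finset.mul_sum]
    refine Finset.sum_congr rfl fun j _ => ?_
    rw [Finset.mul_sum]
  simp_rw [e2]
  rw [integral_finsetSum _ fun j _ => i4 j]
  refine Finset.sum_congr rfl fun j _ => ?_
  rw [integral_finsetSum _ fun k _ => i1 j k, integral_finsetSum _ fun k _ => i3 j k]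
  exact Finset.sum_congr rfl fun k _ => c2_of MeasurableSet.univ hp₁ hp₂ h hu (hT j k) (E j k)

end partialChain

/-! ### existence -/

section existence
variable {u : C3 → ℝ} {Θ₁ Θ₂ : C3 → Mat} {m₁ m₂ : Measure C3}

theorem locB_univ (hm : Measurable u) (hb : Mol.LocBdd u) : LocB univ u := by
  refine ⟨by rwa [indicator_univ], fun K hK _ => ?_⟩
  obtain ⟨R, hR⟩ := hK.isBounded.subset_closedBall (0 : C3)
  obtain ⟨M, hM⟩ := hb R
  exact ⟨M, fun z hz => hM z (by simpa using hR hz)⟩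

theorem TB.cpt_re {X : C3 → ℂ} (h : TB univ X) : Cpt fun z => (X z).re := by
  obtain ⟨K, hK, -, h0, B, hB⟩ := h.ex
  refine ⟨Complex.measurable_re.comp h.meas, K, B, hK, fun z hz => ?_, fun z => ?_⟩
  · simp only [h0 z hz, Complex.zero_re]
  · exact (Complex.abs_re_le_norm _).trans (hB z)

theorem locB_one : LocB univ fun _ => (1 : ℝ) :=
  ⟨measurable_const.indicator MeasurableSet.univ, fun _ _ _ => ⟨1, fun _ _ => by simp⟩⟩

theorem real_smul_mat (c : ℝ) (A : Mat) : c • A = (c : ℂ) • A := by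
  ext j k
  simp [Complex.real_smul]

theorem closed1_real (hp : IsPos univ Θ₁ m₁) (hu : LocB univ u)
    (h : ∀ χ, Test univ χ → ∀ j k, ∫ z, (χ z : ℂ) * Θ₁ z j k ∂m₁ = ∫ z, (u z : ℂ) * Hess χ z j k)
    {f g : C3 → ℝ} (hf : ContDiff ℝ ∞ f) (hg : ContDiff ℝ ∞ g) (hc : HasCompactSupport f ∨ HasCompactSupport g)
    {A : Mat} (hA : A.IsHermitian) :
    ∫ z, f z * (D A (Hess g z) (Θ₁ z)).re ∂m₁ = ∫ z, g z * (D A (Hess f z) (Θ₁ z)).re ∂m₁ := by
  have key : ∀ {p q : C3 → ℝ}, ContDiff ℝ ∞ p → ContDiff ℝ ∞ q → (HasCompactSupport p ∨ HasCompactSupport q) →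
      (((∫ z, p z * (D A (Hess q z) (Θ₁ z)).re ∂m₁ : ℝ)) : ℂ) =
        ∫ z, (u z : ℂ) * D (HessC (fun w => (p w : ℂ)) z) A (HessC (fun w => (q w : ℂ)) z) := by
    intro p q hp' hq' hpq
    rw [← closed1 hp hu h (sm_ofReal hp') (sm_ofReal hq') (hpq.imp compact_ofReal compact_ofReal) A,
      ← integral_complex_ofReal]
    refine integral_congr_ae (ae_of_all _ fun z => ?_)
    simp only []
    push_cast
    rw [D_re hA (Hess_isHermitian hq' z) (hp.pos z).1, Hess_eq hq']
  apply Complex.ofReal_injective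
  rw [key hf hg hc, key hg hf hc.symm]
  refine integral_congr_ae (ae_of_all _ fun z => ?_)
  simp only []
  rw [D_comm13]

theorem closed2_real (hp₁ : IsPos univ Θ₁ m₁) (hp₂ : IsPos univ Θ₂ m₂) (hu : LocB univ u)
    (h : ∀ χ, Test univ χ → ∀ A : Mat, A.IsHermitian →
      ∫ z, χ z * ((A * Θ₂ z).trace.re / 3) ∂m₂ = ∫ z, u z * (D A (Hess χ z) (Θ₁ z)).re ∂m₁)
    {f g : C3 → ℝ} (hf : ContDiff ℝ ∞ f) (hg : ContDiff ℝ ∞ g) (hc : HasCompactSupport f ∨ HasCompactSupport g) :
    ∫ z, f z * ((Hess g z * Θ₂ z).trace.re / 3) ∂m₂ = ∫ z, g z * ((Hess f z * Θ₂ z).trace.re / 3) ∂m₂ := by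
  have key : ∀ {p q : C3 → ℝ}, ContDiff ℝ ∞ p → ContDiff ℝ ∞ q → (HasCompactSupport p ∨ HasCompactSupport q) →
      (((∫ z, p z * ((Hess q z * Θ₂ z).trace.re / 3) ∂m₂ : ℝ)) : ℂ) =
        ∫ z, (u z : ℂ) * D (HessC (fun w => (q w : ℂ)) z) (HessC (fun w => (p w : ℂ)) z) (Θ₁ z) ∂m₁ := by
    intro p q hp' hq' hpq
    rw [← closed2 hp₁ hp₂ hu h (sm_ofReal hp') (sm_ofReal hq') (hpq.imp compact_ofReal compact_ofReal),
      ← integral_complex_ofReal]
    refine integral_congr_ae (ae_of_all _ fun z => ?_)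
    simp only []
    push_cast
    rw [trace_re (Hess_isHermitian hq' z) (hp₂.pos z).1, Hess_eq hq']
  apply Complex.ofReal_injective
  rw [key hf hg hc, key hg hf hc.symm]
  refine integral_congr_ae (ae_of_all _ fun z => ?_)
  simp only []
  rw [D_comm12]

theorem exists_T2 (hu : Psh univ u) (hb : Mol.LocBdd u) (hm : IsLocallyFiniteMeasure m₁) (hp : IsPos univ Θ₁ m₁)
    (h : ∀ χ, Test univ χ → ∀ j k, ∫ z, (χ z : ℂ) * Θ₁ z j k ∂m₁ = ∫ z, (u z : ℂ) * Hess χ z j k) :
    ∃ (Θ : C3 → Mat) (m : Measure C3), IsLocallyFiniteMeasure m ∧ IsPos univ Θ m ∧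
      ∀ χ, Test univ χ → ∀ A : Mat, A.IsHermitian →
        ∫ z, χ z * ((A * Θ z).trace.re / 3) ∂m = ∫ z, u z * (D A (Hess χ z) (Θ₁ z)).re ∂m₁ := by
  have hul := locB_univ (Mol.psh_meas hu) hb
  obtain ⟨Θ, m, hm', hp', h'⟩ := exists_next (m := m₁) hu hb (fun A χ z => 3 * (D A (Hess χ z) (Θ₁ z)).re)
    (fun A χ hχ => by
      have h1 := ((tb_D MeasurableSet.univ hp locB_one hχ.c A).of_eq
        (Y := fun z => D A (Hess χ z) (Θ₁ z)) fun z => by rw [Hess_eq hχ.smooth]; simp).cpt_re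
      exact h1.const_mul 3)
    (fun A B χ z hχ => by rw [D_add_left, Complex.add_re, mul_add])
    (fun c A χ z hχ => by rw [real_smul_mat, D_smul_left, Complex.re_ofReal_mul]; ring)
    (fun A χ χ' z hχ hχ' => by rw [hχ.hess_add hχ', D_add_mid, Complex.add_re, mul_add])
    (fun c A χ z hχ => by rw [hχ.hess_smul, D_smul_mid, Complex.re_ofReal_mul]; ring)
    (fun A χ hA hχ h0 n => by
      have e : ∫ z, Mol.mol n u z * (3 * (D A (Hess χ z) (Θ₁ z)).re) ∂m₁ =
          3 * ∫ z, Mol.mol n u z * (D A (Hess χ z) (Θ₁ z)).re ∂m₁ := by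
        rw [← integral_const_mul]; congr 1; ext z; ring
      rw [e, closed1_real hp hul h ((Mol.exists_smooth hu hb).1 n) hχ.smooth (Or.inr hχ.comp) hA.1]
      exact mul_nonneg (by norm_num) (integral_nonneg fun z =>
        mul_nonneg (h0 z) (D_re_nonneg hA (mol_psd hu hb n z) (hp.pos z))))
  refine ⟨Θ, m, hm', hp', fun χ hχ A hA => ?_⟩
  have h1 := h' A χ hA hχ
  have h2 : ∫ z, χ z * ((A * Θ z).trace.re / 3) ∂m = (1 / 3) * ∫ z, χ z * (A * Θ z).trace.re ∂m := by
    rw [← integral_const_mul]; congr 1; ext z; ring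
  have h3 : ∫ z, u z * (3 * (D A (Hess χ z) (Θ₁ z)).re) ∂m₁ = 3 * ∫ z, u z * (D A (Hess χ z) (Θ₁ z)).re ∂m₁ := by
    rw [← integral_const_mul]; congr 1; ext z; ring
  linarith

theorem exists_T3 (hu : Psh univ u) (hb : Mol.LocBdd u) (hp₁ : IsPos univ Θ₁ m₁) (hm : IsLocallyFiniteMeasure m₂)
    (hp₂ : IsPos univ Θ₂ m₂)
    (h : ∀ χ, Test univ χ → ∀ A : Mat, A.IsHermitian →
      ∫ z, χ z * ((A * Θ₂ z).trace.re / 3) ∂m₂ = ∫ z, u z * (D A (Hess χ z) (Θ₁ z)).re ∂m₁) :
    ∃ ν : Measure C3, IsLocallyFiniteMeasure ν ∧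
      ∀ χ, Test univ χ → ∫ z, χ z ∂ν = ∫ z, u z * ((Hess χ z * Θ₂ z).trace.re / 3) ∂m₂ := by
  have hul := locB_univ (Mol.psh_meas hu) hb
  obtain ⟨ν, hν, h'⟩ := exists_last (m := m₂) hu hb (fun χ z => (Hess χ z * Θ₂ z).trace.re / 3)
    (fun χ hχ => by
      have h1 := ((tb_hess_trace MeasurableSet.univ hp₂ locB_one hχ.c).of_eq
        (Y := fun z => (((Hess χ z * Θ₂ z).trace.re / 3 : ℝ) : ℂ)) fun z => by
          push_cast
          rw [trace_re (Hess_isHermitian hχ.smooth z) (hp₂.pos z).1, Hess_eq hχ.smooth]; simp).cpt_re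
      simpa only [Complex.ofReal_re] using h1)
    (fun χ χ' z hχ hχ' => by rw [hχ.hess_add hχ', Matrix.add_mul, Matrix.trace_add, Complex.add_re]; ring)
    (fun c χ z hχ => by
      rw [hχ.hess_smul, Matrix.smul_mul, Matrix.trace_smul, smul_eq_mul, Complex.re_ofReal_mul]; ring)
    (fun χ hχ h0 n => by
      rw [closed2_real hp₁ hp₂ hul h ((Mol.exists_smooth hu hb).1 n) hχ.smooth (Or.inr hχ.comp)]
      exact integral_nonneg fun z => mul_nonneg (h0 z)
        (div_nonneg (trace_nonneg (mol_psd hu hb n z) (hp₂.pos z)) (by norm_num)))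
  exact ⟨ν, hν, fun χ hχ => (h' χ hχ).symm⟩

/-- **Bedford-Taylor**: the products of a locally bounded plurisubharmonic function on `ℂ³` exist -/
theorem exists_chain (hu : Psh univ u) (hb : Mol.LocBdd u) :
    ∃ (Θ₁ : C3 → Mat) (m₁ : Measure C3) (Θ₂ : C3 → Mat) (m₂ ν : Measure C3),
      IsLocallyFiniteMeasure m₁ ∧ IsLocallyFiniteMeasure m₂ ∧ IsLocallyFiniteMeasure ν ∧
        Chain univ u Θ₁ m₁ Θ₂ m₂ ν := by
  obtain ⟨Θ₁, m₁, hm₁, hp₁, h₁⟩ := exists_T1 hu hb
  obtain ⟨Θ₂, m₂, hm₂, hp₂, h₂⟩ := exists_T2 hu hb hm₁ hp₁ h₁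
  obtain ⟨ν, hν, h₃⟩ := exists_T3 hu hb hp₁ hm₂ hp₂ h₂
  exact ⟨Θ₁, m₁, Θ₂, m₂, ν, hm₁, hm₂, hν, hp₁, hp₂, fun K hK _ => hK.measure_lt_top, h₁, h₂, h₃⟩

theorem exists_isMA (hu : Psh univ u) (hb : Mol.LocBdd u) :
    ∃ ν : Measure C3, IsLocallyFiniteMeasure ν ∧ IsMA univ u ν := by
  obtain ⟨Θ₁, m₁, Θ₂, m₂, ν, -, -, hν, h⟩ := exists_chain hu hb
  exact ⟨ν, hν, Θ₁, m₁, Θ₂, m₂, h⟩

theorem locBdd_of_continuous (hu : Continuous u) : Mol.LocBdd u := by
  intro R
  obtain ⟨M, hM⟩ := (isCompact_closedBall (0 : C3) R).exists_bound_of_continuousOn hu.continuousOn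
  exact ⟨M, fun z hz => hM z (by simpa using hz)⟩

end existence

end KOL
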