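import Pool.Agent.KOL.Ext

/-!
# Project KOL: locality. Where the function is smooth the Monge-Ampère measure is `det (Hess H)`.
-/

set_option autoImplicit false

namespace KOL

open MeasureTheory Matrix Set Topology
open scoped ContDiff ComplexOrder ComplexConjugate ENNReal Manifold

/-! ### plurisubharmonic functions are Borel -/

theorem Psh.locB {U : Set C3} (hU : IsOpen U) {u : C3 → ℝ} (h : Psh U u)
    (hb : ∀ K : Set C3, IsCompact K → K ⊆ U → ∃ B : ℝ, ∀ z ∈ K, |u z| ≤ B) : LocB U u := by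
  refine ⟨measurable_of_Iio fun a => ?_, hb⟩
  have e : U.indicator u ⁻¹' Iio a = (U ∩ {z | u z < a}) ∪ (Uᶜ ∩ {_z | 0 < a}) := by
    ext z
    by_cases hz : z ∈ U
    · simp [hz]
    · simp [hz]
  rw [e]
  refine MeasurableSet.union (IsOpen.measurableSet ?_) (hU.measurableSet.compl.inter (MeasurableSet.const _))
  rw [isOpen_iff_mem_nhds]
  rintro z ⟨hz, hza⟩
  have h1 := h.usc z hz a hza
  rw [hU.nhdsWithin_eq hz] at h1
  exact Filter.inter_mem (hU.mem_nhds hz) h1

theorem Psh.locB' {U : Set C3} (hU : IsOpen U) {u : C3 → ℝ} (h : Psh U u) (hb : ∃ B, ∀ z ∈ U, |u z| ≤ B) : LocB U u :=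
  h.locB hU fun _ _ hKU => by
    obtain ⟨B, hB⟩ := hb
    exact ⟨B, fun z hz => hB z (hKU hz)⟩

section
variable {U V : Set C3} {u H : C3 → ℝ} {Θ₁ Θ₂ : C3 → Mat} {m₁ m₂ ν : Measure C3} {F G : C3 → ℂ}

theorem hess_ibp (hF : Sm F) (hG : Sm G) (hc : HasCompactSupport F ∨ HasCompactSupport G) (j k : Fin 3) :
    ∫ z, F z * HessC G z j k = ∫ z, G z * HessC F z j k := by
  have h1 : ∫ z, F z * HessC G z j k = - ∫ z, dz j F z * dzb k G z :=
    ibp_dz hF (hG.dzb k) (hc.imp id fun h => compact_dzb h k) j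
  have e : ∀ z, G z * HessC F z j k = G z * dzb k (dz j F) z := fun z => by rw [HessC, dz_dzb_comm hF]
  have h2 : ∫ z, G z * HessC F z j k = - ∫ z, dzb k G z * dz j F z := by
    simp_rw [e]
    exact ibp_dzb hG (hF.dz j) (hc.symm.imp id fun h => compact_dz h j) k
  rw [h1, h2]
  congr 1
  refine integral_congr_ae (Filter.Eventually.of_forall fun z => mul_comm _ _)

/-- a test function vanishes outside of its set -/
theorem TestC.zero (hG : TestC V G) {z : C3} (hz : z ∉ V) : G z = 0 :=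
  image_eq_zero_of_notMem_tsupport fun h => hz (hG.sub h)

theorem TestC.hess_zero (hG : TestC V G) {z : C3} (hz : z ∉ V) : HessC G z = 0 :=
  HessC_eq_zero fun h => hz (hG.sub h)

theorem Chain.loc1 (hU : MeasurableSet U) (h : Chain U u Θ₁ m₁ Θ₂ m₂ ν) (hu : LocB U u) (hVU : V ⊆ U)
    (hH : ContDiff ℝ ∞ H) (hVH : ∀ z ∈ V, u z = H z) (hG : TestC V G) (j k : Fin 3) :
    ∫ z, G z * Θ₁ z j k ∂m₁ = ∫ z, G z * Hess H z j k := by
  rw [h.c1 hU hu (hG.mono hVU) j k]
  have e : ∀ z, (u z : ℂ) * HessC G z j k = (H z : ℂ) * HessC G z j k := by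
    intro z
    by_cases hz : z ∈ V
    · rw [hVH z hz]
    · rw [hG.hess_zero hz, Matrix.zero_apply, mul_zero, mul_zero]
  simp_rw [e, Hess_eq hH]
  exact hess_ibp (sm_ofReal hH) hG.sm (Or.inr hG.comp) j k

theorem int_sum4 {μ : Measure C3} {f : Fin 3 → Fin 3 → Fin 3 → Fin 3 → C3 → ℂ}
    (hf : ∀ l m p q, Integrable (f l m p q) μ) :
    ∫ z, ∑ l, ∑ m, ∑ p, ∑ q, f l m p q z ∂μ = ∑ l, ∑ m, ∑ p, ∑ q, ∫ z, f l m p q z ∂μ := by
  rw [integral_finsetSum _ fun l _ => integrable_finsetSum _ fun m _ => integrable_finsetSum _ fun p _ =>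
    integrable_finsetSum _ fun q _ => hf l m p q]
  refine Finset.sum_congr rfl fun l _ => ?_
  rw [integral_finsetSum _ fun m _ => integrable_finsetSum _ fun p _ => integrable_finsetSum _ fun q _ => hf l m p q]
  refine Finset.sum_congr rfl fun m _ => ?_
  rw [integral_finsetSum _ fun p _ => integrable_finsetSum _ fun q _ => hf l m p q]
  refine Finset.sum_congr rfl fun p _ => ?_
  rw [integral_finsetSum _ fun q _ => hf l m p q]

theorem int_sum2 {μ : Measure C3} {f : Fin 3 → Fin 3 → C3 → ℂ} (hf : ∀ l m, Integrable (f l m) μ) :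
    ∫ z, ∑ l, ∑ m, f l m z ∂μ = ∑ l, ∑ m, ∫ z, f l m z ∂μ := by
  rw [integral_finsetSum _ fun l _ => integrable_finsetSum _ fun m _ => hf l m]
  refine Finset.sum_congr rfl fun l _ => ?_
  rw [integral_finsetSum _ fun m _ => hf l m]

theorem Chain.loc2 (hU : MeasurableSet U) (h : Chain U u Θ₁ m₁ Θ₂ m₂ ν) (hu : LocB U u) (hVU : V ⊆ U)
    (hH : ContDiff ℝ ∞ H) (hVH : ∀ z ∈ V, u z = H z) (hG : TestC V G) (A : Mat) :
    ∫ z, G z * ((A * Θ₂ z).trace / 3) ∂m₂ = ∫ z, G z * D A (Hess H z) (Hess H z) := by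
  rw [h.c2 hU hu (hG.mono hVU) A]
  have ht : ∀ l m, TestC V fun z => (H z : ℂ) * HessC G z l m := fun l m => (hG.hess l m).mul_left (sm_ofReal hH)
  -- left side
  have e1 : ∀ z, (u z : ℂ) * D A (HessC G z) (Θ₁ z) =
      ∑ l, ∑ m, ∑ p, ∑ q, D A (E l m) (E p q) * (((H z : ℂ) * HessC G z l m) * Θ₁ z p q) := by
    intro z
    have e0 : (u z : ℂ) * D A (HessC G z) (Θ₁ z) = (H z : ℂ) * D A (HessC G z) (Θ₁ z) := by
      by_cases hz : z ∈ V
      · rw [hVH z hz]
      · rw [hG.hess_zero hz, D_zero_mid, mul_zero, mul_zero]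
    rw [e0, D_expand, Finset.mul_sum]
    refine Finset.sum_congr rfl fun l _ => ?_
    rw [Finset.mul_sum]
    refine Finset.sum_congr rfl fun m _ => ?_
    rw [Finset.mul_sum]
    refine Finset.sum_congr rfl fun p _ => ?_
    rw [Finset.mul_sum]
    refine Finset.sum_congr rfl fun q _ => ?_
    ring
  have e2 : ∀ z, (H z : ℂ) * D A (HessC G z) (Hess H z) =
      ∑ l, ∑ m, ∑ p, ∑ q, D A (E l m) (E p q) * (((H z : ℂ) * HessC G z l m) * Hess H z p q) := by
    intro z
    rw [D_expand, Finset.mul_sum]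
    refine Finset.sum_congr rfl fun l _ => ?_
    rw [Finset.mul_sum]
    refine Finset.sum_congr rfl fun m _ => ?_
    rw [Finset.mul_sum]
    refine Finset.sum_congr rfl fun p _ => ?_
    rw [Finset.mul_sum]
    refine Finset.sum_congr rfl fun q _ => ?_
    ring
  have i1 : ∀ l m p q, Integrable (fun z => D A (E l m) (E p q) * (((H z : ℂ) * HessC G z l m) * Θ₁ z p q)) m₁ :=
    fun l m p q => (((((ht l m).mono hVU).tb).mul (h.pos₁.locC hU p q)).const_mul _).integrable h.pos₁.fin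
  have i2 : ∀ l m p q, Integrable (fun z => D A (E l m) (E p q) * (((H z : ℂ) * HessC G z l m) * Hess H z p q)) volume := by
    intro l m p q
    refine (((ht l m).tb.mono (subset_univ V)).mul
      (LocC.of_continuous MeasurableSet.univ (continuous_Hess hH p q))).const_mul _ |>.integrable (finOn_volume _)
  have e3 : ∫ z, (u z : ℂ) * D A (HessC G z) (Θ₁ z) ∂m₁ = ∫ z, (H z : ℂ) * D A (HessC G z) (Hess H z) := by
    simp_rw [e1, e2]
    rw [int_sum4 i1, int_sum4 i2]
    refine Finset.sum_congr rfl fun l _ => Finset.sum_congr rfl fun m _ => Finset.sum_congr rfl fun p _ =>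
      Finset.sum_congr rfl fun q _ => ?_
    rw [integral_const_mul, integral_const_mul, h.loc1 hU hu hVU hH hVH (ht l m) p q]
  rw [e3]
  have h4 := ibp_D (sm_ofReal hH) hG.sm (Or.inr hG.comp) (cl_const A) (cl_Hess hH)
  have e5 : ∀ z, D A (HessC G z) (Hess H z) = D (HessC G z) A (Hess H z) := fun z => D_comm12 _ _ _
  have e6 : ∀ z, D A (Hess H z) (Hess H z) = D (HessC (fun w => (H w : ℂ)) z) A (Hess H z) := fun z => by
    rw [D_comm12, ← Hess_eq hH]
  simp_rw [e5]
  rw [h4]
  refine integral_congr_ae (Filter.Eventually.of_forall fun z => ?_)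
  simp only [e6]

theorem Chain.loc3 (hU : MeasurableSet U) (h : Chain U u Θ₁ m₁ Θ₂ m₂ ν) (hu : LocB U u) (hVU : V ⊆ U)
    (hH : ContDiff ℝ ∞ H) (hVH : ∀ z ∈ V, u z = H z) (hG : TestC V G) :
    ∫ z, G z ∂ν = ∫ z, G z * (Hess H z).det := by
  rw [h.c3 hU hu (hG.mono hVU)]
  have ht : ∀ l m, TestC V fun z => (H z : ℂ) * HessC G z l m := fun l m => (hG.hess l m).mul_left (sm_ofReal hH)
  have hE : ∀ (M : Mat) (j k : Fin 3), (E j k * M).trace = M k j := by
    intro M j k
    rw [trace_eq_sum, Finset.sum_eq_single j, Finset.sum_eq_single k]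
    · simp [E_apply]
    · intro b _ hb
      simp [E_apply, Ne.symm hb]
    · simp
    · intro b _ hb
      refine Finset.sum_eq_zero fun c _ => ?_
      simp [E_apply, Ne.symm hb]
    · simp
  have e1 : ∀ z, (u z : ℂ) * ((HessC G z * Θ₂ z).trace / 3) =
      ∑ j, ∑ k, ((H z : ℂ) * HessC G z j k) * ((E j k * Θ₂ z).trace / 3) := by
    intro z
    have e0 : (u z : ℂ) * ((HessC G z * Θ₂ z).trace / 3) = (H z : ℂ) * ((HessC G z * Θ₂ z).trace / 3) := by
      by_cases hz : z ∈ V
      · rw [hVH z hz]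
      · rw [hG.hess_zero hz, Matrix.zero_mul, Matrix.trace_zero]
        ring
    rw [e0, trace_eq_sum, Finset.sum_div, Finset.mul_sum]
    refine Finset.sum_congr rfl fun j _ => ?_
    rw [Finset.sum_div, Finset.mul_sum]
    refine Finset.sum_congr rfl fun k _ => ?_
    rw [hE]
    ring
  have e2 : ∀ z, (H z : ℂ) * D (HessC G z) (Hess H z) (Hess H z) =
      ∑ j, ∑ k, ((H z : ℂ) * HessC G z j k) * D (E j k) (Hess H z) (Hess H z) := by
    intro z
    rw [D_eq_sum_left, Finset.mul_sum]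
    refine Finset.sum_congr rfl fun j _ => ?_
    rw [Finset.mul_sum]
    refine Finset.sum_congr rfl fun k _ => ?_
    ring
  have i1 : ∀ j k, Integrable (fun z => ((H z : ℂ) * HessC G z j k) * ((E j k * Θ₂ z).trace / 3)) m₂ := fun j k =>
    (tb_trace hU h.pos₂ ((ht j k).mono hVU).tb (E j k)).integrable h.pos₂.fin
  have i2 : ∀ j k, Integrable (fun z => ((H z : ℂ) * HessC G z j k) * D (E j k) (Hess H z) (Hess H z)) volume := by
    intro j k
    exact (((ht j k).tb.mono (subset_univ V)).mul (LocC.of_continuous MeasurableSet.univ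
      (sm_D (E j k) (cl_Hess hH).sm (cl_Hess hH).sm).continuous)).integrable (finOn_volume _)
  have e3 : ∫ z, (u z : ℂ) * ((HessC G z * Θ₂ z).trace / 3) ∂m₂ =
      ∫ z, (H z : ℂ) * D (HessC G z) (Hess H z) (Hess H z) := by
    simp_rw [e1, e2]
    rw [int_sum2 i1, int_sum2 i2]
    refine Finset.sum_congr rfl fun j _ => Finset.sum_congr rfl fun k _ => ?_
    exact h.loc2 hU hu hVU hH hVH (ht j k) (E j k)
  rw [e3, ibp_D (sm_ofReal hH) hG.sm (Or.inr hG.comp) (cl_Hess hH) (cl_Hess hH)]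
  refine integral_congr_ae (Filter.Eventually.of_forall fun z => ?_)
  simp only [← Hess_eq hH, D_self]

theorem det_re {f : C3 → ℝ} (hf : ContDiff ℝ ∞ f) (z : C3) : (((Hess f z).det.re : ℝ) : ℂ) = (Hess f z).det := by
  have h := Hess_isHermitian hf z
  have := D_re h h h
  rwa [D_self] at this

theorem continuous_det {f : C3 → ℝ} (hf : ContDiff ℝ ∞ f) : Continuous fun z => (Hess f z).det.re := by
  have h : Continuous fun z => (Hess f z).det := by
    have h1 := (sm_D3 (cl_Hess hf).sm (cl_Hess hf).sm (cl_Hess hf).sm).continuous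
    simpa only [D_self] using h1
  exact Complex.continuous_re.comp h

/-- the test function identity -/
theorem Chain.loc_test (hU : MeasurableSet U) (h : Chain U u Θ₁ m₁ Θ₂ m₂ ν) (hu : LocB U u) (hVU : V ⊆ U)
    (hH : ContDiff ℝ ∞ H) (hVH : ∀ z ∈ V, u z = H z) {χ : C3 → ℝ} (hχ : Test V χ) :
    ∫ z, χ z ∂ν = ∫ z, χ z * (Hess H z).det.re := by
  have h1 := h.loc3 hU hu hVU hH hVH hχ.c
  have e : ∀ z, (χ z : ℂ) * (Hess H z).det = ((χ z * (Hess H z).det.re : ℝ) : ℂ) := fun z => by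
    rw [Complex.ofReal_mul, det_re hH]
  simp_rw [e] at h1
  rw [integral_complex_ofReal, integral_complex_ofReal] at h1
  exact_mod_cast h1

theorem Chain.loc_nonneg (hU : MeasurableSet U) (h : Chain U u Θ₁ m₁ Θ₂ m₂ ν) (hu : LocB U u) (hV : IsOpen V)
    (hVU : V ⊆ U) (hH : ContDiff ℝ ∞ H) (hVH : ∀ z ∈ V, u z = H z) {z : C3} (hz : z ∈ V) :
    0 ≤ (Hess H z).det.re := by
  by_contra hneg
  push Not at hneg
  have hN : V ∩ {w | (Hess H w).det.re < 0} ∈ 𝓝 z :=
    (hV.inter (isOpen_lt (continuous_det hH) continuous_const)).mem_nhds ⟨hz, hneg⟩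
  obtain ⟨χ, hs, hc, hsm, hr, hχz⟩ := exists_contDiff_tsupport_subset (n := ⊤) hN
  have hχ : Test V χ := ⟨hsm, hc, hs.trans inter_subset_left⟩
  have h0 : ∀ w, 0 ≤ χ w := fun w => (hr ⟨w, rfl⟩).1
  have h1 := h.loc_test hU hu hVU hH hVH hχ
  have h2 : 0 ≤ ∫ w, χ w ∂ν := integral_nonneg h0
  have h3 : 0 < ∫ w, χ w * (-(Hess H w).det.re) := by
    refine Continuous.integral_pos_of_hasCompactSupport_nonneg_nonzero (x := z)
      (hsm.continuous.mul (continuous_det hH).neg) hc.mul_right (fun w => ?_) ?_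
    · change 0 ≤ χ w * (-(Hess H w).det.re)
      by_cases hw : χ w = 0
      · rw [hw, zero_mul]
      · have h4 : (Hess H w).det.re < 0 := (hs (subset_closure hw)).2
        exact mul_nonneg (h0 w) (by linarith)
    · rw [hχz, one_mul]
      exact (neg_pos.2 hneg).ne'
  have e : ∀ w, χ w * (-(Hess H w).det.re) = -(χ w * (Hess H w).det.re) := fun w => by ring
  simp_rw [e] at h3
  rw [integral_neg, ← h1] at h3
  linarith

/-- locality, for a function which is smooth everywhere -/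
theorem Chain.loc_restrict (hU : MeasurableSet U) (h : Chain U u Θ₁ m₁ Θ₂ m₂ ν) (hu : LocB U u) (hV : IsOpen V)
    (hVU : V ⊆ U) (hH : ContDiff ℝ ∞ H) (hVH : ∀ z ∈ V, u z = H z) :
    ν.restrict V = (volume.withDensity fun z => ENNReal.ofReal (Hess H z).det.re).restrict V := by
  have hmeas : Measurable fun z => ENNReal.ofReal (Hess H z).det.re :=
    (continuous_det hH).measurable.ennreal_ofReal
  refine restrict_eq_of_test hV (h.fin.mono hVU) (fun K hK _ => ?_) fun χ hχ h0 => ?_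
  · rw [withDensity_apply _ hK.measurableSet]
    obtain ⟨B, hB⟩ := hK.exists_bound_of_continuousOn (continuous_det hH).continuousOn
    calc ∫⁻ z in K, ENNReal.ofReal (Hess H z).det.re ≤ ∫⁻ z in K, ENNReal.ofReal B := by
          refine setLIntegral_mono' hK.measurableSet fun z hz => ENNReal.ofReal_le_ofReal ?_
          exact (le_abs_self _).trans (hB z hz)
      _ < ⊤ := by
          rw [setLIntegral_const]
          exact ENNReal.mul_lt_top ENNReal.ofReal_lt_top hK.measure_lt_top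
  · rw [h.loc_test hU hu hVU hH hVH hχ, integral_withDensity_eq_integral_toReal_smul hmeas
      (Filter.Eventually.of_forall fun z => ENNReal.ofReal_lt_top)]
    refine integral_congr_ae (Filter.Eventually.of_forall fun z => ?_)
    simp only [smul_eq_mul]
    by_cases hz : z ∈ V
    · rw [ENNReal.toReal_ofReal (h.loc_nonneg hU hu hV hVU hH hVH hz), mul_comm]
    · have h1 : χ z = 0 := image_eq_zero_of_notMem_tsupport fun h2 => hz (hχ.sub h2)
      rw [h1, zero_mul, mul_zero]

/-! ### functions which are smooth near `V` only -/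

theorem fderiv_fderiv_congr {f g : C3 → ℝ} {z : C3} (h : f =ᶠ[𝓝 z] g) :
    fderiv ℝ (fderiv ℝ f) z = fderiv ℝ (fderiv ℝ g) z := (h.fderiv).fderiv_eq

theorem Hess_congr {f g : C3 → ℝ} {z : C3} (h : f =ᶠ[𝓝 z] g) : Hess f z = Hess g z := by
  ext j k
  simp only [Hess, D2, fderiv_fderiv_congr h]

/-- a function which is smooth on an open set agrees near each point with a smooth function -/
theorem exists_smooth_ext {f : C3 → ℝ} (hV : IsOpen V) (hf : ContDiffOn ℝ ∞ f V) {z : C3} (hz : z ∈ V) :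
    ∃ g : C3 → ℝ, ContDiff ℝ ∞ g ∧ ∃ O, IsOpen O ∧ z ∈ O ∧ O ⊆ V ∧ ∀ w ∈ O, f w = g w := by
  obtain ⟨L, hL, hzL, hLV⟩ := exists_compact_between (isCompact_singleton (x := z)) hV (singleton_subset_iff.2 hz)
  obtain ⟨χ, hχ, h0, h1, hχL⟩ := exists_cutoff_in hL hV hLV
  refine ⟨fun w => χ w * f w, ?_, interior L, isOpen_interior, hzL rfl, interior_subset.trans hLV, fun w hw => ?_⟩
  · rw [contDiff_iff_contDiffAt]
    intro w
    by_cases hw : w ∈ tsupport χ
    · exact hχ.smooth.contDiffAt.mul (hf.contDiffAt (hV.mem_nhds (hχ.sub hw)))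
    · have h2 : (fun w => χ w * f w) =ᶠ[𝓝 w] fun _ => 0 := by
        filter_upwards [(isClosed_tsupport χ).isOpen_compl.mem_nhds hw] with y hy
        rw [image_eq_zero_of_notMem_tsupport hy, zero_mul]
      exact contDiffAt_const.congr_of_eventuallyEq h2
  · change f w = χ w * f w
    rw [hχL w (interior_subset hw), one_mul]

/-- **locality** -/
theorem Chain.loc_restrict_on (hU : MeasurableSet U) (h : Chain U u Θ₁ m₁ Θ₂ m₂ ν) (hu : LocB U u) (hV : IsOpen V)
    (hVU : V ⊆ U) (hH : ContDiffOn ℝ ∞ H V) (hVH : ∀ z ∈ V, u z = H z) {s : Set C3} (hs : MeasurableSet s)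
    (hsV : s ⊆ V) : ν s = ∫⁻ z in s, ENNReal.ofReal (Hess H z).det.re := by
  have hex := fun z : C3 => fun hz : z ∈ V => exists_smooth_ext hV hH hz
  choose! g hg O hO hzO hOV hgO using hex
  obtain ⟨t, htV, htc, hcov⟩ := TopologicalSpace.countable_cover_nhdsWithin (s := V) (f := O)
    fun z hz => mem_nhdsWithin_of_mem_nhds ((hO z hz).mem_nhds (hzO z hz))
  -- the density on a small set
  have key : ∀ z ∈ t, ∀ r, MeasurableSet r → r ⊆ O z → ν r = ∫⁻ w in r, ENNReal.ofReal (Hess H w).det.re := by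
    intro z hz r hr hrO
    have hzV := htV hz
    have h1 := h.loc_restrict hU hu (hO z hzV) ((hOV z hzV).trans hVU) (hg z hzV)
      (fun w hw => (hVH w (hOV z hzV hw)).trans (hgO z hzV w hw))
    have h2 : ν r = (ν.restrict (O z)) r := by
      rw [Measure.restrict_apply hr, inter_eq_self_of_subset_left hrO]
    rw [h2, h1, Measure.restrict_apply hr, inter_eq_self_of_subset_left hrO, withDensity_apply _ hr]
    refine setLIntegral_congr_fun hr fun w hw => ?_
    have h3 : H =ᶠ[𝓝 w] g z := by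
      filter_upwards [(hO z hzV).mem_nhds (hrO hw)] with y hy
      exact hgO z hzV y hy
    simp only [Hess_congr h3]
  -- disjointify
  have : Countable t := htc.to_subtype
  obtain ⟨e, he⟩ : ∃ e : ℕ → Set C3, (∀ n, MeasurableSet (e n)) ∧ (∀ n, ∀ r, MeasurableSet r → r ⊆ e n →
      ν r = ∫⁻ w in r, ENNReal.ofReal (Hess H w).det.re) ∧ V ⊆ ⋃ n, e n := by
    rcases t.eq_empty_or_nonempty with hte | hte
    · refine ⟨fun _ => ∅, fun _ => MeasurableSet.empty, fun n r _ hr => ?_, ?_⟩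
      · rw [subset_empty_iff.1 hr]
        simp
      · rw [hte] at hcov
        simpa using hcov
    · obtain ⟨f, hf⟩ := htc.exists_eq_range hte
      refine ⟨fun n => O (f n), fun n => ?_, fun n r hr hrO => ?_, ?_⟩
      · have : f n ∈ t := by
          rw [hf]
          exact ⟨n, rfl⟩
        exact (hO _ (htV this)).measurableSet
      · have : f n ∈ t := by
          rw [hf]
          exact ⟨n, rfl⟩
        exact key _ this r hr hrO
      · refine hcov.trans ?_
        rw [hf]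
        simp
  obtain ⟨he1, he2, he3⟩ := he
  have hd := disjoint_disjointed e
  have hdm : ∀ n, MeasurableSet (disjointed e n) := fun n => MeasurableSet.disjointed he1 n
  have hcov2 : s = ⋃ n, s ∩ disjointed e n := by
    rw [← inter_iUnion, iUnion_disjointed, inter_eq_self_of_subset_left (hsV.trans he3)]
  have hdis : Pairwise (Function.onFun Disjoint fun n => s ∩ disjointed e n) := fun a b hab =>
    (hd hab).mono inter_subset_right inter_subset_right
  have hms : ∀ n, MeasurableSet (s ∩ disjointed e n) := fun n => hs.inter (hdm n)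
  conv_lhs => rw [hcov2]
  conv_rhs => rw [hcov2]
  rw [measure_iUnion hdis hms, lintegral_iUnion hms hdis]
  refine tsum_congr fun n => ?_
  exact he2 n _ (hms n) (inter_subset_right.trans (disjointed_subset e n))

/-- **locality** for any Monge-Ampère measure of `u` -/
theorem IsMA.loc (hU : MeasurableSet U) (h : IsMA U u ν) (hu : LocB U u) (hV : IsOpen V)
    (hVU : V ⊆ U) (hH : ContDiffOn ℝ ∞ H V) (hVH : ∀ z ∈ V, u z = H z) {s : Set C3} (hs : MeasurableSet s)
    (hsV : s ⊆ V) : ν s = ∫⁻ z in s, ENNReal.ofReal (Hess H z).det.re := by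
  obtain ⟨Θ₁, m₁, Θ₂, m₂, h'⟩ := h
  exact h'.loc_restrict_on hU hu hV hVU hH hVH hs hsV

end

end KOL
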