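import Pool.Agent.KOL.Defs
import Pool.Agent.KOL.Kink
import Pool.Agent.Kolodziej.Atoms

/-!
# Project KOL: the objects of the scaled line version (interface of the rows BAR, NEG, VV, MU)
-/

set_option autoImplicit false

namespace KOL

open MeasureTheory Matrix Set
open Pool.Agent.Kolodziej
open scoped ContDiff

noncomputable section

/-- the scale of the line in the circle of the first coordinate -/
def lam : ℝ := 1 / 40

/-- `|z|² + Re (z₁²) + φ`, a plurisubharmonic function -/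
def psi (φ : C3 → ℝ) (z : C3) : ℝ := φ z + sq z + ((z 0).re ^ 2 - (z 0).im ^ 2)

/-- normalised logarithmic coordinate: `0` on the circle of radius `exp (-q)`, `1` on the unit circle -/
def sg (q : ℝ) (w : ℂ) : ℝ := (Real.log ‖w‖ + q) / q

/-- the bump in the first coordinate -/
def bump0 (X W : ℝ) (w : ℂ) : ℝ := kd (1 / 16) ((w.re - X) / W) / W ^ 2

/-- the bump in the other coordinates (it vanishes at `0`) -/
def bump1 (q : ℝ) (w : ℂ) : ℝ := kd (1 / 16) (sg q w) / (q ^ 2 * ‖w‖ ^ 2)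

/-- the product bump -/
def bump (X W q1 q2 : ℝ) (z : C3) : ℝ := bump0 X W (z 0) * bump1 q1 (z 1) * bump1 q2 (z 2)

/-- the box which carries the bump -/
def boxO (X W q1 q2 : ℝ) : Fin 3 → Set ℂ :=
  ![{w | |(w.re - X) / W| < 1 / 16}, {w | |sg q1 w| < 1 / 16}, {w | |sg q2 w| < 1 / 16}]

/-- the box of an atom -/
def reg (a : Atom) : Set C3 :=
  {z | |((z 0).re - lam * a.x) / (lam * a.w)| < 1 / 16 ∧ |sg a.q1 (z 1)| < 1 / 16 ∧ |sg a.q2 (z 2)| < 1 / 16}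

/-- the one-dimensional function `B` -/
def BB (s : ℝ) : ℝ := (s + 1) / 16 + Pd (1 / 16) s / 16

/-- the function of an atom -/
def hfun (a : Atom) (z : C3) : ℝ :=
  a.val + a.k * ((z 0).re / lam - a.x) +
    a.r * (Ad (1 / 16) (((z 0).re - lam * a.x) / (lam * a.w)) / 2 + BB (sg a.q1 (z 1)) + BB (sg a.q2 (z 2)))

/-- the density of the measure near an atom: twice the determinant of the barrier, `Δ = 16 lam r` -/
def dens (a : Atom) (z : C3) : ℝ :=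
  (16 * lam * a.r) ^ 3 / 4 * bump (lam * a.x) (lam * a.w) a.q1 a.q2 z

/-- a sequence of blocks of atoms: what we know about the atoms -/
structure Blocks (blk : ℕ → Set Atom) (c : ℕ → ℝ) (R : ℕ → ℕ) (w L S : ℕ → ℝ) : Prop where
  fin : ∀ k, (blk k).Finite
  inb : ∀ k, ∀ a ∈ blk k, InBlock (c k) (R k) (w k) a
  S_le : ∀ k, ∀ a ∈ blk k, S k ≤ a.q1 ∧ S k ≤ a.q2
  c_pos : ∀ k, 0 < c k
  c_le : ∀ k, c k ≤ 1
  c_lim : Filter.Tendsto c Filter.atTop (nhds 0)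
  w_pos : ∀ k, 0 < w k
  w_le : ∀ k, w k ≤ 1
  R_ge : ∀ k, 4 ≤ R k
  R_le : ∀ k, 2 / (R k : ℝ) ≤ c k
  S_ge : ∀ k, 100 ≤ S k
  S_grow : ∀ k : ℕ, (k : ℝ) ≤ S k
  L_ge : ∀ k, 2 ≤ L k
  kill : ∀ k, ∀ a ∈ blk k, 2000 ≤ a.r * (L k - 1)
  rel : ∀ k l, ∀ a ∈ blk k, ∀ b ∈ blk l, a ≠ b → Rel (L l) a b
  disj : ∀ k l, k ≠ l → Disjoint (blk k) (blk l)
  reg_disj : ∀ k l, ∀ a ∈ blk k, ∀ b ∈ blk l, a ≠ b → Disjoint (reg a) (reg b)
  mass : ∀ k, ((blk k).ncard : ℝ) / (S k) ^ 2 ≤ (1 / 2 : ℝ) ^ k / 10 ^ 6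

/-- the function `v` of row VV -/
def IsV (blk : ℕ → Set Atom) (v : C3 → ℝ) : Prop :=
  Continuous v ∧ Psh univ v ∧ ∀ k, ∀ a ∈ blk k, ∀ z ∈ reg a, v z = hfun a z

/-- **Row VV** -/
def VV_stmt : Prop := ∀ (blk : ℕ → Set Atom) (c : ℕ → ℝ) (R : ℕ → ℕ) (w L S : ℕ → ℝ),
  Blocks blk c R w L S → ∃ v, IsV blk v

/-- **Row BAR**, one node -/
def BAR_stmt : Prop := ∀ (φ : C3 → ℝ) (ν : Measure C3), OmegaPsh φ → IsMA univ (fun z => φ z + sq z) ν →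
  ∀ X W q1 q2 bp bm Δ : ℝ, 0 < W → 0 < q1 → 0 < q2 → 0 < Δ →
  (∀ z : C3, (z 0).re = X + W → ‖z 1‖ ≤ Real.exp (-(q1 / 2)) → ‖z 2‖ ≤ Real.exp (-(q2 / 2)) → psi φ z ≤ bp) →
  (∀ z : C3, (z 0).re = X - W → ‖z 1‖ ≤ Real.exp (-(q1 / 2)) → ‖z 2‖ ≤ Real.exp (-(q2 / 2)) → psi φ z ≤ bm) →
  (∀ s : Set C3, MeasurableSet s → (∀ z ∈ s, ∀ j, z j ∈ boxO X W q1 q2 j) →
    ∫⁻ z in s, ENNReal.ofReal (Δ ^ 3 / 4 * bump X W q1 q2 z) ≤ ν s) →
  ∀ z : C3, (z 0).re = X → ‖z 1‖ ≤ Real.exp (-q1) → ‖z 2‖ ≤ Real.exp (-q2) → psi φ z ≤ (bp + bm) / 2 - Δ / 2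

/-- **Row STRIP**: the maximum principle on strips -/
def STRIP_stmt : Prop := ∀ φ : C3 → ℝ, OmegaPsh φ → ∀ a b A B : ℝ, a < b → ∀ z : C3,
  (∀ w : C3, (w 0).re = a → w 1 = z 1 → w 2 = z 2 → psi φ w ≤ A) →
  (∀ w : C3, (w 0).re = b → w 1 = z 1 → w 2 = z 2 → psi φ w ≤ B) →
  a ≤ (z 0).re → (z 0).re ≤ b → psi φ z ≤ A + (B - A) * (((z 0).re - a) / (b - a))

/-- **Row BLK/NEG**: no bounded solution for measures above the densities of the atoms -/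
def NEG_stmt (blk : ℕ → Set Atom) : Prop := ∀ (φ : C3 → ℝ) (ν : Measure C3), OmegaPsh φ →
  IsMA univ (fun z => φ z + sq z) ν →
  (∀ k, ∀ a ∈ blk k, ∀ s : Set C3, MeasurableSet s → s ⊆ reg a → ∫⁻ z in s, ENNReal.ofReal (dens a z) ≤ ν s) → False

/-- **Row MU** (from the row VV, the existence of chains and locality) -/
def MU_stmt : Prop := ∀ (blk : ℕ → Set Atom) (c : ℕ → ℝ) (R : ℕ → ℕ) (w L S : ℕ → ℝ),
  Blocks blk c R w L S → ∃ μ : Measure C3, TorusProb μ ∧ LocDom μ ∧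
    ∀ k, ∀ a ∈ blk k, ∀ s : Set C3, MeasurableSet s → s ⊆ reg a → ∫⁻ z in s, ENNReal.ofReal (dens a z) ≤ μ s

end

end KOL
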