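import Pool.Agent.KOL.PshOps
import Pool.Agent.KOL.Line

/-!
# Project KOL, row VV: the continuous plurisubharmonic function `v`
-/

set_option autoImplicit false

namespace KOL

open MeasureTheory Matrix Set Filter
open Pool.Agent.Kolodziej
open scoped ContDiff Topology

noncomputable section

namespace VV

/-! ### the functions `Ad` and `BB` -/

theorem d16 : (0 : ℝ) < 1 / 16 := by norm_num

theorem BB_low {s : ℝ} (h : s ≤ -(1 / 16)) : BB s = (s + 1) / 16 := by
  unfold BB
  rw [Pd_low d16 s h]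
  ring

theorem BB_high {s : ℝ} (h : 1 / 16 ≤ s) : BB s = 3 / 16 + (s - 1) / 8 := by
  unfold BB
  rw [Pd_high d16 s h]
  ring

theorem BB_mono : Monotone BB := by
  intro s t h
  unfold BB
  have := Pd_mono d16 h
  linarith

theorem BB_le (s : ℝ) : BB s ≤ 3 / 16 + max (s - 1) 0 / 8 := by
  rcases le_total s 1 with h | h
  · have h1 := BB_mono h
    rw [BB_high (by norm_num : (1 : ℝ) / 16 ≤ 1)] at h1
    have h2 := le_max_right (s - 1) 0
    linarith
  · rw [BB_high (by linarith)]
    have h2 := le_max_left (s - 1) 0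
    linarith

theorem BB_ge {s : ℝ} (h : -(1 / 16) ≤ s) : 15 / 256 ≤ BB s := by
  have h1 := BB_mono h
  rw [BB_low le_rfl] at h1
  linarith

theorem BB_cont : Continuous BB := by
  unfold BB
  exact ((continuous_id.add continuous_const).div_const _).add
    ((Pd_smooth _).continuous.div_const _)

/-- the slope of `BB` -/
def B1 (s : ℝ) : ℝ := 1 / 16 + Qd (1 / 16) s / 16

theorem BB_hasDeriv (s : ℝ) : HasDerivAt BB (B1 s) s := by
  unfold BB B1
  have h1 : HasDerivAt (fun s : ℝ => (s + 1) / 16) (1 / 16) s :=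
    ((hasDerivAt_id s).add_const 1).div_const 16
  exact h1.add ((Pd_hasDeriv d16 s).div_const 16)

theorem B1_ge (s : ℝ) : 1 / 16 ≤ B1 s := by
  unfold B1
  have := Qd_nonneg (1 / 16) s
  linarith

/-- tangent lines from a monotone derivative -/
theorem tangent_le {f g : ℝ → ℝ} (h : ∀ s, HasDerivAt f (g s) s) (hg : Monotone g) (s t : ℝ) :
    f s + g s * (t - s) ≤ f t := by
  have hd : Differentiable ℝ f := fun s => (h s).differentiableAt
  have hg' : deriv f = g := funext fun s => (h s).deriv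
  have hconv : ConvexOn ℝ univ f := by
    apply MonotoneOn.convexOn_of_deriv convex_univ hd.continuous.continuousOn
      hd.differentiableOn
    rw [hg']
    exact hg.monotoneOn _
  rcases lt_trichotomy s t with hst | hst | hst
  · have := hconv.le_slope_of_hasDerivAt (mem_univ s) (mem_univ t) hst (h s)
    rw [slope_def_field, le_div_iff₀ (by linarith)] at this
    linarith
  · subst hst
    rw [sub_self, mul_zero, add_zero]
  · have := hconv.slope_le_of_hasDerivAt (mem_univ t) (mem_univ s) hst (h s)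
    rw [slope_def_field, div_le_iff₀ (by linarith)] at this
    linarith

theorem Qd_mono : Monotone (Qd (1 / 16)) := fun a b h =>
  QQ_mono (by
    have : (0 : ℝ) ≤ 1 / 16 := by norm_num
    exact div_le_div_of_nonneg_right h this)

theorem BB_tangent (s t : ℝ) : BB s + B1 s * (t - s) ≤ BB t := by
  refine tangent_le BB_hasDeriv ?_ s t
  intro a b h
  unfold B1
  have := Qd_mono h
  linarith

theorem Ad_tangent (s t : ℝ) :
    Ad (1 / 16) s + (2 * Qd (1 / 16) s - 1) * (t - s) ≤ Ad (1 / 16) t := by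
  refine tangent_le (Ad_hasDeriv d16) ?_ s t
  intro a b h
  have h2 := Qd_mono h
  show 2 * Qd (1 / 16) a - 1 ≤ 2 * Qd (1 / 16) b - 1
  linarith

/-! ### the function of an atom -/

theorem lam_pos : 0 < lam := by unfold lam; norm_num

/-- the rescaled first coordinate -/
def xi (z : C3) : ℝ := (z 0).re / lam

theorem theta_eq (a : Atom) (hw : 0 < a.w) (z : C3) :
    ((z 0).re - lam * a.x) / (lam * a.w) = (xi z - a.x) / a.w := by
  have := lam_pos
  unfold xi
  field_simp

theorem hfun_eq (a : Atom) (hw : 0 < a.w) (z : C3) : hfun a z =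
    a.val + a.k * (xi z - a.x) +
    a.r * (Ad (1 / 16) ((xi z - a.x) / a.w) / 2 + BB (sg a.q1 (z 1)) + BB (sg a.q2 (z 2))) := by
  unfold hfun
  rw [theta_eq a hw z]
  rfl

/-- upper bound -/
theorem hfun_le {c : ℝ} {a : Atom} (ha : Atom.Reg c a) (z : C3) :
    hfun a z ≤ a.post (xi z) +
      a.r * (max (sg a.q1 (z 1) - 1) 0 / 8 + max (sg a.q2 (z 2) - 1) 0 / 8) := by
  have hw := ha.hw
  have hr := ha.rpos
  rw [hfun_eq a hw]
  have h1 := cone_le_topple hw ha.good a.x (xi z)
  change a.val + a.k * (xi z - a.x) + a.r * |xi z - a.x| / (2 * a.w) + a.r / 2 ≤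
    a.post (xi z) at h1
  have h2 := Ad_le d16 ((xi z - a.x) / a.w)
  rw [abs_div, abs_of_pos hw] at h2
  have h3 := BB_le (sg a.q1 (z 1))
  have h4 := BB_le (sg a.q2 (z 2))
  have h5 : a.r * (Ad (1 / 16) ((xi z - a.x) / a.w) / 2 + BB (sg a.q1 (z 1)) +
      BB (sg a.q2 (z 2))) ≤ a.r * (|xi z - a.x| / a.w / 2 + 1 / 2 +
      (max (sg a.q1 (z 1) - 1) 0 / 8 + max (sg a.q2 (z 2) - 1) 0 / 8)) := by
    apply mul_le_mul_of_nonneg_left _ hr.le
    linarith
  have h6 : a.r * (|xi z - a.x| / a.w / 2 + 1 / 2 +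
      (max (sg a.q1 (z 1) - 1) 0 / 8 + max (sg a.q2 (z 2) - 1) 0 / 8)) =
      a.r * |xi z - a.x| / (2 * a.w) + a.r / 2 +
      a.r * (max (sg a.q1 (z 1) - 1) 0 / 8 + max (sg a.q2 (z 2) - 1) 0 / 8) := by
    field_simp
  linarith

theorem sg_sub_one {q : ℝ} (hq : 0 < q) (w : ℂ) : sg q w - 1 = Real.log ‖w‖ / q := by
  unfold sg
  field_simp
  ring

theorem max_sg {q : ℝ} (hq : 0 < q) (w : ℂ) :
    max (sg q w - 1) 0 = max (Real.log ‖w‖) 0 / q := by
  rw [sg_sub_one hq]
  rcases le_total 0 (Real.log ‖w‖) with h | h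
  · rw [max_eq_left (by positivity), max_eq_left h]
  · rw [max_eq_right (div_nonpos_of_nonpos_of_nonneg h hq.le), max_eq_right h, zero_div]

/-- On the region of an atom the function of the atom is at least the state. -/
theorem le_hfun {c : ℝ} {a : Atom} (ha : Atom.Reg c a) {z : C3} (hz : z ∈ reg a) :
    a.U (xi z) ≤ hfun a z := by
  obtain ⟨h0, h1, h2⟩ := hz
  have hw := ha.hw
  have hr := ha.rpos
  rw [theta_eq a hw z] at h0
  rw [hfun_eq a hw]
  have g1 := BB_ge (abs_lt.1 h1).1.le
  have g2 := BB_ge (abs_lt.1 h2).1.le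
  have g3 := Ad_ge d16 ((xi z - a.x) / a.w)
  -- the convexity bound
  set y := xi z with hy
  have hwy : |y - a.x| ≤ a.w / 16 := by
    rw [abs_div, abs_of_pos hw, div_lt_iff₀ hw] at h0
    linarith
  have key : a.U y ≤ a.val + a.k * (y - a.x) + a.r * |y - a.x| / a.w := by
    show a.U y ≤ a.U a.x + kap a.w a.U a.x * (y - a.x) + rr a.w a.U a.x * |y - a.x| / a.w
    rcases le_total a.x y with hx | hx
    · rw [abs_of_nonneg (by linarith)] at hwy ⊢
      have e : a.U a.x + kap a.w a.U a.x * (y - a.x) + rr a.w a.U a.x * (y - a.x) / a.w =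
          a.U a.x + (a.U (a.x + a.w) - a.U a.x) / a.w * (y - a.x) := by
        rw [← kap_add hw]
        ring
      rw [e]
      have hc := ha.good.conv a.x (a.x + a.w) (1 - (y - a.x) / a.w) ((y - a.x) / a.w)
        (by rw [sub_nonneg, div_le_one hw]; linarith) (div_nonneg (by linarith) hw.le) (by ring)
      have e2 : (1 - (y - a.x) / a.w) * a.x + (y - a.x) / a.w * (a.x + a.w) = y := by
        field_simp
        ring
      rw [e2] at hc
      have e3 : (1 - (y - a.x) / a.w) * a.U a.x + (y - a.x) / a.w * a.U (a.x + a.w) =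
          a.U a.x + (a.U (a.x + a.w) - a.U a.x) / a.w * (y - a.x) := by
        ring
      linarith
    · rw [abs_of_nonpos (by linarith)] at hwy ⊢
      have e : a.U a.x + kap a.w a.U a.x * (y - a.x) + rr a.w a.U a.x * -(y - a.x) / a.w =
          a.U a.x + (a.U a.x - a.U (a.x - a.w)) / a.w * (y - a.x) := by
        rw [← kap_sub hw]
        ring
      rw [e]
      have hc := ha.good.conv a.x (a.x - a.w) (1 - (a.x - y) / a.w) ((a.x - y) / a.w)
        (by rw [sub_nonneg, div_le_one hw]; linarith) (div_nonneg (by linarith) hw.le) (by ring)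
      have e2 : (1 - (a.x - y) / a.w) * a.x + (a.x - y) / a.w * (a.x - a.w) = y := by
        field_simp
        ring
      rw [e2] at hc
      have e3 : (1 - (a.x - y) / a.w) * a.U a.x + (a.x - y) / a.w * a.U (a.x - a.w) =
          a.U a.x + (a.U a.x - a.U (a.x - a.w)) / a.w * (y - a.x) := by
        ring
      linarith
  have h5 : a.r * |y - a.x| / a.w ≤ a.r / 16 := by
    rw [div_le_iff₀ hw]
    have := mul_le_mul_of_nonneg_left hwy hr.le
    linarith
  have h6 : a.r * (|(y - a.x) / a.w| / 2 + 15 / 256 + 15 / 256) ≤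
      a.r * (Ad (1 / 16) ((y - a.x) / a.w) / 2 + BB (sg a.q1 (z 1)) + BB (sg a.q2 (z 2))) := by
    apply mul_le_mul_of_nonneg_left _ hr.le
    linarith
  have h7 : a.r * |y - a.x| / a.w = a.r * |(y - a.x) / a.w| := by
    rw [abs_div, abs_of_pos hw]
    ring
  rw [mul_add, mul_add] at h6
  rw [h7] at key h5
  linarith

section blocks

variable {blk : ℕ → Set Atom} {c : ℕ → ℝ} {R : ℕ → ℕ} {w L S : ℕ → ℝ}
  (hB : Blocks blk c R w L S)
include hB

theorem base_le {k : ℕ} {a : Atom} (ha : a ∈ blk k) (y : ℝ) : max y 0 ≤ a.U y := by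
  have h := (hB.inb k a ha).reg.good.base y
  have := hB.c_pos k
  linarith

theorem log_neg {k : ℕ} {a : Atom} (ha : a ∈ blk k) {z : C3} (hz : z ∈ reg a) :
    Real.log ‖z 1‖ < -(15 / 16 * a.q1) ∧ Real.log ‖z 2‖ < -(15 / 16 * a.q2) := by
  obtain ⟨h0, h1, h2⟩ := hz
  have hr := (hB.inb k a ha).reg
  constructor
  · have h := (abs_lt.1 h1).2
    unfold sg at h
    rw [div_lt_iff₀ hr.q1pos] at h
    linarith
  · have h := (abs_lt.1 h2).2
    unfold sg at h
    rw [div_lt_iff₀ hr.q2pos] at h
    linarith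

theorem xi_near {k : ℕ} {a : Atom} (ha : a ∈ blk k) {z : C3} (hz : z ∈ reg a) :
    |xi z - a.x| ≤ 1 / 16 := by
  obtain ⟨h0, h1, h2⟩ := hz
  have hr := (hB.inb k a ha).reg
  have hw := hr.hw
  rw [theta_eq a hw z, abs_div, abs_of_pos hw, div_lt_iff₀ hw] at h0
  have := hB.w_le k
  rw [← (hB.inb k a ha).w_eq] at this
  linarith

/-- killing -/
theorem hfun_kill {l : ℕ} {b : Atom} (hb : b ∈ blk l) {z : C3} (hx : |xi z| ≤ 10 + 1 / 16)
    (h1 : Real.log ‖z 1‖ ≤ 0) (h2 : Real.log ‖z 2‖ ≤ 0)
    (h : Real.log ‖z 1‖ ≤ -(15 / 16 * (L l * b.q1)) ∨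
      Real.log ‖z 2‖ ≤ -(15 / 16 * (L l * b.q2))) : hfun b z ≤ 0 := by
  have hib := hB.inb l b hb
  have hw := hib.reg.hw
  have hr := hib.reg.rpos
  have hL := hB.L_ge l
  have hkill := hB.kill l b hb
  have hr1 : b.r ≤ b.w / 2 := by rw [hib.w_eq]; exact hib.r_le
  have hwl : b.w ≤ 1 := by rw [hib.w_eq]; exact hB.w_le l
  rw [hfun_eq b hw]
  have hval : b.val ≤ 12 := by
    have e1 := hib.pre_le b.x
    have e2 : max b.x 0 ≤ 10 := max_le ((le_abs_self _).trans hib.x_le) (by norm_num)
    have e3 := hB.c_le l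
    have e4 := hB.R_le l
    show b.U b.x ≤ 12
    linarith
  have hxx : |xi z - b.x| ≤ 20 + 1 / 16 := by
    have := abs_sub (xi z) b.x
    have := hib.x_le
    linarith
  have hk0 := kap_nonneg hw hib.reg.good b.x
  have hk1 := kap_le hw hib.reg.good b.x
  have hkx : b.k * (xi z - b.x) ≤ 20 + 1 / 16 := by
    calc b.k * (xi z - b.x) ≤ b.k * |xi z - b.x| :=
          mul_le_mul_of_nonneg_left (le_abs_self _) hk0
      _ ≤ 1 * (20 + 1 / 16) := mul_le_mul hk1 hxx (abs_nonneg _) (by norm_num)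
      _ = _ := one_mul _
  have hA := Ad_le d16 ((xi z - b.x) / b.w)
  have hAr : b.r * (Ad (1 / 16) ((xi z - b.x) / b.w) / 2) ≤ 6 := by
    have e1 : b.r * (Ad (1 / 16) ((xi z - b.x) / b.w) / 2) ≤
        b.r * ((|(xi z - b.x) / b.w| + 2 * (1 / 16)) / 2) := by
      apply mul_le_mul_of_nonneg_left _ hr.le
      linarith
    have e2 : b.r * |(xi z - b.x) / b.w| ≤ |xi z - b.x| / 2 := by
      rw [abs_div, abs_of_pos hw, mul_div_assoc', div_le_iff₀ hw]
      have := mul_le_mul_of_nonneg_right hr1 (abs_nonneg (xi z - b.x))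
      linarith
    linarith
  have hsg : ∀ q : ℝ, 0 < q → ∀ y : ℂ, Real.log ‖y‖ ≤ 0 → BB (sg q y) ≤ 3 / 16 := by
    intro q hq y hy
    have e := BB_le (sg q y)
    rw [max_sg hq, max_eq_right hy, zero_div, zero_div, add_zero] at e
    exact e
  have hsk : ∀ q : ℝ, 0 < q → ∀ y : ℂ, Real.log ‖y‖ ≤ -(15 / 16 * (L l * q)) →
      b.r * BB (sg q y) ≤ -117 := by
    intro q hq y hy
    have e1 : sg q y ≤ 1 - 15 / 16 * L l := by
      have := sg_sub_one hq y
      have e2 : Real.log ‖y‖ / q ≤ -(15 / 16 * L l) := by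
        rw [div_le_iff₀ hq]
        linarith
      linarith
    have e3 : BB (sg q y) ≤ (1 - 15 / 16 * L l + 1) / 16 := by
      rw [BB_low (by linarith)]
      linarith
    have e4 := mul_le_mul_of_nonneg_left e3 hr.le
    nlinarith
  have h3 := hsg b.q1 hib.reg.q1pos (z 1) h1
  have h4 := hsg b.q2 hib.reg.q2pos (z 2) h2
  have h3' := mul_le_mul_of_nonneg_left h3 hr.le
  have h4' := mul_le_mul_of_nonneg_left h4 hr.le
  rw [mul_add, mul_add]
  rcases h with h | h
  · have := hsk b.q1 hib.reg.q1pos (z 1) h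
    linarith
  · have := hsk b.q2 hib.reg.q2pos (z 2) h
    linarith

/-- On the region of `a` the function of `a` dominates. -/
theorem hfun_le_hfun {k l : ℕ} {a b : Atom} (ha : a ∈ blk k) (hb : b ∈ blk l) (hab : a ≠ b)
    {z : C3} (hz : z ∈ reg a) : hfun b z ≤ hfun a z := by
  have hia := hB.inb k a ha
  have hib := hB.inb l b hb
  obtain ⟨g1, g2⟩ := log_neg hB ha hz
  have n1 : Real.log ‖z 1‖ ≤ 0 := by have := hia.reg.q1pos; linarith
  have n2 : Real.log ‖z 2‖ ≤ 0 := by have := hia.reg.q2pos; linarith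
  have hU := le_hfun hia.reg hz
  have hbase := base_le hB ha (xi z)
  have hxz : |xi z| ≤ 10 + 1 / 16 := by
    have h1 := xi_near hB ha hz
    have h2 := hia.x_le
    have h3 := abs_sub_abs_le_abs_sub (xi z) a.x
    linarith
  have h0 := le_max_right (xi z) 0
  rcases hB.rel k l a ha b hb hab with h | h | h
  · have h1 := hfun_le hib.reg z
    rw [max_sg hib.reg.q1pos, max_sg hib.reg.q2pos, max_eq_right n1, max_eq_right n2] at h1
    simp only [zero_div, add_zero, mul_zero] at h1
    have h2 := h (xi z)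
    linarith
  · have h1 : hfun b z ≤ 0 := hfun_kill hB hb hxz n1 n2 (Or.inl (by linarith))
    linarith
  · have h1 : hfun b z ≤ 0 := hfun_kill hB hb hxz n1 n2 (Or.inr (by linarith))
    linarith

end blocks

/-! ### the excess of an atom -/

/-- the excess of an atom over `max (Re z₀ / lam) 0` -/
def Dh (b : Atom) (z : C3) : ℝ :=
  if z 1 = 0 ∨ z 2 = 0 then 0 else max 0 (hfun b z - max (xi z) 0)

theorem Dh_nonneg (b : Atom) (z : C3) : 0 ≤ Dh b z := by
  unfold Dh
  split_ifs
  · exact le_rfl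
  · exact le_max_left _ _

theorem xi_cont : Continuous xi := by
  unfold xi
  exact (Complex.continuous_re.comp (continuous_apply 0)).div_const _

theorem hfun_contAt {a : Atom} (hw : 0 < a.w) {z : C3} (h1 : z 1 ≠ 0) (h2 : z 2 ≠ 0) :
    ContinuousAt (hfun a) z := by
  have e : hfun a = fun z => a.val + a.k * (xi z - a.x) +
    a.r * (Ad (1 / 16) ((xi z - a.x) / a.w) / 2 + BB (sg a.q1 (z 1)) + BB (sg a.q2 (z 2))) :=
    funext fun z => hfun_eq a hw z
  rw [e]
  have hx := xi_cont.continuousAt (x := z)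
  have hA : ContinuousAt (fun z : C3 => Ad (1 / 16) ((xi z - a.x) / a.w)) z :=
    (Ad_smooth (1 / 16)).continuous.continuousAt.comp ((hx.sub continuousAt_const).div_const _)
  have hl : ∀ j : Fin 3, ∀ q : ℝ, z j ≠ 0 → ContinuousAt (fun z : C3 => BB (sg q (z j))) z := by
    intro j q hj
    refine BB_cont.continuousAt.comp ?_
    unfold sg
    refine ContinuousAt.div_const (ContinuousAt.add ?_ continuousAt_const) _
    exact ContinuousAt.log ((continuous_apply j).norm.continuousAt) (norm_ne_zero_iff.2 hj)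
  exact (continuousAt_const.add (continuousAt_const.mul (hx.sub continuousAt_const))).add
    (continuousAt_const.mul (((hA.div_const _).add (hl 1 a.q1 h1)).add (hl 2 a.q2 h2)))

theorem BB_axis {q r C : ℝ} (hq : 0 < q) (hr : 0 < r) :
    ∃ δ : ℝ, 0 < δ ∧ ∀ y : ℂ, y ≠ 0 → ‖y‖ < δ → r * BB (sg q y) ≤ -C := by
  refine ⟨Real.exp (-(q * (2 + 16 * |C| / r))), Real.exp_pos _, fun y hy0 hy => ?_⟩
  have hn : 0 < ‖y‖ := norm_pos_iff.2 hy0
  have h1 : Real.log ‖y‖ < -(q * (2 + 16 * |C| / r)) := (Real.log_lt_iff_lt_exp hn).2 hy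
  have h2 : sg q y ≤ 1 - (2 + 16 * |C| / r) := by
    have e := sg_sub_one hq y
    have e2 : Real.log ‖y‖ / q ≤ -(2 + 16 * |C| / r) := by
      rw [div_le_iff₀ hq]
      linarith
    linarith
  have h3 : 0 ≤ 16 * |C| / r := by positivity
  have h4 : BB (sg q y) ≤ -(|C| / r) := by
    rw [BB_low (by linarith)]
    have : 16 * |C| / r = 16 * (|C| / r) := by ring
    linarith
  calc r * BB (sg q y) ≤ r * -(|C| / r) := mul_le_mul_of_nonneg_left h4 hr.le
    _ = -|C| := by field_simp
    _ ≤ -C := neg_le_neg (le_abs_self C)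

theorem log_le_norm (y : ℂ) : max (Real.log ‖y‖) 0 ≤ ‖y‖ := by
  refine max_le ?_ (norm_nonneg _)
  have := Real.log_le_sub_one_of_pos (x := ‖y‖)
  rcases (norm_nonneg y).eq_or_lt with h | h
  · rw [← h, Real.log_zero]
  · have := this h
    linarith

theorem BB_sg_le {q : ℝ} (hq : 0 < q) (y : ℂ) : BB (sg q y) ≤ 3 / 16 + ‖y‖ / q / 8 := by
  have h1 := BB_le (sg q y)
  rw [max_sg hq] at h1
  have h2 : max (Real.log ‖y‖) 0 / q ≤ ‖y‖ / q :=
    div_le_div_of_nonneg_right (log_le_norm y) hq.le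
  linarith

/-- near the axes the function of an atom is negative -/
theorem hfun_axis1 {c : ℝ} {a : Atom} (ha : Atom.Reg c a) (z : C3) (h0 : z 1 = 0) :
    ∀ᶠ y in 𝓝 z, y 1 ≠ 0 → hfun a y ≤ 0 := by
  have hw := ha.hw
  have hr := ha.rpos
  have hG : Continuous (fun y : C3 => a.val + a.k * (xi y - a.x) +
      a.r * (Ad (1 / 16) ((xi y - a.x) / a.w) / 2 + (3 / 16 + ‖y 2‖ / a.q2 / 8))) := by
    have hx := xi_cont
    have hA : Continuous (fun z : C3 => Ad (1 / 16) ((xi z - a.x) / a.w)) :=
      (Ad_smooth (1 / 16)).continuous.comp ((hx.sub continuous_const).div_const _)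
    exact (continuous_const.add (continuous_const.mul (hx.sub continuous_const))).add
      (continuous_const.mul ((hA.div_const _).add (continuous_const.add
        (((continuous_apply 2).norm.div_const _).div_const _))))
  set G : C3 → ℝ := fun y : C3 => a.val + a.k * (xi y - a.x) +
      a.r * (Ad (1 / 16) ((xi y - a.x) / a.w) / 2 + (3 / 16 + ‖y 2‖ / a.q2 / 8)) with hGd
  obtain ⟨δ, hδ, hδ2⟩ := BB_axis (q := a.q1) (r := a.r) (C := G z + 1) ha.q1pos hr
  have e1 : ∀ᶠ y in 𝓝 z, G y < G z + 1 :=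
    (hG.tendsto z).eventually_lt_const (by linarith)
  have e2 : ∀ᶠ y in 𝓝 z, ‖y 1‖ < δ := by
    have : Continuous fun y : C3 => ‖y 1‖ := (continuous_apply 1).norm
    refine (this.tendsto z).eventually_lt_const ?_
    rw [h0, norm_zero]
    exact hδ
  filter_upwards [e1, e2] with y g1 g2 hy
  have g3 := hδ2 (y 1) hy g2
  have g4 := mul_le_mul_of_nonneg_left (BB_sg_le ha.q2pos (y 2)) hr.le
  rw [hfun_eq a hw]
  simp only [hGd] at g1 g3
  rw [mul_add, mul_add]
  rw [mul_add] at g1
  linarith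

theorem hfun_axis2 {c : ℝ} {a : Atom} (ha : Atom.Reg c a) (z : C3) (h0 : z 2 = 0) :
    ∀ᶠ y in 𝓝 z, y 2 ≠ 0 → hfun a y ≤ 0 := by
  have hw := ha.hw
  have hr := ha.rpos
  have hG : Continuous (fun y : C3 => a.val + a.k * (xi y - a.x) +
      a.r * (Ad (1 / 16) ((xi y - a.x) / a.w) / 2 + (3 / 16 + ‖y 1‖ / a.q1 / 8))) := by
    have hx := xi_cont
    have hA : Continuous (fun z : C3 => Ad (1 / 16) ((xi z - a.x) / a.w)) :=
      (Ad_smooth (1 / 16)).continuous.comp ((hx.sub continuous_const).div_const _)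
    exact (continuous_const.add (continuous_const.mul (hx.sub continuous_const))).add
      (continuous_const.mul ((hA.div_const _).add (continuous_const.add
        (((continuous_apply 1).norm.div_const _).div_const _))))
  set G : C3 → ℝ := fun y : C3 => a.val + a.k * (xi y - a.x) +
      a.r * (Ad (1 / 16) ((xi y - a.x) / a.w) / 2 + (3 / 16 + ‖y 1‖ / a.q1 / 8)) with hGd
  obtain ⟨δ, hδ, hδ2⟩ := BB_axis (q := a.q2) (r := a.r) (C := G z + 1) ha.q2pos hr
  have e1 : ∀ᶠ y in 𝓝 z, G y < G z + 1 :=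
    (hG.tendsto z).eventually_lt_const (by linarith)
  have e2 : ∀ᶠ y in 𝓝 z, ‖y 2‖ < δ := by
    have : Continuous fun y : C3 => ‖y 2‖ := (continuous_apply 2).norm
    refine (this.tendsto z).eventually_lt_const ?_
    rw [h0, norm_zero]
    exact hδ
  filter_upwards [e1, e2] with y g1 g2 hy
  have g3 := hδ2 (y 2) hy g2
  have g4 := mul_le_mul_of_nonneg_left (BB_sg_le ha.q1pos (y 1)) hr.le
  rw [hfun_eq a hw]
  simp only [hGd] at g1 g3
  rw [mul_add, mul_add]
  rw [mul_add] at g1
  linarith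

theorem Dh_zero_of {b : Atom} {z : C3} (h : z 1 ≠ 0 → z 2 ≠ 0 → hfun b z ≤ 0) : Dh b z = 0 := by
  unfold Dh
  split_ifs with h1
  · rfl
  · push Not at h1
    apply max_eq_left
    have := h h1.1 h1.2
    have h2 := le_max_right (xi z) 0
    linarith

theorem Dh_cont {c : ℝ} {b : Atom} (hb : Atom.Reg c b) : Continuous (Dh b) := by
  rw [continuous_iff_continuousAt]
  intro z
  by_cases h1 : z 1 = 0
  · have e : Dh b =ᶠ[𝓝 z] fun _ => 0 := by
      filter_upwards [hfun_axis1 hb z h1] with y hy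
      exact Dh_zero_of fun h _ => hy h
    exact (continuousAt_congr e).2 continuousAt_const
  · by_cases h2 : z 2 = 0
    · have e : Dh b =ᶠ[𝓝 z] fun _ => 0 := by
        filter_upwards [hfun_axis2 hb z h2] with y hy
        exact Dh_zero_of fun _ h => hy h
      exact (continuousAt_congr e).2 continuousAt_const
    · have o1 : ∀ᶠ y : C3 in 𝓝 z, y 1 ≠ 0 :=
        ((continuous_apply 1).tendsto z).eventually_ne h1
      have o2 : ∀ᶠ y : C3 in 𝓝 z, y 2 ≠ 0 :=
        ((continuous_apply 2).tendsto z).eventually_ne h2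
      have e : Dh b =ᶠ[𝓝 z] fun y => max 0 (hfun b y - max (xi y) 0) := by
        filter_upwards [o1, o2] with y h3 h4
        unfold Dh
        rw [if_neg (by push Not; exact ⟨h3, h4⟩)]
      refine (continuousAt_congr e).2 ?_
      exact continuousAt_const.max ((hfun_contAt hb.hw h1 h2).sub
        (xi_cont.continuousAt.max continuousAt_const))

/-- finite maxima -/
theorem exists_max {c : ℝ} {s : Set Atom} (hs : s.Finite) (hr : ∀ b ∈ s, Atom.Reg c b) :
    ∃ F : C3 → ℝ, Continuous F ∧ (∀ z, 0 ≤ F z) ∧ (∀ b ∈ s, ∀ z, Dh b z ≤ F z) ∧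
      ∀ z, F z = 0 ∨ ∃ b ∈ s, F z = Dh b z := by
  induction s, hs using Set.Finite.induction_on with
  | empty =>
    exact ⟨fun _ => 0, continuous_const, fun _ => le_rfl, fun b hb => absurd hb (notMem_empty b),
      fun _ => Or.inl rfl⟩
  | @insert b t _ _ ih =>
    obtain ⟨F, h1, h2, h3, h4⟩ := ih fun b hb => hr b (mem_insert_of_mem _ hb)
    refine ⟨fun z => max (F z) (Dh b z), h1.max (Dh_cont (hr b (mem_insert _ _))),
      fun z => (h2 z).trans (le_max_left _ _), ?_, ?_⟩
    · intro b' hb' z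
      rcases mem_insert_iff.1 hb' with h | h
      · subst h
        exact le_max_right _ _
      · exact (h3 b' h z).trans (le_max_left _ _)
    · intro z
      rcases le_total (F z) (Dh b z) with h | h
      · right
        exact ⟨b, mem_insert _ _, max_eq_right h⟩
      · rcases h4 z with h5 | ⟨b', hb', h5⟩
        · left
          show max (F z) (Dh b z) = 0
          rw [max_eq_left h, h5]
        · right
          refine ⟨b', mem_insert_of_mem _ hb', ?_⟩
          show max (F z) (Dh b z) = Dh b' z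
          rw [max_eq_left h, h5]

section blocks2

variable {blk : ℕ → Set Atom} {c : ℕ → ℝ} {R : ℕ → ℕ} {w L S : ℕ → ℝ}
  (hB : Blocks blk c R w L S)
include hB

/-- the excess of the atoms of block `k` is small -/
theorem Dh_le {k : ℕ} {b : Atom} (hb : b ∈ blk k) (z : C3) :
    Dh b z ≤ 2 * c k + (‖z 1‖ + ‖z 2‖) / S k := by
  have hib := hB.inb k b hb
  have hr := hib.reg.rpos
  have hc := hB.c_pos k
  have hS := hB.S_ge k
  have hSp : 0 < S k := by linarith
  have hn : 0 ≤ 2 * c k + (‖z 1‖ + ‖z 2‖) / S k := by positivity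
  unfold Dh
  split_ifs
  · exact hn
  · refine max_le hn ?_
    have h1 := hfun_le hib.reg z
    have h2 := hib.post_le (xi z)
    have h3 := hB.R_le k
    have hr1 : b.r ≤ 1 := by
      have := hib.r_le
      have := hB.w_le k
      linarith
    obtain ⟨s1, s2⟩ := hB.S_le k b hb
    have hm : ∀ q : ℝ, S k ≤ q → ∀ y : ℂ, max (sg q y - 1) 0 / 8 ≤ ‖y‖ / S k := by
      intro q hq y
      have hq0 : 0 < q := by linarith
      rw [max_sg hq0]
      have e1 : max (Real.log ‖y‖) 0 / q ≤ ‖y‖ / S k := by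
        have := log_le_norm y
        have h0 := norm_nonneg y
        rw [div_le_div_iff₀ hq0 hSp]
        nlinarith [le_max_right (Real.log ‖y‖) 0]
      have e2 : 0 ≤ ‖y‖ / S k := by positivity
      linarith
    have h4 := hm b.q1 s1 (z 1)
    have h5 := hm b.q2 s2 (z 2)
    have h6 : b.r * (max (sg b.q1 (z 1) - 1) 0 / 8 + max (sg b.q2 (z 2) - 1) 0 / 8) ≤
        1 * (‖z 1‖ / S k + ‖z 2‖ / S k) := by
      apply mul_le_mul hr1 (by linarith) _ (by norm_num)
      have := le_max_right (sg b.q1 (z 1) - 1) 0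
      have := le_max_right (sg b.q2 (z 2) - 1) 0
      positivity
    rw [one_mul] at h6
    have h7 : (‖z 1‖ + ‖z 2‖) / S k = ‖z 1‖ / S k + ‖z 2‖ / S k := add_div _ _ _
    rw [h7]
    linarith

end blocks2

/-- the minorant of an atom at a point -/
theorem hfun_minor {c : ℝ} {b : Atom} (hb : Atom.Reg c b) (z : C3) :
    ∃ α β γ δ : ℝ, 0 < β ∧ 0 < γ ∧ hfun b z = AL α β γ δ z ∧
      ∀ y : C3, AL α β γ δ y ≤ hfun b y := by
  have hw := hb.hw
  have hr := hb.rpos
  have hq1 := hb.q1pos
  have hq2 := hb.q2pos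
  have hl := lam_pos
  set A1 : ℝ := 2 * Qd (1 / 16) ((xi z - b.x) / b.w) - 1 with hA1
  set s1 : ℝ := B1 (sg b.q1 (z 1)) with hs1
  set s2 : ℝ := B1 (sg b.q2 (z 2)) with hs2
  have p1 : 0 < s1 := by have := B1_ge (sg b.q1 (z 1)); linarith
  have p2 : 0 < s2 := by have := B1_ge (sg b.q2 (z 2)); linarith
  -- the difference of the minorant
  have key : ∀ y : C3, (b.k / lam + b.r * A1 / (2 * b.w * lam)) * (y 0).re +
      b.r * s1 / b.q1 * Real.log ‖y 1‖ + b.r * s2 / b.q2 * Real.log ‖y 2‖ +
      (hfun b z - ((b.k / lam + b.r * A1 / (2 * b.w * lam)) * (z 0).re +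
      b.r * s1 / b.q1 * Real.log ‖z 1‖ + b.r * s2 / b.q2 * Real.log ‖z 2‖)) =
      b.val + b.k * (xi y - b.x) + b.r * ((Ad (1 / 16) ((xi z - b.x) / b.w) +
        A1 * ((xi y - b.x) / b.w - (xi z - b.x) / b.w)) / 2 +
        (BB (sg b.q1 (z 1)) + s1 * (sg b.q1 (y 1) - sg b.q1 (z 1))) +
        (BB (sg b.q2 (z 2)) + s2 * (sg b.q2 (y 2) - sg b.q2 (z 2)))) := by
    intro y
    rw [hfun_eq b hw z]
    unfold xi sg
    field_simp
    ring
  refine ⟨b.k / lam + b.r * A1 / (2 * b.w * lam), b.r * s1 / b.q1, b.r * s2 / b.q2,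
    hfun b z - ((b.k / lam + b.r * A1 / (2 * b.w * lam)) * (z 0).re +
      b.r * s1 / b.q1 * Real.log ‖z 1‖ + b.r * s2 / b.q2 * Real.log ‖z 2‖),
    by positivity, by positivity, ?_, ?_⟩
  · unfold AL
    ring
  · intro y
    unfold AL
    rw [key y, hfun_eq b hw y]
    have t0 := Ad_tangent ((xi z - b.x) / b.w) ((xi y - b.x) / b.w)
    have t1 := BB_tangent (sg b.q1 (z 1)) (sg b.q1 (y 1))
    have t2 := BB_tangent (sg b.q2 (z 2)) (sg b.q2 (y 2))
    have := mul_le_mul_of_nonneg_left (show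
      (Ad (1 / 16) ((xi z - b.x) / b.w) +
        A1 * ((xi y - b.x) / b.w - (xi z - b.x) / b.w)) / 2 +
        (BB (sg b.q1 (z 1)) + s1 * (sg b.q1 (y 1) - sg b.q1 (z 1))) +
        (BB (sg b.q2 (z 2)) + s2 * (sg b.q2 (y 2) - sg b.q2 (z 2))) ≤
      Ad (1 / 16) ((xi y - b.x) / b.w) / 2 + BB (sg b.q1 (y 1)) + BB (sg b.q2 (y 2)) by
        linarith) hr.le
    linarith

/-- maxima of the first functions -/
def PM (E : ℕ → C3 → ℝ) : ℕ → C3 → ℝ
  | 0 => fun _ => 0
  | n + 1 => fun z => max (PM E n z) (E n z)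

theorem PM_cont {E : ℕ → C3 → ℝ} (h : ∀ k, Continuous (E k)) (n : ℕ) : Continuous (PM E n) := by
  induction n with
  | zero => exact continuous_const
  | succ n ih => exact ih.max (h n)

theorem PM_nonneg (E : ℕ → C3 → ℝ) (n : ℕ) (z : C3) : 0 ≤ PM E n z := by
  induction n with
  | zero => exact le_rfl
  | succ n ih => exact ih.trans (le_max_left _ _)

theorem le_PM (E : ℕ → C3 → ℝ) {k n : ℕ} (h : k < n) (z : C3) : E k z ≤ PM E n z := by
  induction n with
  | zero => omega
  | succ n ih =>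
    rcases Nat.lt_succ_iff_lt_or_eq.1 h with h | h
    · exact (ih h).trans (le_max_left _ _)
    · rw [h]
      exact le_max_right _ _

theorem PM_le (E : ℕ → C3 → ℝ) (n : ℕ) (z : C3) {t : ℝ} (h0 : 0 ≤ t) (h : ∀ k, E k z ≤ t) :
    PM E n z ≤ t := by
  induction n with
  | zero => exact h0
  | succ n ih => exact max_le ih (h n)

end VV

open VV in
/-- **Row VV** -/
theorem vv : VV_stmt := by
  intro blk c R w L S hB
  have hex := fun k => exists_max (hB.fin k) fun b hb => (hB.inb k b hb).reg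
  choose E hE1 hE2 hE3 hE4 using hex
  -- bound
  have hEle : ∀ k z, E k z ≤ 2 * c k + (‖z 1‖ + ‖z 2‖) / S k := by
    intro k z
    have hc := hB.c_pos k
    have hS : 0 < S k := by have := hB.S_ge k; linarith
    rcases hE4 k z with h | ⟨b, hb, h⟩
    · rw [h]
      positivity
    · rw [h]
      exact Dh_le hB hb z
  have hEb : ∀ z k, E k z ≤ 2 + (‖z 1‖ + ‖z 2‖) := by
    intro z k
    have h1 := hEle k z
    have h2 := hB.c_le k
    have hS := hB.S_ge k
    have h3 : (‖z 1‖ + ‖z 2‖) / S k ≤ ‖z 1‖ + ‖z 2‖ := div_le_self (by positivity) (by linarith)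
    linarith
  have hbdd : ∀ z, BddAbove (range fun k => E k z) := fun z =>
    ⟨2 + (‖z 1‖ + ‖z 2‖), by rintro _ ⟨k, rfl⟩; exact hEb z k⟩
  set F : C3 → ℝ := fun z => ⨆ k, E k z with hF
  have hF0 : ∀ z, 0 ≤ F z := fun z => (hE2 0 z).trans (le_ciSup (hbdd z) 0)
  have hEF : ∀ k z, E k z ≤ F z := fun k z => le_ciSup (hbdd z) k
  -- locally uniform limit
  have hcont : Continuous F := by
    apply continuous_of_locally_uniform_approx_of_continuousAt
    intro z u hu
    obtain ⟨ε, hε, hεu⟩ := Metric.mem_uniformity_dist.1 hu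
    obtain ⟨N1, hN1⟩ : ∃ N : ℕ, ∀ k ≥ N, c k < ε / 8 :=
      (Filter.eventually_atTop.1 (hB.c_lim.eventually_lt_const (by positivity)))
    obtain ⟨N2, hN2⟩ := exists_nat_gt ((2 * (‖z‖ + 1)) / (ε / 4))
    refine ⟨Metric.ball z 1, Metric.ball_mem_nhds z one_pos, PM E (max N1 (N2 + 1)),
      (PM_cont hE1 _).continuousAt, fun y hy => hεu ?_⟩
    have hlow : PM E (max N1 (N2 + 1)) y ≤ F y := PM_le E _ y (hF0 y) fun k => hEF k y
    have hup : F y ≤ max (PM E (max N1 (N2 + 1)) y) (ε / 2) := by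
      apply ciSup_le
      intro k
      by_cases hk : k < max N1 (N2 + 1)
      · exact (le_PM E hk y).trans (le_max_left _ _)
      · refine le_trans ?_ (le_max_right _ _)
        push Not at hk
        have k1 := hN1 k ((le_max_left _ _).trans hk)
        have k2 : N2 + 1 ≤ k := (le_max_right _ _).trans hk
        have k3 : (N2 : ℝ) + 1 ≤ k := by exact_mod_cast k2
        have k4 := hB.S_grow k
        have k5 := hEle k y
        have hyn : ‖y‖ ≤ ‖z‖ + 1 := by
          have := norm_sub_norm_le y z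
          have h2 := (mem_ball_iff_norm.1 hy).le
          linarith
        have y1 : ‖y 1‖ ≤ ‖z‖ + 1 := (norm_le_pi_norm y 1).trans hyn
        have y2 : ‖y 2‖ ≤ ‖z‖ + 1 := (norm_le_pi_norm y 2).trans hyn
        have hSp : 0 < S k := by
          have : (0 : ℝ) ≤ N2 := Nat.cast_nonneg _
          linarith
        have k6 : (‖y 1‖ + ‖y 2‖) / S k ≤ ε / 4 := by
          rw [div_le_iff₀ hSp]
          rw [div_lt_iff₀ (by positivity)] at hN2
          have : (N2 : ℝ) * (ε / 4) ≤ ε / 4 * S k := by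
            rw [mul_comm]
            apply mul_le_mul_of_nonneg_left _ (by positivity)
            linarith
          linarith
        linarith
    rw [Real.dist_eq, abs_lt]
    rcases le_total (PM E (max N1 (N2 + 1)) y) (ε / 2) with h | h
    · rw [max_eq_right h] at hup
      have := PM_nonneg E (max N1 (N2 + 1)) y
      constructor <;> linarith
    · rw [max_eq_left h] at hup
      constructor <;> linarith
  have hvc : Continuous fun z => max (xi z) 0 + F z :=
    (xi_cont.max continuous_const).add hcont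
  refine ⟨fun z => max (xi z) 0 + F z, hvc, ?_, ?_⟩
  · apply psh_of_support hvc
    intro z ε hε
    have hl := lam_pos
    by_cases hFz : F z ≤ ε
    · rcases le_total 0 (xi z) with h0 | h0
      · refine ⟨1 / lam, 0, 0, 0, le_rfl, le_rfl, Or.inl rfl, Or.inl rfl, ?_, ?_⟩
        · unfold AL
          rw [max_eq_left h0]
          have : xi z = 1 / lam * (z 0).re := by unfold xi; ring
          linarith
        · intro y _ _
          unfold AL
          have : xi y = 1 / lam * (y 0).re := by unfold xi; ring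
          have h1 := le_max_left (xi y) 0
          have h2 := hF0 y
          linarith
      · refine ⟨0, 0, 0, 0, le_rfl, le_rfl, Or.inl rfl, Or.inl rfl, ?_, ?_⟩
        · unfold AL
          rw [max_eq_right h0]
          linarith
        · intro y _ _
          unfold AL
          have h1 := le_max_right (xi y) 0
          have h2 := hF0 y
          linarith
    · push Not at hFz
      obtain ⟨k, hk⟩ := exists_lt_of_lt_ciSup (show F z - ε < ⨆ k, E k z by
        show F z - ε < F z
        linarith)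
      have hpos : 0 < E k z := by linarith
      rcases hE4 k z with h | ⟨b, hb, h⟩
      · rw [h] at hpos
        exact absurd hpos (lt_irrefl _)
      · have hreg := (hB.inb k b hb).reg
        have hD : 0 < Dh b z := by rw [← h]; exact hpos
        have hz : z 1 ≠ 0 ∧ z 2 ≠ 0 := by
          by_contra hcon
          have : Dh b z = 0 := by
            unfold Dh
            rw [if_pos (by tauto)]
          linarith
        have hDe : Dh b z = hfun b z - max (xi z) 0 := by
          unfold Dh at hD ⊢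
          rw [if_neg (by push Not; exact hz)] at hD ⊢
          apply max_eq_right
          by_contra hcon
          push Not at hcon
          rw [max_eq_left hcon.le] at hD
          exact lt_irrefl _ hD
        obtain ⟨α, β, γ, δ, hβ, hγ, e1, e2⟩ := hfun_minor hreg z
        refine ⟨α, β, γ, δ, hβ.le, hγ.le, Or.inr hz.1, Or.inr hz.2, ?_, ?_⟩
        · rw [← e1]
          show max (xi z) 0 + F z ≤ hfun b z + ε
          linarith
        · intro y y1 y2
          have y1' : y 1 ≠ 0 := y1.resolve_left hβ.ne'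
          have y2' : y 2 ≠ 0 := y2.resolve_left hγ.ne'
          have h3 : Dh b y ≤ F y := (hE3 k b hb y).trans (hEF k y)
          have h4 : hfun b y - max (xi y) 0 ≤ Dh b y := by
            unfold Dh
            rw [if_neg (by push Not; exact ⟨y1', y2'⟩)]
            exact le_max_right _ _
          have := e2 y
          show AL α β γ δ y ≤ max (xi y) 0 + F y
          linarith
  · intro k a ha z hz
    have hreg := (hB.inb k a ha).reg
    obtain ⟨g1, g2⟩ := log_neg hB ha hz
    have z1 : z 1 ≠ 0 := by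
      intro h
      rw [h, norm_zero, Real.log_zero] at g1
      have := hreg.q1pos
      linarith
    have z2 : z 2 ≠ 0 := by
      intro h
      rw [h, norm_zero, Real.log_zero] at g2
      have := hreg.q2pos
      linarith
    have hbase := (base_le hB ha (xi z)).trans (le_hfun hreg hz)
    have hDa : Dh a z = hfun a z - max (xi z) 0 := by
      unfold Dh
      rw [if_neg (by push Not; exact ⟨z1, z2⟩)]
      apply max_eq_right
      linarith
    show max (xi z) 0 + F z = hfun a z
    apply le_antisymm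
    · have : F z ≤ hfun a z - max (xi z) 0 := by
        apply ciSup_le
        intro l
        rcases hE4 l z with h | ⟨b, hb, h⟩
        · rw [h]
          linarith
        · rw [h]
          by_cases hab : a = b
          · rw [← hab, hDa]
          · have h5 := hfun_le_hfun hB ha hb hab hz
            unfold Dh
            rw [if_neg (by push Not; exact ⟨z1, z2⟩)]
            exact max_le (by linarith) (by linarith)
      linarith
    · have h1 : Dh a z ≤ F z := (hE3 k a ha z).trans (hEF k z)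
      linarith

end

end KOL
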