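import Pool.Agent.KOL.MU
import Pool.Agent.KOL.VV
import Pool.Agent.KOL.Exi
import Pool.Agent.KOL.Loc

/-!
# Project KOL, row MU: final form
-/

set_option autoImplicit false

namespace KOL

open MeasureTheory Set

theorem Mu.exi : Mu.EXI_stmt := by
  intro u hu hc
  obtain ⟨ν, -, hν⟩ := exists_isMA hu (locBdd_of_continuous hc)
  exact ⟨ν, hν⟩

theorem Mu.loc : Mu.LOC_stmt := by
  intro u ν hc h V hV H hH hVH _ s hs hsV
  have hu : LocB univ u := locB_univ hc.measurable (locBdd_of_continuous hc)
  exact (h.loc MeasurableSet.univ hu hV (subset_univ V) hH.contDiffOn hVH hs hsV).ge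

/-- **Row MU**: the measure exists -/
theorem mu_stmt : MU_stmt := Mu.mu_of vv Mu.exi Mu.loc

end KOL
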