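import Pool.Agent.KOL.Exi

/-!
# Uniqueness of the Bedford-Taylor products on `ℂ³`
-/

set_option autoImplicit false

namespace KOL

open MeasureTheory Matrix Set
open scoped ContDiff ComplexOrder

theorem FinOn.locFin {m : Measure C3} (h : FinOn univ m) : IsLocallyFiniteMeasure m :=
  ⟨fun x => ⟨Metric.closedBall x 1, Metric.closedBall_mem_nhds x one_pos,
    h _ (isCompact_closedBall x 1) (subset_univ _)⟩⟩

/-- two locally finite measures with the same integrals of test functions are equal -/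
theorem measure_ext_of_test {ν ν' : Measure C3} (hν : IsLocallyFiniteMeasure ν) (hν' : IsLocallyFiniteMeasure ν')
    (h : ∀ χ, Test univ χ → ∫ z, χ z ∂ν = ∫ z, χ z ∂ν') : ν = ν' := by
  have hsum := locFin_add ν ν'
  obtain ⟨a, ha, ha0, ha1, haf⟩ := exists_density (Measure.le_add_right le_rfl : ν ≤ ν + ν')
  obtain ⟨b, hb, hb0, hb1, hbf⟩ := exists_density (Measure.le_add_left le_rfl : ν' ≤ ν + ν')
  have hab : ∀ᵐ z ∂(ν + ν'), a z - b z = 0 := by
    refine ae_eq_zero_of_test (ha.sub hb) (C := 1) (fun z => ?_) fun f hf => ?_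
    · rw [abs_le]
      constructor
      · linarith [ha0 z, hb1 z]
      · linarith [ha1 z, hb0 z]
    · have i1 := hf.integrable_mul (ν + ν') ha (C := 1) fun z => by rw [abs_of_nonneg (ha0 z)]; exact ha1 z
      have i2 := hf.integrable_mul (ν + ν') hb (C := 1) fun z => by rw [abs_of_nonneg (hb0 z)]; exact hb1 z
      simp only [mul_sub]
      rw [integral_sub i1 i2, ← haf f, ← hbf f, h f hf, sub_self]
  have key : ∀ f : C3 → ℝ, ∫ z, f z ∂ν = ∫ z, f z ∂ν' := by
    intro f
    rw [haf f, hbf f]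
    refine integral_congr_ae ?_
    filter_upwards [hab] with z hz
    rw [sub_eq_zero.1 hz]
  have hK : ∀ (s : Set C3), MeasurableSet s → ∀ n : ℕ,
      ν (s ∩ Metric.closedBall 0 n) = ν' (s ∩ Metric.closedBall 0 n) := by
    intro s hs n
    have hm : MeasurableSet (s ∩ Metric.closedBall (0 : C3) n) := hs.inter measurableSet_closedBall
    have h1 := key ((s ∩ Metric.closedBall 0 n).indicator 1)
    rw [integral_indicator_one hm, integral_indicator_one hm] at h1
    have f1 : ν (s ∩ Metric.closedBall 0 n) ≠ ⊤ :=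
      ((measure_mono inter_subset_right).trans_lt (isCompact_closedBall (0 : C3) n).measure_lt_top).ne
    have f2 : ν' (s ∩ Metric.closedBall 0 n) ≠ ⊤ :=
      ((measure_mono inter_subset_right).trans_lt (isCompact_closedBall (0 : C3) n).measure_lt_top).ne
    exact (ENNReal.toReal_eq_toReal_iff' f1 f2).1 h1
  refine Measure.ext fun s hs => ?_
  have hU : s = ⋃ n : ℕ, s ∩ Metric.closedBall 0 n := by
    rw [← inter_iUnion, Metric.iUnion_closedBall_nat, inter_univ]
  have hmono : Monotone fun n : ℕ => s ∩ Metric.closedBall (0 : C3) n := fun i j hij =>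
    inter_subset_inter_right _ (Metric.closedBall_subset_closedBall (by exact_mod_cast hij))
  rw [hU, hmono.measure_iUnion, hmono.measure_iUnion]
  simp only [hK s hs]

section
variable {Θ Θ' : C3 → Mat} {m m' : Measure C3}

/-- equal positive matrix valued measures have equal integrals -/
theorem transfer (hp : IsPos univ Θ m) (hp' : IsPos univ Θ' m')
    (h : ∀ χ, Test univ χ → ∀ A : Mat, A.IsHermitian →
      ∫ z, χ z * (A * Θ z).trace.re ∂m = ∫ z, χ z * (A * Θ' z).trace.re ∂m')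
    (φ : C3 → Mat → ℝ) (hφ : ∀ z (c : ℝ) T, φ z (c • T) = c * φ z T) :
    ∫ z, φ z (Θ z) ∂m = ∫ z, φ z (Θ' z) ∂m' := by
  have hm := hp.fin.locFin
  have hm' := hp'.fin.locFin
  have hsum := locFin_add m m'
  obtain ⟨a, ha, ha0, ha1, haf⟩ := exists_density (Measure.le_add_right le_rfl : m ≤ m + m')
  obtain ⟨b, hbm, hb0, hb1, hbf⟩ := exists_density (Measure.le_add_left le_rfl : m' ≤ m + m')
  -- the entries of the two densities agree almost everywhere
  have hbd : ∀ {Ψ : C3 → Mat} {μ : Measure C3}, IsPos univ Ψ μ → ∀ i : Fin 3 × Fin 3 × Bool,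
      Measurable (fun z => (hb i * Ψ z).trace.re) ∧ ∀ z, |(hb i * Ψ z).trace.re| ≤ 2 := by
    intro Ψ μ hΨ i
    obtain ⟨j, k, c⟩ := i
    cases c
    · simp only [trace_hb_false (hΨ.pos _).1]
      refine ⟨(Complex.measurable_im.comp (hΨ.meas j k)).const_mul 2, fun z => ?_⟩
      rw [abs_mul, abs_of_pos (by norm_num : (0 : ℝ) < 2)]
      have := (Complex.abs_im_le_norm (Ψ z j k)).trans (hΨ.bdd z j k)
      linarith
    · simp only [trace_hb_true (hΨ.pos _).1]
      refine ⟨(Complex.measurable_re.comp (hΨ.meas j k)).const_mul 2, fun z => ?_⟩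
      rw [abs_mul, abs_of_pos (by norm_num : (0 : ℝ) < 2)]
      have := (Complex.abs_re_le_norm (Ψ z j k)).trans (hΨ.bdd z j k)
      linarith
  have hae : ∀ i : Fin 3 × Fin 3 × Bool,
      ∀ᵐ z ∂(m + m'), (hb i * Θ z).trace.re * a z - (hb i * Θ' z).trace.re * b z = 0 := by
    intro i
    obtain ⟨g1, g2⟩ := hbd hp i
    obtain ⟨g1', g2'⟩ := hbd hp' i
    have c1 : ∀ z, |(hb i * Θ z).trace.re * a z| ≤ 2 := fun z => by
      rw [abs_mul, abs_of_nonneg (ha0 z)]
      nlinarith [g2 z, ha0 z, ha1 z, abs_nonneg (hb i * Θ z).trace.re]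
    have c2 : ∀ z, |(hb i * Θ' z).trace.re * b z| ≤ 2 := fun z => by
      rw [abs_mul, abs_of_nonneg (hb0 z)]
      nlinarith [g2' z, hb0 z, hb1 z, abs_nonneg (hb i * Θ' z).trace.re]
    refine ae_eq_zero_of_test ((g1.mul ha).sub (g1'.mul hbm)) (C := 4) (fun z => ?_) fun f hf => ?_
    · exact (abs_sub _ _).trans (by linarith [c1 z, c2 z])
    · have i1 : Integrable (fun z => f z * ((hb i * Θ z).trace.re * a z)) (m + m') :=
        hf.integrable_mul (m + m') (g1.mul ha) c1
      have i2 : Integrable (fun z => f z * ((hb i * Θ' z).trace.re * b z)) (m + m') :=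
        hf.integrable_mul (m + m') (g1'.mul hbm) c2
      have e1 := haf fun z => f z * (hb i * Θ z).trace.re
      have e2 := hbf fun z => f z * (hb i * Θ' z).trace.re
      have e3 := h f hf (hb i) (hb_isHermitian i)
      simp only [mul_sub]
      rw [integral_sub i1 i2]
      simp only [← mul_assoc]
      rw [← e1, ← e2, e3, sub_self]
  have hall : ∀ᵐ z ∂(m + m'), a z • Θ z = b z • Θ' z := by
    filter_upwards [ae_all_iff.2 hae] with z hz
    ext j k
    have h1 := hz (j, k, true)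
    have h2 := hz (j, k, false)
    rw [trace_hb_true (hp.pos z).1, trace_hb_true (hp'.pos z).1] at h1
    rw [trace_hb_false (hp.pos z).1, trace_hb_false (hp'.pos z).1] at h2
    apply Complex.ext
    · simp only [Matrix.smul_apply, Complex.smul_re, smul_eq_mul]
      linarith
    · simp only [Matrix.smul_apply, Complex.smul_im, smul_eq_mul]
      linarith
  rw [haf, hbf]
  refine integral_congr_ae ?_
  filter_upwards [hall] with z hz
  have h1 := hφ z (a z) (Θ z)
  have h2 := hφ z (b z) (Θ' z)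
  rw [hz] at h1
  linarith

end

section
variable {u : C3 → ℝ} {Θ₁ Θ₂ Θ₁' Θ₂' : C3 → Mat} {m₁ m₂ m₁' m₂' ν ν' : Measure C3}

theorem trace_of_entries {Θ : C3 → Mat} {m : Measure C3} (hp : IsPos univ Θ m) {χ : C3 → ℝ} (hχ : Test univ χ)
    (A : Mat) : ∫ z, χ z * (A * Θ z).trace.re ∂m = (∑ j, ∑ k, A j k * ∫ z, (χ z : ℂ) * Θ z k j ∂m).re := by
  have i1 : ∀ j k, Integrable (fun z => A j k * ((χ z : ℂ) * Θ z k j)) m := fun j k =>
    ((hχ.c.tb.mul (hp.locC MeasurableSet.univ k j)).integrable hp.fin).const_mul _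
  have i2 : ∀ j, Integrable (fun z => ∑ k, A j k * ((χ z : ℂ) * Θ z k j)) m := fun j =>
    integrable_finsetSum _ fun k _ => i1 j k
  have i3 : Integrable (fun z => ∑ j, ∑ k, A j k * ((χ z : ℂ) * Θ z k j)) m :=
    integrable_finsetSum _ fun j _ => i2 j
  have e : ∀ z, χ z * (A * Θ z).trace.re = (∑ j, ∑ k, A j k * ((χ z : ℂ) * Θ z k j)).re := by
    intro z
    rw [← Complex.re_ofReal_mul, trace_eq_sum, Finset.mul_sum]
    congr 1
    refine Finset.sum_congr rfl fun j _ => ?_
    rw [Finset.mul_sum]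
    refine Finset.sum_congr rfl fun k _ => ?_
    ring
  simp_rw [e]
  have h4 : ∫ z, (∑ j, ∑ k, A j k * ((χ z : ℂ) * Θ z k j)).re ∂m =
      (∫ z, ∑ j, ∑ k, A j k * ((χ z : ℂ) * Θ z k j) ∂m).re := integral_re i3
  rw [h4, integral_finsetSum _ fun j _ => i2 j]
  congr 1
  refine Finset.sum_congr rfl fun j _ => ?_
  rw [integral_finsetSum _ fun k _ => i1 j k]
  exact Finset.sum_congr rfl fun k _ => integral_const_mul _ _

/-- the Bedford-Taylor measure is unique -/
theorem Chain.unique (h : Chain univ u Θ₁ m₁ Θ₂ m₂ ν) (h' : Chain univ u Θ₁' m₁' Θ₂' m₂' ν') : ν = ν' := by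
  have t1 : ∀ χ, Test univ χ → ∀ A : Mat, A.IsHermitian →
      ∫ z, χ z * (A * Θ₁ z).trace.re ∂m₁ = ∫ z, χ z * (A * Θ₁' z).trace.re ∂m₁' := by
    intro χ hχ A _
    rw [trace_of_entries h.pos₁ hχ, trace_of_entries h'.pos₁ hχ]
    simp only [h.eq₁ χ hχ, h'.eq₁ χ hχ]
  have t2 : ∀ χ, Test univ χ → ∀ A : Mat, A.IsHermitian →
      ∫ z, χ z * (A * Θ₂ z).trace.re ∂m₂ = ∫ z, χ z * (A * Θ₂' z).trace.re ∂m₂' := by
    intro χ hχ A hA
    have e1 := h.eq₂ χ hχ A hA
    have e2 := h'.eq₂ χ hχ A hA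
    have e3 := transfer h.pos₁ h'.pos₁ t1 (fun z T => u z * (D A (Hess χ z) T).re) fun z c T => by
      rw [real_smul_mat, D_smul_right, Complex.re_ofReal_mul]
      ring
    have e4 : ∀ {Θ : C3 → Mat} {m : Measure C3}, ∫ z, χ z * ((A * Θ z).trace.re / 3) ∂m =
        (1 / 3) * ∫ z, χ z * (A * Θ z).trace.re ∂m := by
      intro Θ m
      rw [← integral_const_mul]; congr 1; ext z; ring
    rw [e4] at e1 e2
    linarith
  refine measure_ext_of_test h.fin.locFin h'.fin.locFin fun χ hχ => ?_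
  have e1 := h.eq₃ χ hχ
  have e2 := h'.eq₃ χ hχ
  have e3 := transfer h.pos₂ h'.pos₂ t2 (fun z T => u z * ((Hess χ z * T).trace.re / 3)) fun z c T => by
    rw [Matrix.mul_smul, Matrix.trace_smul, Complex.smul_re, smul_eq_mul]
    ring
  rw [e1, e2]
  exact e3

theorem IsMA.unique (h : IsMA univ u ν) (h' : IsMA univ u ν') : ν = ν' := by
  obtain ⟨Θ₁, m₁, Θ₂, m₂, h⟩ := h
  obtain ⟨Θ₁', m₁', Θ₂', m₂', h'⟩ := h'
  exact h.unique h'

/-- every locally bounded plurisubharmonic function on `ℂ³` has exactly one Monge-Ampère measure -/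
theorem existsUnique_isMA (hu : Psh univ u) (hb : Mol.LocBdd u) : ∃! ν : Measure C3, IsMA univ u ν := by
  obtain ⟨ν, -, h⟩ := exists_isMA hu hb
  exact ⟨ν, h, fun ν' h' => h'.unique h⟩

end

end KOL
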