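import Pool.Agent.KOL.BarCmp
import Pool.Agent.KOL.MuF
import Pool.Agent.KOL.Uniq
import Pool.Agent.KOL.Fin

/-!
# Project KOL: the closed theorem
-/

set_option autoImplicit false

open MeasureTheory

namespace KOL

/-- the counterexample, without hypotheses -/
theorem counterexample : ∃ μ : Measure C3, TorusProb μ ∧ LocDom μ ∧
    ∀ φ : C3 → ℝ, OmegaPsh φ → ¬ IsMA Set.univ (fun z => φ z + sq z) μ :=
  final bar_stmt mu_stmt

/-- every bounded `ω`-plurisubharmonic function has exactly one Monge-Ampère measure -/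
theorem omega_unique {φ : C3 → ℝ} (hφ : OmegaPsh φ) :
    ∃! ν : Measure C3, IsMA Set.univ (fun z => φ z + sq z) ν :=
  existsUnique_isMA hφ.psh (Max.locBdd_sq hφ.bdd)

end KOL
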