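import Pool.Agent.KOL.CmpTools

/-!
# Project KOL: the identities of the comparison lemma
-/

set_option autoImplicit false

open MeasureTheory Filter Topology Matrix
open scoped ContDiff ComplexConjugate ComplexOrder

namespace KOL.Cmp

section ptw

variable {F G : C3 → ℂ} {B C : C3 → Mat}

theorem sum_HessC_D (hG : Sm G) (hB : Cl B) (hC : Cl C) (z : C3) :
    ∑ p, ∑ q, HessC (fun w => G w * D (E p q) (B w) (C w)) z p q = D (HessC G z) (B z) (C z) := by
  have hS : ∀ p q, Sm fun w => D (E p q) (B w) (C w) := fun p q => sm_D _ hB.sm hC.sm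
  have h1 : ∀ p w, ∑ q, dzb q (fun w => G w * D (E p q) (B w) (C w)) w =
      ∑ q, dzb q G w * D (E p q) (B w) (C w) := by
    intro p w
    have e : ∀ q, dzb q (fun w => G w * D (E p q) (B w) (C w)) w =
        dzb q G w * D (E p q) (B w) (C w) + G w * dzb q (fun w => D (E p q) (B w) (C w)) w :=
      fun q => by rw [dzb_mul hG (hS p q)]
    simp_rw [e]
    rw [Finset.sum_add_distrib, ← Finset.mul_sum, div_col hB hC, mul_zero, add_zero]
  have h2 : ∀ p, ∑ q, HessC (fun w => G w * D (E p q) (B w) (C w)) z p q =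
      dz p (fun w => ∑ q, dzb q G w * D (E p q) (B w) (C w)) z := by
    intro p
    have e : (fun w => ∑ q, dzb q G w * D (E p q) (B w) (C w)) =
        fun w => ∑ q, dzb q (fun w => G w * D (E p q) (B w) (C w)) w := by
      funext w
      exact (h1 p w).symm
    rw [e, dz_sum _ fun q => Sm.dzb (hG.mul (hS p q)) q]
    rfl
  have h3 : ∀ p, dz p (fun w => ∑ q, dzb q G w * D (E p q) (B w) (C w)) z =
      ∑ q, (HessC G z p q * D (E p q) (B z) (C z) +
        dzb q G z * dz p (fun w => D (E p q) (B w) (C w)) z) := by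
    intro p
    rw [dz_sum _ fun q => (hG.dzb q).mul (hS p q)]
    refine Finset.sum_congr rfl fun q _ => ?_
    rw [dz_mul (hG.dzb q) (hS p q)]
    rfl
  simp_rw [h2, h3, Finset.sum_add_distrib]
  have h4 : ∑ p, ∑ q, dzb q G z * dz p (fun w => D (E p q) (B w) (C w)) z = 0 := by
    rw [Finset.sum_comm]
    refine Finset.sum_eq_zero fun q _ => ?_
    rw [← Finset.mul_sum, div_row hB hC, mul_zero]
  rw [h4, add_zero, ← D_eq_sum_left]

theorem HessC_one (z : C3) : HessC (fun _ => (1 : ℂ)) z = 0 := HessC_const 1 z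

theorem Hess_congr {f f' : C3 → ℝ} {z : C3} (h : f =ᶠ[𝓝 z] f') : Hess f z = Hess f' z := by
  have h1 : fderiv ℝ f =ᶠ[𝓝 z] fderiv ℝ f' := h.fderiv
  have h2 : fderiv ℝ (fderiv ℝ f) z = fderiv ℝ (fderiv ℝ f') z := h1.fderiv_eq
  funext j k
  simp only [Hess, D2, h2]

end ptw

section chain

variable {u : C3 → ℝ} {Θ₁ Θ₂ : C3 → Mat} {m₁ m₂ ν : Measure C3} {F G : C3 → ℂ}

theorem b1 (hc : Chain Set.univ u Θ₁ m₁ Θ₂ m₂ ν) (hum : Measurable u) (hub : Mol.LocBdd u)
    (hG : Sm G) (hF : Sm F) (hFc : HasCompactSupport F) :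
    ∫ z, G z * ((HessC F z * Θ₂ z).trace / 3) ∂m₂ =
      ∫ z, (u z : ℂ) * D (HessC F z) (HessC G z) (Θ₁ z) ∂m₁ := by
  have h := hc.e2M hum hub (A := fun z => G z • HessC F z)
    (fun j k => hG.mul (sm_HessC hF j k)) (fun j k => (compact_HessC hFc j k).mul_left)
  have e1 : ∀ z, ((G z • HessC F z) * Θ₂ z).trace / 3 = G z * ((HessC F z * Θ₂ z).trace / 3) := by
    intro z
    rw [Matrix.smul_mul, Matrix.trace_smul, smul_eq_mul]
    ring
  have e2 : ∀ z, ∑ j, ∑ k, D (E j k) (HessC (fun w => (G w • HessC F w) j k) z) (Θ₁ z) =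
      D (HessC F z) (HessC G z) (Θ₁ z) := fun z => sum_HessC_mul hG hF (Θ₁ z) z
  simp_rw [e1, e2] at h
  exact h

theorem b2 (hc : Chain Set.univ u Θ₁ m₁ Θ₂ m₂ ν) (hum : Measurable u) (hub : Mol.LocBdd u)
    (hG : Sm G) (hF : Sm F) (hFc : HasCompactSupport F) {C : C3 → Mat} (hC : Cl C) :
    ∫ z, G z * D (HessC F z) (C z) (Θ₁ z) ∂m₁ =
      ∫ z, (u z : ℂ) * D (HessC G z) (HessC F z) (C z) := by
  have hB := cl_HessC hF
  have hcs : ∀ p q, HasCompactSupport fun z => G z * D (E p q) (HessC F z) (C z) := by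
    intro p q
    refine HasCompactSupport.mul_left ?_
    refine IsCompact.of_isClosed_subset hFc (isClosed_tsupport _)
      (closure_minimal (fun z hz => ?_) isClosed_closure)
    by_contra h2
    apply hz
    change D (E p q) (HessC F z) (C z) = 0
    rw [HessC_eq_zero h2, D_zero_mid]
  have h := hc.e1M hum hub (A := fun z p q => G z * D (E p q) (HessC F z) (C z))
    (fun p q => hG.mul (sm_D _ hB.sm hC.sm)) hcs
  have e1 : ∀ z, ∑ p, ∑ q, (G z * D (E p q) (HessC F z) (C z)) * Θ₁ z p q =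
      G z * D (HessC F z) (C z) (Θ₁ z) := by
    intro z
    rw [D_comm13, D_eq_sum_left, Finset.mul_sum]
    refine Finset.sum_congr rfl fun p _ => ?_
    rw [Finset.mul_sum]
    refine Finset.sum_congr rfl fun q _ => ?_
    rw [D_comm23 (E p q) (C z)]
    ring
  have e2 : ∀ z, ∑ p, ∑ q, HessC (fun w => G w * D (E p q) (HessC F w) (C w)) z p q =
      D (HessC G z) (HessC F z) (C z) := fun z => sum_HessC_D hG hB hC z
  simp_rw [e1, e2] at h
  exact h

end chain

/-! ### linear pairings -/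

/-- a pairing of matrix fields with a positive current -/
structure Pair (m : Measure C3) (L : C3 → Mat → ℂ) (K : Set C3) : Prop where
  fin : FinOn Set.univ m
  add : ∀ z A B, L z (A + B) = L z A + L z B
  smul : ∀ z (c : ℂ) A, L z (c • A) = c * L z A
  mb : ∀ A : C3 → Mat, MBM A → MB fun z => L z (A z)
  pos : ∀ z ∈ K, ∀ A : Mat, A.PosSemidef → 0 ≤ (L z A).re

/-- matrix fields which vanish off `K` -/
structure GF (K : Set C3) (A : C3 → Mat) : Prop where
  mb : MBM A
  zero : ∀ z, z ∉ K → A z = 0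

section pair

variable {m : Measure C3} {L : C3 → Mat → ℂ} {K : Set C3} {A B : C3 → Mat}

theorem Pair.zero (P : Pair m L K) (z : C3) : L z 0 = 0 := by
  have h := P.smul z 0 0
  rwa [zero_smul, zero_mul] at h

theorem Pair.sub (P : Pair m L K) (z : C3) (A B : Mat) : L z (A - B) = L z A - L z B := by
  have h1 : A - B = A + (-1 : ℂ) • B := by
    rw [neg_one_smul, sub_eq_add_neg]
  rw [h1, P.add, P.smul]
  ring

theorem Pair.intC (P : Pair m L K) (hK : IsCompact K) (hA : GF K A) :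
    Integrable (fun z => L z (A z)) m :=
  int_supp P.fin (P.mb A hA.mb) hK fun z hz => by rw [hA.zero z hz, P.zero]

theorem Pair.intR (P : Pair m L K) (hK : IsCompact K) (hA : GF K A) :
    Integrable (fun z => (L z (A z)).re) m := (P.intC hK hA).re

theorem GF.smul {g : C3 → ℂ} (hg : MB g) (hA : GF K A) : GF K fun z => g z • A z :=
  ⟨fun j k => hg.mul (hA.mb j k), fun z hz => by rw [hA.zero z hz, smul_zero]⟩

theorem MBM.smul {g : C3 → ℂ} (hg : MB g) (hA : MBM A) : MBM fun z => g z • A z :=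
  fun j k => hg.mul (hA j k)

theorem Pair.intOn (P : Pair m L K) (hK : IsCompact K) (hA : MBM A) :
    IntegrableOn (fun z => (L z (A z)).re) K m := by
  have h := P.mb A hA
  obtain ⟨R, hR⟩ := hK.isBounded.subset_closedBall (0 : C3)
  obtain ⟨M, hM⟩ := h.loc R
  refine Measure.integrableOn_of_bounded (M := M) (P.fin _ hK (Set.subset_univ _)).ne
      (Complex.measurable_re.comp h.meas).aestronglyMeasurable ?_
  refine (ae_restrict_iff' hK.isClosed.measurableSet).2 (Eventually.of_forall fun z hz => ?_)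
  refine (Complex.abs_re_le_norm _).trans (hM z ?_)
  have := hR hz
  rwa [mem_closedBall_zero_iff] at this

/-- monotonicity -/
theorem Pair.mono (P : Pair m L K) (hK : IsCompact K) (hA : GF K A) (hB : MBM B)
    (h : ∀ z ∈ K, (B z - A z).PosSemidef) :
    ∫ z, (L z (A z)).re ∂m ≤ ∫ z in K, (L z (B z)).re ∂m := by
  have e : ∫ z, (L z (A z)).re ∂m = ∫ z in K, (L z (A z)).re ∂m := by
    refine (setIntegral_eq_integral_of_forall_compl_eq_zero fun z hz => ?_).symm
    rw [hA.zero z hz, P.zero, Complex.zero_re]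
  rw [e]
  refine setIntegral_mono_on (P.intR hK hA).integrableOn (P.intOn hK hB)
    hK.isClosed.measurableSet fun z hz => ?_
  have h1 := P.pos z hz _ (h z hz)
  rw [P.sub, Complex.sub_re] at h1
  linarith

end pair

/-! ### the three pairings -/

section three

variable {u : C3 → ℝ} {Θ₁ Θ₂ : C3 → Mat} {m₁ m₂ ν : Measure C3} {h : C3 → ℝ} {K : Set C3}

theorem pair2 (hc : Chain Set.univ u Θ₁ m₁ Θ₂ m₂ ν) :
    Pair m₂ (fun z A => (A * Θ₂ z).trace / 3) K where
  fin := hc.pos₂.fin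
  add z A B := by
    rw [Matrix.add_mul, Matrix.trace_add, add_div]
  smul z c A := by
    rw [Matrix.smul_mul, Matrix.trace_smul, smul_eq_mul]
    ring
  mb A hA := by
    have := (hA.trace (MBM.of_pos hc.pos₂)).mul (MB.const (1 / 3))
    simpa only [mul_one_div] using this
  pos z _ A hA := by
    obtain ⟨x, rfl⟩ := exists_rk hA
    have h2 := (hc.pos₂.pos z)
    have e : ((∑ l, rk (x l)) * Θ₂ z).trace = ∑ l, star (x l) ⬝ᵥ (Θ₂ z *ᵥ (x l)) := by
      rw [Finset.sum_mul, Matrix.trace_sum]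
      refine Finset.sum_congr rfl fun l _ => ?_
      rw [Matrix.trace_mul_comm, rk, Matrix.mul_vecMulVec, Matrix.trace_vecMulVec, dotProduct_comm]
    rw [e]
    have h3 : (0 : ℂ) ≤ ∑ l, star (x l) ⬝ᵥ (Θ₂ z *ᵥ (x l)) :=
      Finset.sum_nonneg fun l _ => h2.dotProduct_mulVec_nonneg (x l)
    have h4 := (Complex.nonneg_iff.1 h3).1
    rw [show (3 : ℂ) = ((3 : ℝ) : ℂ) by norm_num, Complex.div_ofReal_re]
    positivity

theorem pair1 (hc : Chain Set.univ u Θ₁ m₁ Θ₂ m₂ ν) (hh : ContDiff ℝ ∞ h)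
    (hp : ∀ z ∈ K, (Hess h z).PosSemidef) :
    Pair m₁ (fun z A => D A (Hess h z) (Θ₁ z)) K where
  fin := hc.pos₁.fin
  add z A B := D_add_left _ _ _ _
  smul z c A := D_smul_left _ _ _ _
  mb A hA := hA.D (MBM.hess hh) (MBM.of_pos hc.pos₁)
  pos z hz A hA := D_re_nonneg hA (hp z hz) (hc.pos₁.pos z)

theorem pair0 (hh : ContDiff ℝ ∞ h) (hp : ∀ z ∈ K, (Hess h z).PosSemidef) :
    Pair (volume : Measure C3) (fun z A => D A (Hess h z) (Hess h z)) K where
  fin := fun K hK _ => hK.measure_lt_top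
  add z A B := D_add_left _ _ _ _
  smul z c A := D_smul_left _ _ _ _
  mb A hA := hA.D (MBM.hess hh) (MBM.hess hh)
  pos z hz A hA := D_re_nonneg hA (hp z hz) (hp z hz)

end three

end KOL.Cmp
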