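import Pool.Agent.KOL.HessC

/-!
# Project KOL: integration by parts against closed matrix fields, and the pointwise identities of the comparison lemma
-/

set_option autoImplicit false

namespace KOL

open MeasureTheory Matrix
open scoped ContDiff ComplexOrder ComplexConjugate

/-- `(∂_j F ∂̄_k G)` -/
noncomputable def W (F G : C3 → ℂ) (z : C3) : Mat := fun j k => dz j F z * dzb k G z

section
variable {F G : C3 → ℂ} {B C : C3 → Mat}

theorem integrable_mul3 {P Q R : C3 → ℂ} (hP : Continuous P) (hQ : Continuous Q) (hR : Continuous R)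
    (hc : HasCompactSupport P ∨ HasCompactSupport Q) : Integrable (fun z => P z * Q z * R z) volume := by
  refine integrable_of_compact ((hP.mul hQ).mul hR) ?_
  rcases hc with h | h
  · exact (h.mul_right).mul_right
  · exact (h.mul_left).mul_right

/-- first integration by parts -/
theorem ibp_row (hF : Sm F) (hG : Sm G) (hc : HasCompactSupport F ∨ HasCompactSupport G) (hB : Cl B) (hC : Cl C) :
    ∫ z, F z * D (HessC G z) (B z) (C z) = - ∫ z, D (W F G z) (B z) (C z) := by
  have hS : ∀ j k, Sm fun z => D (E j k) (B z) (C z) := fun j k => sm_D _ hB.sm hC.sm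
  have e1 : ∀ z, F z * D (HessC G z) (B z) (C z) =
      ∑ k, ∑ j, (F z * D (E j k) (B z) (C z)) * dz j (dzb k G) z := by
    intro z
    rw [D_eq_sum_left, Finset.sum_comm, Finset.mul_sum]
    refine Finset.sum_congr rfl fun k _ => ?_
    rw [Finset.mul_sum]
    refine Finset.sum_congr rfl fun j _ => ?_
    rw [HessC]
    ring
  have e2 : ∀ z, D (W F G z) (B z) (C z) =
      ∑ k, ∑ j, dz j (fun w => F w * D (E j k) (B w) (C w)) z * dzb k G z := by
    intro z
    rw [D_eq_sum_left, Finset.sum_comm]
    refine Finset.sum_congr rfl fun k _ => ?_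
    have h0 := div_row hB hC k z
    have h1 : ∑ j, dz j (fun w => F w * D (E j k) (B w) (C w)) z * dzb k G z =
        ∑ j, (dz j F z * D (E j k) (B z) (C z)) * dzb k G z +
          F z * (∑ j, dz j (fun w => D (E j k) (B w) (C w)) z) * dzb k G z := by
      rw [Finset.mul_sum, Finset.sum_mul, ← Finset.sum_add_distrib]
      refine Finset.sum_congr rfl fun j _ => ?_
      rw [dz_mul hF (hS j k)]
      ring
    rw [h1, h0, mul_zero, zero_mul, add_zero]
    refine Finset.sum_congr rfl fun j _ => ?_
    rw [W]
    ring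
  have hc' : ∀ k, HasCompactSupport F ∨ HasCompactSupport (dzb k G) := fun k => hc.imp id fun h => compact_dzb h k
  have i1 : ∀ k j, Integrable (fun z => (F z * D (E j k) (B z) (C z)) * dz j (dzb k G) z) volume := by
    intro k j
    refine integrable_of_compact ((hF.continuous.mul (hS j k).continuous).mul ((hG.dzb k).dz j).continuous) ?_
    rcases hc with h | h
    · exact (h.mul_right).mul_right
    · exact (compact_dz (compact_dzb h k) j).mul_left
  have i2 : ∀ k j, Integrable (fun z => dz j (fun w => F w * D (E j k) (B w) (C w)) z * dzb k G z) volume := by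
    intro k j
    refine integrable_of_compact ((Sm.dz (hF.mul (hS j k)) j).continuous.mul (hG.dzb k).continuous) ?_
    rcases hc with h | h
    · exact (compact_dz (F := fun w => F w * D (E j k) (B w) (C w)) h.mul_right j).mul_right
    · exact (compact_dzb h k).mul_left
  simp_rw [e1, e2]
  rw [integral_finsetSum _ fun k _ => integrable_finsetSum _ fun j _ => i1 k j,
    integral_finsetSum _ fun k _ => integrable_finsetSum _ fun j _ => i2 k j, ← Finset.sum_neg_distrib]
  refine Finset.sum_congr rfl fun k _ => ?_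
  rw [integral_finsetSum _ fun j _ => i1 k j, integral_finsetSum _ fun j _ => i2 k j, ← Finset.sum_neg_distrib]
  refine Finset.sum_congr rfl fun j _ => ?_
  refine ibp_dz (hF.mul (hS j k)) (hG.dzb k) ?_ j
  rcases hc with h | h
  · exact Or.inl h.mul_right
  · exact Or.inr (compact_dzb h k)

/-- second integration by parts -/
theorem ibp_col (hF : Sm F) (hG : Sm G) (hc : HasCompactSupport F ∨ HasCompactSupport G) (hB : Cl B) (hC : Cl C) :
    ∫ z, G z * D (HessC F z) (B z) (C z) = - ∫ z, D (W F G z) (B z) (C z) := by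
  have hS : ∀ j k, Sm fun z => D (E j k) (B z) (C z) := fun j k => sm_D _ hB.sm hC.sm
  have e1 : ∀ z, G z * D (HessC F z) (B z) (C z) =
      ∑ j, ∑ k, (G z * D (E j k) (B z) (C z)) * dzb k (dz j F) z := by
    intro z
    rw [D_eq_sum_left, Finset.mul_sum]
    refine Finset.sum_congr rfl fun j _ => ?_
    rw [Finset.mul_sum]
    refine Finset.sum_congr rfl fun k _ => ?_
    rw [HessC, dz_dzb_comm hF]
    ring
  have e2 : ∀ z, D (W F G z) (B z) (C z) =
      ∑ j, ∑ k, dzb k (fun w => G w * D (E j k) (B w) (C w)) z * dz j F z := by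
    intro z
    rw [D_eq_sum_left]
    refine Finset.sum_congr rfl fun j _ => ?_
    have h0 := div_col hB hC j z
    have h1 : ∑ k, dzb k (fun w => G w * D (E j k) (B w) (C w)) z * dz j F z =
        ∑ k, (dzb k G z * D (E j k) (B z) (C z)) * dz j F z +
          G z * (∑ k, dzb k (fun w => D (E j k) (B w) (C w)) z) * dz j F z := by
      rw [Finset.mul_sum, Finset.sum_mul, ← Finset.sum_add_distrib]
      refine Finset.sum_congr rfl fun k _ => ?_
      rw [dzb_mul hG (hS j k)]
      ring
    rw [h1, h0, mul_zero, zero_mul, add_zero]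
    refine Finset.sum_congr rfl fun k _ => ?_
    rw [W]
    ring
  have i1 : ∀ j k, Integrable (fun z => (G z * D (E j k) (B z) (C z)) * dzb k (dz j F) z) volume := by
    intro j k
    refine integrable_of_compact ((hG.continuous.mul (hS j k).continuous).mul ((hF.dz j).dzb k).continuous) ?_
    rcases hc with h | h
    · exact (compact_dzb (compact_dz h j) k).mul_left
    · exact (h.mul_right).mul_right
  have i2 : ∀ j k, Integrable (fun z => dzb k (fun w => G w * D (E j k) (B w) (C w)) z * dz j F z) volume := by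
    intro j k
    refine integrable_of_compact ((Sm.dzb (hG.mul (hS j k)) k).continuous.mul (hF.dz j).continuous) ?_
    rcases hc with h | h
    · exact (compact_dz h j).mul_left
    · exact (compact_dzb (F := fun w => G w * D (E j k) (B w) (C w)) h.mul_right k).mul_right
  simp_rw [e1, e2]
  rw [integral_finsetSum _ fun j _ => integrable_finsetSum _ fun k _ => i1 j k,
    integral_finsetSum _ fun j _ => integrable_finsetSum _ fun k _ => i2 j k, ← Finset.sum_neg_distrib]
  refine Finset.sum_congr rfl fun j _ => ?_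
  rw [integral_finsetSum _ fun k _ => i1 j k, integral_finsetSum _ fun k _ => i2 j k, ← Finset.sum_neg_distrib]
  refine Finset.sum_congr rfl fun k _ => ?_
  refine ibp_dzb (hG.mul (hS j k)) (hF.dz j) ?_ k
  rcases hc with h | h
  · exact Or.inr (compact_dz h j)
  · exact Or.inl h.mul_right

/-- the symmetry of `∫ F dd^c G ∧ B ∧ C` -/
theorem ibp_D (hF : Sm F) (hG : Sm G) (hc : HasCompactSupport F ∨ HasCompactSupport G) (hB : Cl B) (hC : Cl C) :
    ∫ z, F z * D (HessC G z) (B z) (C z) = ∫ z, G z * D (HessC F z) (B z) (C z) := by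
  rw [ibp_row hF hG hc hB hC, ibp_col hF hG hc hB hC]

theorem sm_D3 {A : C3 → Mat} (hA : ∀ j k, Sm fun z => A z j k) (hB : ∀ j k, Sm fun z => B z j k)
    (hC : ∀ j k, Sm fun z => C z j k) : Sm fun z => D (A z) (B z) (C z) := by
  have h : (fun z => D (A z) (B z) (C z)) = fun z => ∑ j, ∑ k, A z j k * D (E j k) (B z) (C z) := by
    funext z
    exact D_eq_sum_left _ _ _
  rw [h]
  exact ContDiff.sum fun j _ => ContDiff.sum fun k _ => (hA j k).mul (sm_D _ hB hC)

/-- the real version -/
theorem ibp_D_real {f g : C3 → ℝ} (hf : ContDiff ℝ ∞ f) (hg : ContDiff ℝ ∞ g)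
    (hc : HasCompactSupport f ∨ HasCompactSupport g) (hB : Cl B) (hC : Cl C) :
    ∫ z, f z * (D (Hess g z) (B z) (C z)).re = ∫ z, g z * (D (Hess f z) (B z) (C z)).re := by
  have h := ibp_D (sm_ofReal hf) (sm_ofReal hg) (hc.imp compact_ofReal compact_ofReal) hB hC
  have key : ∀ p q : C3 → ℝ, ContDiff ℝ ∞ p → ContDiff ℝ ∞ q → (HasCompactSupport p ∨ HasCompactSupport q) →
      ∫ z, p z * (D (Hess q z) (B z) (C z)).re =
        (∫ z, (p z : ℂ) * D (HessC (fun w => (q w : ℂ)) z) (B z) (C z)).re := by
    intro p q hp hq hpq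
    have hi : Integrable (fun z => (p z : ℂ) * D (HessC (fun w => (q w : ℂ)) z) (B z) (C z)) volume := by
      refine integrable_of_compact ((sm_ofReal hp).continuous.mul
        (sm_D3 (fun j k => sm_HessC (sm_ofReal hq) j k) hB.sm hC.sm).continuous) ?_
      rcases hpq with h | h
      · exact (compact_ofReal h).mul_right
      · refine HasCompactSupport.mul_left ?_
        refine IsCompact.of_isClosed_subset (compact_ofReal h) (isClosed_tsupport _)
          (closure_minimal (fun z hz => ?_) isClosed_closure)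
        by_contra h2
        apply hz
        change D (HessC (fun w => (q w : ℂ)) z) (B z) (C z) = 0
        rw [HessC_eq_zero h2, D_zero_left]
    have h2 : ∫ z, ((p z : ℂ) * D (HessC (fun w => (q w : ℂ)) z) (B z) (C z)).re =
        (∫ z, (p z : ℂ) * D (HessC (fun w => (q w : ℂ)) z) (B z) (C z)).re := integral_re hi
    rw [← h2]
    refine integral_congr_ae (Filter.Eventually.of_forall fun z => ?_)
    simp only [Hess_eq hq, Complex.re_ofReal_mul]
  rw [key f g hf hg hc, key g f hg hf hc.symm, h]

/-! ### pointwise identities -/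

/-- third derivatives of a Hessian, symmetric in the rows -/
theorem dz_HessC_symm (hG : Sm G) (l j k : Fin 3) (z : C3) :
    dz l (fun w => HessC G w j k) z = dz j (fun w => HessC G w l k) z := (cl_HessC hG).d l j k z

theorem dzb_HessC_symm (hG : Sm G) (m j k : Fin 3) (z : C3) :
    dzb m (fun w => HessC G w j k) z = dzb k (fun w => HessC G w j m) z := (cl_HessC hG).db m j k z

theorem HessC_HessC_symm (hG : Sm G) (l m j k : Fin 3) (z : C3) :
    HessC (fun w => HessC G w j k) z l m = HessC (fun w => HessC G w l k) z j m := by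
  have e : ∀ a, dzb m (fun w => HessC G w a k) = dz a (dzb m (dzb k G)) := by
    intro a
    funext w
    change dzb m (dz a (dzb k G)) w = _
    rw [← dz_dzb_comm (hG.dzb k)]
  rw [HessC, HessC, e, e, dz_dz_comm ((hG.dzb k).dzb m)]

/-- a double sum with `M` symmetric in the rows vanishes -/
theorem sum_sum_row_zero (M : Fin 3 → Fin 3 → Mat) (hM : ∀ j k l m, M j k l m = M l k j m) (C : Mat) :
    ∑ j, ∑ k, D (E j k) (M j k) C = 0 := by
  rw [Finset.sum_comm]
  exact Finset.sum_eq_zero fun k _ => sum_row_zero (fun j => M j k) (fun j l m => hM j k l m) k C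

theorem sum_sum_col_zero (M : Fin 3 → Fin 3 → Mat) (hM : ∀ j k l m, M j k l m = M j m l k) (C : Mat) :
    ∑ j, ∑ k, D (E j k) (M j k) C = 0 :=
  Finset.sum_eq_zero fun j _ => sum_col_zero (fun k => M j k) (fun k l m => hM j k l m) j C

/-- `∑ D(E_jk, Hess χ_jk, C) = 0` -/
theorem sum_HessC_zero (hG : Sm G) (C : Mat) (z : C3) :
    ∑ j, ∑ k, D (E j k) (HessC (fun w => HessC G w j k) z) C = 0 :=
  sum_sum_row_zero (fun j k => HessC (fun w => HessC G w j k) z) (fun j k l m => HessC_HessC_symm hG l m j k z) C

/-- cross terms -/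
noncomputable def X1 (F G : C3 → ℂ) (z : C3) (j k : Fin 3) : Mat :=
  fun l m => dzb m F z * dz l (fun w => HessC G w j k) z

/-- cross terms -/
noncomputable def X2 (F G : C3 → ℂ) (z : C3) (j k : Fin 3) : Mat :=
  fun l m => dz l F z * dzb m (fun w => HessC G w j k) z

/-- `∑ D(E_jk, Hess (F χ_jk), C) = D(Hess χ, Hess F, C)` -/
theorem sum_HessC_mul (hF : Sm F) (hG : Sm G) (C : Mat) (z : C3) :
    ∑ j, ∑ k, D (E j k) (HessC (fun w => F w * HessC G w j k) z) C = D (HessC G z) (HessC F z) C := by
  have hs : ∀ j k, Sm fun w => HessC G w j k := fun j k => sm_HessC hG j k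
  have e : ∀ j k, HessC (fun w => F w * HessC G w j k) z =
      HessC G z j k • HessC F z + X1 F G z j k + X2 F G z j k + F z • HessC (fun w => HessC G w j k) z := by
    intro j k
    ext l m
    rw [HessC_mul hF (hs j k)]
    simp only [Matrix.add_apply, Matrix.smul_apply, smul_eq_mul, X1, X2]
    ring
  have h1 : ∑ j, ∑ k, D (E j k) (X1 F G z j k) C = 0 := by
    refine sum_sum_row_zero _ (fun j k l m => ?_) C
    rw [X1, X1, dz_HessC_symm hG]
  have h2 : ∑ j, ∑ k, D (E j k) (X2 F G z j k) C = 0 := by
    refine sum_sum_col_zero _ (fun j k l m => ?_) C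
    rw [X2, X2, dzb_HessC_symm hG]
  have h4 : ∑ j, ∑ k, F z * D (E j k) (HessC (fun w => HessC G w j k) z) C = 0 := by
    simp_rw [← Finset.mul_sum]
    rw [sum_HessC_zero hG, mul_zero]
  simp_rw [e, D_add_mid, D_smul_mid]
  simp only [Finset.sum_add_distrib]
  rw [h1, h2, h4, D_eq_sum_left (HessC G z)]
  ring

end

end KOL
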