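import Pool.Agent.KOL.ChainExt
import Pool.Agent.KOL.Ibp
import Pool.Agent.KOL.Sep

/-!
# Project KOL: tools for the comparison lemma
-/

set_option autoImplicit false

open MeasureTheory Filter Topology Matrix
open scoped ContDiff ComplexConjugate ComplexOrder

namespace KOL.Cmp

/-! ### positive Hessians -/

theorem dec_ev (ξ : C3) : ξ = ∑ j, ((ξ j).re • ev j + (ξ j).im • (Complex.I • ev j)) := by
  funext l
  rw [Finset.sum_apply, Finset.sum_eq_single l]
  · have h := Complex.re_add_im (ξ l)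
    simp only [Pi.add_apply, Pi.smul_apply, ev, Pi.single_eq_same, smul_eq_mul, mul_one,
      Complex.real_smul]
    exact h.symm
  · intro j _ hj
    simp [ev, Pi.single_eq_of_ne hj.symm]
  · intro h
    exact absurd (Finset.mem_univ l) h

theorem dec_Iev (ξ : C3) : Complex.I • ξ =
    ∑ j, (((ξ j).re • (Complex.I • ev j)) + (-(ξ j).im) • ev j) := by
  conv_lhs => rw [dec_ev ξ]
  rw [Finset.smul_sum]
  refine Finset.sum_congr rfl fun j _ => ?_
  rw [smul_add, smul_comm Complex.I (ξ j).re, smul_comm Complex.I (ξ j).im, smul_smul,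
    Complex.I_mul_I, neg_one_smul, smul_neg, neg_smul]

theorem bil_sum (B : C3 →L[ℝ] C3 →L[ℝ] ℝ) (a b : Fin 3 → C3) :
    B (∑ j, a j) (∑ k, b k) = ∑ j, ∑ k, B (a j) (b k) := by
  rw [map_sum B a Finset.univ, _root_.sum_apply]
  exact Finset.sum_congr rfl fun j _ => map_sum (B (a j)) b Finset.univ

theorem levi_eq (f : C3 → ℝ) (z ξ : C3) :
    levi f z ξ = (∑ j, ∑ k, ξ j * Hess f z j k * conj (ξ k)).re := by
  have h1 : D2 f z ξ ξ = ∑ j, ∑ k, ((ξ j).re * (ξ k).re * D2 f z (ev j) (ev k) +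
      (ξ j).re * (ξ k).im * D2 f z (ev j) (Complex.I • ev k) +
      (ξ j).im * (ξ k).re * D2 f z (Complex.I • ev j) (ev k) +
      (ξ j).im * (ξ k).im * D2 f z (Complex.I • ev j) (Complex.I • ev k)) := by
    conv_lhs => rw [dec_ev ξ]
    unfold D2
    rw [bil_sum]
    refine Finset.sum_congr rfl fun j _ => ?_
    refine Finset.sum_congr rfl fun k _ => ?_
    simp only [map_add, map_smul, _root_.add_apply, _root_.smul_apply, smul_eq_mul]
    ring
  have h2 : D2 f z (Complex.I • ξ) (Complex.I • ξ) =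
      ∑ j, ∑ k, ((ξ j).im * (ξ k).im * D2 f z (ev j) (ev k) -
      (ξ j).im * (ξ k).re * D2 f z (ev j) (Complex.I • ev k) -
      (ξ j).re * (ξ k).im * D2 f z (Complex.I • ev j) (ev k) +
      (ξ j).re * (ξ k).re * D2 f z (Complex.I • ev j) (Complex.I • ev k)) := by
    rw [dec_Iev ξ]
    unfold D2
    rw [bil_sum]
    refine Finset.sum_congr rfl fun j _ => ?_
    refine Finset.sum_congr rfl fun k _ => ?_
    simp only [map_add, map_smul, _root_.add_apply, _root_.smul_apply, smul_eq_mul]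
    ring
  rw [levi, h1, h2, ← Finset.sum_add_distrib, Finset.mul_sum, Complex.re_sum]
  refine Finset.sum_congr rfl fun j _ => ?_
  rw [← Finset.sum_add_distrib, Finset.mul_sum, Complex.re_sum]
  refine Finset.sum_congr rfl fun k _ => ?_
  simp only [Hess, Complex.mul_re, Complex.mul_im, Complex.add_re, Complex.add_im,
    Complex.ofReal_re, Complex.ofReal_im, Complex.I_re, Complex.I_im, Complex.conj_re,
    Complex.conj_im, Complex.div_re, Complex.div_im, Complex.one_re, Complex.one_im]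
  norm_num
  ring

theorem hess_psd {f : C3 → ℝ} (hf : ContDiff ℝ ∞ f) (z : C3) (h : ∀ ξ, 0 ≤ levi f z ξ) :
    (Hess f z).PosSemidef := by
  refine Matrix.PosSemidef.of_dotProduct_mulVec_nonneg (Hess_isHermitian hf z) fun x => ?_
  have h1 := h (fun j => conj (x j))
  rw [levi_eq] at h1
  have e : star x ⬝ᵥ (Hess f z *ᵥ x) = ∑ j, ∑ k, conj (x j) * Hess f z j k * conj (conj (x k)) := by
    rw [dotProduct]
    refine Finset.sum_congr rfl fun j _ => ?_
    rw [mulVec, dotProduct, Finset.mul_sum]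
    refine Finset.sum_congr rfl fun k _ => ?_
    rw [Complex.conj_conj]
    simp only [Pi.star_apply, RCLike.star_def]
    ring
  rw [Complex.nonneg_iff]
  refine ⟨by rw [e]; exact h1, ?_⟩
  exact ((Hess_isHermitian hf z).im_star_dotProduct_mulVec_self x).symm

/-! ### the auxiliary convex function -/

theorem prim_deriv {f : ℝ → ℝ} (hf : Continuous f) :
    deriv (fun t => ∫ s in (0 : ℝ)..t, f s) = f := by
  funext t
  exact (intervalIntegral.integral_hasDerivAt_right (hf.intervalIntegrable _ _)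
    (hf.stronglyMeasurableAtFilter _ _) hf.continuousAt).deriv

theorem prim_smooth {f : ℝ → ℝ} (hf : ContDiff ℝ ∞ f) :
    ContDiff ℝ ∞ (fun t => ∫ s in (0 : ℝ)..t, f s) := by
  rw [contDiff_infty_iff_deriv]
  refine ⟨fun t => ?_, by rw [prim_deriv hf.continuous]; exact hf⟩
  exact (intervalIntegral.integral_hasDerivAt_right (hf.continuous.intervalIntegrable _ _)
    (hf.continuous.stronglyMeasurableAtFilter _ _) hf.continuous.continuousAt).differentiableAt

theorem prim_low {f : ℝ → ℝ} (h : ∀ t ≤ 0, f t = 0) {t : ℝ} (ht : t ≤ 0) :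
    ∫ s in (0 : ℝ)..t, f s = 0 := by
  rw [intervalIntegral.integral_symm]
  have : ∫ s in t..(0 : ℝ), f s = ∫ s in t..(0 : ℝ), (0 : ℝ) := by
    refine intervalIntegral.integral_congr fun s hs => ?_
    rw [Set.uIcc_of_le ht] at hs
    exact h s hs.2
  rw [this]
  simp

theorem prim_pos {f : ℝ → ℝ} (hf : Continuous f) (h : ∀ t, 0 < t → 0 < f t) {t : ℝ} (ht : 0 < t) :
    0 < ∫ s in (0 : ℝ)..t, f s :=
  intervalIntegral.intervalIntegral_pos_of_pos_on (hf.intervalIntegrable _ _)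
    (fun s hs => h s hs.1) ht

/-- the auxiliary functions: `X` convex, zero on the negative axis and positive on the positive
axis, and `F` with `F' = t X'` -/
theorem exists_aux : ∃ X F : ℝ → ℝ, ContDiff ℝ ∞ X ∧ ContDiff ℝ ∞ F ∧ (∀ t ≤ 0, X t = 0) ∧
    (∀ t ≤ 0, F t = 0) ∧ (∀ t, 0 < t → 0 < X t) ∧ (∀ t, 0 ≤ deriv X t) ∧
    (∀ t, 0 ≤ deriv (deriv X) t) ∧ (∀ t, deriv F t = t * deriv X t) ∧
    (∀ t, deriv (deriv F) t = deriv X t + t * deriv (deriv X) t) := by
  have hb : ContDiff ℝ ∞ expNegInvGlue := expNegInvGlue.contDiff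
  set Y : ℝ → ℝ := fun t => ∫ s in (0 : ℝ)..t, expNegInvGlue s with hY
  have hYs : ContDiff ℝ ∞ Y := prim_smooth hb
  have hY0 : ∀ t ≤ 0, Y t = 0 := fun t ht => prim_low (fun t => expNegInvGlue.zero_of_nonpos) ht
  have hYp : ∀ t, 0 < t → 0 < Y t := fun t ht =>
    prim_pos hb.continuous (fun t => expNegInvGlue.pos_of_pos) ht
  have hYn : ∀ t, 0 ≤ Y t := fun t => by
    rcases le_or_gt t 0 with h | h
    · rw [hY0 t h]
    · exact (hYp t h).le
  have hYd : deriv Y = expNegInvGlue := prim_deriv hb.continuous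
  have hXd : deriv (fun t => ∫ s in (0 : ℝ)..t, Y s) = Y := prim_deriv hYs.continuous
  have hG : ContDiff ℝ ∞ fun t : ℝ => t * Y t := contDiff_id.mul hYs
  have hFd : deriv (fun t => ∫ s in (0 : ℝ)..t, s * Y s) = fun t => t * Y t :=
    prim_deriv hG.continuous
  refine ⟨fun t => ∫ s in (0 : ℝ)..t, Y s, fun t => ∫ s in (0 : ℝ)..t, s * Y s,
    prim_smooth hYs, prim_smooth hG, fun t ht => prim_low hY0 ht,
    fun t ht => prim_low (fun s hs => by rw [hY0 s hs, mul_zero]) ht,
    fun t ht => prim_pos hYs.continuous hYp ht, fun t => ?_, fun t => ?_, fun t => ?_, fun t => ?_⟩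
  · rw [hXd]
    exact hYn t
  · rw [hXd, hYd]
    exact expNegInvGlue.nonneg t
  · rw [hXd, hFd]
  · rw [hXd, hFd, hYd]
    have h1 : HasDerivAt Y (expNegInvGlue t) t := by
      rw [← hYd]
      exact ((hYs.differentiable (by simp)) t).hasDerivAt
    have h2 := ((hasDerivAt_id t).mul h1).deriv
    simp only [id, one_mul] at h2
    exact h2

/-! ### cutoff functions -/

/-- a smooth cutoff function -/
theorem exists_cut {K O : Set C3} (hK : IsCompact K) (hO : IsOpen O) (hKO : K ⊆ O) :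
    ∃ (κ : C3 → ℝ) (N K' : Set C3), ContDiff ℝ ∞ κ ∧ IsOpen N ∧ IsCompact K' ∧ K ⊆ N ∧ N ⊆ K' ∧
      K' ⊆ O ∧ (∀ z ∈ N, κ z = 1) ∧ tsupport κ ⊆ K' ∧ (∀ z, 0 ≤ κ z) ∧ (∀ z, κ z ≤ 1) := by
  obtain ⟨V, hV, hKV, hVO, hVc⟩ := exists_open_between_and_isCompact_closure hK hO hKO
  obtain ⟨f, h0, h1, hf⟩ := exists_contMDiffMap_zero_one_nhds_of_isClosed (n := (⊤ : ℕ∞))
    (modelWithCornersSelf ℝ C3) (M := C3) hV.isClosed_compl hK.isClosed
    (Set.disjoint_left.2 fun z hz hzK => hz (hKV hzK))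
  obtain ⟨N, hN, hKN, hN1⟩ := eventually_nhdsSet_iff_exists.1 h1
  refine ⟨f, N ∩ V, closure V, ?_, hN.inter hV, hVc, Set.subset_inter hKN hKV,
    Set.inter_subset_right.trans subset_closure, hVO, fun z hz => hN1 z hz.1, ?_,
    fun z => (hf z).1, fun z => (hf z).2⟩
  · exact contMDiff_iff_contDiff.1 f.contMDiff
  · refine closure_mono fun z hz => ?_
    by_contra hzV
    exact hz (h0.self_of_nhdsSet z hzV)

end KOL.Cmp
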