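import Pool.Agent.KOL.Mat

/-!
# Project KOL: the complex Monge-Ampère operator of Bedford and Taylor on open subsets of `ℂ³`
-/

set_option autoImplicit false

namespace KOL

open MeasureTheory Matrix
open scoped ContDiff ComplexOrder

/-- `ℂ³` -/
abbrev C3 := Fin 3 → ℂ

/-- the second derivative of a real function of three complex variables, as a real bilinear form -/
noncomputable def D2 (f : C3 → ℝ) (z a b : C3) : ℝ := fderiv ℝ (fderiv ℝ f) z a b

/-- the standard basis of `ℂ³` -/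
noncomputable def ev (j : Fin 3) : C3 := Pi.single j 1

/-- the complex Hessian `(∂² f / ∂z_j ∂z̄_k)` -/
noncomputable def Hess (f : C3 → ℝ) (z : C3) : Mat := fun j k =>
  (1 / 4 : ℂ) * (((D2 f z (ev j) (ev k) + D2 f z (Complex.I • ev j) (Complex.I • ev k) : ℝ) : ℂ) +
    Complex.I * ((D2 f z (ev j) (Complex.I • ev k) - D2 f z (Complex.I • ev j) (ev k) : ℝ) : ℂ))

/-- the Levi form -/
noncomputable def levi (f : C3 → ℝ) (z ξ : C3) : ℝ :=
  (1 / 4) * (D2 f z ξ ξ + D2 f z (Complex.I • ξ) (Complex.I • ξ))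

/-- test functions on `U` -/
structure Test (U : Set C3) (χ : C3 → ℝ) : Prop where
  smooth : ContDiff ℝ ∞ χ
  comp : HasCompactSupport χ
  sub : tsupport χ ⊆ U

/-- plurisubharmonic functions on an open set: upper semicontinuous, with the submean inequality on all closed
complex discs in `U` -/
structure Psh (U : Set C3) (u : C3 → ℝ) : Prop where
  usc : UpperSemicontinuousOn u U
  sub : ∀ z ξ : C3, (∀ w : ℂ, ‖w‖ ≤ 1 → z + w • ξ ∈ U) →
    u z ≤ (2 * Real.pi)⁻¹ * ∫ θ in (0 : ℝ)..(2 * Real.pi), u (z + Complex.exp (θ * Complex.I) • ξ)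

/-- `m` is finite on the compact subsets of `U` -/
def FinOn (U : Set C3) (m : Measure C3) : Prop := ∀ K : Set C3, IsCompact K → K ⊆ U → m K < ⊤

/-- a positive matrix valued measure `Θ m` on `U` -/
structure IsPos (U : Set C3) (Θ : C3 → Mat) (m : Measure C3) : Prop where
  fin : FinOn U m
  meas : ∀ j k, Measurable fun z => Θ z j k
  pos : ∀ z, (Θ z).PosSemidef
  bdd : ∀ z j k, ‖Θ z j k‖ ≤ 1

/-- The Bedford-Taylor products of a bounded plurisubharmonic function `u` on `U`: the positive closed currents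
`T₁ = dd^c u`, `T₂ = dd^c (u T₁)`, `ν = dd^c (u T₂)`.
`T₁ = Θ₁ m₁` is the matrix of `dd^c u`, and `T₂ = Θ₂ m₂` is the transposed matrix of cofactors (for smooth `u`:
`T₁ = Hess u` and `T₂ = adj (Hess u)`), so the product of a `(1,1)`-form `A` with `T₂` is `trace (A T₂) / 3`, the product of
two `(1,1)`-forms `A`, `B` with `T₁` is the mixed discriminant `D A B T₁`. For smooth `u` the measure `ν` is
`det (Hess u)` times the Lebesgue measure. -/
structure Chain (U : Set C3) (u : C3 → ℝ) (Θ₁ : C3 → Mat) (m₁ : Measure C3) (Θ₂ : C3 → Mat) (m₂ : Measure C3)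
    (ν : Measure C3) : Prop where
  pos₁ : IsPos U Θ₁ m₁
  pos₂ : IsPos U Θ₂ m₂
  fin : FinOn U ν
  eq₁ : ∀ χ, Test U χ → ∀ j k, ∫ z, (χ z : ℂ) * Θ₁ z j k ∂m₁ = ∫ z, (u z : ℂ) * Hess χ z j k
  eq₂ : ∀ χ, Test U χ → ∀ A : Mat, A.IsHermitian →
    ∫ z, χ z * ((A * Θ₂ z).trace.re / 3) ∂m₂ = ∫ z, u z * (D A (Hess χ z) (Θ₁ z)).re ∂m₁
  eq₃ : ∀ χ, Test U χ → ∫ z, χ z ∂ν = ∫ z, u z * ((Hess χ z * Θ₂ z).trace.re / 3) ∂m₂

/-- `(dd^c u)³ = ν` on `U`, normalised so that the measure of `|z|²` is the Lebesgue measure -/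
def IsMA (U : Set C3) (u : C3 → ℝ) (ν : Measure C3) : Prop :=
  ∃ (Θ₁ : C3 → Mat) (m₁ : Measure C3) (Θ₂ : C3 → Mat) (m₂ : Measure C3), Chain U u Θ₁ m₁ Θ₂ m₂ ν

/-! ### the torus `ℂ³ / ℤ[i]³` with the flat metric -/

/-- `|z|²` -/
noncomputable def sq (z : C3) : ℝ := ∑ j, Complex.normSq (z j)

/-- the points of the lattice `ℤ[i]³` -/
noncomputable def latt (a b : Fin 3 → ℤ) : C3 := fun j => (a j : ℂ) + (b j : ℂ) * Complex.I

/-- bounded `ω`-plurisubharmonic functions on the torus `ℂ³ / ℤ[i]³`, as periodic functions on `ℂ³` (`ω = dd^c |z|²`) -/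
structure OmegaPsh (φ : C3 → ℝ) : Prop where
  per : ∀ a b z, φ (z + latt a b) = φ z
  bdd : ∃ B, ∀ z, |φ z| ≤ B
  psh : Psh Set.univ fun z => φ z + sq z

/-- probability measures on the torus, as periodic measures on `ℂ³` which have mass one on the unit cube -/
structure TorusProb (μ : Measure C3) : Prop where
  per : ∀ a b, μ.map (fun z => z + latt a b) = μ
  one : μ {z | ∀ j, 0 ≤ (z j).re ∧ (z j).re < 1 ∧ 0 ≤ (z j).im ∧ (z j).im < 1} = 1

/-- `μ` is locally dominated by Monge-Ampère measures of bounded plurisubharmonic functions -/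
def LocDom (μ : Measure C3) : Prop :=
  ∀ z, ∃ U : Set C3, IsOpen U ∧ z ∈ U ∧ ∃ (u : C3 → ℝ) (ν : Measure C3), Psh U u ∧ (∃ B, ∀ w ∈ U, |u w| ≤ B) ∧
    IsMA U u ν ∧ ∀ s, MeasurableSet s → s ⊆ U → μ s ≤ ν s

end KOL
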