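import Pool.Agent.KOL.Cx

/-!
# Project KOL: measures on an open set are determined by test functions
-/

set_option autoImplicit false

namespace KOL

open MeasureTheory Matrix Set Topology
open scoped ContDiff ComplexOrder ComplexConjugate ENNReal Manifold

/-- smooth cutoff functions inside an open set -/
theorem exists_cutoff_in {K V : Set C3} (hK : IsCompact K) (hV : IsOpen V) (hKV : K ⊆ V) :
    ∃ χ : C3 → ℝ, Test V χ ∧ (∀ z, 0 ≤ χ z) ∧ (∀ z, χ z ≤ 1) ∧ ∀ z ∈ K, χ z = 1 := by
  obtain ⟨L, hL, hKL, hLV⟩ := exists_compact_between hK hV hKV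
  obtain ⟨f, h1, h0, hf⟩ := exists_contMDiffMap_one_nhds_of_subset_interior 𝓘(ℝ, C3) (n := ⊤) hK.isClosed hKL
  have hs : tsupport (f : C3 → ℝ) ⊆ L := by
    refine closure_minimal (fun z hz => ?_) hL.isClosed
    by_contra h
    exact hz (h0 z h)
  refine ⟨f, ⟨f.contMDiff.contDiff, IsCompact.of_isClosed_subset hL (isClosed_tsupport _) hs, hs.trans hLV⟩,
    fun z => (hf z).1, fun z => (hf z).2, fun z hz => ?_⟩
  exact h1.self_of_nhdsSet z hz

/-- if the integrals of all test functions agree, the measures of compact sets are ordered -/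
theorem measure_compact_le {V : Set C3} (hV : IsOpen V) {μ ν : Measure C3} (hμ : FinOn V μ) (hν : FinOn V ν)
    (h : ∀ χ, Test V χ → (∀ z, 0 ≤ χ z) → ∫ z, χ z ∂μ ≤ ∫ z, χ z ∂ν) {K : Set C3} (hK : IsCompact K) (hKV : K ⊆ V) :
    μ K ≤ ν K := by
  obtain ⟨L, hL, hKL, hLV⟩ := exists_compact_between hK hV hKV
  have hfin : IsFiniteMeasure (ν.restrict L) := ⟨by
    rw [Measure.restrict_apply MeasurableSet.univ, univ_inter]
    exact hν L hL hLV⟩
  have key : ∀ O, IsOpen O → K ⊆ O → μ K ≤ (ν.restrict L) O := by
    intro O hO hKO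
    obtain ⟨χ, hχ, h0, h1, hχK⟩ := exists_cutoff_in hK (hO.inter isOpen_interior) (subset_inter hKO hKL)
    have hsub : O ∩ interior L ⊆ V := inter_subset_right.trans (interior_subset.trans hLV)
    have hV' : Test V χ := hχ.mono hsub
    have i1 : Integrable χ μ := by
      have := (hV'.c.tb.integrable hμ).re
      simpa using this
    have i2 : Integrable χ ν := by
      have := (hV'.c.tb.integrable hν).re
      simpa using this
    have e1 : μ K ≤ ENNReal.ofReal (∫ z, χ z ∂μ) := by
      rw [ofReal_integral_eq_lintegral_ofReal i1 (Filter.Eventually.of_forall h0)]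
      calc μ K = ∫⁻ z in K, 1 ∂μ := by simp
        _ ≤ ∫⁻ z in K, ENNReal.ofReal (χ z) ∂μ := by
            refine setLIntegral_mono' hK.measurableSet fun z hz => ?_
            rw [hχK z hz, ENNReal.ofReal_one]
        _ ≤ ∫⁻ z, ENNReal.ofReal (χ z) ∂μ := setLIntegral_le_lintegral _ _
    have e2 : ENNReal.ofReal (∫ z, χ z ∂ν) ≤ (ν.restrict L) O := by
      rw [ofReal_integral_eq_lintegral_ofReal i2 (Filter.Eventually.of_forall h0)]
      calc ∫⁻ z, ENNReal.ofReal (χ z) ∂ν ≤ ∫⁻ z, (O ∩ interior L).indicator 1 z ∂ν := by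
            refine lintegral_mono fun z => ?_
            by_cases hz : z ∈ O ∩ interior L
            · rw [indicator_of_mem hz, Pi.one_apply]
              exact ENNReal.ofReal_le_one.2 (h1 z)
            · rw [indicator_of_notMem hz]
              have : χ z = 0 := by
                by_contra hne
                exact hz (hχ.sub (subset_closure hne))
              rw [this, ENNReal.ofReal_zero]
        _ = ν (O ∩ interior L) := lintegral_indicator_one (hO.inter isOpen_interior).measurableSet
        _ ≤ (ν.restrict L) O := by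
            rw [Measure.restrict_apply hO.measurableSet]
            exact measure_mono (inter_subset_inter_right _ interior_subset)
    exact e1.trans ((ENNReal.ofReal_le_ofReal (h χ hV' h0)).trans e2)
  have h2 : μ K ≤ (ν.restrict L) K := by
    rw [Set.measure_eq_iInf_isOpen K (ν.restrict L)]
    exact le_iInf fun O => le_iInf fun hKO => le_iInf fun hO => key O hO hKO
  refine h2.trans ?_
  rw [Measure.restrict_apply hK.measurableSet]
  exact measure_mono inter_subset_left

/-- test functions determine the measure on compact sets -/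
theorem measure_compact_eq {V : Set C3} (hV : IsOpen V) {μ ν : Measure C3} (hμ : FinOn V μ) (hν : FinOn V ν)
    (h : ∀ χ, Test V χ → (∀ z, 0 ≤ χ z) → ∫ z, χ z ∂μ = ∫ z, χ z ∂ν) {K : Set C3} (hK : IsCompact K) (hKV : K ⊆ V) :
    μ K = ν K :=
  le_antisymm (measure_compact_le hV hμ hν (fun χ h1 h2 => (h χ h1 h2).le) hK hKV)
    (measure_compact_le hV hν hμ (fun χ h1 h2 => (h χ h1 h2).ge) hK hKV)

theorem restrict_compact_le {V : Set C3} {μ ν : Measure C3} (hμ : FinOn V μ)
    (h : ∀ K, IsCompact K → K ⊆ V → μ K ≤ ν K) {L : Set C3} (hL : IsCompact L) (hLV : L ⊆ V) :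
    μ.restrict L ≤ ν.restrict L := by
  have hfin : IsFiniteMeasure (μ.restrict L) := ⟨by
    rw [Measure.restrict_apply MeasurableSet.univ, univ_inter]
    exact hμ L hL hLV⟩
  refine Measure.le_iff.2 fun s hs => ?_
  rw [hs.measure_eq_iSup_isCompact_of_ne_top (measure_ne_top _ s)]
  refine iSup_le fun K => iSup_le fun hKs => iSup_le fun hK => ?_
  have hKL : IsCompact (K ∩ L) := hK.inter_right hL.isClosed
  rw [Measure.restrict_apply hK.measurableSet]
  refine (h _ hKL (inter_subset_right.trans hLV)).trans ?_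
  rw [Measure.restrict_apply hs]
  exact measure_mono (inter_subset_inter_left _ hKs)

/-- an open set is a countable union of compact sets -/
theorem exists_compact_iUnion {V : Set C3} (hV : IsOpen V) :
    ∃ K : ℕ → Set C3, (∀ n, IsCompact (K n)) ∧ ⋃ n, K n = V := by
  have h1 : LocallyCompactSpace V := hV.locallyCompactSpace
  have h2 : SigmaCompactSpace V := inferInstance
  have h3 : IsSigmaCompact V := isSigmaCompact_iff_sigmaCompactSpace.2 h2
  exact h3

/-- test functions determine the measure on an open set -/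
theorem restrict_eq_of_test {V : Set C3} (hV : IsOpen V) {μ ν : Measure C3} (hμ : FinOn V μ) (hν : FinOn V ν)
    (h : ∀ χ, Test V χ → (∀ z, 0 ≤ χ z) → ∫ z, χ z ∂μ = ∫ z, χ z ∂ν) : μ.restrict V = ν.restrict V := by
  obtain ⟨K, hK, hKV⟩ := exists_compact_iUnion hV
  rw [← hKV, Measure.restrict_iUnion_congr]
  intro n
  have hn : K n ⊆ V := by
    rw [← hKV]
    exact subset_iUnion K n
  exact le_antisymm
    (restrict_compact_le hμ (fun L hL hLV => (measure_compact_eq hV hμ hν h hL hLV).le) (hK n) hn)
    (restrict_compact_le hν (fun L hL hLV => (measure_compact_eq hV hμ hν h hL hLV).ge) (hK n) hn)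

/-- test functions compare measures on an open set -/
theorem restrict_le_of_test {V : Set C3} (hV : IsOpen V) {μ ν : Measure C3} (hμ : FinOn V μ) (hν : FinOn V ν)
    (h : ∀ χ, Test V χ → (∀ z, 0 ≤ χ z) → ∫ z, χ z ∂μ ≤ ∫ z, χ z ∂ν) {s : Set C3} (hs : MeasurableSet s)
    (hsV : s ⊆ V) : μ s ≤ ν s := by
  obtain ⟨K, hK, hKV⟩ := exists_compact_iUnion hV
  have hle : ∀ L, IsCompact L → L ⊆ V → μ.restrict L ≤ ν.restrict L := fun L hL hLV =>
    restrict_compact_le hμ (fun L hL hLV => measure_compact_le hV hμ hν h hL hLV) hL hLV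
  have hmono : Monotone (Set.accumulate K) := Set.monotone_accumulate
  have hc : ∀ n, IsCompact (Set.accumulate K n) := fun n => by
    rw [Set.accumulate_def]
    exact (Set.finite_Iic n).isCompact_biUnion fun i _ => hK i
  have hcV : ∀ n, Set.accumulate K n ⊆ V := fun n => by
    rw [← hKV, ← Set.iUnion_accumulate]
    exact subset_iUnion _ n
  have e : ∀ m : Measure C3, m s = ⨆ n, m (s ∩ Set.accumulate K n) := by
    intro m
    rw [← Monotone.measure_iUnion (fun a b hab => inter_subset_inter_right s (hmono hab)), ← inter_iUnion,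
      Set.iUnion_accumulate, hKV, inter_eq_self_of_subset_left hsV]
  rw [e μ, e ν]
  refine iSup_mono fun n => ?_
  have h1 := Measure.le_iff.1 (hle _ (hc n) (hcV n)) s hs
  rwa [Measure.restrict_apply hs, Measure.restrict_apply hs] at h1

end KOL
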