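import Pool.Agent.KOL.Calc

/-!
# Project KOL: complex Hessians, closedness, integration by parts
-/

set_option autoImplicit false

namespace KOL

open MeasureTheory Matrix
open scoped ContDiff ComplexOrder ComplexConjugate

/-- the Hessian of a complex function -/
noncomputable def HessC (F : C3 → ℂ) (z : C3) : Mat := fun j k => dz j (dzb k F) z

theorem pd_pd_ofReal {f : C3 → ℝ} (hf : ContDiff ℝ ∞ f) (a b z : C3) :
    pd a (pd b fun w => (f w : ℂ)) z = ((D2 f z a b : ℝ) : ℂ) := by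
  have h : ContDiff ℝ ∞ (fderiv ℝ f) := hf.fderiv_right (by simp)
  have h1 : DifferentiableAt ℝ (fderiv ℝ f) z := (h.differentiable (by simp)).differentiableAt
  have e1 : pd b (fun w => (f w : ℂ)) = fun w => ((fderiv ℝ f w b : ℝ) : ℂ) := by
    funext w
    exact pd_ofReal ((hf.differentiable (by simp)).differentiableAt) b
  rw [e1, pd_ofReal (h1.clm_apply (differentiableAt_const b))]
  congr 1
  have h2 : fderiv ℝ (fun y => fderiv ℝ f y b) z = (fderiv ℝ (fderiv ℝ f) z).flip b := by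
    rw [fderiv_clm_apply h1 (differentiableAt_const b)]
    simp
  rw [h2]
  rfl

theorem Hess_eq {f : C3 → ℝ} (hf : ContDiff ℝ ∞ f) (z : C3) : Hess f z = HessC (fun w => (f w : ℂ)) z := by
  ext j k
  have h := sm_ofReal hf
  rw [Hess, HessC, dz, dzb_eq k, pd_comb h, pd_comb h, pd_pd_ofReal hf, pd_pd_ofReal hf, pd_pd_ofReal hf,
    pd_pd_ofReal hf]
  push_cast
  linear_combination ((1 / 4 : ℂ) * D2 f z (Complex.I • ev j) (Complex.I • ev k)) * Complex.I_mul_I

section HessC
variable {F G : C3 → ℂ}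

theorem sm_HessC (hF : Sm F) (j k : Fin 3) : Sm fun z => HessC F z j k := (hF.dzb k).dz j

theorem compact_HessC (h : HasCompactSupport F) (j k : Fin 3) : HasCompactSupport fun z => HessC F z j k :=
  compact_dz (compact_dzb h k) j

theorem tsupport_HessC (F : C3 → ℂ) (j k : Fin 3) : tsupport (fun z => HessC F z j k) ⊆ tsupport F :=
  (tsupport_dz j _).trans (tsupport_dzb k F)

theorem HessC_eq_zero {z : C3} (hz : z ∉ tsupport F) : HessC F z = 0 := by
  ext j k
  by_contra h
  exact hz (tsupport_HessC F j k (subset_closure h))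

theorem HessC_const (c : ℂ) (z : C3) : HessC (fun _ => c) z = 0 := by
  ext j k
  have h : dzb k (fun _ => c) = fun _ => (0 : ℂ) := by
    funext w
    exact dzb_const k c w
  rw [HessC, h, dz_const]
  rfl

theorem HessC_add (hF : Sm F) (hG : Sm G) (z : C3) : HessC (fun w => F w + G w) z = HessC F z + HessC G z := by
  ext j k
  have h : dzb k (fun w => F w + G w) = fun w => dzb k F w + dzb k G w := by
    funext w
    exact dzb_add hF hG k w
  rw [HessC, h, dz_add (hF.dzb k) (hG.dzb k)]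
  rfl

theorem HessC_sub (hF : Sm F) (hG : Sm G) (z : C3) : HessC (fun w => F w - G w) z = HessC F z - HessC G z := by
  ext j k
  have h : dzb k (fun w => F w - G w) = fun w => dzb k F w - dzb k G w := by
    funext w
    exact dzb_sub hF hG k w
  rw [HessC, h, dz_sub (hF.dzb k) (hG.dzb k)]
  rfl

/-- the product rule for Hessians -/
theorem HessC_mul (hF : Sm F) (hG : Sm G) (z : C3) (j k : Fin 3) :
    HessC (fun w => F w * G w) z j k =
      HessC F z j k * G z + dzb k F z * dz j G z + dz j F z * dzb k G z + F z * HessC G z j k := by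
  have h : dzb k (fun w => F w * G w) = fun w => dzb k F w * G w + F w * dzb k G w := by
    funext w
    exact dzb_mul hF hG k w
  rw [HessC, h, dz_add ((hF.dzb k).mul hG) (hF.mul (hG.dzb k)), dz_mul (hF.dzb k) hG, dz_mul hF (hG.dzb k)]
  simp only [HessC]
  ring

theorem HessC_const_mul (hF : Sm F) (c : ℂ) (z : C3) : HessC (fun w => c * F w) z = c • HessC F z := by
  ext j k
  rw [HessC_mul (sm_const c) hF, HessC_const, dzb_const, dz_const, Matrix.zero_apply, Matrix.smul_apply, smul_eq_mul]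
  ring

theorem dz_ofReal_conj {f : C3 → ℝ} (hf : ContDiff ℝ ∞ f) (j : Fin 3) (z : C3) :
    dz j (fun w => (f w : ℂ)) z = conj (dzb j (fun w => (f w : ℂ)) z) := by
  rw [← dz_conj (sm_ofReal hf)]
  simp only [Complex.conj_ofReal]

theorem dzb_ofReal_conj {f : C3 → ℝ} (hf : ContDiff ℝ ∞ f) (j : Fin 3) (z : C3) :
    dzb j (fun w => (f w : ℂ)) z = conj (dz j (fun w => (f w : ℂ)) z) := by
  rw [dz_ofReal_conj hf, Complex.conj_conj]

end HessC

/-! ### real functions -/

section real
variable {f g : C3 → ℝ}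

theorem sm_Hess (hf : ContDiff ℝ ∞ f) (j k : Fin 3) : Sm fun z => Hess f z j k := by
  simp_rw [Hess_eq hf]
  exact sm_HessC (sm_ofReal hf) j k

theorem compact_ofReal (h : HasCompactSupport f) : HasCompactSupport fun z => (f z : ℂ) :=
  h.comp_left (g := fun x : ℝ => (x : ℂ)) Complex.ofReal_zero

theorem tsupport_ofReal (f : C3 → ℝ) : tsupport (fun z => (f z : ℂ)) ⊆ tsupport f := by
  refine closure_mono fun z hz h => hz ?_
  simpa using h

theorem compact_Hess (hf : ContDiff ℝ ∞ f) (h : HasCompactSupport f) (j k : Fin 3) :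
    HasCompactSupport fun z => Hess f z j k := by
  simp_rw [Hess_eq hf]
  exact compact_HessC (compact_ofReal h) j k

theorem Hess_eq_zero (hf : ContDiff ℝ ∞ f) {z : C3} (hz : z ∉ tsupport f) : Hess f z = 0 := by
  rw [Hess_eq hf]
  exact HessC_eq_zero fun h => hz (tsupport_ofReal f h)

theorem continuous_Hess (hf : ContDiff ℝ ∞ f) (j k : Fin 3) : Continuous fun z => Hess f z j k :=
  (sm_Hess hf j k).continuous

theorem Hess_isHermitian (hf : ContDiff ℝ ∞ f) (z : C3) : (Hess f z).IsHermitian := by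
  ext j k
  have h := sm_ofReal hf
  rw [Matrix.conjTranspose_apply, Hess_eq hf, HessC, HessC]
  change conj (dz k (dzb j fun w => (f w : ℂ)) z) = _
  have e1 : (dzb j fun w => (f w : ℂ)) = fun w => conj (dz j (fun w => (f w : ℂ)) w) := by
    funext w
    exact dzb_ofReal_conj hf j w
  rw [e1, dz_conj (h.dz j), Complex.conj_conj, dz_dzb_comm h]

theorem Hess_add (hf : ContDiff ℝ ∞ f) (hg : ContDiff ℝ ∞ g) (z : C3) :
    Hess (fun w => f w + g w) z = Hess f z + Hess g z := by
  rw [Hess_eq (hf.add hg), Hess_eq hf, Hess_eq hg, ← HessC_add (sm_ofReal hf) (sm_ofReal hg)]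
  push_cast
  rfl

theorem Hess_sub (hf : ContDiff ℝ ∞ f) (hg : ContDiff ℝ ∞ g) (z : C3) :
    Hess (fun w => f w - g w) z = Hess f z - Hess g z := by
  rw [Hess_eq (hf.sub hg), Hess_eq hf, Hess_eq hg, ← HessC_sub (sm_ofReal hf) (sm_ofReal hg)]
  push_cast
  rfl

theorem Hess_const_mul (hf : ContDiff ℝ ∞ f) (c : ℝ) (z : C3) : Hess (fun w => c * f w) z = (c : ℂ) • Hess f z := by
  rw [Hess_eq (contDiff_const.mul hf), Hess_eq hf, ← HessC_const_mul (sm_ofReal hf)]
  push_cast
  rfl

theorem Hess_mul (hf : ContDiff ℝ ∞ f) (hg : ContDiff ℝ ∞ g) (z : C3) (j k : Fin 3) :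
    Hess (fun w => f w * g w) z j k = Hess f z j k * g z + dzb k (fun w => (f w : ℂ)) z * dz j (fun w => (g w : ℂ)) z +
      dz j (fun w => (f w : ℂ)) z * dzb k (fun w => (g w : ℂ)) z + f z * Hess g z j k := by
  rw [Hess_eq (hf.mul hg), Hess_eq hf, Hess_eq hg, ← HessC_mul (sm_ofReal hf) (sm_ofReal hg)]
  push_cast
  rfl

/-- the chain rule for first derivatives -/
theorem pd_comp {X : ℝ → ℝ} (hX : ContDiff ℝ ∞ X) (hf : ContDiff ℝ ∞ f) (v z : C3) :
    pd v (fun w => ((X (f w) : ℝ) : ℂ)) z = ((deriv X (f z) : ℝ) : ℂ) * pd v (fun w => (f w : ℂ)) z := by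
  have h1 : DifferentiableAt ℝ f z := (hf.differentiable (by simp)).differentiableAt
  have h2 : DifferentiableAt ℝ X (f z) := (hX.differentiable (by simp)).differentiableAt
  have h0 : DifferentiableAt ℝ (fun w => X (f w)) z := h2.comp z h1
  rw [pd_ofReal h0, pd_ofReal h1]
  have h3 := (h2.hasDerivAt.comp_hasFDerivAt z h1.hasFDerivAt).fderiv
  change ((fderiv ℝ (X ∘ f) z v : ℝ) : ℂ) = _
  rw [h3]
  simp

theorem dz_comp {X : ℝ → ℝ} (hX : ContDiff ℝ ∞ X) (hf : ContDiff ℝ ∞ f) (j : Fin 3) (z : C3) :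
    dz j (fun w => ((X (f w) : ℝ) : ℂ)) z = ((deriv X (f z) : ℝ) : ℂ) * dz j (fun w => (f w : ℂ)) z := by
  rw [dz, pd_comp hX hf, pd_comp hX hf, dz]
  ring

theorem dzb_comp {X : ℝ → ℝ} (hX : ContDiff ℝ ∞ X) (hf : ContDiff ℝ ∞ f) (j : Fin 3) (z : C3) :
    dzb j (fun w => ((X (f w) : ℝ) : ℂ)) z = ((deriv X (f z) : ℝ) : ℂ) * dzb j (fun w => (f w : ℂ)) z := by
  rw [dzb, pd_comp hX hf, pd_comp hX hf, dzb]
  ring

theorem contDiff_deriv {X : ℝ → ℝ} (hX : ContDiff ℝ ∞ X) : ContDiff ℝ ∞ (deriv X) :=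
  (contDiff_infty_iff_deriv.1 hX).2

/-- the gradient `(∂_j f)` -/
noncomputable def grad (f : C3 → ℝ) (z : C3) : Fin 3 → ℂ := fun j => dz j (fun w => (f w : ℂ)) z

/-- the chain rule for Hessians -/
theorem Hess_comp {X : ℝ → ℝ} (hX : ContDiff ℝ ∞ X) (hf : ContDiff ℝ ∞ f) (z : C3) :
    Hess (fun w => X (f w)) z = ((deriv X (f z) : ℝ) : ℂ) • Hess f z + ((deriv (deriv X) (f z) : ℝ) : ℂ) • rk (grad f z) := by
  have hX' := contDiff_deriv hX
  have h1 := sm_ofReal hf
  have h2 : Sm fun w => ((deriv X (f w) : ℝ) : ℂ) := sm_ofReal (hX'.comp hf)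
  ext j k
  have h0 : ContDiff ℝ ∞ fun w => X (f w) := hX.comp hf
  rw [Hess_eq h0, HessC]
  have e1 : dzb k (fun w => ((X (f w) : ℝ) : ℂ)) =
      fun w => ((deriv X (f w) : ℝ) : ℂ) * dzb k (fun w => (f w : ℂ)) w := by
    funext w
    exact dzb_comp hX hf k w
  rw [e1, dz_mul h2 (h1.dzb k), dz_comp hX' hf, Hess_eq hf, Matrix.add_apply, Matrix.smul_apply, Matrix.smul_apply,
    rk_apply, HessC, dzb_ofReal_conj hf]
  simp only [smul_eq_mul, grad]
  ring

end real

/-! ### closedness -/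

/-- closed matrix fields: `∂_j B_lm = ∂_l B_jm`, `∂̄_k B_lm = ∂̄_m B_lk` -/
structure Cl (B : C3 → Mat) : Prop where
  sm : ∀ j k, Sm fun z => B z j k
  d : ∀ j l m z, dz j (fun w => B w l m) z = dz l (fun w => B w j m) z
  db : ∀ k l m z, dzb k (fun w => B w l m) z = dzb m (fun w => B w l k) z

theorem cl_const (A : Mat) : Cl fun _ => A where
  sm j k := sm_const _
  d j l m z := by rw [dz_const, dz_const]
  db k l m z := by rw [dzb_const, dzb_const]

theorem cl_HessC {F : C3 → ℂ} (hF : Sm F) : Cl (HessC F) where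
  sm j k := sm_HessC hF j k
  d j l m z := dz_dz_comm (hF.dzb m) j l z
  db k l m z := by
    have e : ∀ p, (fun w => HessC F w l p) = dzb p (dz l F) := fun p => by
      funext w
      exact dz_dzb_comm hF l p w
    rw [e, e, dzb_dzb_comm (hF.dz l)]

theorem cl_Hess {f : C3 → ℝ} (hf : ContDiff ℝ ∞ f) : Cl (Hess f) := by
  have h : Hess f = HessC fun w => (f w : ℂ) := by
    funext z
    exact Hess_eq hf z
  rw [h]
  exact cl_HessC (sm_ofReal hf)

/-- expansion of `D` in the entries of the last two variables -/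
theorem D_expand (X B C : Mat) : D X B C = ∑ l, ∑ m, ∑ p, ∑ q, B l m * C p q * D X (E l m) (E p q) := by
  rw [D_comm12, D_eq_sum_left]
  refine Finset.sum_congr rfl fun l _ => Finset.sum_congr rfl fun m _ => ?_
  rw [D_comm13, D_eq_sum_left, Finset.mul_sum]
  refine Finset.sum_congr rfl fun p _ => ?_
  rw [Finset.mul_sum]
  refine Finset.sum_congr rfl fun q _ => ?_
  rw [D_comm12 (E p q) X, D_comm23 X (E p q)]
  ring

section clD
variable {B C : C3 → Mat}

theorem sm_D (X : Mat) (hB : ∀ j k, Sm fun z => B z j k) (hC : ∀ j k, Sm fun z => C z j k) :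
    Sm fun z => D X (B z) (C z) := by
  have h : (fun z => D X (B z) (C z)) =
      fun z => ∑ l, ∑ m, ∑ p, ∑ q, B z l m * C z p q * D X (E l m) (E p q) := by
    funext z
    exact D_expand X (B z) (C z)
  rw [h]
  exact ContDiff.sum fun l _ => ContDiff.sum fun m _ => ContDiff.sum fun p _ => ContDiff.sum fun q _ =>
    ((hB l m).mul (hC p q)).mul contDiff_const

/-- the entrywise derivative of a matrix field -/
noncomputable def dM (n : Fin 3) (B : C3 → Mat) (z : C3) : Mat := fun l m => dz n (fun w => B w l m) z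

/-- the entrywise antiholomorphic derivative of a matrix field -/
noncomputable def dbM (n : Fin 3) (B : C3 → Mat) (z : C3) : Mat := fun l m => dzb n (fun w => B w l m) z

theorem dz_D (X : Mat) (hB : ∀ j k, Sm fun z => B z j k) (hC : ∀ j k, Sm fun z => C z j k) (n : Fin 3) (z : C3) :
    dz n (fun w => D X (B w) (C w)) z = D X (dM n B z) (C z) + D X (B z) (dM n C z) := by
  have h : (fun z => D X (B z) (C z)) =
      fun z => ∑ l, ∑ m, ∑ p, ∑ q, D X (E l m) (E p q) * (B z l m * C z p q) := by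
    funext z
    rw [D_expand X (B z) (C z)]
    refine Finset.sum_congr rfl fun l _ => Finset.sum_congr rfl fun m _ => Finset.sum_congr rfl fun p _ =>
      Finset.sum_congr rfl fun q _ => ?_
    ring
  have h4 : ∀ l m p q, Sm fun z => D X (E l m) (E p q) * (B z l m * C z p q) := fun l m p q =>
    contDiff_const.mul ((hB l m).mul (hC p q))
  rw [h, D_expand X (dM n B z), D_expand X (B z),
    dz_sum _ (fun l => ContDiff.sum fun m _ => ContDiff.sum fun p _ => ContDiff.sum fun q _ => h4 l m p q),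
    ← Finset.sum_add_distrib]
  refine Finset.sum_congr rfl fun l _ => ?_
  rw [dz_sum _ (fun m => ContDiff.sum fun p _ => ContDiff.sum fun q _ => h4 l m p q), ← Finset.sum_add_distrib]
  refine Finset.sum_congr rfl fun m _ => ?_
  rw [dz_sum _ (fun p => ContDiff.sum fun q _ => h4 l m p q), ← Finset.sum_add_distrib]
  refine Finset.sum_congr rfl fun p _ => ?_
  rw [dz_sum _ (fun q => h4 l m p q), ← Finset.sum_add_distrib]
  refine Finset.sum_congr rfl fun q _ => ?_
  rw [dz_const_mul ((hB l m).mul (hC p q)), dz_mul (hB l m) (hC p q), dM, dM]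
  ring

theorem dzb_D (X : Mat) (hB : ∀ j k, Sm fun z => B z j k) (hC : ∀ j k, Sm fun z => C z j k) (n : Fin 3) (z : C3) :
    dzb n (fun w => D X (B w) (C w)) z = D X (dbM n B z) (C z) + D X (B z) (dbM n C z) := by
  have h : (fun z => D X (B z) (C z)) =
      fun z => ∑ l, ∑ m, ∑ p, ∑ q, D X (E l m) (E p q) * (B z l m * C z p q) := by
    funext z
    rw [D_expand X (B z) (C z)]
    refine Finset.sum_congr rfl fun l _ => Finset.sum_congr rfl fun m _ => Finset.sum_congr rfl fun p _ =>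
      Finset.sum_congr rfl fun q _ => ?_
    ring
  have h4 : ∀ l m p q, Sm fun z => D X (E l m) (E p q) * (B z l m * C z p q) := fun l m p q =>
    contDiff_const.mul ((hB l m).mul (hC p q))
  rw [h, D_expand X (dbM n B z), D_expand X (B z),
    dzb_sum _ (fun l => ContDiff.sum fun m _ => ContDiff.sum fun p _ => ContDiff.sum fun q _ => h4 l m p q),
    ← Finset.sum_add_distrib]
  refine Finset.sum_congr rfl fun l _ => ?_
  rw [dzb_sum _ (fun m => ContDiff.sum fun p _ => ContDiff.sum fun q _ => h4 l m p q), ← Finset.sum_add_distrib]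
  refine Finset.sum_congr rfl fun m _ => ?_
  rw [dzb_sum _ (fun p => ContDiff.sum fun q _ => h4 l m p q), ← Finset.sum_add_distrib]
  refine Finset.sum_congr rfl fun p _ => ?_
  rw [dzb_sum _ (fun q => h4 l m p q), ← Finset.sum_add_distrib]
  refine Finset.sum_congr rfl fun q _ => ?_
  rw [dzb_const_mul ((hB l m).mul (hC p q)), dzb_mul (hB l m) (hC p q), dbM, dbM]
  ring

theorem sum_antisymm (f : Fin 3 → Fin 3 → ℂ) (h : ∀ j l, f j l = - f l j) : ∑ j, ∑ l, f j l = 0 := by
  have h1 : ∑ j, ∑ l, f j l = - ∑ j, ∑ l, f j l := by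
    conv_lhs => rw [Finset.sum_comm]
    rw [← Finset.sum_neg_distrib]
    refine Finset.sum_congr rfl fun j _ => ?_
    rw [← Finset.sum_neg_distrib]
    exact Finset.sum_congr rfl fun l _ => h l j
  exact self_eq_neg.1 h1

/-- `∑_j D(E_jk, M_j, C) = 0` if `(M_j)_lm` is symmetric in `j`, `l` -/
theorem sum_row_zero (M : Fin 3 → Mat) (hM : ∀ j l m, M j l m = M l j m) (k : Fin 3) (C : Mat) :
    ∑ j, D (E j k) (M j) C = 0 := by
  have h : ∀ j, D (E j k) (M j) C = ∑ m, ∑ l, M j l m * D (E j k) (E l m) C := by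
    intro j
    rw [D_comm12, D_eq_sum_left, Finset.sum_comm]
    refine Finset.sum_congr rfl fun m _ => Finset.sum_congr rfl fun l _ => ?_
    rw [D_comm12]
  simp_rw [h]
  rw [Finset.sum_comm]
  refine Finset.sum_eq_zero fun m _ => sum_antisymm _ fun j l => ?_
  rw [hM j l m, D_E_swap_row j k l m]
  ring

/-- `∑_k D(E_jk, M_k, C) = 0` if `(M_k)_lm` is symmetric in `k`, `m` -/
theorem sum_col_zero (M : Fin 3 → Mat) (hM : ∀ k l m, M k l m = M m l k) (j : Fin 3) (C : Mat) :
    ∑ k, D (E j k) (M k) C = 0 := by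
  have h : ∀ k, D (E j k) (M k) C = ∑ l, ∑ m, M k l m * D (E j k) (E l m) C := by
    intro k
    rw [D_comm12, D_eq_sum_left]
    refine Finset.sum_congr rfl fun l _ => Finset.sum_congr rfl fun m _ => ?_
    rw [D_comm12]
  simp_rw [h]
  rw [Finset.sum_comm]
  refine Finset.sum_eq_zero fun l _ => sum_antisymm _ fun k m => ?_
  rw [hM k l m, D_E_swap_col j k l m]
  ring

theorem div_row (hB : Cl B) (hC : Cl C) (k : Fin 3) (z : C3) :
    ∑ j, dz j (fun w => D (E j k) (B w) (C w)) z = 0 := by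
  simp_rw [dz_D _ hB.sm hC.sm]
  rw [Finset.sum_add_distrib, sum_row_zero (fun j => dM j B z) (fun j l m => hB.d j l m z) k (C z), zero_add]
  simp_rw [D_comm23 _ (B z)]
  exact sum_row_zero (fun j => dM j C z) (fun j l m => hC.d j l m z) k (B z)

theorem div_col (hB : Cl B) (hC : Cl C) (j : Fin 3) (z : C3) :
    ∑ k, dzb k (fun w => D (E j k) (B w) (C w)) z = 0 := by
  simp_rw [dzb_D _ hB.sm hC.sm]
  rw [Finset.sum_add_distrib, sum_col_zero (fun j => dbM j B z) (fun k l m => hB.db k l m z) j (C z), zero_add]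
  simp_rw [D_comm23 _ (B z)]
  exact sum_col_zero (fun j => dbM j C z) (fun k l m => hC.db k l m z) j (B z)

end clD

end KOL
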