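import Pool.Agent.KOL.Line

/-!
# Project KOL: the mass of the density of an atom
-/

set_option autoImplicit false

namespace KOL

open MeasureTheory Matrix Set
open Pool.Agent.Kolodziej

noncomputable section

lemma kd_integrable {d : ℝ} (hd : 0 < d) : Integrable (kd d) := by
  have h1 : Integrable (fun s : ℝ => kk (s / d) / d) :=
    ((kb.integrable_normed (μ := (volume : Measure ℝ))).comp_div hd.ne').div_const d
  exact h1

lemma kd_integral {d : ℝ} (hd : 0 < d) : ∫ s, kd d s = 1 := by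
  have h1 : ∫ t, kk t = 1 := kb.integral_normed
  have h2 : ∫ s, kd d s = (∫ s, kk (s / d)) / d := integral_div _ _
  rw [h2, Measure.integral_comp_div kk d, h1, abs_of_pos hd]
  simp [hd.ne']

/-- the integral of the scaled and translated bump -/
lemma lint_kd {W : ℝ} (hW : 0 < W) (X : ℝ) :
    ∫⁻ x : ℝ, ENNReal.ofReal (kd (1 / 16) ((x - X) / W)) = ENNReal.ofReal W := by
  have h0 : Integrable (fun x : ℝ => kd (1 / 16) ((x - X) / W)) :=
    ((kd_integrable (by norm_num : (0 : ℝ) < 1 / 16)).comp_div hW.ne').comp_sub_right X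
  rw [← ofReal_integral_eq_lintegral_ofReal h0
    (Filter.Eventually.of_forall fun x => kd_nonneg (by norm_num) _)]
  have h1 : ∫ x : ℝ, kd (1 / 16) ((x - X) / W) = ∫ x : ℝ, kd (1 / 16) (x / W) :=
    integral_sub_right_eq_self (fun x => kd (1 / 16) (x / W)) X
  rw [h1, Measure.integral_comp_div (kd (1 / 16)) W, kd_integral (by norm_num), abs_of_pos hW]
  simp

lemma kd_meas (d : ℝ) : Measurable (kd d) := (kd_smooth d).continuous.measurable

lemma measurable_sg (q : ℝ) : Measurable (sg q) := by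
  unfold sg
  fun_prop

lemma measurable_bump0 (X W : ℝ) : Measurable (bump0 X W) := by
  unfold bump0
  have := kd_meas (1 / 16)
  fun_prop

lemma measurable_bump1 (q : ℝ) : Measurable (bump1 q) := by
  unfold bump1
  have := kd_meas (1 / 16)
  have := measurable_sg q
  fun_prop

lemma bump0_nonneg (X W : ℝ) (w : ℂ) : 0 ≤ bump0 X W w :=
  div_nonneg (kd_nonneg (by norm_num) _) (sq_nonneg _)

lemma bump1_nonneg (q : ℝ) (w : ℂ) : 0 ≤ bump1 q w :=
  div_nonneg (kd_nonneg (by norm_num) _) (by positivity)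

/-- the mass of the first factor over one period -/
lemma lint_bump0 {W : ℝ} (hW : 0 < W) (X : ℝ) :
    ∫⁻ w : ℂ, ENNReal.ofReal ((Ico (0 : ℝ) 1).indicator 1 w.im * bump0 X W w) = ENNReal.ofReal (1 / W) := by
  have h0 := (Complex.volume_preserving_equiv_real_prod).lintegral_comp_emb
    Complex.measurableEquivRealProd.measurableEmbedding
    (fun p : ℝ × ℝ => ENNReal.ofReal (kd (1 / 16) ((p.1 - X) / W) / W ^ 2) *
      ENNReal.ofReal ((Ico (0 : ℝ) 1).indicator 1 p.2))
  have h1 : ∀ w : ℂ, ENNReal.ofReal ((Ico (0 : ℝ) 1).indicator 1 w.im * bump0 X W w) =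
      (fun p : ℝ × ℝ => ENNReal.ofReal (kd (1 / 16) ((p.1 - X) / W) / W ^ 2) *
      ENNReal.ofReal ((Ico (0 : ℝ) 1).indicator 1 p.2)) (Complex.measurableEquivRealProd w) := by
    intro w
    rw [mul_comm, ENNReal.ofReal_mul (bump0_nonneg X W w)]
    rfl
  simp_rw [h1]
  rw [h0]
  have hm1 : Measurable fun x : ℝ => ENNReal.ofReal (kd (1 / 16) ((x - X) / W) / W ^ 2) := by
    have := kd_meas (1 / 16)
    fun_prop
  have hm2 : Measurable fun y : ℝ => ENNReal.ofReal ((Ico (0 : ℝ) 1).indicator 1 y) :=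
    (measurable_one.indicator measurableSet_Ico).ennreal_ofReal
  have h2 := lintegral_prod_mul (μ := (volume : Measure ℝ)) (ν := (volume : Measure ℝ))
    hm1.aemeasurable hm2.aemeasurable
  have h3 : ∫⁻ x : ℝ, ENNReal.ofReal (kd (1 / 16) ((x - X) / W) / W ^ 2) =
      ENNReal.ofReal (1 / W) := by
    have h4 : ∀ x : ℝ, ENNReal.ofReal (kd (1 / 16) ((x - X) / W) / W ^ 2) =
        ENNReal.ofReal (1 / W ^ 2) * ENNReal.ofReal (kd (1 / 16) ((x - X) / W)) := by
      intro x
      rw [← ENNReal.ofReal_mul (by positivity)]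
      congr 1
      ring
    simp_rw [h4]
    rw [lintegral_const_mul _ (by
      have := kd_meas (1 / 16)
      fun_prop), lint_kd hW, ← ENNReal.ofReal_mul (by positivity)]
    congr 1
    field_simp
  have h5 : ∫⁻ y : ℝ, ENNReal.ofReal ((Ico (0 : ℝ) 1).indicator 1 y) = 1 := by
    have h6 : ∀ y : ℝ, ENNReal.ofReal ((Ico (0 : ℝ) 1).indicator 1 y) =
        (Ico (0 : ℝ) 1).indicator 1 y := by
      intro y
      by_cases hy : y ∈ Ico (0 : ℝ) 1
      · rw [indicator_of_mem hy, indicator_of_mem hy]; simp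
      · rw [indicator_of_notMem hy, indicator_of_notMem hy]; simp
    simp_rw [h6]
    rw [lintegral_indicator_one measurableSet_Ico, Real.volume_Ico]
    simp
  calc ∫⁻ (b : ℝ × ℝ), ENNReal.ofReal (kd (1 / 16) ((b.1 - X) / W) / W ^ 2) *
        ENNReal.ofReal ((Ico (0 : ℝ) 1).indicator 1 b.2)
      = (∫⁻ x : ℝ, ENNReal.ofReal (kd (1 / 16) ((x - X) / W) / W ^ 2)) *
        ∫⁻ y : ℝ, ENNReal.ofReal ((Ico (0 : ℝ) 1).indicator 1 y) := h2
    _ = ENNReal.ofReal (1 / W) := by rw [h3, h5, mul_one]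

/-- the mass of the other factors -/
lemma lint_bump1 {q : ℝ} (hq : 0 < q) :
    ∫⁻ w : ℂ, ENNReal.ofReal (bump1 q w) = ENNReal.ofReal (2 * Real.pi / q) := by
  rw [← Complex.lintegral_comp_polarCoord_symm]
  have h1 : ∀ p ∈ polarCoord.target, ENNReal.ofReal p.1 •
      ENNReal.ofReal (bump1 q (Complex.polarCoord.symm p)) =
      ENNReal.ofReal (kd (1 / 16) ((Real.log p.1 + q) / q) / (q ^ 2 * p.1)) := by
    intro p hp
    have hp1 : 0 < p.1 := by
      rw [polarCoord_target] at hp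
      exact hp.1
    rw [smul_eq_mul, ← ENNReal.ofReal_mul hp1.le]
    congr 1
    unfold bump1 sg
    rw [Complex.norm_polarCoord_symm, abs_of_pos hp1]
    field_simp
  rw [setLIntegral_congr_fun (by rw [polarCoord_target]; exact measurableSet_Ioi.prod measurableSet_Ioo) h1,
    polarCoord_target, Measure.volume_eq_prod, ← Measure.prod_restrict]
  have hm1 : Measurable fun x : ℝ => ENNReal.ofReal (kd (1 / 16) ((Real.log x + q) / q) / (q ^ 2 * x)) := by
    have := kd_meas (1 / 16)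
    fun_prop
  have h2 := lintegral_prod_mul (μ := (volume : Measure ℝ).restrict (Ioi 0))
    (ν := (volume : Measure ℝ).restrict (Ioo (-Real.pi) Real.pi))
    hm1.aemeasurable (measurable_const (a := (1 : ENNReal))).aemeasurable
  simp only [mul_one] at h2
  rw [h2, lintegral_const, one_mul, Measure.restrict_apply MeasurableSet.univ, univ_inter,
    Real.volume_Ioo]
  have h3 : ∫⁻ x : ℝ in Ioi 0, ENNReal.ofReal (kd (1 / 16) ((Real.log x + q) / q) / (q ^ 2 * x)) =
      ENNReal.ofReal (1 / q) := by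
    have h4 := lintegral_image_eq_lintegral_abs_deriv_mul (s := univ) (f := Real.exp)
      (f' := Real.exp) MeasurableSet.univ
      (fun x _ => (Real.hasDerivAt_exp x).hasDerivWithinAt) Real.exp_injective.injOn
      (fun x : ℝ => ENNReal.ofReal (kd (1 / 16) ((Real.log x + q) / q) / (q ^ 2 * x)))
    rw [image_univ, Real.range_exp] at h4
    rw [h4, Measure.restrict_univ]
    have h5 : ∀ s : ℝ, ENNReal.ofReal |Real.exp s| *
        ENNReal.ofReal (kd (1 / 16) ((Real.log (Real.exp s) + q) / q) / (q ^ 2 * Real.exp s)) =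
        ENNReal.ofReal (1 / q ^ 2) * ENNReal.ofReal (kd (1 / 16) ((s - (-q)) / q)) := by
      intro s
      have he := Real.exp_pos s
      rw [abs_of_pos he, ← ENNReal.ofReal_mul he.le, ← ENNReal.ofReal_mul (by positivity),
        Real.log_exp, sub_neg_eq_add]
      congr 1
      field_simp
    simp_rw [h5]
    rw [lintegral_const_mul _ (by
      have := kd_meas (1 / 16)
      fun_prop), lint_kd hq, ← ENNReal.ofReal_mul (by positivity)]
    congr 1
    field_simp
  rw [h3, ← ENNReal.ofReal_mul (by positivity)]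
  congr 1
  ring

lemma integral_of_lintegral {g : ℂ → ℝ} (hg : Measurable g) (h0 : ∀ w, 0 ≤ g w) {c : ℝ} (hc : 0 ≤ c)
    (h : ∫⁻ w, ENNReal.ofReal (g w) = ENNReal.ofReal c) : Integrable g ∧ ∫ w, g w = c := by
  have hi : Integrable g := by
    refine ⟨hg.aestronglyMeasurable, ?_⟩
    rw [hasFiniteIntegral_iff_ofReal (Filter.Eventually.of_forall h0), h]
    exact ENNReal.ofReal_lt_top
  refine ⟨hi, ?_⟩
  rw [integral_eq_lintegral_of_nonneg_ae (Filter.Eventually.of_forall h0) hg.aestronglyMeasurable,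
    h, ENNReal.toReal_ofReal hc]

lemma measurable_bump (X W q1 q2 : ℝ) : Measurable (bump X W q1 q2) := by
  unfold bump
  have h0 := measurable_bump0 X W
  have h1 := measurable_bump1 q1
  have h2 := measurable_bump1 q2
  fun_prop

lemma measurable_dens (a : Atom) : Measurable (dens a) := (measurable_bump _ _ _ _).const_mul _

lemma bump_nonneg (X W q1 q2 : ℝ) (z : C3) : 0 ≤ bump X W q1 q2 z :=
  mul_nonneg (mul_nonneg (bump0_nonneg _ _ _) (bump1_nonneg _ _)) (bump1_nonneg _ _)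

lemma lam_pos : 0 < lam := by unfold lam; norm_num

lemma dens_nonneg {c : ℝ} {a : Atom} (ha : Atom.Reg c a) (z : C3) : 0 ≤ dens a z := by
  have := ha.rpos
  have := lam_pos
  exact mul_nonneg (by positivity) (bump_nonneg _ _ _ _ _)

lemma bump1_eq_zero {q : ℝ} {w : ℂ} (h : ¬ |sg q w| < 1 / 16) : bump1 q w = 0 := by
  unfold bump1
  rw [kd_zero (by norm_num) _ (not_lt.1 h), zero_div]

lemma bump0_eq_zero {X W : ℝ} {w : ℂ} (h : ¬ |(w.re - X) / W| < 1 / 16) : bump0 X W w = 0 := by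
  unfold bump0
  rw [kd_zero (by norm_num) _ (not_lt.1 h), zero_div]

/-- the density vanishes off the box of the atom -/
lemma dens_eq_zero {a : Atom} {z : C3} (h : z ∉ reg a) : dens a z = 0 := by
  unfold dens bump
  by_cases h0 : |((z 0).re - lam * a.x) / (lam * a.w)| < 1 / 16
  · by_cases h1 : |sg a.q1 (z 1)| < 1 / 16
    · by_cases h2 : |sg a.q2 (z 2)| < 1 / 16
      · exact absurd ⟨h0, h1, h2⟩ h
      · rw [bump1_eq_zero h2]; ring
    · rw [bump1_eq_zero h1]; ring
  · rw [bump0_eq_zero h0]; ring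

lemma isOpen_reg (a : Atom) (hq1 : 0 < a.q1) (hq2 : 0 < a.q2) : IsOpen (reg a) := by
  have key : ∀ q : ℝ, 0 < q → IsOpen {w : ℂ | |sg q w| < 1 / 16} := by
    intro q hq
    have e : {w : ℂ | |sg q w| < 1 / 16} = {w : ℂ | w ≠ 0} ∩ {w : ℂ | |sg q w| < 1 / 16} := by
      ext w
      simp only [mem_ofPred_eq, mem_inter_iff]
      constructor
      · intro h
        refine ⟨?_, h⟩
        rintro rfl
        unfold sg at h
        simp at h
        rw [div_self hq.ne'] at h
        norm_num at h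
      · exact fun h => h.2
    rw [e]
    have hc : ContinuousOn (fun w : ℂ => |sg q w|) {w : ℂ | w ≠ 0} := by
      unfold sg
      apply ContinuousOn.abs
      apply ContinuousOn.div_const
      apply ContinuousOn.add _ continuousOn_const
      exact ContinuousOn.log continuous_norm.continuousOn (fun w hw => norm_ne_zero_iff.2 hw)
    exact hc.isOpen_inter_preimage isOpen_ne (isOpen_Iio (a := (1 / 16 : ℝ)))
  have h1 : IsOpen {z : C3 | |((z 0).re - lam * a.x) / (lam * a.w)| < 1 / 16} := by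
    apply isOpen_lt _ continuous_const
    fun_prop
  have c1 : Continuous fun z : C3 => z 1 := continuous_apply 1
  have c2 : Continuous fun z : C3 => z 2 := continuous_apply 2
  have h2 : IsOpen {z : C3 | |sg a.q1 (z 1)| < 1 / 16} := (key a.q1 hq1).preimage c1
  have h3 : IsOpen {z : C3 | |sg a.q2 (z 2)| < 1 / 16} := (key a.q2 hq2).preimage c2
  have e : reg a = {z : C3 | |((z 0).re - lam * a.x) / (lam * a.w)| < 1 / 16} ∩
      ({z : C3 | |sg a.q1 (z 1)| < 1 / 16} ∩ {z : C3 | |sg a.q2 (z 2)| < 1 / 16}) := rfl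
  rw [e]
  exact h1.inter (h2.inter h3)

/-- the exact mass over one period in the imaginary direction of the first coordinate -/
lemma lint_dens {c : ℝ} {a : Atom} (ha : Atom.Reg c a) :
    ∫⁻ z in {z : C3 | 0 ≤ (z 0).im ∧ (z 0).im < 1}, ENNReal.ofReal (dens a z) =
      ENNReal.ofReal ((16 * lam * a.r) ^ 3 / 4 * (1 / (lam * a.w) * (2 * Real.pi / a.q1) *
        (2 * Real.pi / a.q2))) := by
  have hr := ha.rpos
  have hw := ha.hw
  have hq1 := ha.q1pos
  have hq2 := ha.q2pos
  have hlam := lam_pos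
  set g0 : ℂ → ℝ := fun w => (Ico (0 : ℝ) 1).indicator 1 w.im * bump0 (lam * a.x) (lam * a.w) w with hg0
  have hm0 : Measurable g0 :=
    ((measurable_one.indicator measurableSet_Ico).comp Complex.measurable_im).mul
      (measurable_bump0 _ _)
  have hg0n : ∀ w, 0 ≤ g0 w := fun w =>
    mul_nonneg (indicator_nonneg (fun _ _ => zero_le_one) _) (bump0_nonneg _ _ _)
  obtain ⟨i0, e0⟩ := integral_of_lintegral hm0 hg0n (c := 1 / (lam * a.w)) (by positivity)
    (lint_bump0 (by positivity) _)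
  obtain ⟨i1, e1⟩ := integral_of_lintegral (measurable_bump1 a.q1) (bump1_nonneg a.q1)
    (c := 2 * Real.pi / a.q1) (by positivity) (lint_bump1 hq1)
  obtain ⟨i2, e2⟩ := integral_of_lintegral (measurable_bump1 a.q2) (bump1_nonneg a.q2)
    (c := 2 * Real.pi / a.q2) (by positivity) (lint_bump1 hq2)
  have hset : MeasurableSet {z : C3 | 0 ≤ (z 0).im ∧ (z 0).im < 1} := by
    have : Measurable fun z : C3 => (z 0).im := Complex.measurable_im.comp (measurable_pi_apply 0)
    exact this measurableSet_Ico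
  rw [← lintegral_indicator hset]
  have h1 : ∀ z : C3, ({z : C3 | 0 ≤ (z 0).im ∧ (z 0).im < 1}).indicator
      (fun z => ENNReal.ofReal (dens a z)) z =
      ENNReal.ofReal ((16 * lam * a.r) ^ 3 / 4) * ENNReal.ofReal (∏ j : Fin 3,
        (![g0, bump1 a.q1, bump1 a.q2] : Fin 3 → ℂ → ℝ) j (z j)) := by
    intro z
    rw [← ENNReal.ofReal_mul (by positivity), Fin.prod_univ_three]
    by_cases hz : 0 ≤ (z 0).im ∧ (z 0).im < 1
    · rw [indicator_of_mem (show z ∈ {z : C3 | 0 ≤ (z 0).im ∧ (z 0).im < 1} from hz)]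
      congr 1
      have hz' : (z 0).im ∈ Ico (0 : ℝ) 1 := hz
      show dens a z = _ * ((Ico (0 : ℝ) 1).indicator 1 (z 0).im * bump0 _ _ _ * bump1 _ _ * bump1 _ _)
      rw [indicator_of_mem hz']
      unfold dens bump
      simp
    · rw [indicator_of_notMem (show z ∉ {z : C3 | 0 ≤ (z 0).im ∧ (z 0).im < 1} from hz)]
      have hz' : (z 0).im ∉ Ico (0 : ℝ) 1 := hz
      show 0 = ENNReal.ofReal (_ * ((Ico (0 : ℝ) 1).indicator 1 (z 0).im * bump0 _ _ _ * bump1 _ _ * bump1 _ _))
      rw [indicator_of_notMem hz']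
      simp
  simp_rw [h1]
  have hint : Integrable (fun z : C3 => ∏ j : Fin 3,
      (![g0, bump1 a.q1, bump1 a.q2] : Fin 3 → ℂ → ℝ) j (z j)) := by
    apply Integrable.fintype_prod
    intro j
    fin_cases j
    · exact i0
    · exact i1
    · exact i2
  have hmeas : Measurable (fun z : C3 => ENNReal.ofReal (∏ j : Fin 3,
      (![g0, bump1 a.q1, bump1 a.q2] : Fin 3 → ℂ → ℝ) j (z j))) := by
    apply Measurable.ennreal_ofReal
    simp_rw [Fin.prod_univ_three]
    exact ((hm0.comp (measurable_pi_apply 0)).mul ((measurable_bump1 a.q1).comp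
      (measurable_pi_apply 1))).mul ((measurable_bump1 a.q2).comp (measurable_pi_apply 2))
  rw [lintegral_const_mul _ hmeas, ← ofReal_integral_eq_lintegral_ofReal hint
    (Filter.Eventually.of_forall fun z => by
      apply Finset.prod_nonneg
      intro j _
      fin_cases j
      · exact hg0n _
      · exact bump1_nonneg _ _
      · exact bump1_nonneg _ _),
    ← ENNReal.ofReal_mul (by positivity)]
  have hprod : ∫ z : C3, ∏ j : Fin 3, (![g0, bump1 a.q1, bump1 a.q2] : Fin 3 → ℂ → ℝ) j (z j) =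
      ∏ j : Fin 3, ∫ w, (![g0, bump1 a.q1, bump1 a.q2] : Fin 3 → ℂ → ℝ) j w :=
    integral_fintype_prod_volume_eq_prod (fun j => (![g0, bump1 a.q1, bump1 a.q2] : Fin 3 → ℂ → ℝ) j)
  rw [hprod, Fin.prod_univ_three]
  congr 2
  show (∫ w, g0 w) * (∫ w, bump1 a.q1 w) * (∫ w, bump1 a.q2 w) = _
  rw [e0, e1, e2]

/-- **the mass of an atom of block `k`** -/
theorem mass_dens {blk : ℕ → Set Atom} {c : ℕ → ℝ} {R : ℕ → ℕ} {w L S : ℕ → ℝ}
    (h : Blocks blk c R w L S) {k : ℕ} {a : Atom} (ha : a ∈ blk k) :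
    ∫⁻ z in {z : C3 | 0 ≤ (z 0).im ∧ (z 0).im < 1}, ENNReal.ofReal (dens a z) ≤
      ENNReal.ofReal (100 / (S k) ^ 2) := by
  have hb := h.inb k a ha
  rw [lint_dens hb.reg]
  apply ENNReal.ofReal_le_ofReal
  have hr := hb.reg.rpos
  have hw := hb.reg.hw
  have hq1 := hb.reg.q1pos
  have hq2 := hb.reg.q2pos
  have hS := h.S_ge k
  obtain ⟨s1, s2⟩ := h.S_le k a ha
  have hweq := hb.w_eq
  have hw1 := h.w_le k
  have hrle := hb.r_le
  have hpi : Real.pi ≤ 4 := by have := Real.pi_le_four; linarith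
  have hpi0 := Real.pi_pos
  have hS0 : 0 < S k := by linarith
  have hr3 : a.r ^ 3 ≤ a.w / 8 := by
    rw [← hweq] at hrle hw1
    have h1 : a.r ^ 3 ≤ (a.w / 2) ^ 3 := pow_le_pow_left₀ hr.le hrle 3
    have h2 : (a.w / 2) ^ 3 = a.w ^ 3 / 8 := by ring
    have h3 : a.w ^ 3 ≤ a.w := by
      have : a.w ^ 3 = a.w * (a.w * a.w) := by ring
      rw [this]
      have h4 : a.w * a.w ≤ 1 := by nlinarith
      nlinarith
    linarith
  have hqq : S k ^ 2 ≤ a.q1 * a.q2 := by
    rw [pow_two]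
    exact mul_le_mul s1 s2 hS0.le hq1.le
  have e : (16 * lam * a.r) ^ 3 / 4 * (1 / (lam * a.w) * (2 * Real.pi / a.q1) *
      (2 * Real.pi / a.q2)) = (64 / 25) * Real.pi ^ 2 * (a.r ^ 3 / a.w) / (a.q1 * a.q2) := by
    unfold lam
    field_simp
    ring
  rw [e]
  have h1 : a.r ^ 3 / a.w ≤ 1 / 8 := by
    rw [div_le_iff₀ hw]; linarith
  have h2 : 0 ≤ a.r ^ 3 / a.w := by positivity
  have h3 : Real.pi ^ 2 ≤ 16 := by nlinarith
  have h4 : (64 / 25) * Real.pi ^ 2 * (a.r ^ 3 / a.w) ≤ 100 := by nlinarith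
  have h5 : 0 ≤ (64 / 25) * Real.pi ^ 2 * (a.r ^ 3 / a.w) := by positivity
  calc (64 / 25) * Real.pi ^ 2 * (a.r ^ 3 / a.w) / (a.q1 * a.q2)
      ≤ (64 / 25) * Real.pi ^ 2 * (a.r ^ 3 / a.w) / (S k) ^ 2 :=
        div_le_div_of_nonneg_left h5 (by positivity) hqq
    _ ≤ 100 / (S k) ^ 2 := div_le_div_of_nonneg_right h4 (by positivity)

end

end KOL
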