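import Pool.Agent.KOL.Line
import Pool.Agent.KOL.Sep
import Pool.Agent.KOL.Mass

/-!
# Project KOL: the complex Hessian of the functions `hfun a` on the box of the atom `a`
-/

set_option autoImplicit false

namespace KOL

open MeasureTheory Matrix Set Filter
open Pool.Agent.Kolodziej
open scoped ContDiff Topology ComplexOrder

noncomputable section

theorem Hess_congr {f g : C3 → ℝ} {z : C3} (h : f =ᶠ[𝓝 z] g) : Hess f z = Hess g z := by
  have h1 : ∀ a b, D2 f z a b = D2 g z a b := by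
    intro a b
    unfold D2
    rw [h.fderiv.fderiv_eq]
  ext j k
  unfold Hess
  simp only [h1]

theorem Hess_translate (f : C3 → ℝ) (t z : C3) : Hess (fun z => f (z + t)) z = Hess f (z + t) := by
  have h1 : fderiv ℝ (fun z => f (z + t)) = fun z => fderiv ℝ f (z + t) := by
    funext z
    exact fderiv_comp_add_right t
  have h2 : ∀ a b, D2 (fun z => f (z + t)) z a b = D2 f (z + t) a b := by
    intro a b
    unfold D2
    rw [h1, fderiv_comp_add_right t]
  ext j k
  unfold Hess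
  simp only [h2]

/-- smooth version of `BB` as a function of the logarithm -/
def GB (q s : ℝ) : ℝ := Pd 1 (s + 2 * q) / (16 * q) + Pd (1 / 16) ((s + q) / q) / 16

theorem GB_smooth (q : ℝ) : ContDiff ℝ ∞ (GB q) := by
  unfold GB
  have h1 := Pd_smooth 1
  have h2 := Pd_smooth (1 / 16)
  have h3 : ContDiff ℝ ∞ fun s : ℝ => s + 2 * q := contDiff_id.add contDiff_const
  have h4 : ContDiff ℝ ∞ fun s : ℝ => (s + q) / q := (contDiff_id.add contDiff_const).div_const _
  exact ((h1.comp h3).div_const _).add ((h2.comp h4).div_const _)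

theorem GB_zero {q : ℝ} (hq : 0 < q) (s : ℝ) (h : s ≤ -(2 * q) - 1) : GB q s = 0 := by
  unfold GB
  rw [Pd_low one_pos _ (by linarith), Pd_low (by norm_num) _ (by
    rw [div_le_iff₀ hq]
    linarith)]
  simp

theorem GB_eq {q : ℝ} (hq : 0 < q) (w : ℂ) (h : -(2 * q) + 1 ≤ Real.log ‖w‖) :
    GB q (Real.log ‖w‖) = BB (sg q w) := by
  unfold GB BB sg
  rw [Pd_high one_pos _ (by linarith)]
  field_simp
  ring

theorem deriv_Pd_comp {d : ℝ} (hd : 0 < d) (α β : ℝ) :
    deriv (fun s => Pd d (α * s + β)) = fun s => α * Qd d (α * s + β) := by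
  funext s
  have h1 : HasDerivAt (fun s => α * s + β) α s := by
    have := ((hasDerivAt_id s).const_mul α).add_const β
    simpa using this
  have h2 := (Pd_hasDeriv hd (α * s + β)).comp s h1
  rw [mul_comm α]
  exact h2.deriv

theorem deriv2_Pd_comp {d : ℝ} (hd : 0 < d) (α β : ℝ) (s : ℝ) :
    deriv (deriv (fun s => Pd d (α * s + β))) s = α ^ 2 * kd d (α * s + β) := by
  rw [deriv_Pd_comp hd]
  have h1 : HasDerivAt (fun s => α * s + β) α s := by
    have := ((hasDerivAt_id s).const_mul α).add_const β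
    simpa using this
  have h2 := ((Qd_hasDeriv d (α * s + β)).comp s h1).const_mul α
  rw [show α ^ 2 * kd d (α * s + β) = α * (kd d (α * s + β) * α) by ring]
  exact h2.deriv

theorem GB_deriv2 {q : ℝ} (hq : 0 < q) (s : ℝ) (hs : -(2 * q) + 1 ≤ s) :
    deriv (deriv (GB q)) s = kd (1 / 16) ((s + q) / q) / (16 * q ^ 2) := by
  have e1 : GB q = fun s => (1 / (16 * q)) * Pd 1 (1 * s + 2 * q) + (1 / 16) * Pd (1 / 16) ((1 / q) * s + 1) := by
    funext s
    unfold GB
    have : (s + q) / q = (1 / q) * s + 1 := by field_simp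
    rw [this, one_mul]
    ring
  have d1 : Differentiable ℝ fun s : ℝ => Pd 1 (1 * s + 2 * q) :=
    ((Pd_smooth 1).comp ((contDiff_const.mul contDiff_id).add contDiff_const)).differentiable (by simp)
  have d2 : Differentiable ℝ fun s : ℝ => Pd (1 / 16) ((1 / q) * s + 1) :=
    ((Pd_smooth (1 / 16)).comp ((contDiff_const.mul contDiff_id).add contDiff_const)).differentiable (by simp)
  have c1 : Differentiable ℝ fun s : ℝ => 1 * Qd 1 (1 * s + 2 * q) :=
    (contDiff_const.mul ((Qd_smooth 1).comp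
      ((contDiff_const.mul contDiff_id).add contDiff_const))).differentiable (n := ∞) (by simp)
  have c2 : Differentiable ℝ fun s : ℝ => (1 / q) * Qd (1 / 16) ((1 / q) * s + 1) :=
    (contDiff_const.mul ((Qd_smooth (1 / 16)).comp
      ((contDiff_const.mul contDiff_id).add contDiff_const))).differentiable (n := ∞) (by simp)
  have e2 : deriv (GB q) = fun s => (1 / (16 * q)) * (1 * Qd 1 (1 * s + 2 * q)) +
      (1 / 16) * ((1 / q) * Qd (1 / 16) ((1 / q) * s + 1)) := by
    funext s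
    have h1 := (d1 s).hasDerivAt
    have h2 := (d2 s).hasDerivAt
    rw [deriv_Pd_comp one_pos] at h1
    rw [deriv_Pd_comp (by norm_num)] at h2
    rw [e1]
    exact ((h1.const_mul (1 / (16 * q))).add (h2.const_mul (1 / 16))).deriv
  rw [e2]
  have h1 := (c1 s).hasDerivAt
  have h2 := (c2 s).hasDerivAt
  have f1 := deriv2_Pd_comp one_pos 1 (2 * q) s
  have f2 := deriv2_Pd_comp (by norm_num : (0 : ℝ) < 1 / 16) (1 / q) 1 s
  rw [deriv_Pd_comp one_pos] at f1
  rw [deriv_Pd_comp (by norm_num)] at f2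
  rw [f1] at h1
  rw [f2] at h2
  refine ((h1.const_mul (1 / (16 * q))).add (h2.const_mul (1 / 16))).deriv.trans ?_
  rw [kd_zero one_pos (1 * s + 2 * q) (by rw [abs_of_nonneg (by linarith)]; linarith)]
  have : (s + q) / q = (1 / q) * s + 1 := by field_simp
  rw [this]
  field_simp
  ring

/-- the one-dimensional function in the first coordinate -/
def GA (a : Atom) (y : ℝ) : ℝ :=
  7 * (a.val + a.k * (y / lam - a.x) + a.r * (Ad (1 / 16) ((y - lam * a.x) / (lam * a.w)) / 2))

theorem GA_smooth (a : Atom) : ContDiff ℝ ∞ (GA a) := by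
  unfold GA
  have h1 := Ad_smooth (1 / 16)
  have h2 : ContDiff ℝ ∞ fun y : ℝ => (y - lam * a.x) / (lam * a.w) :=
    (contDiff_id.sub contDiff_const).div_const _
  have h3 : ContDiff ℝ ∞ fun y : ℝ => y / lam - a.x :=
    (contDiff_id.div_const _).sub contDiff_const
  exact contDiff_const.mul ((contDiff_const.add (contDiff_const.mul h3)).add
    (contDiff_const.mul ((h1.comp h2).div_const _)))

theorem GA_deriv2 (a : Atom) (hw : 0 < a.w) (y : ℝ) : deriv (deriv (GA a)) y =
    7 * a.r * (kd (1 / 16) ((y - lam * a.x) / (lam * a.w)) / (lam * a.w) ^ 2) := by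
  have hlam := lam_pos
  have h2 : ∀ y, HasDerivAt (fun y : ℝ => (y - lam * a.x) / (lam * a.w)) (1 / (lam * a.w)) y :=
    fun y => ((hasDerivAt_id y).sub_const _).div_const _
  have h3 : ∀ y, HasDerivAt (fun y : ℝ => y / lam - a.x) (1 / lam) y :=
    fun y => ((hasDerivAt_id y).div_const _).sub_const _
  have e1 : deriv (GA a) = fun y => 7 * (a.k * (1 / lam) +
      a.r * ((2 * Qd (1 / 16) ((y - lam * a.x) / (lam * a.w)) - 1) * (1 / (lam * a.w)) / 2)) := by
    funext y
    have h4 := (Ad_hasDeriv (by norm_num : (0 : ℝ) < 1 / 16) ((y - lam * a.x) / (lam * a.w))).comp y (h2 y)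
    have h5 := ((((h3 y).const_mul a.k).const_add a.val).add ((h4.div_const 2).const_mul a.r)).const_mul 7
    exact h5.deriv
  rw [e1]
  have h4 := (Qd_hasDeriv (1 / 16) ((y - lam * a.x) / (lam * a.w))).comp y (h2 y)
  have h5 := ((((((h4.const_mul 2).sub_const 1).mul_const (1 / (lam * a.w))).div_const 2).const_mul
    a.r).const_add (a.k * (1 / lam))).const_mul 7
  refine h5.deriv.trans ?_
  field_simp

/-- the separated functions -/
def HH (a : Atom) : Fin 3 → ℂ → ℝ :=
  ![fun w => GA a w.re, fun w => 7 * a.r * logf (GB a.q1) w, fun w => 7 * a.r * logf (GB a.q2) w]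

theorem HH_smooth {a : Atom} (hq1 : 0 < a.q1) (hq2 : 0 < a.q2) (j : Fin 3) : ContDiff ℝ ∞ (HH a j) := by
  fin_cases j
  · exact (GA_smooth a).comp re_smooth
  · exact contDiff_const.mul (logf_smooth (GB_smooth a.q1) (GB_zero hq1))
  · exact contDiff_const.mul (logf_smooth (GB_smooth a.q2) (GB_zero hq2))

theorem reg_log {q : ℝ} (hq : 100 ≤ q) {w : ℂ} (h : |sg q w| < 1 / 16) :
    w ≠ 0 ∧ -(2 * q) + 1 ≤ Real.log ‖w‖ := by
  have hq0 : 0 < q := by linarith
  constructor
  · rintro rfl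
    unfold sg at h
    simp at h
    rw [div_self hq0.ne'] at h
    norm_num at h
  · have h1 := (abs_lt.1 h).1
    unfold sg at h1
    rw [lt_div_iff₀ hq0] at h1
    linarith

theorem hfun_eq_sep {a : Atom} (hq1 : 100 ≤ a.q1) (hq2 : 100 ≤ a.q2) {z : C3} (hz : z ∈ reg a) :
    7 * hfun a z = sep (HH a) z := by
  obtain ⟨h0, h1, h2⟩ := hz
  obtain ⟨n1, l1⟩ := reg_log hq1 h1
  obtain ⟨n2, l2⟩ := reg_log hq2 h2
  unfold sep
  rw [Fin.sum_univ_three]
  show _ = GA a (z 0).re + 7 * a.r * logf (GB a.q1) (z 1) + 7 * a.r * logf (GB a.q2) (z 2)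
  rw [logf_of_ne _ n1, logf_of_ne _ n2, GB_eq (by linarith) _ l1, GB_eq (by linarith) _ l2]
  unfold hfun GA
  ring

theorem lap_HH0 (a : Atom) (hw : 0 < a.w) (w : ℂ) :
    lap (HH a 0) w = 7 / 4 * a.r * bump0 (lam * a.x) (lam * a.w) w := by
  show lap (fun w => GA a w.re) w = _
  rw [lap_of_re (GA_smooth a), GA_deriv2 a hw]
  unfold bump0
  ring

theorem lap_logGB {q : ℝ} (hq : 100 ≤ q) (r : ℝ) {w : ℂ} (h : |sg q w| < 1 / 16) :
    lap (fun w => 7 * r * logf (GB q) w) w = 7 / 64 * r * bump1 q w := by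
  have hq0 : 0 < q := by linarith
  obtain ⟨n1, l1⟩ := reg_log hq h
  rw [lap_const_mul (logf_smooth (GB_smooth q) (GB_zero hq0)), lap_logf (GB_smooth q) n1,
    GB_deriv2 hq0 _ l1]
  unfold bump1 sg
  have := norm_pos_iff.2 n1
  field_simp
  ring

/-- the function is smooth on the (translated) box -/
theorem hfun_contDiffOn {a : Atom} (hq1 : 100 ≤ a.q1) (hq2 : 100 ≤ a.q2) (t : C3) :
    ContDiffOn ℝ ∞ (fun z => 7 * hfun a (z + t)) {z | z + t ∈ reg a} := by
  have h1 : ContDiff ℝ ∞ fun z : C3 => sep (HH a) (z + t) :=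
    (sep_smooth (HH_smooth (by linarith) (by linarith))).comp (contDiff_id.add contDiff_const)
  exact h1.contDiffOn.congr fun z hz => hfun_eq_sep hq1 hq2 hz

theorem Hess_hfun {a : Atom} (hw : 0 < a.w) (hq1 : 100 ≤ a.q1) (hq2 : 100 ≤ a.q2) (t : C3) {z : C3}
    (hz : z + t ∈ reg a) : Hess (fun z => 7 * hfun a (z + t)) z =
      Matrix.diagonal fun j => (((![7 / 4 * a.r * bump0 (lam * a.x) (lam * a.w) ((z + t) 0),
        7 / 64 * a.r * bump1 a.q1 ((z + t) 1), 7 / 64 * a.r * bump1 a.q2 ((z + t) 2)] : Fin 3 → ℝ) j : ℝ) : ℂ) := by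
  have ho : IsOpen {z : C3 | z + t ∈ reg a} :=
    (isOpen_reg a (by linarith) (by linarith)).preimage (continuous_id.add continuous_const)
  have h1 : (fun z => 7 * hfun a (z + t)) =ᶠ[𝓝 z] fun z => sep (HH a) (z + t) := by
    filter_upwards [ho.mem_nhds hz] with y hy
    exact hfun_eq_sep hq1 hq2 hy
  rw [Hess_congr h1, Hess_translate, Hess_sep (HH_smooth (by linarith) (by linarith))]
  congr 1
  funext j
  congr 1
  fin_cases j
  · exact lap_HH0 a hw _
  · exact lap_logGB hq1 a.r hz.2.1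
  · exact lap_logGB hq2 a.r hz.2.2

theorem Hess_hfun_pos {a : Atom} (hw : 0 < a.w) (hr : 0 < a.r) (hq1 : 100 ≤ a.q1) (hq2 : 100 ≤ a.q2)
    (t : C3) {z : C3} (hz : z + t ∈ reg a) : (Hess (fun z => 7 * hfun a (z + t)) z).PosSemidef := by
  rw [Hess_hfun hw hq1 hq2 t hz, Matrix.posSemidef_diagonal_iff]
  intro j
  rw [← Complex.ofReal_zero, Complex.real_le_real]
  fin_cases j
  · exact mul_nonneg (by positivity) (bump0_nonneg _ _ _)
  · exact mul_nonneg (by positivity) (bump1_nonneg _ _)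
  · exact mul_nonneg (by positivity) (bump1_nonneg _ _)

theorem Hess_hfun_det {a : Atom} (hw : 0 < a.w) (hr : 0 < a.r) (hq1 : 100 ≤ a.q1) (hq2 : 100 ≤ a.q2)
    (t : C3) {z : C3} (hz : z + t ∈ reg a) :
    dens a (z + t) ≤ (Hess (fun z => 7 * hfun a (z + t)) z).det.re := by
  rw [Hess_hfun hw hq1 hq2 t hz, Matrix.det_diagonal, Fin.prod_univ_three, ← Complex.ofReal_mul,
    ← Complex.ofReal_mul, Complex.ofReal_re]
  show dens a (z + t) ≤ 7 / 4 * a.r * bump0 (lam * a.x) (lam * a.w) ((z + t) 0) *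
    (7 / 64 * a.r * bump1 a.q1 ((z + t) 1)) * (7 / 64 * a.r * bump1 a.q2 ((z + t) 2))
  have hb := bump_nonneg (lam * a.x) (lam * a.w) a.q1 a.q2 (z + t)
  have e1 : 7 / 4 * a.r * bump0 (lam * a.x) (lam * a.w) ((z + t) 0) *
    (7 / 64 * a.r * bump1 a.q1 ((z + t) 1)) * (7 / 64 * a.r * bump1 a.q2 ((z + t) 2)) =
      (343 / 16384) * a.r ^ 3 * bump (lam * a.x) (lam * a.w) a.q1 a.q2 (z + t) := by
    unfold bump
    ring
  rw [e1]
  unfold dens lam at *
  have h3 : 0 < a.r ^ 3 := by positivity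
  have e2 : (16 * (1 / 40) * a.r) ^ 3 / 4 = (2 / 125) * a.r ^ 3 := by ring
  rw [e2]
  apply mul_le_mul_of_nonneg_right _ hb
  nlinarith

end

end KOL
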