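import Pool.Agent.KOL.Line
import Pool.Agent.KOL.Sep
import Pool.Agent.KOL.Mass

/-!
# Project KOL, row MU: smooth representatives of the functions of the atoms, and their Hessians
-/

set_option autoImplicit false

namespace KOL.Mu

open MeasureTheory Set Matrix Filter
open Pool.Agent.Kolodziej
open scoped ENNReal ContDiff Topology ComplexOrder

noncomputable section

/-- the profile of an atom in the variable `log |w|`, cut off at `-∞` -/
def gq (q t : ℝ) : ℝ := BB ((t + q) / q) * Qd (1 / 16) ((t + q) / q + 1 / 4)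

theorem aff_smooth (q : ℝ) : ContDiff ℝ ∞ fun t : ℝ => (t + q) / q :=
  (contDiff_id.add contDiff_const).div_const q

theorem BB_smooth : ContDiff ℝ ∞ BB :=
  ((contDiff_id.add contDiff_const).div_const 16).add ((Pd_smooth (1 / 16)).div_const 16)

theorem gq_smooth (q : ℝ) : ContDiff ℝ ∞ (gq q) :=
  (BB_smooth.comp (aff_smooth q)).mul ((Qd_smooth (1 / 16)).comp ((aff_smooth q).add contDiff_const))

theorem gq_low {q : ℝ} (hq : 0 < q) (t : ℝ) (h : t ≤ -(21 / 16 * q)) : gq q t = 0 := by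
  unfold gq
  rw [Qd_low (by norm_num), mul_zero]
  have : (t + q) / q ≤ -(5 / 16) := by
    rw [div_le_iff₀ hq]
    linarith
  linarith

theorem gq_eq {q t : ℝ} (h : -(3 / 16) ≤ (t + q) / q) : gq q t = BB ((t + q) / q) := by
  unfold gq
  rw [Qd_high (by norm_num), mul_one]
  linarith

theorem BB_deriv : deriv BB = fun s => 1 / 16 + Qd (1 / 16) s / 16 := by
  funext s
  have h1 : HasDerivAt BB (1 / 16 + Qd (1 / 16) s / 16) s :=
    (((hasDerivAt_id s).add_const 1).div_const 16).add ((Pd_hasDeriv (by norm_num) s).div_const 16)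
  exact h1.deriv

theorem gq_deriv2 {q t : ℝ} (hq : 0 < q) (h : -(3 / 16) < (t + q) / q) :
    deriv (deriv (gq q)) t = kd (1 / 16) ((t + q) / q) / (16 * q ^ 2) := by
  have hev : gq q =ᶠ[𝓝 t] fun t => BB ((t + q) / q) := by
    have hop : IsOpen {t : ℝ | -(3 / 16) < (t + q) / q} :=
      isOpen_lt continuous_const (aff_smooth q).continuous
    filter_upwards [hop.mem_nhds h] with x hx
    exact gq_eq (le_of_lt hx)
  have haff : ∀ x : ℝ, HasDerivAt (fun t : ℝ => (t + q) / q) (1 / q) x := fun x =>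
    ((hasDerivAt_id x).add_const q).div_const q
  have h1 : deriv (fun t => BB ((t + q) / q)) = fun t => (1 / 16 + Qd (1 / 16) ((t + q) / q) / 16) * (1 / q) := by
    funext x
    have h2 : HasDerivAt BB (1 / 16 + Qd (1 / 16) ((x + q) / q) / 16) ((x + q) / q) :=
      (((hasDerivAt_id _).add_const 1).div_const 16).add ((Pd_hasDeriv (by norm_num) _).div_const 16)
    exact (h2.comp x (haff x)).deriv
  rw [(hev.deriv).deriv_eq, h1]
  have h3 : HasDerivAt (fun t => (1 / 16 + Qd (1 / 16) ((t + q) / q) / 16) * (1 / q))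
      ((kd (1 / 16) ((t + q) / q) * (1 / q) / 16) * (1 / q)) t :=
    ((((Qd_hasDeriv (1 / 16) ((t + q) / q)).comp t (haff t)).div_const 16).const_add (1 / 16)).mul_const (1 / q)
  rw [h3.deriv]
  have : q ≠ 0 := hq.ne'
  field_simp

/-- the profile of an atom in the first variable -/
def g0 (a : Atom) (x : ℝ) : ℝ :=
  7 * (a.val + a.k * (x / lam - a.x) + a.r * (Ad (1 / 16) ((x - lam * a.x) / (lam * a.w)) / 2))

theorem g0_smooth (a : Atom) : ContDiff ℝ ∞ (g0 a) := by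
  unfold g0
  have h1 : ContDiff ℝ ∞ fun x : ℝ => (x - lam * a.x) / (lam * a.w) :=
    (contDiff_id.sub contDiff_const).div_const _
  exact contDiff_const.mul ((contDiff_const.add (contDiff_const.mul
    ((contDiff_id.div_const lam).sub contDiff_const))).add
    (contDiff_const.mul (((Ad_smooth (1 / 16)).comp h1).div_const 2)))

theorem g0_deriv2 (a : Atom) (hw : 0 < a.w) (x : ℝ) : deriv (deriv (g0 a)) x =
    7 * a.r * (kd (1 / 16) ((x - lam * a.x) / (lam * a.w)) / (lam * a.w) ^ 2) := by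
  have hl := lam_pos
  have hlw : lam * a.w ≠ 0 := (mul_pos hl hw).ne'
  have haff : ∀ x : ℝ, HasDerivAt (fun x : ℝ => (x - lam * a.x) / (lam * a.w)) (1 / (lam * a.w)) x := fun x =>
    ((hasDerivAt_id x).sub_const _).div_const _
  have h1 : deriv (g0 a) = fun x => 7 * (a.k * (1 / lam) +
      a.r * ((2 * Qd (1 / 16) ((x - lam * a.x) / (lam * a.w)) - 1) * (1 / (lam * a.w)) / 2)) := by
    funext x
    have h2 := (Ad_hasDeriv (d := 1 / 16) (by norm_num) ((x - lam * a.x) / (lam * a.w))).comp x (haff x)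
    have h3 : HasDerivAt (fun x : ℝ => a.val + a.k * (x / lam - a.x)) (a.k * (1 / lam)) x :=
      ((((hasDerivAt_id x).div_const lam).sub_const a.x).const_mul a.k).const_add a.val
    have h4 : HasDerivAt (g0 a) (7 * (a.k * (1 / lam) +
      a.r * ((2 * Qd (1 / 16) ((x - lam * a.x) / (lam * a.w)) - 1) * (1 / (lam * a.w)) / 2))) x :=
      (h3.add ((h2.div_const 2).const_mul a.r)).const_mul 7
    exact h4.deriv
  rw [h1]
  have h5 := (Qd_hasDeriv (1 / 16) ((x - lam * a.x) / (lam * a.w))).comp x (haff x)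
  have h6 : HasDerivAt (fun x => 7 * (a.k * (1 / lam) +
      a.r * ((2 * Qd (1 / 16) ((x - lam * a.x) / (lam * a.w)) - 1) * (1 / (lam * a.w)) / 2)))
      (7 * (a.r * ((2 * (kd (1 / 16) ((x - lam * a.x) / (lam * a.w)) * (1 / (lam * a.w)))) *
        (1 / (lam * a.w)) / 2))) x :=
    ((((((h5.const_mul 2).sub_const 1).mul_const (1 / (lam * a.w))).div_const 2).const_mul a.r).const_add
      (a.k * (1 / lam))).const_mul 7
  rw [h6.deriv]
  field_simp

theorem lap_translate (f : ℂ → ℝ) (c w : ℂ) : lap (fun w => f (w + c)) w = lap f (w + c) := by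
  unfold lap
  have h1 : fderiv ℝ (fun w => f (w + c)) = fun w => fderiv ℝ f (w + c) := by
    funext x
    rw [fderiv_comp_add_right]
  rw [h1]
  have h2 : fderiv ℝ (fun w => fderiv ℝ f (w + c)) w = fderiv ℝ (fderiv ℝ f) (w + c) := by
    rw [fderiv_comp_add_right]
  rw [h2]

/-- the smooth representative of `7 h_a (z + t)` -/
def HH (a : Atom) (t : C3) : Fin 3 → ℂ → ℝ :=
  ![fun w => g0 a (w + t 0).re, fun w => 7 * a.r * logf (gq a.q1) (w + t 1),
    fun w => 7 * a.r * logf (gq a.q2) (w + t 2)]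

theorem logf_gq_smooth {q : ℝ} (hq : 0 < q) : ContDiff ℝ ∞ (logf (gq q)) :=
  logf_smooth (gq_smooth q) (a := -(21 / 16 * q)) fun s hs => gq_low hq s hs

theorem HH_smooth (a : Atom) (h1 : 0 < a.q1) (h2 : 0 < a.q2) (t : C3) (j : Fin 3) :
    ContDiff ℝ ∞ (HH a t j) := by
  fin_cases j
  · exact ((g0_smooth a).comp re_smooth).comp (contDiff_id.add contDiff_const)
  · exact contDiff_const.mul ((logf_gq_smooth h1).comp (contDiff_id.add contDiff_const))
  · exact contDiff_const.mul ((logf_gq_smooth h2).comp (contDiff_id.add contDiff_const))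

theorem sg_ne {q : ℝ} (hq : 0 < q) {w : ℂ} (h : |sg q w| < 1 / 16) : w ≠ 0 := by
  rintro rfl
  unfold sg at h
  rw [norm_zero, Real.log_zero, zero_add, div_self hq.ne'] at h
  norm_num at h

theorem logf_gq {q : ℝ} (hq : 0 < q) {w : ℂ} (h : |sg q w| < 1 / 16) : logf (gq q) w = BB (sg q w) := by
  rw [logf_of_ne _ (sg_ne hq h), gq_eq]
  · rfl
  · have := (abs_lt.1 h).1
    unfold sg at this
    linarith

theorem sep_HH (a : Atom) (h1 : 0 < a.q1) (h2 : 0 < a.q2) (t z : C3) (hz : z + t ∈ reg a) :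
    sep (HH a t) z = 7 * hfun a (z + t) := by
  obtain ⟨-, k1, k2⟩ := hz
  rw [Pi.add_apply] at k1 k2
  have e : sep (HH a t) z = g0 a (z 0 + t 0).re + 7 * a.r * logf (gq a.q1) (z 1 + t 1) +
      7 * a.r * logf (gq a.q2) (z 2 + t 2) := by
    unfold sep
    rw [Fin.sum_univ_three]
    rfl
  rw [e, logf_gq h1 k1, logf_gq h2 k2]
  unfold g0 hfun
  simp only [Pi.add_apply]
  ring

theorem lap_logf_gq {q : ℝ} (hq : 0 < q) {w : ℂ} (h : |sg q w| < 1 / 16) :
    lap (logf (gq q)) w = bump1 q w / 64 := by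
  have hw := sg_ne hq h
  rw [lap_logf (gq_smooth q) hw, gq_deriv2 hq]
  · unfold bump1 sg
    have : ‖w‖ ≠ 0 := norm_ne_zero_iff.2 hw
    have hq' : q ≠ 0 := hq.ne'
    field_simp
    ring
  · have := (abs_lt.1 h).1
    unfold sg at this
    linarith

theorem lap_HH_1 (a : Atom) (h1 : 0 < a.q1) (t : C3) (w : ℂ) (h : |sg a.q1 (w + t 1)| < 1 / 16) :
    lap (HH a t 1) w = 7 * a.r * (bump1 a.q1 (w + t 1) / 64) := by
  have e : HH a t 1 = fun w => (fun w => 7 * a.r * logf (gq a.q1) w) (w + t 1) := rfl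
  rw [e, lap_translate (fun w => 7 * a.r * logf (gq a.q1) w), lap_const_mul (logf_gq_smooth h1), lap_logf_gq h1 h]

theorem lap_HH_2 (a : Atom) (h2 : 0 < a.q2) (t : C3) (w : ℂ) (h : |sg a.q2 (w + t 2)| < 1 / 16) :
    lap (HH a t 2) w = 7 * a.r * (bump1 a.q2 (w + t 2) / 64) := by
  have e : HH a t 2 = fun w => (fun w => 7 * a.r * logf (gq a.q2) w) (w + t 2) := rfl
  rw [e, lap_translate (fun w => 7 * a.r * logf (gq a.q2) w), lap_const_mul (logf_gq_smooth h2), lap_logf_gq h2 h]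

theorem lap_HH_0 (a : Atom) (hw : 0 < a.w) (t : C3) (w : ℂ) :
    lap (HH a t 0) w = 7 * a.r * (bump0 (lam * a.x) (lam * a.w) (w + t 0) / 4) := by
  have e : HH a t 0 = fun w => (fun w : ℂ => g0 a w.re) (w + t 0) := rfl
  rw [e, lap_translate (fun w : ℂ => g0 a w.re), lap_of_re (g0_smooth a), g0_deriv2 a hw]
  unfold bump0
  ring

theorem Hess_HH (a : Atom) (hw : 0 < a.w) (h1 : 0 < a.q1) (h2 : 0 < a.q2) (t z : C3) (hz : z + t ∈ reg a) :
    Hess (sep (HH a t)) z = Matrix.diagonal fun j =>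
      ((![7 * a.r * (bump0 (lam * a.x) (lam * a.w) ((z + t) 0) / 4), 7 * a.r * (bump1 a.q1 ((z + t) 1) / 64),
        7 * a.r * (bump1 a.q2 ((z + t) 2) / 64)] j : ℝ) : ℂ) := by
  obtain ⟨-, k1, k2⟩ := hz
  rw [Pi.add_apply] at k1 k2
  rw [Hess_sep (HH_smooth a h1 h2 t)]
  congr 1
  funext j
  fin_cases j
  · simp [lap_HH_0 a hw]
  · simp [lap_HH_1 a h1 t _ k1]
  · simp [lap_HH_2 a h2 t _ k2]

theorem Hess_HH_pos (a : Atom) (hw : 0 < a.w) (hr : 0 ≤ a.r) (h1 : 0 < a.q1) (h2 : 0 < a.q2) (t z : C3)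
    (hz : z + t ∈ reg a) : (Hess (sep (HH a t)) z).PosSemidef := by
  rw [Hess_HH a hw h1 h2 t z hz, Matrix.posSemidef_diagonal_iff]
  intro j
  rw [Complex.zero_le_real]
  have b0 := bump0_nonneg (lam * a.x) (lam * a.w) ((z + t) 0)
  have b1 := bump1_nonneg a.q1 ((z + t) 1)
  have b2 := bump1_nonneg a.q2 ((z + t) 2)
  fin_cases j
  · show 0 ≤ 7 * a.r * (bump0 (lam * a.x) (lam * a.w) ((z + t) 0) / 4)
    positivity
  · show 0 ≤ 7 * a.r * (bump1 a.q1 ((z + t) 1) / 64)
    positivity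
  · show 0 ≤ 7 * a.r * (bump1 a.q2 ((z + t) 2) / 64)
    positivity

theorem det_HH (a : Atom) (hw : 0 < a.w) (h1 : 0 < a.q1) (h2 : 0 < a.q2) (t z : C3) (hz : z + t ∈ reg a) :
    (Hess (sep (HH a t)) z).det.re = 343 * a.r ^ 3 / 16384 * bump (lam * a.x) (lam * a.w) a.q1 a.q2 (z + t) := by
  rw [Hess_HH a hw h1 h2 t z hz, Matrix.det_diagonal, Fin.prod_univ_three]
  rw [← Complex.ofReal_mul, ← Complex.ofReal_mul, Complex.ofReal_re]
  show 7 * a.r * (bump0 (lam * a.x) (lam * a.w) ((z + t) 0) / 4) * (7 * a.r * (bump1 a.q1 ((z + t) 1) / 64)) *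
    (7 * a.r * (bump1 a.q2 ((z + t) 2) / 64)) = _
  unfold bump
  ring

theorem dens_le_det (a : Atom) (hw : 0 < a.w) (hr : 0 ≤ a.r) (h1 : 0 < a.q1) (h2 : 0 < a.q2) (t z : C3)
    (hz : z + t ∈ reg a) : dens a (z + t) ≤ (Hess (sep (HH a t)) z).det.re := by
  rw [det_HH a hw h1 h2 t z hz]
  unfold dens
  have hb : 0 ≤ bump (lam * a.x) (lam * a.w) a.q1 a.q2 (z + t) :=
    mul_nonneg (mul_nonneg (bump0_nonneg _ _ _) (bump1_nonneg _ _)) (bump1_nonneg _ _)
  refine mul_le_mul_of_nonneg_right ?_ hb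
  unfold lam
  have : 0 ≤ a.r ^ 3 := by positivity
  nlinarith

end

end KOL.Mu
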