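import Pool.Agent.KOL.Defs

/-!
# Project KOL, row MU: reduction modulo the lattice, periodic densities
-/

set_option autoImplicit false

namespace KOL.Mu

open MeasureTheory Set
open scoped ENNReal

noncomputable section

/-! ### signed distance to the nearest integer -/

/-- the reduction of a real number to `[-1/2, 1/2)` -/
def fr (x : ℝ) : ℝ := x - round x

theorem fr_add_int (x : ℝ) (n : ℤ) : fr (x + n) = fr x := by
  unfold fr
  rw [round_add_intCast]
  push_cast
  ring

theorem abs_fr_le (x : ℝ) (n : ℤ) : |fr x| ≤ |x - n| := round_le x n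

theorem abs_fr_le_add (x y : ℝ) : |fr x| ≤ |fr y| + |x - y| := by
  have h1 := abs_fr_le x (round y)
  have h2 : x - (round y : ℝ) = fr y + (x - y) := by
    unfold fr
    ring
  rw [h2] at h1
  exact h1.trans (abs_add_le _ _)

theorem fr_eq_self {x : ℝ} (h : |x| < 1 / 2) : fr x = x := by
  unfold fr
  have : round x = 0 := by
    rw [round_eq_zero_iff]
    rw [abs_lt] at h
    constructor
    · linarith [h.1]
    · linarith [h.2]
  rw [this]
  simp

theorem measurable_fr : Measurable fr := by
  unfold fr
  refine measurable_id.sub ?_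
  have h : (fun x : ℝ => ((round x : ℤ) : ℝ)) = fun x : ℝ => ((⌊x + 1 / 2⌋ : ℤ) : ℝ) := by
    funext x
    rw [round_eq]
  rw [h]
  exact (measurable_from_top (f := fun n : ℤ => (n : ℝ))).comp
    (Int.measurable_floor.comp (measurable_id.add_const _))

theorem round_unit {x : ℝ} (h0 : 0 ≤ x) (h1 : x < 1) : round x = 0 ∨ round x = 1 := by
  rcases lt_or_ge x (1 / 2) with h | h
  · left
    rw [round_eq_zero_iff]
    constructor
    · linarith
    · exact h
  · right
    rw [round_eq, Int.floor_eq_iff]
    constructor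
    · push_cast
      linarith
    · push_cast
      linarith

/-! ### the reduction map of `ℂ³` -/

/-- the reduction modulo the lattice in all directions except the imaginary direction of the first coordinate -/
def red (z : C3) : C3 := ![⟨fr (z 0).re, (z 0).im⟩, ⟨fr (z 1).re, fr (z 1).im⟩, ⟨fr (z 2).re, fr (z 2).im⟩]

theorem red_0 (z : C3) : red z 0 = ⟨fr (z 0).re, (z 0).im⟩ := rfl
theorem red_1 (z : C3) : red z 1 = ⟨fr (z 1).re, fr (z 1).im⟩ := rfl
theorem red_2 (z : C3) : red z 2 = ⟨fr (z 2).re, fr (z 2).im⟩ := rfl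

theorem latt_re (a b : Fin 3 → ℤ) (j : Fin 3) : (latt a b j).re = a j := by
  simp [latt]

theorem latt_im (a b : Fin 3 → ℤ) (j : Fin 3) : (latt a b j).im = b j := by
  simp [latt]

theorem add_latt_re (z : C3) (a b : Fin 3 → ℤ) (j : Fin 3) : ((z + latt a b) j).re = (z j).re + a j := by
  rw [Pi.add_apply, Complex.add_re, latt_re]

theorem add_latt_im (z : C3) (a b : Fin 3 → ℤ) (j : Fin 3) : ((z + latt a b) j).im = (z j).im + b j := by
  rw [Pi.add_apply, Complex.add_im, latt_im]

/-- the lattice vector of the reduction -/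
def sh (z : C3) : C3 := latt ![-round (z 0).re, -round (z 1).re, -round (z 2).re]
  ![0, -round (z 1).im, -round (z 2).im]

theorem red_eq (z : C3) : red z = z + sh z := by
  funext j
  apply Complex.ext
  · unfold sh
    rw [add_latt_re]
    fin_cases j <;> simp [red, fr] <;> ring
  · unfold sh
    rw [add_latt_im]
    fin_cases j <;> simp [red, fr] <;> ring

theorem red_add_latt (z : C3) (a b : Fin 3 → ℤ) :
    red (z + latt a b) = red z + latt 0 ![b 0, 0, 0] := by
  funext j
  apply Complex.ext
  · rw [add_latt_re]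
    fin_cases j
    · show fr ((z + latt a b) 0).re = fr (z 0).re + _
      rw [add_latt_re, fr_add_int]
      simp
    · show fr ((z + latt a b) 1).re = fr (z 1).re + _
      rw [add_latt_re, fr_add_int]
      simp
    · show fr ((z + latt a b) 2).re = fr (z 2).re + _
      rw [add_latt_re, fr_add_int]
      simp
  · rw [add_latt_im]
    fin_cases j
    · show ((z + latt a b) 0).im = (z 0).im + _
      rw [add_latt_im]
      simp
    · show fr ((z + latt a b) 1).im = fr (z 1).im + _
      rw [add_latt_im, fr_add_int]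
      simp
    · show fr ((z + latt a b) 2).im = fr (z 2).im + _
      rw [add_latt_im, fr_add_int]
      simp

theorem measurable_mk {α : Type*} [MeasurableSpace α] {f g : α → ℝ} (hf : Measurable f) (hg : Measurable g) :
    Measurable fun x => (⟨f x, g x⟩ : ℂ) := by
  have h : (fun x => (⟨f x, g x⟩ : ℂ)) = fun x => (f x : ℂ) + (g x : ℂ) * Complex.I := by
    funext x
    exact Complex.mk_eq_add_mul_I _ _
  rw [h]
  exact (Complex.measurable_ofReal.comp hf).add ((Complex.measurable_ofReal.comp hg).mul_const _)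

theorem measurable_coord_re (j : Fin 3) : Measurable fun z : C3 => (z j).re :=
  Complex.measurable_re.comp (measurable_pi_apply j)

theorem measurable_coord_im (j : Fin 3) : Measurable fun z : C3 => (z j).im :=
  Complex.measurable_im.comp (measurable_pi_apply j)

theorem measurable_red : Measurable red := by
  rw [measurable_pi_iff]
  intro j
  fin_cases j
  · exact measurable_mk (measurable_fr.comp (measurable_coord_re 0)) (measurable_coord_im 0)
  · exact measurable_mk (measurable_fr.comp (measurable_coord_re 1)) (measurable_fr.comp (measurable_coord_im 1))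
  · exact measurable_mk (measurable_fr.comp (measurable_coord_re 2)) (measurable_fr.comp (measurable_coord_im 2))

/-! ### measures with periodic densities -/

theorem map_withDensity {g : C3 → ℝ≥0∞} (hg : Measurable g) (t : C3) (hper : ∀ z, g (z + t) = g z) :
    (volume.withDensity g).map (fun z => z + t) = volume.withDensity g := by
  refine Measure.ext fun s hs => ?_
  have hm : Measurable fun z : C3 => z + t := measurable_id.add_const t
  rw [Measure.map_apply hm hs, withDensity_apply _ (hm hs), withDensity_apply _ hs]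
  have h1 := (measurePreserving_add_right (volume : Measure C3) t).setLIntegral_comp_preimage hs hg
  rw [← h1]
  refine setLIntegral_congr_fun (hm hs) fun z _ => ?_
  exact (hper z).symm

/-- the unit cube -/
def cube : Set C3 := {z | ∀ j, 0 ≤ (z j).re ∧ (z j).re < 1 ∧ 0 ≤ (z j).im ∧ (z j).im < 1}

theorem measurableSet_cube : MeasurableSet cube := by
  have : cube = ⋂ j : Fin 3, ({z : C3 | 0 ≤ (z j).re} ∩ {z : C3 | (z j).re < 1}) ∩
      ({z : C3 | 0 ≤ (z j).im} ∩ {z : C3 | (z j).im < 1}) := by
    ext z
    simp only [cube, mem_ofPred_eq, mem_iInter, mem_inter_iff]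
    refine forall_congr' fun j => ?_
    tauto
  rw [this]
  refine MeasurableSet.iInter fun j => MeasurableSet.inter (MeasurableSet.inter ?_ ?_) (MeasurableSet.inter ?_ ?_)
  · exact measurableSet_le measurable_const (measurable_coord_re j)
  · exact measurableSet_lt (measurable_coord_re j) measurable_const
  · exact measurableSet_le measurable_const (measurable_coord_im j)
  · exact measurableSet_lt (measurable_coord_im j) measurable_const

/-- the strip -/
def strip1 : Set C3 := {z | 0 ≤ (z 0).im ∧ (z 0).im < 1}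

theorem measurableSet_strip1 : MeasurableSet strip1 :=
  (measurableSet_le measurable_const (measurable_coord_im 0)).inter
    (measurableSet_lt (measurable_coord_im 0) measurable_const)

/-- the part of the cube which carries the remaining mass -/
def rest : Set C3 := {z | 1 / 4 ≤ |fr (z 1).re|}

theorem measurableSet_rest : MeasurableSet rest :=
  measurableSet_le measurable_const
    ((_root_.measurable_norm.comp (measurable_fr.comp (measurable_coord_re 1))))

theorem rest_per (z : C3) (a b : Fin 3 → ℤ) : z + latt a b ∈ rest ↔ z ∈ rest := by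
  unfold rest
  simp only [mem_ofPred_eq]
  rw [add_latt_re, fr_add_int]

theorem cube_rest_pos : volume (cube ∩ rest) ≠ 0 := by
  have hsub : {z : C3 | ∀ j, (3 / 10 < (z j).re ∧ (z j).re < 1 / 2) ∧ (3 / 10 < (z j).im ∧ (z j).im < 1 / 2)} ⊆
      cube ∩ rest := by
    intro z hz
    constructor
    · intro j
      obtain ⟨⟨h1, h2⟩, h3, h4⟩ := hz j
      refine ⟨?_, ?_, ?_, ?_⟩ <;> linarith
    · obtain ⟨⟨h1, h2⟩, -, -⟩ := hz 1
      show 1 / 4 ≤ |fr (z 1).re|
      rw [fr_eq_self (by rw [abs_lt]; constructor <;> linarith), abs_of_pos (by linarith)]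
      linarith
  have hopen : IsOpen {z : C3 | ∀ j, (3 / 10 < (z j).re ∧ (z j).re < 1 / 2) ∧
      (3 / 10 < (z j).im ∧ (z j).im < 1 / 2)} := by
    have : {z : C3 | ∀ j, (3 / 10 < (z j).re ∧ (z j).re < 1 / 2) ∧ (3 / 10 < (z j).im ∧ (z j).im < 1 / 2)} =
        ⋂ j : Fin 3, ({z : C3 | 3 / 10 < (z j).re} ∩ {z : C3 | (z j).re < 1 / 2}) ∩
          ({z : C3 | 3 / 10 < (z j).im} ∩ {z : C3 | (z j).im < 1 / 2}) := by
      ext z
      simp only [mem_ofPred_eq, mem_iInter, mem_inter_iff]
    rw [this]
    refine isOpen_iInter_of_finite fun j => IsOpen.inter (IsOpen.inter ?_ ?_) (IsOpen.inter ?_ ?_)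
    · exact isOpen_lt continuous_const (Complex.continuous_re.comp (continuous_apply j))
    · exact isOpen_lt (Complex.continuous_re.comp (continuous_apply j)) continuous_const
    · exact isOpen_lt continuous_const (Complex.continuous_im.comp (continuous_apply j))
    · exact isOpen_lt (Complex.continuous_im.comp (continuous_apply j)) continuous_const
  have hne : ({z : C3 | ∀ j, (3 / 10 < (z j).re ∧ (z j).re < 1 / 2) ∧
      (3 / 10 < (z j).im ∧ (z j).im < 1 / 2)}).Nonempty :=
    ⟨fun _ => ⟨2 / 5, 2 / 5⟩, fun j => by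
      refine ⟨⟨?_, ?_⟩, ?_, ?_⟩ <;> norm_num⟩
  have := hopen.measure_pos volume hne
  exact (lt_of_lt_of_le this (measure_mono hsub)).ne'

theorem cube_fin : volume cube ≠ ⊤ := by
  have hsub : cube ⊆ Metric.closedBall (0 : C3) 2 := by
    intro z hz
    rw [mem_closedBall_zero_iff, pi_norm_le_iff_of_nonneg (by norm_num)]
    intro j
    obtain ⟨h1, h2, h3, h4⟩ := hz j
    refine (Complex.norm_le_abs_re_add_abs_im _).trans ?_
    rw [abs_of_nonneg h1, abs_of_nonneg h3]
    linarith
  exact ((measure_mono hsub).trans_lt measure_closedBall_lt_top).ne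

theorem cube_rest_fin : volume (cube ∩ rest) ≠ ⊤ :=
  ((measure_mono inter_subset_left).trans_lt cube_fin.lt_top).ne

/-- index set of the translations -/
abbrev Idx := (Fin 3 → Fin 2) × (Fin 2 → Fin 2)

/-- the translation vectors -/
def tv (i : Idx) : C3 := latt (fun j => -((i.1 j : ℕ) : ℤ)) ![0, -((i.2 0 : ℕ) : ℤ), -((i.2 1 : ℕ) : ℤ)]

theorem exists_fin2 {n : ℤ} (h : n = 0 ∨ n = 1) : ∃ i : Fin 2, ((i : ℕ) : ℤ) = n := by
  rcases h with h | h
  · exact ⟨0, by rw [h]; rfl⟩
  · exact ⟨1, by rw [h]; rfl⟩

theorem exists_tv {z : C3} (hz : z ∈ cube) : ∃ i : Idx, red z = z + tv i := by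
  obtain ⟨i0, h0⟩ := exists_fin2 (round_unit (hz 0).1 (hz 0).2.1)
  obtain ⟨i1, h1⟩ := exists_fin2 (round_unit (hz 1).1 (hz 1).2.1)
  obtain ⟨i2, h2⟩ := exists_fin2 (round_unit (hz 2).1 (hz 2).2.1)
  obtain ⟨i3, h3⟩ := exists_fin2 (round_unit (hz 1).2.2.1 (hz 1).2.2.2)
  obtain ⟨i4, h4⟩ := exists_fin2 (round_unit (hz 2).2.2.1 (hz 2).2.2.2)
  refine ⟨(![i0, i1, i2], ![i3, i4]), ?_⟩
  rw [red_eq]
  congr 1
  unfold sh tv
  congr 1
  · funext j
    fin_cases j
    · simp [h0]
    · simp [h1]
    · simp [h2]
  · funext j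
    fin_cases j
    · rfl
    · simp [h3]
    · simp [h4]

/-- the mass of the periodised density in the cube -/
theorem mass_cube {f : C3 → ℝ≥0∞} (hf : Measurable f) :
    ∫⁻ z in cube, f (red z) ≤ 32 * ∫⁻ z in strip1, f z := by
  have h1 : ∫⁻ z in cube, f (red z) ≤ ∫⁻ z in cube, ∑ i : Idx, f (z + tv i) := by
    refine setLIntegral_mono' measurableSet_cube fun z hz => ?_
    obtain ⟨i, hi⟩ := exists_tv hz
    rw [hi]
    exact Finset.single_le_sum (f := fun i : Idx => f (z + tv i)) (fun _ _ => zero_le) (Finset.mem_univ i)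
  have h2 : ∀ i : Idx, ∫⁻ z in strip1, f (z + tv i) = ∫⁻ z in strip1, f z := by
    intro i
    have h3 := (measurePreserving_add_right (volume : Measure C3) (tv i)).setLIntegral_comp_preimage
      measurableSet_strip1 hf
    rw [← h3]
    congr 1
    congr 1
    ext z
    show _ ↔ 0 ≤ ((z + tv i) 0).im ∧ ((z + tv i) 0).im < 1
    unfold tv
    rw [add_latt_im]
    simp [strip1]
  have hsub : cube ⊆ strip1 := fun z hz => ⟨(hz 0).2.2.1, (hz 0).2.2.2⟩
  calc ∫⁻ z in cube, f (red z) ≤ ∫⁻ z in cube, ∑ i : Idx, f (z + tv i) := h1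
    _ ≤ ∫⁻ z in strip1, ∑ i : Idx, f (z + tv i) := lintegral_mono_set hsub
    _ = ∑ i : Idx, ∫⁻ z in strip1, f (z + tv i) :=
        lintegral_finsetSum Finset.univ fun i _ => hf.comp (measurable_id.add_const (tv i))
    _ = ∑ _i : Idx, ∫⁻ z in strip1, f z := Finset.sum_congr rfl fun i _ => h2 i
    _ = 32 * ∫⁻ z in strip1, f z := by
        rw [Finset.sum_const, nsmul_eq_mul]
        congr 1

end

end KOL.Mu
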