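import Pool.Agent.KOL.Lat
import Pool.Agent.KOL.Hloc

/-!
# Project KOL, row MU: the measure
-/

set_option autoImplicit false

namespace KOL.Mu

open MeasureTheory Set Matrix Filter
open Pool.Agent.Kolodziej
open scoped ENNReal ContDiff Topology ComplexOrder

noncomputable section

/-- existence of the Monge-Ampère measure of a continuous plurisubharmonic function -/
def EXI_stmt : Prop := ∀ u : C3 → ℝ, Psh univ u → Continuous u → ∃ ν, IsMA univ u ν

/-- locality: where `u` is smooth, its measure is the determinant of the Hessian -/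
def LOC_stmt : Prop := ∀ (u : C3 → ℝ) (ν : Measure C3), Continuous u → IsMA univ u ν → ∀ V : Set C3, IsOpen V →
  ∀ h : C3 → ℝ, ContDiff ℝ ∞ h → (∀ z ∈ V, u z = h z) → (∀ z ∈ V, (Hess h z).PosSemidef) →
  ∀ s : Set C3, MeasurableSet s → s ⊆ V → ∫⁻ z in s, ENNReal.ofReal (Hess h z).det.re ≤ ν s

/-! ### the regions of the atoms -/

theorem sg_lt_iff {q : ℝ} (hq : 0 < q) (w : ℂ) : |sg q w| < 1 / 16 ↔
    Real.exp (-(17 / 16 * q)) < ‖w‖ ∧ ‖w‖ < Real.exp (-(15 / 16 * q)) := by
  constructor
  · intro h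
    have hw : 0 < ‖w‖ := norm_pos_iff.2 (sg_ne hq h)
    unfold sg at h
    rw [abs_lt, lt_div_iff₀ hq, div_lt_iff₀ hq] at h
    constructor
    · rw [← Real.lt_log_iff_exp_lt hw]
      linarith [h.1]
    · rw [← Real.log_lt_iff_lt_exp hw]
      linarith [h.2]
  · rintro ⟨h1, h2⟩
    have hw : 0 < ‖w‖ := (Real.exp_pos _).trans h1
    rw [← Real.lt_log_iff_exp_lt hw] at h1
    rw [← Real.log_lt_iff_lt_exp hw] at h2
    unfold sg
    rw [abs_lt, lt_div_iff₀ hq, div_lt_iff₀ hq]
    constructor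
    · linarith
    · linarith

variable {blk : ℕ → Set Atom} {c : ℕ → ℝ} {R : ℕ → ℕ} {w L S : ℕ → ℝ}

theorem _root_.KOL.Blocks.w_posM (hB : Blocks blk c R w L S) {k : ℕ} {a : Atom} (ha : a ∈ blk k) : 0 < a.w := by
  rw [(hB.inb k a ha).w_eq]
  exact hB.w_pos k

theorem _root_.KOL.Blocks.q1_geM (hB : Blocks blk c R w L S) {k : ℕ} {a : Atom} (ha : a ∈ blk k) : 100 ≤ a.q1 :=
  (hB.S_ge k).trans (hB.S_le k a ha).1

theorem _root_.KOL.Blocks.q2_geM (hB : Blocks blk c R w L S) {k : ℕ} {a : Atom} (ha : a ∈ blk k) : 100 ≤ a.q2 :=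
  (hB.S_ge k).trans (hB.S_le k a ha).2

theorem _root_.KOL.Blocks.r_posM (hB : Blocks blk c R w L S) {k : ℕ} {a : Atom} (ha : a ∈ blk k) : 0 < a.r := by
  have h1 := hB.kill k a ha
  have h2 := hB.L_ge k
  by_contra h
  push Not at h
  nlinarith

theorem norm_small {q : ℝ} (hq : 100 ≤ q) {w : ℂ} (h : |sg q w| < 1 / 16) : ‖w‖ < 1 / 8 := by
  have hq0 : 0 < q := by linarith
  have h1 := ((sg_lt_iff hq0 w).1 h).2
  refine h1.trans ?_
  have h2 : -(15 / 16 * q) ≤ -7 := by linarith
  refine (Real.exp_le_exp.2 h2).trans_lt ?_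
  rw [Real.exp_neg, inv_lt_comm₀ (Real.exp_pos _) (by norm_num)]
  have h3 := Real.add_one_lt_exp (x := 7) (by norm_num)
  norm_num at h3 ⊢
  exact h3

theorem reg_bound (hB : Blocks blk c R w L S) {k : ℕ} {a : Atom} (ha : a ∈ blk k) {z : C3} (hz : z ∈ reg a) :
    |(z 0).re| < 27 / 100 ∧ ‖z 1‖ < 1 / 8 ∧ ‖z 2‖ < 1 / 8 := by
  obtain ⟨h0, h1, h2⟩ := hz
  refine ⟨?_, norm_small (hB.q1_geM ha) h1, norm_small (hB.q2_geM ha) h2⟩
  have hx := (hB.inb k a ha).x_le
  have hw := hB.w_posM ha
  have hw1 : a.w ≤ 1 := by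
    rw [(hB.inb k a ha).w_eq]
    exact hB.w_le k
  have hl := lam_pos
  have hlw : 0 < lam * a.w := mul_pos hl hw
  rw [abs_div, abs_of_pos hlw, div_lt_iff₀ hlw] at h0
  have h3 : |(z 0).re| ≤ |(z 0).re - lam * a.x| + |lam * a.x| := by
    have := abs_add_le ((z 0).re - lam * a.x) (lam * a.x)
    rwa [sub_add_cancel] at this
  rw [abs_mul, abs_of_pos hl] at h3
  have hl' : lam = 1 / 40 := rfl
  rw [hl'] at h0 h3
  nlinarith

/-- the index type of all the atoms -/
abbrev Ix (blk : ℕ → Set Atom) := Σ k, ↥(blk k)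

theorem _root_.KOL.Blocks.countableM (hB : Blocks blk c R w L S) : Countable (Ix blk) := by
  have : ∀ k, Countable ↥(blk k) := fun k => (hB.fin k).countable.to_subtype
  infer_instance

/-- the density of all the atoms -/
def f0 (blk : ℕ → Set Atom) (z : C3) : ℝ≥0∞ := ∑' i : Ix blk, ENNReal.ofReal (dens i.2 z)

theorem measurable_f0 (hB : Blocks blk c R w L S) : Measurable (f0 blk) := by
  have := hB.countableM
  exact Measurable.tsum fun i => ENNReal.measurable_ofReal.comp (measurable_dens _)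

theorem f0_mass (hB : Blocks blk c R w L S) : 32 * ∫⁻ z in strip1, f0 blk z ≤ 1 := by
  have hc := hB.countableM
  have h1 : ∫⁻ z in strip1, f0 blk z = ∑' i : Ix blk, ∫⁻ z in strip1, ENNReal.ofReal (dens i.2 z) :=
    lintegral_tsum fun i => (ENNReal.measurable_ofReal.comp (measurable_dens _)).aemeasurable
  have h2 : ∑' i : Ix blk, ∫⁻ z in strip1, ENNReal.ofReal (dens i.2 z) ≤
      ∑' i : Ix blk, ENNReal.ofReal (100 / S i.1 ^ 2) :=
    ENNReal.tsum_le_tsum fun i => mass_dens hB i.2.2
  have h3 : ∑' i : Ix blk, ENNReal.ofReal (100 / S i.1 ^ 2) ≤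
      ∑' k : ℕ, ENNReal.ofReal ((1 / 2 : ℝ) ^ k * (1 / 10 ^ 4)) := by
    rw [ENNReal.tsum_sigma (fun (k : ℕ) (_ : ↥(blk k)) => ENNReal.ofReal (100 / S k ^ 2))]
    refine ENNReal.tsum_le_tsum fun k => ?_
    rw [ENNReal.tsum_set_const, ← (hB.fin k).cast_ncard_eq]
    have h4 : (((blk k).ncard : ℕ∞) : ℝ≥0∞) = ENNReal.ofReal ((blk k).ncard : ℝ) := by
      rw [ENNReal.ofReal_natCast]
      simp
    rw [h4, ← ENNReal.ofReal_mul (by positivity)]
    refine ENNReal.ofReal_le_ofReal ?_
    have h5 := hB.mass k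
    have h6 : ((blk k).ncard : ℝ) * (100 / S k ^ 2) = 100 * (((blk k).ncard : ℝ) / S k ^ 2) := by ring
    rw [h6]
    have h7 : (1 / 2 : ℝ) ^ k * (1 / 10 ^ 4) = 100 * ((1 / 2 : ℝ) ^ k / 10 ^ 6) := by
      norm_num
      ring
    rw [h7]
    linarith
  have h4 : ∑' k : ℕ, ENNReal.ofReal ((1 / 2 : ℝ) ^ k * (1 / 10 ^ 4)) = ENNReal.ofReal (2 * (1 / 10 ^ 4)) := by
    rw [← ENNReal.ofReal_tsum_of_nonneg (fun n => by positivity) (summable_geometric_two.mul_right _),
      tsum_mul_right, tsum_geometric_two]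
  rw [h1]
  calc 32 * ∑' i : Ix blk, ∫⁻ z in strip1, ENNReal.ofReal (dens i.2 z)
      ≤ 32 * ENNReal.ofReal (2 * (1 / 10 ^ 4)) := by
        refine mul_le_mul_right ?_ _
        exact (h2.trans h3).trans_eq h4
    _ = ENNReal.ofReal (32 * (2 * (1 / 10 ^ 4))) := by
        rw [ENNReal.ofReal_mul (by norm_num : (0 : ℝ) ≤ 32), ENNReal.ofReal_ofNat]
    _ ≤ 1 := by
        rw [← ENNReal.ofReal_one]
        exact ENNReal.ofReal_le_ofReal (by norm_num)

/-- the constant of the remaining mass -/
def cst (blk : ℕ → Set Atom) : ℝ≥0∞ := (1 - ∫⁻ z in cube, f0 blk (red z)) / volume (cube ∩ rest)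

theorem cst_ne_top (blk : ℕ → Set Atom) : cst blk ≠ ⊤ := by
  unfold cst
  exact (ENNReal.div_lt_top (lt_of_le_of_lt tsub_le_self ENNReal.one_lt_top).ne cube_rest_pos).ne

/-- the density of the measure -/
def gg (blk : ℕ → Set Atom) (z : C3) : ℝ≥0∞ := f0 blk (red z) + rest.indicator (fun _ => cst blk) z

theorem measurable_gg (hB : Blocks blk c R w L S) : Measurable (gg blk) :=
  ((measurable_f0 hB).comp measurable_red).add (measurable_const.indicator measurableSet_rest)

/-- the measure -/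
def mu (blk : ℕ → Set Atom) : Measure C3 := volume.withDensity (gg blk)

theorem dens_im (a : Atom) (z : C3) (n : ℤ) : dens a (z + latt 0 ![n, 0, 0]) = dens a z := by
  have h1 : (z + latt 0 ![n, 0, 0]) 1 = z 1 := by
    simp [latt]
  have h2 : (z + latt 0 ![n, 0, 0]) 2 = z 2 := by
    simp [latt]
  have h0 : ((z + latt 0 ![n, 0, 0]) 0).re = (z 0).re := by
    rw [add_latt_re]
    simp
  unfold dens bump bump0
  rw [h0, h1, h2]

theorem gg_per (z : C3) (a b : Fin 3 → ℤ) : gg blk (z + latt a b) = gg blk z := by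
  unfold gg
  congr 1
  · rw [red_add_latt]
    unfold f0
    refine tsum_congr fun i => ?_
    rw [dens_im]
  · by_cases h : z ∈ rest
    · rw [indicator_of_mem h, indicator_of_mem ((rest_per z a b).2 h)]
    · rw [indicator_of_notMem h, indicator_of_notMem fun h' => h ((rest_per z a b).1 h')]

theorem torusProb_mu (hB : Blocks blk c R w L S) : TorusProb (mu blk) where
  per a b := map_withDensity (measurable_gg hB) (latt a b) fun z => gg_per z a b
  one := by
    show mu blk cube = 1
    unfold mu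
    rw [withDensity_apply _ measurableSet_cube]
    have e : ∫⁻ z in cube, gg blk z = (∫⁻ z in cube, f0 blk (red z)) +
        ∫⁻ z in cube, rest.indicator (fun _ => cst blk) z :=
      lintegral_add_left (μ := volume.restrict cube) (f := fun z => f0 blk (red z))
        ((measurable_f0 hB).comp measurable_red) (rest.indicator fun _ => cst blk)
    rw [e, lintegral_indicator measurableSet_rest,
      lintegral_const, Measure.restrict_restrict measurableSet_rest, Measure.restrict_apply_univ]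
    rw [inter_comm rest cube]
    unfold cst
    rw [ENNReal.div_mul_cancel cube_rest_pos cube_rest_fin]
    exact add_tsub_cancel_of_le ((mass_cube (measurable_f0 hB)).trans (f0_mass hB))

/-! ### elementary facts on `Psh`, `IsMA` -/

theorem _root_.KOL.IsPos.monoM {U V : Set C3} {Θ : C3 → Mat} {m : Measure C3} (h : IsPos V Θ m) (hUV : U ⊆ V) :
    IsPos U Θ m where
  fin K hK hKU := h.fin K hK (hKU.trans hUV)
  meas := h.meas
  pos := h.pos
  bdd := h.bdd

theorem _root_.KOL.Test.monoM {U V : Set C3} {χ : C3 → ℝ} (h : Test U χ) (hUV : U ⊆ V) : Test V χ where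
  smooth := h.smooth
  comp := h.comp
  sub := h.sub.trans hUV

theorem _root_.KOL.IsMA.monoM {U V : Set C3} {u : C3 → ℝ} {ν : Measure C3} (h : IsMA V u ν) (hUV : U ⊆ V) :
    IsMA U u ν := by
  obtain ⟨Θ₁, m₁, Θ₂, m₂, hc⟩ := h
  refine ⟨Θ₁, m₁, Θ₂, m₂, ?_⟩
  exact
    { pos₁ := hc.pos₁.monoM hUV
      pos₂ := hc.pos₂.monoM hUV
      fin := fun K hK hKU => hc.fin K hK (hKU.trans hUV)
      eq₁ := fun χ hχ => hc.eq₁ χ (hχ.monoM hUV)
      eq₂ := fun χ hχ => hc.eq₂ χ (hχ.monoM hUV)
      eq₃ := fun χ hχ => hc.eq₃ χ (hχ.monoM hUV) }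

theorem _root_.KOL.Psh.monoM {U V : Set C3} {u : C3 → ℝ} (h : Psh V u) (hUV : U ⊆ V) : Psh U u where
  usc := h.usc.mono hUV
  sub z ξ hz := h.sub z ξ fun w hw => hUV (hz w hw)

theorem _root_.KOL.Psh.translateM {u : C3 → ℝ} (h : Psh univ u) (t : C3) : Psh univ fun z => u (z + t) where
  usc := by
    have h1 : UpperSemicontinuous u := upperSemicontinuousOn_univ_iff.1 h.usc
    rw [upperSemicontinuousOn_univ_iff]
    exact h1.comp (continuous_id.add continuous_const)
  sub z ξ _ := by
    have h1 := h.sub (z + t) ξ fun _ _ => mem_univ _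
    have h2 : ∀ θ : ℝ, z + t + Complex.exp (θ * Complex.I) • ξ = z + Complex.exp (θ * Complex.I) • ξ + t :=
      fun θ => by abel
    simp only [h2] at h1
    exact h1

theorem _root_.KOL.Psh.const_mulM {U : Set C3} {u : C3 → ℝ} (h : Psh U u) (hc : Continuous u) {K : ℝ} (hK : 0 ≤ K) :
    Psh U fun z => K * u z where
  usc := (continuous_const.mul hc).upperSemicontinuous.upperSemicontinuousOn U
  sub z ξ hz := by
    have h1 := h.sub z ξ hz
    rw [intervalIntegral.integral_const_mul]
    have h2 := mul_le_mul_of_nonneg_left h1 hK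
    linarith

theorem sq_circle (z ξ : C3) (θ : ℝ) : sq (z + Complex.exp (θ * Complex.I) • ξ) =
    (sq z + sq ξ) + (2 * ∑ j, ((z j).re * (ξ j).re + (z j).im * (ξ j).im)) * Real.cos θ +
      (2 * ∑ j, ((z j).im * (ξ j).re - (z j).re * (ξ j).im)) * Real.sin θ := by
  unfold sq
  have hre : (Complex.exp (θ * Complex.I)).re = Real.cos θ := Complex.exp_ofReal_mul_I_re θ
  have him : (Complex.exp (θ * Complex.I)).im = Real.sin θ := Complex.exp_ofReal_mul_I_im θ
  have hcs := Real.sin_sq_add_cos_sq θ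
  have hj : ∀ j, Complex.normSq ((z + Complex.exp (θ * Complex.I) • ξ) j) =
      (Complex.normSq (z j) + Complex.normSq (ξ j)) +
        (2 * ((z j).re * (ξ j).re + (z j).im * (ξ j).im)) * Real.cos θ +
        (2 * ((z j).im * (ξ j).re - (z j).re * (ξ j).im)) * Real.sin θ := by
    intro j
    rw [Pi.add_apply, Pi.smul_apply, smul_eq_mul]
    simp only [Complex.normSq_apply, Complex.add_re, Complex.add_im, Complex.mul_re, Complex.mul_im, hre, him]
    linear_combination ((ξ j).re ^ 2 + (ξ j).im ^ 2) * hcs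
  rw [Finset.sum_congr rfl fun j _ => hj j]
  rw [Finset.sum_add_distrib, Finset.sum_add_distrib, Finset.sum_add_distrib, ← Finset.sum_mul, ← Finset.sum_mul,
    ← Finset.mul_sum, ← Finset.mul_sum]

theorem continuous_sq : Continuous sq := by
  unfold sq
  exact continuous_finsetSum _ fun _ _ => Complex.continuous_normSq.comp (continuous_apply _)

theorem sq_nonneg' (z : C3) : 0 ≤ sq z := Finset.sum_nonneg fun j _ => Complex.normSq_nonneg _

theorem psh_sq : Psh univ sq where
  usc := continuous_sq.upperSemicontinuous.upperSemicontinuousOn _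
  sub z ξ _ := by
    have h1 : ∀ θ : ℝ, sq (z + Complex.exp (θ * Complex.I) • ξ) =
        (sq z + sq ξ) + (2 * ∑ j, ((z j).re * (ξ j).re + (z j).im * (ξ j).im)) * Real.cos θ +
          (2 * ∑ j, ((z j).im * (ξ j).re - (z j).re * (ξ j).im)) * Real.sin θ := sq_circle z ξ
    simp only [h1]
    rw [intervalIntegral.integral_add, intervalIntegral.integral_add, intervalIntegral.integral_const,
      intervalIntegral.integral_const_mul, intervalIntegral.integral_const_mul, integral_cos, integral_sin]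
    · simp only [Real.sin_two_pi, Real.sin_zero, Real.cos_two_pi, Real.cos_zero, sub_zero, sub_self, mul_zero,
        add_zero, smul_eq_mul]
      rw [← mul_assoc, inv_mul_cancel₀ (by positivity), one_mul]
      have := sq_nonneg' ξ
      linarith
    · exact (continuous_const).intervalIntegrable _ _
    · exact (continuous_const.mul Real.continuous_cos).intervalIntegrable _ _
    · exact (continuous_const.add (continuous_const.mul Real.continuous_cos)).intervalIntegrable _ _
    · exact (continuous_const.mul Real.continuous_sin).intervalIntegrable _ _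

/-- `K |z|²` as a separable function -/
def QQs (K : ℝ) : Fin 3 → ℂ → ℝ := fun _ w => K * (w.re * w.re + w.im * w.im)

theorem QQs_smooth (K : ℝ) (j : Fin 3) : ContDiff ℝ ∞ (QQs K j) := contDiff_const.mul nsq_smooth

theorem sep_QQs (K : ℝ) (z : C3) : sep (QQs K) z = K * sq z := by
  unfold sep QQs sq
  rw [Finset.mul_sum]
  simp only [Complex.normSq_apply]

theorem Hess_QQs (K : ℝ) (z : C3) : Hess (sep (QQs K)) z = Matrix.diagonal fun _ => (K : ℂ) := by
  rw [Hess_sep (QQs_smooth K)]
  congr 1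
  funext j
  congr 1
  show lap (fun w : ℂ => K * (w.re * w.re + w.im * w.im)) (z j) = K
  rw [lap_const_mul nsq_smooth]
  unfold lap
  rw [nsq_D2, nsq_D2]
  simp only [Complex.one_re, Complex.one_im, Complex.I_re, Complex.I_im]
  ring

theorem det_QQs (K : ℝ) (z : C3) : (Hess (sep (QQs K)) z).det.re = K ^ 3 := by
  rw [Hess_QQs, Matrix.det_diagonal]
  simp only [Finset.prod_const, Finset.card_univ, Fintype.card_fin]
  rw [← Complex.ofReal_pow, Complex.ofReal_re]

theorem psd_QQs {K : ℝ} (hK : 0 ≤ K) (z : C3) : (Hess (sep (QQs K)) z).PosSemidef := by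
  rw [Hess_QQs, Matrix.posSemidef_diagonal_iff]
  intro j
  exact_mod_cast hK

/-! ### local domination -/

theorem abs_re_le_norm' (w : ℂ) : |w.re| ≤ ‖w‖ := Complex.abs_re_le_norm w

/-- the box around the origin -/
def box0 : Set C3 := {w | |(w 0).re| < 3 / 10 ∧ (|(w 1).re| < 1 / 4 ∧ |(w 1).im| < 1 / 4) ∧
  (|(w 2).re| < 1 / 4 ∧ |(w 2).im| < 1 / 4)}

theorem isOpen_box0 : IsOpen box0 := by
  have cr : ∀ j : Fin 3, Continuous fun z : C3 => |(z j).re| := fun j =>
    (Complex.continuous_re.comp (continuous_apply j)).abs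
  have ci : ∀ j : Fin 3, Continuous fun z : C3 => |(z j).im| := fun j =>
    (Complex.continuous_im.comp (continuous_apply j)).abs
  exact (isOpen_lt (cr 0) continuous_const).inter
    (((isOpen_lt (cr 1) continuous_const).inter (isOpen_lt (ci 1) continuous_const)).inter
      ((isOpen_lt (cr 2) continuous_const).inter (isOpen_lt (ci 2) continuous_const)))

theorem red_of_box {w : C3} {a b : Fin 3 → ℤ} (hb : b 0 = 0) (h : w + latt a b ∈ box0) :
    red w = w + latt a b := by
  have h1 := red_add_latt w a b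
  have h2 : latt 0 ![b 0, 0, 0] = 0 := by
    rw [hb]
    funext j
    fin_cases j <;> simp [latt]
  rw [h2, add_zero] at h1
  rw [← h1]
  obtain ⟨k0, ⟨k1, k2⟩, k3, k4⟩ := h
  generalize w + latt a b = v at k0 k1 k2 k3 k4 ⊢
  funext j
  apply Complex.ext
  · fin_cases j
    · exact fr_eq_self (by linarith)
    · exact fr_eq_self (by linarith)
    · exact fr_eq_self (by linarith)
  · fin_cases j
    · rfl
    · exact fr_eq_self (by linarith)
    · exact fr_eq_self (by linarith)

theorem gg_of_box {w : C3} {a b : Fin 3 → ℤ} (hb : b 0 = 0) (h : w + latt a b ∈ box0) :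
    gg blk w = f0 blk (w + latt a b) := by
  have hr : w ∉ rest := by
    intro hw
    have h1 : 1 / 4 ≤ |fr (w 1).re| := hw
    have h2 : fr (w 1).re = ((w + latt a b) 1).re := by
      rw [← fr_eq_self (x := ((w + latt a b) 1).re) (by linarith [h.2.1.1]), add_latt_re, fr_add_int]
    rw [h2] at h1
    linarith [h.2.1.1]
  unfold gg
  rw [red_of_box hb h, indicator_of_notMem hr, add_zero]

theorem locDom_near (hB : Blocks blk c R w L S) (hE : EXI_stmt) (hL : LOC_stmt) {v : C3 → ℝ}
    (hv : IsV blk v) {z : C3} {a b : Fin 3 → ℤ} (hb : b 0 = 0) (hz : z + latt a b ∈ box0) :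
    ∃ U : Set C3, IsOpen U ∧ z ∈ U ∧ ∃ (u : C3 → ℝ) (ν : Measure C3), Psh U u ∧ (∃ B, ∀ w ∈ U, |u w| ≤ B) ∧
    IsMA U u ν ∧ ∀ s, MeasurableSet s → s ⊆ U → mu blk s ≤ ν s := by
  obtain ⟨hvc, hvp, hvr⟩ := hv
  have hcount := hB.countableM
  have htc : Continuous fun w : C3 => w + latt a b := continuous_id.add continuous_const
  have huc : Continuous fun w : C3 => 7 * v (w + latt a b) := continuous_const.mul (hvc.comp htc)
  have hup : Psh univ fun w : C3 => 7 * v (w + latt a b) :=
    (hvp.translateM (latt a b)).const_mulM (hvc.comp htc) (by norm_num)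
  obtain ⟨ν, hν⟩ := hE _ hup huc
  refine ⟨(fun w => w + latt a b) ⁻¹' box0 ∩ Metric.ball z 1, (isOpen_box0.preimage htc).inter Metric.isOpen_ball,
    ⟨hz, Metric.mem_ball_self one_pos⟩, _, ν, hup.monoM (subset_univ _), ?_, hν.monoM (subset_univ _), ?_⟩
  · obtain ⟨B, hB'⟩ := (isCompact_closedBall z 1).exists_bound_of_continuousOn huc.continuousOn
    exact ⟨B, fun w hw => hB' w (Metric.ball_subset_closedBall hw.2)⟩
  · intro s hs hsU
    have hRm : ∀ i : Ix blk, MeasurableSet ((fun w : C3 => w + latt a b) ⁻¹' reg i.2) := fun i =>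
      ((isOpen_reg _ (by linarith [hB.q1_geM i.2.2]) (by linarith [hB.q2_geM i.2.2])).preimage htc).measurableSet
    have h1 : mu blk s = ∫⁻ w in s, f0 blk (w + latt a b) := by
      unfold mu
      rw [withDensity_apply _ hs]
      exact setLIntegral_congr_fun hs fun w hw => gg_of_box hb (hsU hw).1
    have h2 : ∫⁻ w in s, f0 blk (w + latt a b) =
        ∑' i : Ix blk, ∫⁻ w in s, ENNReal.ofReal (dens i.2 (w + latt a b)) :=
      lintegral_tsum fun i => (ENNReal.measurable_ofReal.comp
        ((measurable_dens _).comp htc.measurable)).aemeasurable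
    have h3 : ∀ i : Ix blk, ∫⁻ w in s, ENNReal.ofReal (dens i.2 (w + latt a b)) ≤
        ν (s ∩ (fun w : C3 => w + latt a b) ⁻¹' reg i.2) := by
      intro i
      have hw := hB.w_posM i.2.2
      have hr := hB.r_posM i.2.2
      have hq1 : 0 < (i.2 : Atom).q1 := by linarith [hB.q1_geM i.2.2]
      have hq2 : 0 < (i.2 : Atom).q2 := by linarith [hB.q2_geM i.2.2]
      have e1 : ∫⁻ w in s, ENNReal.ofReal (dens i.2 (w + latt a b)) =
          ∫⁻ w in s ∩ (fun w : C3 => w + latt a b) ⁻¹' reg i.2, ENNReal.ofReal (dens i.2 (w + latt a b)) := by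
        rw [inter_comm, ← setLIntegral_indicator (hRm i)]
        refine setLIntegral_congr_fun hs fun w _ => ?_
        by_cases hw' : w ∈ (fun w : C3 => w + latt a b) ⁻¹' reg i.2
        · rw [indicator_of_mem hw']
        · rw [indicator_of_notMem hw', dens_eq_zero hw', ENNReal.ofReal_zero]
      rw [e1]
      refine le_trans ?_ (hL _ ν huc hν ((fun w : C3 => w + latt a b) ⁻¹' reg i.2)
        ((isOpen_reg _ hq1 hq2).preimage htc) (sep (HH i.2 (latt a b))) (sep_smooth (HH_smooth i.2 hq1 hq2 _)) ?_ ?_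
        (s ∩ (fun w : C3 => w + latt a b) ⁻¹' reg i.2) (hs.inter (hRm i)) inter_subset_right)
      · refine setLIntegral_mono' (hs.inter (hRm i)) fun w hw' => ?_
        exact ENNReal.ofReal_le_ofReal (dens_le_det _ hw hr.le hq1 hq2 _ _ hw'.2)
      · intro w hw'
        show 7 * v (w + latt a b) = _
        rw [sep_HH _ hq1 hq2 _ _ hw', hvr i.1 i.2 i.2.2 _ hw']
      · intro w hw'
        exact Hess_HH_pos _ hw hr.le hq1 hq2 _ _ hw'
    have hdisj : Pairwise (Function.onFun Disjoint fun i : Ix blk => s ∩ (fun w : C3 => w + latt a b) ⁻¹' reg i.2) := by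
      intro i j hij
      have hne : (i.2 : Atom) ≠ (j.2 : Atom) := by
        intro he
        obtain ⟨k, i, hi⟩ := i
        obtain ⟨l, j, hj⟩ := j
        simp only at he
        subst he
        by_cases hkl : k = l
        · subst hkl
          exact hij rfl
        · exact (Set.disjoint_left.1 (hB.disj k l hkl)) hi hj
      have h4 := (hB.reg_disj i.1 j.1 i.2 i.2.2 j.2 j.2.2 hne).preimage (fun w : C3 => w + latt a b)
      exact h4.mono inter_subset_right inter_subset_right
    rw [h1, h2]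
    calc ∑' i : Ix blk, ∫⁻ w in s, ENNReal.ofReal (dens i.2 (w + latt a b))
        ≤ ∑' i : Ix blk, ν (s ∩ (fun w : C3 => w + latt a b) ⁻¹' reg i.2) := ENNReal.tsum_le_tsum h3
      _ = ν (⋃ i : Ix blk, s ∩ (fun w : C3 => w + latt a b) ⁻¹' reg i.2) :=
          (measure_iUnion hdisj fun i => hs.inter (hRm i)).symm
      _ ≤ ν s := measure_mono (iUnion_subset fun i => inter_subset_left)

theorem coord_sub_le (z w : C3) {r : ℝ} (h : w ∈ Metric.ball z r) (j : Fin 3) :
    |(z j).re - (w j).re| < r ∧ |(z j).im - (w j).im| < r := by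
  rw [Metric.mem_ball, dist_eq_norm] at h
  have h1 : ‖(w - z) j‖ < r := (norm_le_pi_norm _ j).trans_lt h
  rw [Pi.sub_apply] at h1
  constructor
  · have := (Complex.abs_re_le_norm (w j - z j)).trans_lt h1
    rw [Complex.sub_re] at this
    rwa [abs_sub_comm]
  · have := (Complex.abs_im_le_norm (w j - z j)).trans_lt h1
    rw [Complex.sub_im] at this
    rwa [abs_sub_comm]

theorem locDom_far (hB : Blocks blk c R w L S) (hE : EXI_stmt) (hL : LOC_stmt) {z : C3} (hz : red z ∉ box0) :
    ∃ U : Set C3, IsOpen U ∧ z ∈ U ∧ ∃ (u : C3 → ℝ) (ν : Measure C3), Psh U u ∧ (∃ B, ∀ w ∈ U, |u w| ≤ B) ∧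
    IsMA U u ν ∧ ∀ s, MeasurableSet s → s ⊆ U → mu blk s ≤ ν s := by
  obtain ⟨K, hK⟩ : ∃ K : ℝ, K = (cst blk).toReal + 1 := ⟨_, rfl⟩
  have hc0 : 0 ≤ (cst blk).toReal := ENNReal.toReal_nonneg
  have hK1 : 1 ≤ K := by linarith
  have hK3 : (cst blk).toReal ≤ K ^ 3 := by nlinarith [mul_nonneg (by linarith : 0 ≤ K - 1) (by positivity : 0 ≤ K ^ 2), mul_nonneg (by linarith : 0 ≤ K - 1) (by linarith : 0 ≤ K)]
  have huc : Continuous fun w : C3 => K * sq w := continuous_const.mul continuous_sq
  have hup : Psh univ fun w : C3 => K * sq w := psh_sq.const_mulM continuous_sq (by linarith)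
  obtain ⟨ν, hν⟩ := hE _ hup huc
  refine ⟨Metric.ball z (1 / 100), Metric.isOpen_ball, Metric.mem_ball_self (by norm_num), _, ν,
    hup.monoM (subset_univ _), ?_, hν.monoM (subset_univ _), ?_⟩
  · obtain ⟨B, hB'⟩ := (isCompact_closedBall z (1 / 100)).exists_bound_of_continuousOn huc.continuousOn
    exact ⟨B, fun w hw => hB' w (Metric.ball_subset_closedBall hw)⟩
  · intro s hs hsU
    have h0 : ∀ w ∈ s, gg blk w ≤ cst blk := by
      intro w hw
      have h1 : f0 blk (red w) = 0 := by
        unfold f0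
        rw [ENNReal.tsum_eq_zero]
        intro i
        rw [dens_eq_zero, ENNReal.ofReal_zero]
        intro hr
        apply hz
        obtain ⟨k0, k1, k2⟩ := reg_bound hB i.2.2 hr
        have k0' : |fr (w 0).re| < 27 / 100 := k0
        have k1r : |fr (w 1).re| < 1 / 8 := (Complex.abs_re_le_norm (red w 1)).trans_lt k1
        have k1i : |fr (w 1).im| < 1 / 8 := (Complex.abs_im_le_norm (red w 1)).trans_lt k1
        have k2r : |fr (w 2).re| < 1 / 8 := (Complex.abs_re_le_norm (red w 2)).trans_lt k2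
        have k2i : |fr (w 2).im| < 1 / 8 := (Complex.abs_im_le_norm (red w 2)).trans_lt k2
        have c0 := coord_sub_le z w (hsU hw) 0
        have c1 := coord_sub_le z w (hsU hw) 1
        have c2 := coord_sub_le z w (hsU hw) 2
        have a0 := abs_fr_le_add (z 0).re (w 0).re
        have a1 := abs_fr_le_add (z 1).re (w 1).re
        have a2 := abs_fr_le_add (z 1).im (w 1).im
        have a3 := abs_fr_le_add (z 2).re (w 2).re
        have a4 := abs_fr_le_add (z 2).im (w 2).im
        refine ⟨?_, ⟨?_, ?_⟩, ?_, ?_⟩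
        · show |fr (z 0).re| < 3 / 10
          linarith [c0.1]
        · show |fr (z 1).re| < 1 / 4
          linarith [c1.1]
        · show |fr (z 1).im| < 1 / 4
          linarith [c1.2]
        · show |fr (z 2).re| < 1 / 4
          linarith [c2.1]
        · show |fr (z 2).im| < 1 / 4
          linarith [c2.2]
      unfold gg
      rw [h1, zero_add]
      exact indicator_le_self' (fun _ _ => zero_le) w
    have h1 : mu blk s ≤ ∫⁻ _ in s, cst blk := by
      unfold mu
      rw [withDensity_apply _ hs]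
      exact setLIntegral_mono' hs h0
    refine h1.trans ?_
    refine le_trans ?_ (hL _ ν huc hν univ isOpen_univ (sep (QQs K)) (sep_smooth (QQs_smooth K))
      (fun w _ => (sep_QQs K w).symm) (fun w _ => psd_QQs (by linarith) w) s hs (subset_univ _))
    refine setLIntegral_mono' hs fun w _ => ?_
    rw [det_QQs]
    rw [← ENNReal.ofReal_toReal (cst_ne_top blk)]
    exact ENNReal.ofReal_le_ofReal hK3

/-- **Row MU** -/
theorem mu_of (hV : VV_stmt) (hE : EXI_stmt) (hL : LOC_stmt) : MU_stmt := by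
  intro blk c R w L S hB
  obtain ⟨v, hv⟩ := hV blk c R w L S hB
  refine ⟨mu blk, torusProb_mu hB, ?_, ?_⟩
  · intro z
    by_cases hz : red z ∈ box0
    · rw [red_eq] at hz
      exact locDom_near hB hE hL hv rfl hz
    · exact locDom_far hB hE hL hz
  · intro k a ha s hs hsr
    unfold mu
    rw [withDensity_apply _ hs]
    refine setLIntegral_mono' hs fun z hz => ?_
    have hb := reg_bound hB ha (hsr hz)
    have hbox : z + latt 0 0 ∈ box0 := by
      have h0 : latt 0 0 = 0 := by
        funext j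
        simp [latt]
      rw [h0, add_zero]
      obtain ⟨k0, k1, k2⟩ := hb
      have r1 := Complex.abs_re_le_norm (z 1)
      have i1 := Complex.abs_im_le_norm (z 1)
      have r2 := Complex.abs_re_le_norm (z 2)
      have i2 := Complex.abs_im_le_norm (z 2)
      exact ⟨by linarith, ⟨by linarith, by linarith⟩, by linarith, by linarith⟩
    rw [gg_of_box rfl hbox]
    have h0 : latt 0 0 = 0 := by
      funext j
      simp [latt]
    rw [h0, add_zero]
    unfold f0
    exact ENNReal.le_tsum (f := fun i : Ix blk => ENNReal.ofReal (dens i.2 z)) ⟨k, a, ha⟩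

end

end KOL.Mu
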