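import Mathlib

/-!
# Project KOL: mixed discriminants of 3 by 3 complex matrices
-/

set_option autoImplicit false

namespace KOL

open Matrix ComplexConjugate
open scoped ComplexOrder MatrixOrder

/-- complex 3 by 3 matrices -/
abbrev Mat := Matrix (Fin 3) (Fin 3) ℂ

/-- the mixed discriminant, the polarisation of the determinant -/
noncomputable def D (A B C : Mat) : ℂ :=
  ((A + B + C).det - (A + B).det - (B + C).det - (A + C).det + A.det + B.det + C.det) / 6

theorem D_self (A : Mat) : D A A A = A.det := by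
  simp only [D, det_fin_three, Matrix.add_apply]
  ring

theorem D_comm12 (A B C : Mat) : D A B C = D B A C := by
  simp only [D, det_fin_three, Matrix.add_apply]
  ring

theorem D_comm23 (A B C : Mat) : D A B C = D A C B := by
  simp only [D, det_fin_three, Matrix.add_apply]
  ring

theorem D_comm13 (A B C : Mat) : D A B C = D C B A := by
  rw [D_comm12, D_comm23, D_comm12]

theorem D_add_left (A A' B C : Mat) : D (A + A') B C = D A B C + D A' B C := by
  simp only [D, det_fin_three, Matrix.add_apply]
  ring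

theorem D_smul_left (c : ℂ) (A B C : Mat) : D (c • A) B C = c * D A B C := by
  simp only [D, det_fin_three, Matrix.add_apply, Matrix.smul_apply, smul_eq_mul]
  ring

theorem D_add_mid (A B B' C : Mat) : D A (B + B') C = D A B C + D A B' C := by
  rw [D_comm12, D_add_left, D_comm12, D_comm12 B']

theorem D_smul_mid (c : ℂ) (A B C : Mat) : D A (c • B) C = c * D A B C := by
  rw [D_comm12, D_smul_left, D_comm12]

theorem D_add_right (A B C C' : Mat) : D A B (C + C') = D A B C + D A B C' := by
  rw [D_comm13, D_add_left, D_comm13, D_comm13 C']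

theorem D_smul_right (c : ℂ) (A B C : Mat) : D A B (c • C) = c * D A B C := by
  rw [D_comm13, D_smul_left, D_comm13]

theorem D_zero_left (B C : Mat) : D 0 B C = 0 := by
  have h := D_smul_left 0 0 B C
  rwa [zero_smul, zero_mul] at h

theorem D_zero_mid (A C : Mat) : D A 0 C = 0 := by
  rw [D_comm12, D_zero_left]

theorem D_zero_right (A B : Mat) : D A B 0 = 0 := by
  rw [D_comm13, D_zero_left]

theorem D_neg_left (A B C : Mat) : D (-A) B C = - D A B C := by
  have h := D_smul_left (-1) A B C
  rwa [neg_one_smul, neg_one_mul] at h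

theorem D_sub_left (A A' B C : Mat) : D (A - A') B C = D A B C - D A' B C := by
  rw [sub_eq_add_neg, D_add_left, D_neg_left, ← sub_eq_add_neg]

theorem D_sub_mid (A B B' C : Mat) : D A (B - B') C = D A B C - D A B' C := by
  rw [D_comm12, D_sub_left, D_comm12, D_comm12 B']

theorem D_sub_right (A B C C' : Mat) : D A B (C - C') = D A B C - D A B C' := by
  rw [D_comm13, D_sub_left, D_comm13, D_comm13 C']

/-- `D` as a linear map in the first variable -/
noncomputable def Dlin (B C : Mat) : Mat →ₗ[ℂ] ℂ where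
  toFun A := D A B C
  map_add' A A' := D_add_left A A' B C
  map_smul' c A := by
    rw [D_smul_left]
    rfl

@[simp] theorem Dlin_apply (A B C : Mat) : Dlin B C A = D A B C := rfl

theorem D_sum_left {ι : Type*} (s : Finset ι) (f : ι → Mat) (B C : Mat) :
    D (∑ i ∈ s, f i) B C = ∑ i ∈ s, D (f i) B C := by
  have h := map_sum (Dlin B C) f s
  exact h

theorem D_sum_mid {ι : Type*} (s : Finset ι) (f : ι → Mat) (A C : Mat) :
    D A (∑ i ∈ s, f i) C = ∑ i ∈ s, D A (f i) C := by
  rw [D_comm12, D_sum_left]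
  exact Finset.sum_congr rfl fun i _ => D_comm12 _ _ _

theorem D_sum_right {ι : Type*} (s : Finset ι) (f : ι → Mat) (A B : Mat) :
    D A B (∑ i ∈ s, f i) = ∑ i ∈ s, D A B (f i) := by
  rw [D_comm13, D_sum_left]
  exact Finset.sum_congr rfl fun i _ => D_comm13 _ _ _

/-- the rank one matrix `x x^*` -/
noncomputable def rk (x : Fin 3 → ℂ) : Mat := Matrix.vecMulVec x (star x)

theorem rk_apply (x : Fin 3 → ℂ) (j k : Fin 3) : rk x j k = x j * conj (x k) := rfl

/-- the mixed discriminant of rank one matrices is `|det|² / 6` -/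
theorem D_rk (x y z : Fin 3 → ℂ) :
    D (rk x) (rk y) (rk z) = ((Complex.normSq (Matrix.of ![x, y, z]).det / 6 : ℝ) : ℂ) := by
  push_cast
  rw [← Complex.mul_conj]
  simp only [D, det_fin_three, Matrix.add_apply, rk_apply, Matrix.of_apply, map_sub, map_add, map_mul,
    Matrix.cons_val]
  ring

theorem D_rk_nonneg (x y z : Fin 3 → ℂ) : 0 ≤ D (rk x) (rk y) (rk z) := by
  rw [D_rk]
  exact_mod_cast div_nonneg (Complex.normSq_nonneg _) (by norm_num)

/-- a positive semidefinite matrix is a sum of three rank one matrices -/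
theorem exists_rk {A : Mat} (hA : A.PosSemidef) : ∃ x : Fin 3 → (Fin 3 → ℂ), A = ∑ l, rk (x l) := by
  obtain ⟨B, rfl⟩ := CStarAlgebra.nonneg_iff_eq_star_mul_self.mp hA.nonneg
  refine ⟨fun l j => conj (B l j), ?_⟩
  ext j k
  rw [Matrix.mul_apply, Matrix.sum_apply]
  refine Finset.sum_congr rfl fun l _ => ?_
  rw [rk_apply, Complex.conj_conj]
  rfl

theorem D_nonneg {A B C : Mat} (hA : A.PosSemidef) (hB : B.PosSemidef) (hC : C.PosSemidef) : 0 ≤ D A B C := by
  obtain ⟨x, rfl⟩ := exists_rk hA
  obtain ⟨y, rfl⟩ := exists_rk hB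
  obtain ⟨z, rfl⟩ := exists_rk hC
  rw [D_sum_left]
  refine Finset.sum_nonneg fun l _ => ?_
  rw [D_sum_mid]
  refine Finset.sum_nonneg fun m _ => ?_
  rw [D_sum_right]
  exact Finset.sum_nonneg fun n _ => D_rk_nonneg _ _ _

/-- the mixed discriminant of Hermitian matrices is real -/
theorem D_conj {A B C : Mat} (hA : A.IsHermitian) (hB : B.IsHermitian) (hC : C.IsHermitian) :
    conj (D A B C) = D A B C := by
  have h : ∀ M : Mat, M.IsHermitian → conj M.det = M.det := by
    intro M hM
    have h1 := Matrix.det_conjTranspose M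
    rw [hM.eq] at h1
    exact h1.symm
  simp only [D, map_div₀, map_add, map_sub, h _ hA, h _ hB, h _ hC, h _ (hA.add hB), h _ (hB.add hC), h _ (hA.add hC),
    h _ ((hA.add hB).add hC)]
  congr 1
  exact Complex.conj_ofReal 6

theorem D_re {A B C : Mat} (hA : A.IsHermitian) (hB : B.IsHermitian) (hC : C.IsHermitian) :
    (((D A B C).re : ℝ) : ℂ) = D A B C := Complex.conj_eq_iff_re.1 (D_conj hA hB hC)

theorem D_re_nonneg {A B C : Mat} (hA : A.PosSemidef) (hB : B.PosSemidef) (hC : C.PosSemidef) : 0 ≤ (D A B C).re :=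
  (Complex.nonneg_iff.1 (D_nonneg hA hB hC)).1

/-- monotonicity -/
theorem D_mono {A A' B C : Mat} (hA : (A' - A).PosSemidef) (hB : B.PosSemidef) (hC : C.PosSemidef) :
    (D A B C).re ≤ (D A' B C).re := by
  have h := D_re_nonneg hA hB hC
  rw [D_sub_left, Complex.sub_re] at h
  linarith

/-! ### elementary matrices -/

/-- the matrix unit -/
noncomputable def E (j k : Fin 3) : Mat := Matrix.single j k 1

theorem E_apply (j k l m : Fin 3) : E j k l m = if j = l ∧ k = m then 1 else 0 := by
  rw [E, Matrix.single_apply]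

theorem eq_sum_E (A : Mat) : A = ∑ j, ∑ k, A j k • E j k := by
  ext l m
  simp only [Matrix.sum_apply, Matrix.smul_apply, E_apply, smul_eq_mul, mul_ite, mul_one, mul_zero]
  rw [Finset.sum_eq_single l, Finset.sum_eq_single m]
  · simp
  · intro k _ hk
    simp [hk]
  · simp
  · intro j _ hj
    refine Finset.sum_eq_zero fun k _ => ?_
    simp [hj]
  · simp

theorem D_eq_sum_left (A B C : Mat) : D A B C = ∑ j, ∑ k, A j k * D (E j k) B C := by
  conv_lhs => rw [eq_sum_E A]
  rw [D_sum_left]
  refine Finset.sum_congr rfl fun j _ => ?_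
  rw [D_sum_left]
  exact Finset.sum_congr rfl fun k _ => D_smul_left _ _ _ _

/-- the mixed discriminant of matrices of rank one -/
theorem D_vec (x x' y y' z z' : Fin 3 → ℂ) :
    D (vecMulVec x x') (vecMulVec y y') (vecMulVec z z') =
      (Matrix.of ![x, y, z]).det * (Matrix.of ![x', y', z']).det / 6 := by
  simp only [D, det_fin_three, Matrix.add_apply, vecMulVec_apply, Matrix.of_apply, Matrix.cons_val]
  ring

theorem E_eq_vec (j k : Fin 3) : E j k = vecMulVec (Pi.single j 1) (Pi.single k 1) := by
  ext l m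
  rw [E_apply, vecMulVec_apply, Pi.single_apply, Pi.single_apply]
  by_cases h1 : l = j <;> by_cases h2 : m = k
  · simp [h1, h2]
  · have h3 : ¬ k = m := fun h => h2 h.symm
    simp [h2, h3]
  · have h3 : ¬ j = l := fun h => h1 h.symm
    simp [h1, h3]
  · have h3 : ¬ k = m := fun h => h2 h.symm
    simp [h2, h3]

/-- antisymmetry in the column indices -/
theorem D_E_swap_col (j k l m : Fin 3) (C : Mat) : D (E j k) (E l m) C = - D (E j m) (E l k) C := by
  rw [D_comm13, D_eq_sum_left, D_comm13 (E j m), D_eq_sum_left, ← Finset.sum_neg_distrib]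
  refine Finset.sum_congr rfl fun p _ => ?_
  rw [← Finset.sum_neg_distrib]
  refine Finset.sum_congr rfl fun q _ => ?_
  rw [← mul_neg]
  congr 1
  rw [E_eq_vec p q, E_eq_vec l m, E_eq_vec j k, E_eq_vec l k, E_eq_vec j m, D_vec, D_vec]
  simp only [det_fin_three, Matrix.of_apply, Matrix.cons_val]
  ring

/-- antisymmetry in the row indices -/
theorem D_E_swap_row (j k l m : Fin 3) (C : Mat) : D (E j k) (E l m) C = - D (E l k) (E j m) C := by
  rw [D_E_swap_col, D_comm12 (E l k)]

theorem D_E_row (j k m : Fin 3) (C : Mat) : D (E j k) (E j m) C = 0 := by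
  have h := D_E_swap_row j k j m C
  exact self_eq_neg.1 h

theorem D_E_col (j k l : Fin 3) (C : Mat) : D (E j k) (E l k) C = 0 := by
  have h := D_E_swap_col j k l k C
  exact self_eq_neg.1 h

/-! ### the matrix of cofactors -/

/-- the polarised adjugate: `trace (A * adj2 B C) / 3 = D A B C` -/
noncomputable def adj2 (B C : Mat) : Mat := fun k j => 3 * D (E j k) B C

theorem trace_adj2 (A B C : Mat) : (A * adj2 B C).trace = 3 * D A B C := by
  rw [D_eq_sum_left, Matrix.trace, Finset.mul_sum]
  refine Finset.sum_congr rfl fun j _ => ?_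
  rw [Matrix.diag_apply, Matrix.mul_apply, Finset.mul_sum]
  refine Finset.sum_congr rfl fun k _ => ?_
  rw [adj2]
  ring

theorem adj2_comm (B C : Mat) : adj2 B C = adj2 C B := by
  ext k j
  rw [adj2, adj2, D_comm23]

theorem rk_posSemidef (x : Fin 3 → ℂ) : (rk x).PosSemidef := Matrix.posSemidef_vecMulVec_self_star x

theorem adj2_isHermitian {B C : Mat} (hB : B.IsHermitian) (hC : C.IsHermitian) : (adj2 B C).IsHermitian := by
  ext k j
  have h1 : (E k j)ᴴ = E j k := by
    ext l m
    rw [Matrix.conjTranspose_apply, E_apply, E_apply]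
    by_cases h : k = m ∧ j = l
    · rw [if_pos h, if_pos ⟨h.2, h.1⟩, star_one]
    · rw [if_neg h, if_neg fun h' => h ⟨h'.2, h'.1⟩, star_zero]
  have h2 : ∀ M : Mat, conj M.det = (Mᴴ).det := fun M => (Matrix.det_conjTranspose M).symm
  rw [Matrix.conjTranspose_apply, adj2, adj2]
  change conj (3 * D (E k j) B C) = _
  rw [map_mul]
  congr 1
  · exact Complex.conj_ofReal 3
  · simp only [D, map_div₀, map_add, map_sub, h2, Matrix.conjTranspose_add, h1, hB.eq, hC.eq]
    congr 1
    exact Complex.conj_ofReal 6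

theorem adj2_posSemidef {B C : Mat} (hB : B.PosSemidef) (hC : C.PosSemidef) : (adj2 B C).PosSemidef := by
  refine Matrix.PosSemidef.of_dotProduct_mulVec_nonneg (adj2_isHermitian hB.1 hC.1) fun x => ?_
  have h : star x ⬝ᵥ (adj2 B C) *ᵥ x = (rk x * adj2 B C).trace := by
    simp only [Matrix.trace, Matrix.diag_apply, Matrix.mul_apply, dotProduct, mulVec, Finset.mul_sum, rk_apply,
      Pi.star_apply]
    rw [Finset.sum_comm]
    refine Finset.sum_congr rfl fun j _ => Finset.sum_congr rfl fun k _ => ?_
    change conj (x k) * _ = _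
    ring
  rw [h, trace_adj2]
  exact mul_nonneg (by norm_num) (D_nonneg (rk_posSemidef x) hB hC)

/-- `adj2 A A` is the adjugate of `A` -/
theorem adj2_self (A : Mat) : adj2 A A = A.adjugate := by
  ext k j
  rw [adj2, Matrix.adjugate_fin_three]
  fin_cases k <;> fin_cases j <;>
    (simp only [D, det_fin_three, Matrix.add_apply, E_apply, Fin.zero_eta, Fin.mk_one, Fin.reduceFinMk, Fin.isValue,
      Fin.reduceEq, and_true, and_false, and_self, if_true, if_false, Matrix.of_apply,
      Matrix.cons_val, one_ne_zero, zero_ne_one]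
     ring)

end KOL
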