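import Pool.Agent.KOL.Line
import Pool.Agent.KOL.Blk

/-!
# Project KOL: the negative part (row NEG), from the one-node bound and the strip maximum principle
-/

set_option autoImplicit false

namespace KOL

open MeasureTheory Matrix Set
open Pool.Agent.Kolodziej

noncomputable section

/-- The upper bound along the tree. -/
theorem upper_tree_cx (bar : BAR_stmt) (strip : STRIP_stmt) {φ : C3 → ℝ} {ν : Measure C3}
    (hφ : OmegaPsh φ) (hν : IsMA univ (fun z => φ z + sq z) ν) {c w L : ℝ} {K : ℕ} (hw : 0 < w)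
    (hK : w * K = 10) (hL : 2 ≤ L) {S B : ℝ} (hS : 0 < S)
    (hB : ∀ z : C3, |(z 0).re| ≤ 1 / 2 → ‖z 1‖ ≤ Real.exp (-S) → ‖z 2‖ ≤ Real.exp (-S) →
      psi φ z ≤ B + 2 * |(z 0).re|) (n : ℕ) :
    ∀ (U : ℝ → ℝ) (T : ℝ) (j : ℤ) (q1 q2 : ℝ), Good c U → |j| ≤ K →
      S * L ^ ee n ≤ q1 → S * L ^ ee n ≤ q2 →
      (∀ a ∈ atoms w K L n U T j q1 q2, ∀ s : Set C3, MeasurableSet s → s ⊆ reg a →
        ∫⁻ z in s, ENNReal.ofReal (dens a z) ≤ ν s) →
      ∀ z : C3, (z 0).re = lam * (j * w) → ‖z 1‖ ≤ Real.exp (-q1) → ‖z 2‖ ≤ Real.exp (-q2) →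
      psi φ z ≤ B - 4 * lam * c + (4 * lam * U (j * w) - 2 * (lam * (j * w)))
        - 4 * lam * GG w K n U T j := by
  have hlam : 0 < lam := by unfold lam; norm_num
  have hL1 : 1 ≤ L := by linarith
  have hL0 : 0 < L := by linarith
  have hK0 : (0 : ℝ) ≤ K := Nat.cast_nonneg K
  -- the bound at the leaves
  have leaf : ∀ (m : ℕ) (U : ℝ → ℝ) (j : ℤ) (q1 q2 : ℝ), Good c U → |j| ≤ K →
      S * L ^ ee m ≤ q1 → S * L ^ ee m ≤ q2 →
      ∀ z : C3, (z 0).re = lam * (j * w) → ‖z 1‖ ≤ Real.exp (-q1) → ‖z 2‖ ≤ Real.exp (-q2) →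
      psi φ z ≤ B - 4 * lam * c + (4 * lam * U (j * w) - 2 * (lam * (j * w))) := by
    intro m U j q1 q2 hU hj h1 h2 z hz z1 z2
    have hone : (1 : ℝ) ≤ L ^ ee m := one_le_pow₀ hL1
    have h3 : S ≤ S * L ^ ee m := by nlinarith
    have hjr : |(j : ℝ)| ≤ K := by exact_mod_cast hj
    have hjw : |(j : ℝ) * w| ≤ 10 := by
      rw [abs_mul, abs_of_pos hw]
      nlinarith
    have hre : |(z 0).re| ≤ 1 / 2 := by
      rw [hz, abs_mul, abs_of_pos hlam]
      unfold lam
      linarith
    have h4 := hB z hre (le_trans z1 (Real.exp_le_exp.2 (by linarith)))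
      (le_trans z2 (Real.exp_le_exp.2 (by linarith)))
    have h6 := hU.base (j * w)
    have h7 : 2 * |(z 0).re| = 4 * lam * max ((j : ℝ) * w) 0 - 2 * (lam * (j * w)) := by
      rw [hz, abs_mul, abs_of_pos hlam]
      rcases le_total 0 ((j : ℝ) * w) with h | h
      · rw [abs_of_nonneg h, max_eq_left h]; ring
      · rw [abs_of_nonpos h, max_eq_right h]; ring
    have h8 : 4 * lam * (c + max ((j : ℝ) * w) 0) ≤ 4 * lam * U (j * w) :=
      mul_le_mul_of_nonneg_left h6 (by linarith)
    linarith
  induction n with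
  | zero =>
    intro U T j q1 q2 hU hj h1 h2 _ z hz z1 z2
    have := leaf 0 U j q1 q2 hU hj h1 h2 z hz z1 z2
    simp only [GG]
    linarith
  | succ n ih =>
    intro U T j q1 q2 hU hj h1 h2 hat z hz z1 z2
    rw [GG]
    split_ifs with hstop
    · have := leaf (n + 1) U j q1 q2 hU hj h1 h2 z hz z1 z2
      linarith
    · have hr0 := rr_nonneg hw hU (j * w)
      have hU' := hU.topple hw (j * w)
      have eexp : L ^ ee (n + 1) = L ^ 3 ^ (n + 1) * L ^ ee n := by rw [← pow_add]; rfl
      have hLp : L ≤ L ^ 3 ^ (n + 1) := by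
        calc L = L ^ 1 := (pow_one L).symm
          _ ≤ L ^ 3 ^ (n + 1) := pow_le_pow_right₀ hL1 (Nat.one_le_pow _ _ (by norm_num))
      have hpow0 : 0 < L ^ 3 ^ (n + 1) := by positivity
      have hpe0 : 0 < L ^ ee n := by positivity
      have hq1 : 0 < q1 := lt_of_lt_of_le (by positivity) h1
      have hq2 : 0 < q2 := lt_of_lt_of_le (by positivity) h2
      have hjK : |j| < (K : ℤ) := by
        push Not at hstop
        exact hstop.2
      have hj1 : |j + 1| ≤ (K : ℤ) := by
        have := abs_lt.1 hjK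
        rw [abs_le]; constructor
        · have := this.1; omega
        · have := this.2; omega
      have hj2 : |j - 1| ≤ (K : ℤ) := by
        have := abs_lt.1 hjK
        rw [abs_le]; constructor
        · have := this.1; omega
        · have := this.2; omega
      -- position bounds for the children
      have big : ∀ q : ℝ, S * L ^ ee (n + 1) ≤ q → S * L ^ ee n ≤ q / L ^ 3 ^ (n + 1) := by
        intro q hq
        rw [le_div_iff₀ hpow0]
        calc S * L ^ ee n * L ^ 3 ^ (n + 1) = S * L ^ ee (n + 1) := by rw [eexp]; ring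
          _ ≤ q := hq
      have small : ∀ q : ℝ, 0 < q → S * L ^ ee (n + 1) ≤ q → S * L ^ ee n ≤ q / L := by
        intro q hq0 hq
        refine le_trans (big q hq) ?_
        exact div_le_div_of_nonneg_left hq0.le hL0 hLp
      have i1 := ih (topple w U (j * w)) (T + rr w U (j * w)) (j + 1) _ _ hU' hj1
        (big q1 h1) (small q2 hq2 h2)
        (fun a ha => hat a (mem_atoms_succ.2 ⟨hstop, Or.inr (Or.inl ha)⟩))
      have i2 := ih (topple w U (j * w)) (T + rr w U (j * w)) (j - 1) _ _ hU' hj2
        (small q1 hq1 h1) (big q2 h2)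
        (fun a ha => hat a (mem_atoms_succ.2 ⟨hstop, Or.inr (Or.inr ha)⟩))
      have x1 : ((j + 1 : ℤ) : ℝ) * w = j * w + w := by push_cast; ring
      have x2 : ((j - 1 : ℤ) : ℝ) * w = j * w - w := by push_cast; ring
      have e1 : topple w U (j * w) (j * w + w) = U (j * w + w) := by
        apply topple_far hw hU
        rw [add_sub_cancel_left, abs_of_pos hw]
      have e2 : topple w U (j * w) (j * w - w) = U (j * w - w) := by
        apply topple_far hw hU
        have : (j : ℝ) * w - w - j * w = -w := by ring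
        rw [this, abs_neg, abs_of_pos hw]
      rw [x1, e1] at i1
      rw [x2, e2] at i2
      set Gp := GG w K n (topple w U (j * w)) (T + rr w U (j * w)) (j + 1) with hGp
      set Gm := GG w K n (topple w U (j * w)) (T + rr w U (j * w)) (j - 1) with hGm
      have hrdef : U (j * w + w) + U (j * w - w) = 2 * (rr w U (j * w) + U (j * w)) := by
        unfold rr; ring
      have half : ∀ q : ℝ, 0 < q → q / L ≤ q / 2 := fun q hq =>
        div_le_div_of_nonneg_left hq.le (by norm_num) hL
      have halfp : ∀ q : ℝ, 0 < q → q / L ^ 3 ^ (n + 1) ≤ q / 2 := fun q hq =>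
        div_le_div_of_nonneg_left hq.le (by norm_num) (le_trans hL hLp)
      set bp : ℝ := B - 4 * lam * c + (4 * lam * U (j * w + w) - 2 * (lam * (j * w + w)))
        - 4 * lam * Gp with hbp
      set bm : ℝ := B - 4 * lam * c + (4 * lam * U (j * w - w) - 2 * (lam * (j * w - w)))
        - 4 * lam * Gm with hbm
      have k1 : ∀ z : C3, (z 0).re = lam * (j * w) + lam * w → ‖z 1‖ ≤ Real.exp (-(q1 / 2)) →
          ‖z 2‖ ≤ Real.exp (-(q2 / 2)) → psi φ z ≤ bp := by
        intro z hz z1 z2
        refine i1 z (by rw [hz]; ring) (le_trans z1 (Real.exp_le_exp.2 ?_))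
          (le_trans z2 (Real.exp_le_exp.2 ?_))
        · have := halfp q1 hq1; linarith
        · have := half q2 hq2; linarith
      have k2 : ∀ z : C3, (z 0).re = lam * (j * w) - lam * w → ‖z 1‖ ≤ Real.exp (-(q1 / 2)) →
          ‖z 2‖ ≤ Real.exp (-(q2 / 2)) → psi φ z ≤ bm := by
        intro z hz z1 z2
        refine i2 z (by rw [hz]; ring) (le_trans z1 (Real.exp_le_exp.2 ?_))
          (le_trans z2 (Real.exp_le_exp.2 ?_))
        · have := half q1 hq1; linarith
        · have := halfp q2 hq2; linarith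
      have havg : (bp + bm) / 2 = B - 4 * lam * c + (4 * lam * (rr w U (j * w) + U (j * w))
          - 2 * (lam * (j * w))) - 2 * lam * (Gp + Gm) := by
        rw [hbp, hbm]
        linear_combination (2 * lam) * hrdef
      rcases hr0.eq_or_lt with hr | hr
      · -- zero mass: the strip
        have hW : 0 < lam * w := by positivity
        have hs := strip φ hφ (lam * (j * w) - lam * w) (lam * (j * w) + lam * w) bm bp (by linarith) z
          (fun y hy y1 y2 => k2 y hy
            (by rw [y1]; exact le_trans z1 (Real.exp_le_exp.2 (by linarith)))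
            (by rw [y2]; exact le_trans z2 (Real.exp_le_exp.2 (by linarith))))
          (fun y hy y1 y2 => k1 y hy
            (by rw [y1]; exact le_trans z1 (Real.exp_le_exp.2 (by linarith)))
            (by rw [y2]; exact le_trans z2 (Real.exp_le_exp.2 (by linarith))))
          (by rw [hz]; linarith) (by rw [hz]; linarith)
        have e3 : ((z 0).re - (lam * (j * w) - lam * w)) /
            (lam * (j * w) + lam * w - (lam * (j * w) - lam * w)) = 1 / 2 := by
          rw [hz]
          field_simp
          ring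
        rw [e3] at hs
        have hr' : rr w U (j * w) = 0 := hr.symm
        rw [hr'] at havg ⊢
        linarith
      · have hd := hat ⟨U, j * w, w, q1, q2⟩ (mem_atoms_succ.2 ⟨hstop, Or.inl ⟨hr, rfl⟩⟩)
        have hbar := bar φ ν hφ hν (lam * (j * w)) (lam * w) q1 q2 bp bm (16 * lam * rr w U (j * w))
          (by positivity) hq1 hq2 (by positivity) k1 k2
          (by
            intro s hs hz
            refine le_trans (le_of_eq ?_) (hd s hs ?_)
            · rfl
            · intro y hy
              have h0 := hz y hy 0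
              have h1 := hz y hy 1
              have h2 := hz y hy 2
              exact ⟨h0, h1, h2⟩)
          z hz z1 z2
        rw [havg] at hbar
        linarith

/-- translation by the unit vector in the first coordinate -/
lemma psi_shift {φ : C3 → ℝ} (hφ : OmegaPsh φ) (z : C3) (m : ℤ) :
    psi φ (z + latt ![m, 0, 0] 0) = psi φ z + 4 * m * (z 0).re + 2 * m ^ 2 := by
  unfold psi
  rw [hφ.per]
  have e0 : (z + latt ![m, 0, 0] 0) 0 = z 0 + m := by simp [latt]
  have e1 : (z + latt ![m, 0, 0] 0) 1 = z 1 := by simp [latt]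
  have e2 : (z + latt ![m, 0, 0] 0) 2 = z 2 := by simp [latt]
  unfold sq
  rw [Fin.sum_univ_three, Fin.sum_univ_three, e0, e1, e2]
  simp only [Complex.normSq_apply, Complex.add_re, Complex.add_im, Complex.intCast_re,
    Complex.intCast_im]
  ring

/-- From the bound on `Re z₁ = 0` to the bound on the strip. -/
lemma strip_zero (strip : STRIP_stmt) {φ : C3 → ℝ} (hφ : OmegaPsh φ) {S B : ℝ}
    (h : ∀ z : C3, (z 0).re = 0 → ‖z 1‖ ≤ Real.exp (-S) → ‖z 2‖ ≤ Real.exp (-S) → psi φ z ≤ B) :
    ∀ z : C3, |(z 0).re| ≤ 1 / 2 → ‖z 1‖ ≤ Real.exp (-S) → ‖z 2‖ ≤ Real.exp (-S) →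
      psi φ z ≤ B + 2 * |(z 0).re| := by
  intro z hz z1 z2
  have hz' := abs_le.1 hz
  have shift : ∀ (m : ℤ) (w : C3), (w 0).re = m → w 1 = z 1 → w 2 = z 2 →
      psi φ w ≤ B + 2 * (m : ℝ) ^ 2 := by
    intro m w hw w1 w2
    have h1 := psi_shift hφ w (-m)
    have e0 : (w + latt ![-m, 0, 0] 0) 0 = w 0 - m := by simp [latt]; ring
    have e1 : (w + latt ![-m, 0, 0] 0) 1 = w 1 := by simp [latt]
    have e2 : (w + latt ![-m, 0, 0] 0) 2 = w 2 := by simp [latt]
    have h2 := h (w + latt ![-m, 0, 0] 0) (by rw [e0]; simp [hw]) (by rw [e1, w1]; exact z1)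
      (by rw [e2, w2]; exact z2)
    rw [h1, hw] at h2
    push_cast at h2
    nlinarith
  rcases le_total 0 (z 0).re with h0 | h0
  · have hs := strip φ hφ 0 1 B (B + 2) (by norm_num) z
      (fun w hw w1 w2 => h w hw (by rw [w1]; exact z1) (by rw [w2]; exact z2))
      (fun w hw w1 w2 => by
        have := shift 1 w (by rw [hw]; norm_num) w1 w2
        push_cast at this
        linarith)
      h0 (by linarith [hz'.2])
    rw [abs_of_nonneg h0]
    have e : ((z 0).re - 0) / (1 - 0) = (z 0).re := by ring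
    rw [e] at hs
    linarith
  · have hs := strip φ hφ (-1) 0 (B + 2) B (by norm_num) z
      (fun w hw w1 w2 => by
        have := shift (-1) w (by rw [hw]; norm_num) w1 w2
        push_cast at this
        linarith)
      (fun w hw w1 w2 => h w hw (by rw [w1]; exact z1) (by rw [w2]; exact z2))
      (by linarith [hz'.1]) h0
    rw [abs_of_nonpos h0]
    have e : ((z 0).re - -1) / (0 - -1) = (z 0).re + 1 := by ring
    rw [e] at hs
    linarith

/-- **Row NEG** -/
theorem neg (bar : BAR_stmt) (strip : STRIP_stmt) : NEG_stmt blk := by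
  intro φ ν hφ hν hat
  obtain ⟨A, hA⟩ := hφ.bdd
  have hlam : lam = 1 / 40 := rfl
  have key : ∀ k : ℕ, ∀ z : C3, |(z 0).re| ≤ 1 / 2 → ‖z 1‖ ≤ Real.exp (-Sk k) →
      ‖z 2‖ ≤ Real.exp (-Sk k) → psi φ z ≤ (A + 2 - k / 40) + 2 * |(z 0).re| := by
    intro k
    induction k with
    | zero =>
      intro z hz z1 z2
      have h1 := (abs_le.1 (hA z)).2
      have hS := Sk_ge 0
      have hle : Real.exp (-Sk 0) ≤ 1 := by
        rw [Real.exp_le_one_iff]; linarith
      have n1 : Complex.normSq (z 1) ≤ 1 := by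
        rw [Complex.normSq_eq_norm_sq]
        have := norm_nonneg (z 1)
        nlinarith
      have n2 : Complex.normSq (z 2) ≤ 1 := by
        rw [Complex.normSq_eq_norm_sq]
        have := norm_nonneg (z 2)
        nlinarith
      unfold psi sq
      rw [Fin.sum_univ_three]
      have e : Complex.normSq (z 0) = (z 0).re ^ 2 + (z 0).im ^ 2 := by
        rw [Complex.normSq_apply]; ring
      have h2 : (z 0).re ^ 2 ≤ |(z 0).re| := by
        rw [← sq_abs]
        have := abs_nonneg (z 0).re
        nlinarith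
      push_cast
      linarith
    | succ k ih =>
      have hS := Sk_ge k
      have root := upper_tree_cx bar strip hφ hν (c := ck k) (K := Kk k) (wk_pos k) (wk_Kk k) (Lk_ge k)
        (by linarith : 0 < Sk k) ih (Dk k)
        (U0 k) 0 0 (Qk k) (Qk k) (good_init (ck k)) (by simp) le_rfl le_rfl
        (fun a ha => hat k a ha)
      have h2 := GG_blk k
      have e1 : U0 k (((0 : ℤ) : ℝ) * wk k) = ck k := by simp [U0]
      rw [e1] at root
      have hQ : Qk k ≤ Sk (k + 1) := by
        have h1 := Sk_succ k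
        have := Lk_ge k; have := Qk_pos k
        nlinarith
      have := strip_zero strip hφ (S := Sk (k + 1)) (B := A + 2 - ((k + 1 : ℕ) : ℝ) / 40) (by
        intro z hz z1 z2
        have h3 := root z (by rw [hz]; simp) (le_trans z1 (Real.exp_le_exp.2 (by linarith)))
          (le_trans z2 (Real.exp_le_exp.2 (by linarith)))
        have e2 : 4 * lam * GG (wk k) (Kk k) (Dk k) (U0 k) 0 0 ≥ 1 / 40 := by
          rw [hlam]; linarith
        push_cast at h3 ⊢
        simp only [zero_mul, mul_zero, sub_zero] at h3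
        linarith)
      exact this
  obtain ⟨k, hk⟩ := exists_nat_gt (40 * (2 * A + 2))
  have h1 := key k 0 (by simp) (by simp; positivity) (by simp; positivity)
  have h2 := (abs_le.1 (hA 0)).1
  have e : psi φ 0 = φ 0 := by
    unfold psi sq
    simp
  rw [e] at h1
  simp at h1
  linarith

end

end KOL
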