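import Pool.Agent.KOL.Mol
import Mathlib.Analysis.SpecialFunctions.Integrals.PosLogEqCircleAverage

/-!
# Project KOL: plurisubharmonicity from minorants `α Re z₀ + β log |z₁| + γ log |z₂| + δ`
-/

set_option autoImplicit false

namespace KOL

open MeasureTheory Real
open Complex (I)

/-- the minorants -/
noncomputable def AL (α β γ δ : ℝ) (z : C3) : ℝ :=
  α * (z 0).re + β * Real.log ‖z 1‖ + γ * Real.log ‖z 2‖ + δ

theorem norm_circle_factor (a b : ℂ) (hb : b ≠ 0) (θ : ℝ) :
    ‖a + Complex.exp (θ * I) * b‖ = ‖b‖ * ‖circleMap 0 1 θ + a / b‖ := by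
  rw [← norm_mul]
  congr 1
  unfold circleMap
  field_simp
  push_cast
  ring

theorem exp_eq_countable (c : ℂ) : {θ : ℝ | Complex.exp (θ * I) = c}.Countable := by
  by_cases h : ∃ θ₀ : ℝ, Complex.exp (θ₀ * I) = c
  · obtain ⟨θ₀, hθ₀⟩ := h
    refine (Set.countable_range fun n : ℤ => θ₀ + n * (2 * π)).mono ?_
    intro θ hθ
    have hθ' : Complex.exp (θ * I) = c := hθ
    rw [← hθ₀, Complex.exp_eq_exp_iff_exists_int] at hθ'
    obtain ⟨n, hn⟩ := hθ'
    refine ⟨n, ?_⟩
    have h2 := congrArg Complex.im hn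
    simp at h2
    exact h2.symm
  · refine Set.Countable.mono ?_ Set.countable_empty
    intro θ hθ
    exact absurd ⟨θ, hθ⟩ h

/-- almost every point of the circle is not `0` -/
theorem circle_ne_zero (a b : ℂ) (h : a ≠ 0) :
    ∀ᵐ θ : ℝ, a + Complex.exp (θ * I) * b ≠ 0 := by
  by_cases hb : b = 0
  · refine Filter.Eventually.of_forall fun θ => ?_
    rw [hb, mul_zero, add_zero]
    exact h
  · have := (exp_eq_countable (-a / b)).ae_notMem volume
    filter_upwards [this] with θ hθ h0
    apply hθ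
    show Complex.exp (θ * I) = -a / b
    rw [eq_div_iff hb]
    linear_combination h0

theorem log_circle_eq (a b : ℂ) (hb : b ≠ 0) :
    ∀ᵐ θ : ℝ, Real.log ‖a + Complex.exp (θ * I) * b‖ =
      Real.log ‖b‖ + Real.log ‖circleMap 0 1 θ + a / b‖ := by
  have h1 := (exp_eq_countable (-a / b)).ae_notMem volume
  filter_upwards [h1] with θ hθ
  rw [norm_circle_factor a b hb, Real.log_mul (norm_ne_zero_iff.2 hb)]
  rw [norm_ne_zero_iff]
  intro h0
  apply hθ
  show Complex.exp (θ * I) = -a / b
  unfold circleMap at h0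
  simp at h0
  rw [neg_div]
  exact eq_neg_of_add_eq_zero_left h0

theorem log_circle_int' (c : ℂ) :
    IntervalIntegrable (fun θ : ℝ => Real.log ‖circleMap 0 1 θ + c‖) volume 0 (2 * π) := by
  have h := circleIntegrable_log_norm_sub_const (a := -c) (c := (0 : ℂ)) 1
  unfold CircleIntegrable at h
  simpa using h

theorem log_circle_int (a b : ℂ) :
    IntervalIntegrable (fun θ : ℝ => Real.log ‖a + Complex.exp (θ * I) * b‖) volume 0 (2 * π) := by
  by_cases hb : b = 0
  · simp only [hb, mul_zero, add_zero]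
    exact intervalIntegrable_const
  · have h := (intervalIntegrable_const (c := Real.log ‖b‖)
      (μ := volume) (a := (0 : ℝ)) (b := 2 * π)).add (log_circle_int' (a / b))
    refine h.congr_ae ?_
    refine ae_restrict_of_ae ?_
    filter_upwards [log_circle_eq a b hb] with θ hθ
    exact hθ.symm

theorem log_submean (a b : ℂ) (h : a ≠ 0) :
    Real.log ‖a‖ ≤ (2 * π)⁻¹ * ∫ θ in (0 : ℝ)..(2 * π), Real.log ‖a + Complex.exp (θ * I) * b‖ := by
  by_cases hb : b = 0
  · simp only [hb, mul_zero, add_zero, intervalIntegral.integral_const, smul_eq_mul, sub_zero]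
    rw [← mul_assoc, inv_mul_cancel₀ (by positivity), one_mul]
  · have h1 : ∫ θ in (0 : ℝ)..(2 * π), Real.log ‖a + Complex.exp (θ * I) * b‖ =
        ∫ θ in (0 : ℝ)..(2 * π), (Real.log ‖b‖ + Real.log ‖circleMap 0 1 θ + a / b‖) := by
      apply intervalIntegral.integral_congr_ae
      filter_upwards [log_circle_eq a b hb] with θ hθ _
      exact hθ
    rw [h1, intervalIntegral.integral_add intervalIntegrable_const (log_circle_int' _),
      intervalIntegral.integral_const, smul_eq_mul, sub_zero, mul_add, ← mul_assoc,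
      inv_mul_cancel₀ (by positivity), one_mul]
    have h2 : (2 * π)⁻¹ * ∫ θ in (0 : ℝ)..(2 * π), Real.log ‖circleMap 0 1 θ + a / b‖ =
        log⁺ ‖a / b‖ := by
      have := circleAverage_log_norm_add_const_eq_posLog (a := a / b)
      rw [circleAverage_def, smul_eq_mul] at this
      exact this
    rw [h2]
    have h3 : Real.log ‖a / b‖ ≤ log⁺ ‖a / b‖ := by
      unfold Real.posLog
      exact le_max_right _ _
    rw [norm_div, Real.log_div (norm_ne_zero_iff.2 h) (norm_ne_zero_iff.2 hb)] at h3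
    rw [norm_div]
    linarith

theorem re_mean (a b : ℂ) :
    (2 * π)⁻¹ * ∫ θ in (0 : ℝ)..(2 * π), (a + Complex.exp (θ * I) * b).re = a.re := by
  have h1 : ∀ θ : ℝ, (a + Complex.exp (θ * I) * b).re =
      a.re + (Real.cos θ * b.re - Real.sin θ * b.im) := by
    intro θ
    rw [Complex.exp_mul_I, ← Complex.ofReal_cos, ← Complex.ofReal_sin, Complex.add_re,
      Complex.mul_re]
    simp only [Complex.add_re, Complex.add_im, Complex.mul_re, Complex.mul_im, Complex.ofReal_re,
      Complex.ofReal_im, Complex.I_re, Complex.I_im, mul_zero, mul_one,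
      sub_self, add_zero, zero_add]
  simp only [h1]
  rw [intervalIntegral.integral_add, intervalIntegral.integral_const,
    intervalIntegral.integral_sub, intervalIntegral.integral_mul_const,
    intervalIntegral.integral_mul_const, integral_cos, integral_sin]
  · simp only [Real.sin_two_pi, Real.sin_zero, Real.cos_zero, Real.cos_two_pi, sub_zero,
      smul_eq_mul, sub_self, zero_mul, add_zero]
    rw [← mul_assoc, inv_mul_cancel₀ (by positivity), one_mul]
  · exact (Real.continuous_cos.mul continuous_const).intervalIntegrable _ _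
  · exact (Real.continuous_sin.mul continuous_const).intervalIntegrable _ _
  · exact intervalIntegrable_const
  · exact ((Real.continuous_cos.mul continuous_const).sub
      (Real.continuous_sin.mul continuous_const)).intervalIntegrable _ _

theorem re_int (a b : ℂ) :
    IntervalIntegrable (fun θ : ℝ => (a + Complex.exp (θ * I) * b).re) volume 0 (2 * π) := by
  apply Continuous.intervalIntegrable
  fun_prop

theorem AL_int (α β γ δ : ℝ) (z ξ : C3) :
    IntervalIntegrable (fun θ : ℝ => AL α β γ δ (z + Complex.exp (θ * I) • ξ)) volume 0 (2 * π) := by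
  unfold AL
  simp only [Pi.add_apply, Pi.smul_apply, smul_eq_mul]
  exact ((((re_int _ _).const_mul _).add ((log_circle_int _ _).const_mul _)).add
    ((log_circle_int _ _).const_mul _)).add intervalIntegrable_const

theorem AL_submean (α β γ δ : ℝ) (hβ : 0 ≤ β) (hγ : 0 ≤ γ) (z ξ : C3)
    (h1 : β = 0 ∨ z 1 ≠ 0) (h2 : γ = 0 ∨ z 2 ≠ 0) :
    AL α β γ δ z ≤ (2 * π)⁻¹ * ∫ θ in (0 : ℝ)..(2 * π), AL α β γ δ (z + Complex.exp (θ * I) • ξ) := by
  unfold AL
  simp only [Pi.add_apply, Pi.smul_apply, smul_eq_mul]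
  rw [intervalIntegral.integral_add, intervalIntegral.integral_add, intervalIntegral.integral_add,
    intervalIntegral.integral_const_mul, intervalIntegral.integral_const_mul,
    intervalIntegral.integral_const_mul, intervalIntegral.integral_const, smul_eq_mul, sub_zero]
  · have e0 := re_mean (z 0) (ξ 0)
    have e1 : β * Real.log ‖z 1‖ ≤ β * ((2 * π)⁻¹ *
        ∫ θ in (0 : ℝ)..(2 * π), Real.log ‖z 1 + Complex.exp (θ * I) * ξ 1‖) := by
      rcases h1 with h1 | h1
      · rw [h1, zero_mul, zero_mul]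
      · exact mul_le_mul_of_nonneg_left (log_submean _ _ h1) hβ
    have e2 : γ * Real.log ‖z 2‖ ≤ γ * ((2 * π)⁻¹ *
        ∫ θ in (0 : ℝ)..(2 * π), Real.log ‖z 2 + Complex.exp (θ * I) * ξ 2‖) := by
      rcases h2 with h2 | h2
      · rw [h2, zero_mul, zero_mul]
      · exact mul_le_mul_of_nonneg_left (log_submean _ _ h2) hγ
    have e3 : (2 * π)⁻¹ * (2 * π * δ) = δ := by
      rw [← mul_assoc, inv_mul_cancel₀ (by positivity), one_mul]
    rw [mul_add, mul_add, mul_add, e3]
    nth_rewrite 1 [← e0]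
    linarith
  · exact (re_int _ _).const_mul _
  · exact (log_circle_int _ _).const_mul _
  · exact ((re_int _ _).const_mul _).add ((log_circle_int _ _).const_mul _)
  · exact (log_circle_int _ _).const_mul _
  · exact (((re_int _ _).const_mul _).add ((log_circle_int _ _).const_mul _)).add
      ((log_circle_int _ _).const_mul _)
  · exact intervalIntegrable_const

/-- Continuous functions with sufficiently many minorants are plurisubharmonic. -/
theorem psh_of_support {v : C3 → ℝ} (hv : Continuous v)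
    (h : ∀ z, ∀ ε : ℝ, 0 < ε → ∃ α β γ δ : ℝ, 0 ≤ β ∧ 0 ≤ γ ∧ (β = 0 ∨ z 1 ≠ 0) ∧
      (γ = 0 ∨ z 2 ≠ 0) ∧ v z ≤ AL α β γ δ z + ε ∧
      ∀ w : C3, (β = 0 ∨ w 1 ≠ 0) → (γ = 0 ∨ w 2 ≠ 0) → AL α β γ δ w ≤ v w) :
    Psh Set.univ v := by
  refine ⟨hv.upperSemicontinuous.upperSemicontinuousOn _, fun z ξ _ => ?_⟩
  refine le_of_forall_pos_le_add fun ε hε => ?_
  obtain ⟨α, β, γ, δ, hβ, hγ, h1, h2, h3, h4⟩ := h z ε hε
  have h5 := AL_submean α β γ δ hβ hγ z ξ h1 h2
  have h6 : ∫ θ in (0 : ℝ)..(2 * π), AL α β γ δ (z + Complex.exp (θ * I) • ξ) ≤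
      ∫ θ in (0 : ℝ)..(2 * π), v (z + Complex.exp (θ * I) • ξ) := by
    apply intervalIntegral.integral_mono_ae (by positivity) (AL_int _ _ _ _ _ _)
    · apply Continuous.intervalIntegrable
      apply hv.comp
      fun_prop
    · have a1 : ∀ᵐ θ : ℝ, β = 0 ∨ z 1 + Complex.exp (θ * I) * ξ 1 ≠ 0 := by
        rcases h1 with h1 | h1
        · exact Filter.Eventually.of_forall fun _ => Or.inl h1
        · filter_upwards [circle_ne_zero _ (ξ 1) h1] with θ hθ
          exact Or.inr hθ
      have a2 : ∀ᵐ θ : ℝ, γ = 0 ∨ z 2 + Complex.exp (θ * I) * ξ 2 ≠ 0 := by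
        rcases h2 with h2 | h2
        · exact Filter.Eventually.of_forall fun _ => Or.inl h2
        · filter_upwards [circle_ne_zero _ (ξ 2) h2] with θ hθ
          exact Or.inr hθ
      filter_upwards [a1, a2] with θ b1 b2
      exact h4 _ b1 b2
  have h7 : (2 * π)⁻¹ * ∫ θ in (0 : ℝ)..(2 * π), AL α β γ δ (z + Complex.exp (θ * I) • ξ) ≤
      (2 * π)⁻¹ * ∫ θ in (0 : ℝ)..(2 * π), v (z + Complex.exp (θ * I) • ξ) :=
    mul_le_mul_of_nonneg_left h6 (by positivity)
  linarith

end KOL
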