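import Pool.Agent.KOL.Defs

/-!
# Positive functionals on test functions are (matrix valued) measures
-/

set_option autoImplicit false

namespace KOL

open MeasureTheory Matrix Set
open scoped ContDiff ComplexOrder CompactlySupported

theorem Test.add {U : Set C3} {f g : C3 → ℝ} (hf : Test U f) (hg : Test U g) : Test U (f + g) where
  smooth := hf.smooth.add hg.smooth
  comp := hf.comp.add hg.comp
  sub := (tsupport_add f g).trans (union_subset hf.sub hg.sub)

theorem Test.smul {U : Set C3} {f : C3 → ℝ} (hf : Test U f) (c : ℝ) : Test U (c • f) where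
  smooth := contDiff_const.smul hf.smooth
  comp := hf.comp.smul_left
  sub := (closure_mono (Function.support_const_smul_subset c f)).trans hf.sub

/-- smooth cutoff functions -/
theorem exists_cutoff (K : Set C3) (hK : IsCompact K) :
    ∃ χ : C3 → ℝ, Test univ χ ∧ (∀ z, 0 ≤ χ z) ∧ ∀ z ∈ K, χ z = 1 := by
  obtain ⟨R, hR⟩ := hK.isBounded.subset_closedBall (0 : C3)
  let b : ContDiffBump (0 : C3) := ⟨max R 1, max R 1 + 1, by positivity, by linarith⟩
  refine ⟨b, ⟨b.contDiff, b.hasCompactSupport, subset_univ _⟩, fun z => b.nonneg, fun z hz => ?_⟩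
  apply b.one_of_mem_closedBall
  exact Metric.closedBall_subset_closedBall (le_max_left _ _) (hR hz)

/-- a positive functional on the test functions is a measure -/
theorem exists_measure (L : (C3 → ℝ) → ℝ)
    (hadd : ∀ f g, Test univ f → Test univ g → L (f + g) = L f + L g)
    (hsmul : ∀ (c : ℝ) f, Test univ f → L (c • f) = c * L f)
    (hpos : ∀ f, Test univ f → (∀ z, 0 ≤ f z) → 0 ≤ L f) :
    ∃ m : Measure C3, IsLocallyFiniteMeasure m ∧ ∀ f, Test univ f → L f = ∫ z, f z ∂m := by
  classical
  have htest : ∀ f : C_c(C3, ℝ), ContDiff ℝ ∞ f → Test univ f := fun f hf =>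
    ⟨hf, f.2, subset_univ _⟩
  let S : Submodule ℝ C_c(C3, ℝ) :=
    { carrier := {f | ContDiff ℝ ∞ f}
      add_mem' := fun {a b} ha hb => by
        show ContDiff ℝ ∞ (a + b : C_c(C3, ℝ))
        rw [CompactlySupportedContinuousMap.coe_add]
        exact ContDiff.add ha hb
      zero_mem' := by
        show ContDiff ℝ ∞ (0 : C_c(C3, ℝ))
        rw [CompactlySupportedContinuousMap.coe_zero]
        exact contDiff_const
      smul_mem' := fun c a ha => by
        show ContDiff ℝ ∞ (c • a : C_c(C3, ℝ))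
        rw [CompactlySupportedContinuousMap.coe_smul]
        exact contDiff_const.smul ha }
  let F : C_c(C3, ℝ) →ₗ.[ℝ] ℝ :=
    { domain := S
      toFun :=
        { toFun := fun x => L (x : C_c(C3, ℝ))
          map_add' := fun x y => hadd _ _ (htest _ x.2) (htest _ y.2)
          map_smul' := fun c x => hsmul c _ (htest _ x.2) } }
  let P : PointedCone ℝ C_c(C3, ℝ) :=
    { carrier := {f | ∀ z, 0 ≤ f z}
      add_mem' := fun {a b} ha hb z => add_nonneg (ha z) (hb z)
      zero_mem' := fun z => le_rfl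
      smul_mem' := fun c a ha z => mul_nonneg c.2 (ha z) }
  obtain ⟨g, hg1, hg2⟩ := riesz_extension P F (fun x hx => hpos _ (htest _ x.2) hx) (by
    intro y
    obtain ⟨χ, hχ, hχ0, hχ1⟩ := exists_cutoff (tsupport y) y.2
    obtain ⟨B, hB⟩ := y.2.exists_bound_of_continuous y.1.2
    have hB0 : 0 ≤ B := (norm_nonneg _).trans (hB 0)
    refine ⟨⟨⟨⟨B • χ, (hχ.smul B).smooth.continuous⟩, (hχ.smul B).comp⟩, (hχ.smul B).smooth⟩, fun z => ?_⟩
    show 0 ≤ B * χ z + y z
    by_cases hz : z ∈ tsupport y
    · rw [hχ1 z hz]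
      have := hB z
      rw [Real.norm_eq_abs] at this
      have h2 := neg_abs_le (y z)
      have h3 : |y z| ≤ B := this
      linarith
    · rw [image_eq_zero_of_notMem_tsupport hz]
      have := mul_nonneg hB0 (hχ0 z)
      linarith)
  let Λ : C_c(C3, ℝ) →ₚ[ℝ] ℝ := PositiveLinearMap.mk₀ g (fun x hx => hg2 x hx)
  refine ⟨RealRMK.rieszMeasure Λ, ?_, ?_⟩
  · infer_instance
  · intro f hf
    have h := RealRMK.integral_rieszMeasure Λ ⟨⟨f, hf.smooth.continuous⟩, hf.comp⟩
    rw [show (∫ z, f z ∂(RealRMK.rieszMeasure Λ)) = Λ ⟨⟨f, hf.smooth.continuous⟩, hf.comp⟩ from h]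
    exact (hg1 ⟨⟨⟨f, hf.smooth.continuous⟩, hf.comp⟩, hf.smooth⟩).symm

theorem Test.integrable {f : C3 → ℝ} (hf : Test univ f) (m : Measure C3) [IsLocallyFiniteMeasure m] :
    Integrable f m := hf.smooth.continuous.integrable_of_hasCompactSupport hf.comp

theorem Test.integrable_mul {f : C3 → ℝ} (hf : Test univ f) (m : Measure C3) [IsLocallyFiniteMeasure m]
    {h : C3 → ℝ} (hm : Measurable h) {C : ℝ} (hC : ∀ z, |h z| ≤ C) : Integrable (fun z => f z * h z) m := by
  refine Integrable.mul_bdd (c := C) (hf.integrable m) hm.aestronglyMeasurable (ae_of_all _ fun z => ?_)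
  rw [Real.norm_eq_abs]
  exact hC z

theorem locFin_add (m μ : Measure C3) [IsLocallyFiniteMeasure m] [IsLocallyFiniteMeasure μ] :
    IsLocallyFiniteMeasure (m + μ) := by
  refine ⟨fun x => ?_⟩
  obtain ⟨s, hs, h1⟩ := m.finiteAt_nhds x
  obtain ⟨t, ht, h2⟩ := μ.finiteAt_nhds x
  refine ⟨s ∩ t, Filter.inter_mem hs ht, ?_⟩
  rw [Measure.add_apply]
  exact ENNReal.add_lt_top.2 ⟨(measure_mono inter_subset_left).trans_lt h1,
    (measure_mono inter_subset_right).trans_lt h2⟩

/-- a smaller measure has a density with values in `[0, 1]` -/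
theorem exists_density {μ ν : Measure C3} [IsLocallyFiniteMeasure ν] [IsLocallyFiniteMeasure μ] (h : μ ≤ ν) :
    ∃ g : C3 → ℝ, Measurable g ∧ (∀ z, 0 ≤ g z) ∧ (∀ z, g z ≤ 1) ∧
      ∀ f : C3 → ℝ, ∫ z, f z ∂μ = ∫ z, f z * g z ∂ν := by
  have hac : μ ≪ ν := Measure.absolutelyContinuous_of_le h
  refine ⟨fun z => min (μ.rnDeriv ν z).toReal 1, (Measure.measurable_rnDeriv μ ν).ennreal_toReal.min
    measurable_const, fun z => le_min ENNReal.toReal_nonneg zero_le_one, fun z => min_le_right _ _, fun f => ?_⟩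
  rw [← MeasureTheory.integral_rnDeriv_smul hac]
  refine integral_congr_ae ?_
  filter_upwards [Measure.rnDeriv_le_one_of_le h] with z hz
  have h1 : (μ.rnDeriv ν z).toReal ≤ 1 := ENNReal.toReal_le_of_le_ofReal zero_le_one (by simpa using hz)
  simp only [smul_eq_mul, min_eq_left h1]
  ring

theorem ae_eq_zero_of_test {m : Measure C3} [IsLocallyFiniteMeasure m] {h : C3 → ℝ} (hm : Measurable h) {C : ℝ}
    (hC : ∀ z, |h z| ≤ C) (h0 : ∀ f, Test univ f → ∫ z, f z * h z ∂m = 0) : ∀ᵐ z ∂m, h z = 0 := by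
  refine ae_eq_zero_of_integral_contDiff_smul_eq_zero (μ := m) ?_ fun g hg hg' => h0 g ⟨hg, hg', subset_univ _⟩
  have h1 : LocallyIntegrable (fun _ : C3 => C) m := (continuous_const).locallyIntegrable
  refine h1.mono hm.aestronglyMeasurable (ae_of_all _ fun z => ?_)
  rw [Real.norm_eq_abs, Real.norm_eq_abs]
  exact (hC z).trans (le_abs_self C)

theorem ae_nonneg_of_test {m : Measure C3} [IsLocallyFiniteMeasure m] {h : C3 → ℝ} (hm : Measurable h) {C : ℝ}
    (hC : ∀ z, |h z| ≤ C) (hpos : ∀ f, Test univ f → (∀ z, 0 ≤ f z) → 0 ≤ ∫ z, f z * h z ∂m) :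
    ∀ᵐ z ∂m, 0 ≤ h z := by
  obtain ⟨μ, hμ, hμf⟩ := exists_measure (fun f => ∫ z, f z * h z ∂m)
    (fun f g hf hg => by
      simp only [Pi.add_apply, add_mul]
      exact integral_add (hf.integrable_mul m hm hC) (hg.integrable_mul m hm hC))
    (fun c f hf => by
      simp only [Pi.smul_apply, smul_eq_mul, mul_assoc]
      exact integral_const_mul _ _) hpos
  have hsum := locFin_add m μ
  have hle1 : m ≤ m + μ := Measure.le_add_right le_rfl
  have hle2 : μ ≤ m + μ := Measure.le_add_left le_rfl
  obtain ⟨a, ha, ha0, ha1, haf⟩ := exists_density hle1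
  obtain ⟨b, hb, hb0, hb1, hbf⟩ := exists_density hle2
  have hC0 : 0 ≤ C := (abs_nonneg _).trans (hC 0)
  have hab : ∀ᵐ z ∂(m + μ), h z * a z - b z = 0 := by
    refine ae_eq_zero_of_test ((hm.mul ha).sub hb) (C := C * 1 + 1) (fun z => ?_) fun f hf => ?_
    · refine (abs_sub _ _).trans (add_le_add ?_ ?_)
      · rw [abs_mul, abs_of_nonneg (ha0 z)]
        exact mul_le_mul (hC z) (ha1 z) (ha0 z) hC0
      · rw [abs_of_nonneg (hb0 z)]
        exact hb1 z
    · have e1 := haf (fun z => f z * h z)
      have e2 := hbf f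
      have e3 := hμf f hf
      have i1 : Integrable (fun z => f z * (h z * a z)) (m + μ) := by
        refine hf.integrable_mul (m + μ) (hm.mul ha) (C := C * 1) fun z => ?_
        show |h z * a z| ≤ C * 1
        rw [abs_mul, abs_of_nonneg (ha0 z)]
        exact mul_le_mul (hC z) (ha1 z) (ha0 z) hC0
      have i2 : Integrable (fun z => f z * b z) (m + μ) := by
        refine hf.integrable_mul (m + μ) hb (C := 1) fun z => ?_
        rw [abs_of_nonneg (hb0 z)]
        exact hb1 z
      simp only [mul_sub]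
      rw [integral_sub i1 i2, ← e2, ← e3, e1]
      simp only [mul_assoc]
      exact sub_self _
  have hab' : ∀ᵐ z ∂m, h z * a z - b z = 0 := Measure.absolutelyContinuous_of_le hle1 hab
  -- `a` is positive `m`-almost everywhere
  have hapos : ∀ᵐ z ∂m, 0 < a z := by
    have hs : MeasurableSet {z | a z ≤ 0} := measurableSet_le ha measurable_const
    have h1 : ∀ K : Set C3, IsCompact K → m (K ∩ {z | a z ≤ 0}) = 0 := by
      intro K hK
      have h2 := haf ((K ∩ {z | a z ≤ 0}).indicator 1)
      have h3 : ∀ z, (K ∩ {z | a z ≤ 0}).indicator (1 : C3 → ℝ) z * a z = 0 := by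
        intro z
        by_cases hz : z ∈ K ∩ {z | a z ≤ 0}
        · rw [le_antisymm hz.2 (ha0 z), mul_zero]
        · rw [indicator_of_notMem hz, zero_mul]
      simp only [h3, integral_zero] at h2
      rw [integral_indicator_one (hK.measurableSet.inter hs), Measure.real,
        ENNReal.toReal_eq_zero_iff] at h2
      refine h2.resolve_right (ne_of_lt (lt_of_le_of_lt (measure_mono inter_subset_left) hK.measure_lt_top))
    have h2 : m {z | a z ≤ 0} = 0 := by
      have h3 : {z | a z ≤ 0} = ⋃ n : ℕ, Metric.closedBall (0 : C3) n ∩ {z | a z ≤ 0} := by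
        rw [← iUnion_inter, Metric.iUnion_closedBall_nat, univ_inter]
      rw [h3]
      exact measure_iUnion_null fun n => h1 _ (isCompact_closedBall _ _)
    rw [ae_iff]
    simpa only [not_lt] using h2
  filter_upwards [hab', hapos] with z h1 h2
  have h3 : 0 ≤ h z * a z := by
    rw [sub_eq_zero.1 h1]
    exact hb0 z
  exact nonneg_of_mul_nonneg_left h3 h2


/-! ### matrix valued measures -/

/-- the Hermitian matrices `E j k + E k j` and `i (E j k - E k j)` -/
noncomputable def hb (i : Fin 3 × Fin 3 × Bool) : Mat :=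
  if i.2.2 then E i.1 i.2.1 + E i.2.1 i.1 else Complex.I • (E i.1 i.2.1 - E i.2.1 i.1)

/-- vectors `v` such that `hb i` is the difference of `rk v` and two diagonal matrices -/
noncomputable def hv (i : Fin 3 × Fin 3 × Bool) : C3 :=
  if i.2.2 then ev i.1 + ev i.2.1 else ev i.1 - Complex.I • ev i.2.1

theorem hb_eq (i : Fin 3 × Fin 3 × Bool) : hb i = rk (hv i) - rk (ev i.1) - rk (ev i.2.1) := by
  obtain ⟨j, k, b⟩ := i
  ext l m
  cases b <;> fin_cases j <;> fin_cases k <;> fin_cases l <;> fin_cases m <;>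
    simp [hb, hv, ev, E_apply, rk_apply] <;> ring_nf <;> simp

theorem hermitian_eq {A : Mat} (hA : A.IsHermitian) :
    A = ∑ j, ∑ k, (((A j k).re / 2) • hb (j, k, true) + ((A j k).im / 2) • hb (j, k, false)) := by
  have hre : ∀ j k, (A j k).re = (A k j).re := fun j k => by rw [← hA.apply j k]; rfl
  have him : ∀ j k, (A j k).im = -(A k j).im := fun j k => by rw [← hA.apply j k]; rfl
  ext l m
  simp only [hb, Matrix.sum_apply, Matrix.add_apply, Matrix.smul_apply, Fin.sum_univ_three, if_true]
  have h1 := hre 1 0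
  have h2 := hre 2 0
  have h3 := hre 2 1
  have h4 := him 1 0
  have h5 := him 2 0
  have h6 := him 2 1
  have h7 : (A 0 0).im = 0 := by have := him 0 0; linarith
  have h8 : (A 1 1).im = 0 := by have := him 1 1; linarith
  have h9 : (A 2 2).im = 0 := by have := him 2 2; linarith
  fin_cases l <;> fin_cases m <;>
    (apply Complex.ext <;> simp [E_apply, h1, h2, h3, h4, h5, h6, h7, h8, h9] <;> ring)


/-- the matrix with given densities of the functionals of `hb` -/
noncomputable def hmat (h : Fin 3 × Fin 3 × Bool → ℝ) : Mat := fun j k =>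
  ⟨(h (j, k, true) + h (k, j, true)) / 4, (h (j, k, false) - h (k, j, false)) / 4⟩

theorem hmat_isHermitian (h : Fin 3 × Fin 3 × Bool → ℝ) : (hmat h).IsHermitian := by
  ext j k
  rw [Matrix.conjTranspose_apply]
  apply Complex.ext
  · simp only [hmat]
    show (h (k, j, true) + h (j, k, true)) / 4 = _
    ring
  · simp only [hmat]
    show -((h (k, j, false) - h (j, k, false)) / 4) = _
    ring

theorem trace_hmat {A : Mat} (hA : A.IsHermitian) (h : Fin 3 × Fin 3 × Bool → ℝ) :
    (A * hmat h).trace.re =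
      ∑ j, ∑ k, ((A j k).re / 2 * h (j, k, true) + (A j k).im / 2 * h (j, k, false)) := by
  have hre : ∀ j k, (A j k).re = (A k j).re := fun j k => by rw [← hA.apply j k]; rfl
  have him : ∀ j k, (A j k).im = -(A k j).im := fun j k => by rw [← hA.apply j k]; rfl
  have h1 := hre 1 0
  have h2 := hre 2 0
  have h3 := hre 2 1
  have h4 := him 1 0
  have h5 := him 2 0
  have h6 := him 2 1
  have h7 : (A 0 0).im = 0 := by have := him 0 0; linarith
  have h8 : (A 1 1).im = 0 := by have := him 1 1; linarith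
  have h9 : (A 2 2).im = 0 := by have := him 2 2; linarith
  simp only [Matrix.trace, Matrix.diag_apply, Matrix.mul_apply, Fin.sum_univ_three, hmat, Complex.add_re,
    Complex.mul_re, h1, h2, h3, h4, h5, h6, h7, h8, h9]
  ring

theorem norm_hmat_le {h : Fin 3 × Fin 3 × Bool → ℝ} (hh : ∀ i, |h i| ≤ 2) (j k : Fin 3) : ‖hmat h j k‖ ≤ 2 := by
  refine (Complex.norm_le_abs_re_add_abs_im _).trans ?_
  simp only [hmat]
  have h1 : |(h (j, k, true) + h (k, j, true)) / 4| ≤ 1 := by
    rw [abs_div, abs_of_pos (by norm_num : (0 : ℝ) < 4), div_le_one (by norm_num)]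
    refine (abs_add_le _ _).trans ?_
    linarith [hh (j, k, true), hh (k, j, true)]
  have h2 : |(h (j, k, false) - h (k, j, false)) / 4| ≤ 1 := by
    rw [abs_div, abs_of_pos (by norm_num : (0 : ℝ) < 4), div_le_one (by norm_num)]
    refine (abs_sub _ _).trans ?_
    linarith [hh (j, k, false), hh (k, j, false)]
  linarith

theorem rk_trace (x : C3) (M : Mat) : star x ⬝ᵥ M *ᵥ x = (rk x * M).trace := by
  simp only [Matrix.trace, Matrix.diag_apply, Matrix.mul_apply, dotProduct, mulVec, Finset.mul_sum, rk_apply,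
    Pi.star_apply]
  rw [Finset.sum_comm]
  refine Finset.sum_congr rfl fun j _ => Finset.sum_congr rfl fun k _ => ?_
  change (starRingEnd ℂ) (x k) * _ = _
  ring

theorem posSemidef_of_trace {M : Mat} (hM : M.IsHermitian) (h : ∀ x : C3, 0 ≤ (rk x * M).trace.re) :
    M.PosSemidef := by
  refine Matrix.PosSemidef.of_dotProduct_mulVec_nonneg hM fun x => ?_
  rw [Complex.nonneg_iff]
  refine ⟨?_, ?_⟩
  · rw [rk_trace]
    exact h x
  · have := hM.im_star_dotProduct_mulVec_self x
    simpa using this.symm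


theorem locFin_sum {ι : Type*} (s : Finset ι) (m : ι → Measure C3) (h : ∀ i, IsLocallyFiniteMeasure (m i)) :
    IsLocallyFiniteMeasure (∑ i ∈ s, m i) := by
  classical
  induction s using Finset.induction_on with
  | empty => rw [Finset.sum_empty]; infer_instance
  | insert a s ha ih =>
    rw [Finset.sum_insert ha]
    have := h a
    exact locFin_add _ _

theorem le_sum_measure {ι : Type*} (s : Finset ι) (m : ι → Measure C3) {i : ι} (hi : i ∈ s) :
    m i ≤ ∑ j ∈ s, m j := by
  classical
  rw [← Finset.add_sum_erase s m hi]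
  exact Measure.le_add_right le_rfl

/-- a positive functional on Hermitian matrices and test functions is a positive matrix valued measure -/
theorem exists_matrix_measure (L : Mat → (C3 → ℝ) → ℝ)
    (haddA : ∀ A B f, Test univ f → L (A + B) f = L A f + L B f)
    (hsmulA : ∀ (c : ℝ) A f, Test univ f → L (c • A) f = c * L A f)
    (hadd : ∀ A f g, Test univ f → Test univ g → L A (f + g) = L A f + L A g)
    (hsmul : ∀ (c : ℝ) A f, Test univ f → L A (c • f) = c * L A f)
    (hpos : ∀ A f, A.PosSemidef → Test univ f → (∀ z, 0 ≤ f z) → 0 ≤ L A f) :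
    ∃ (Θ : C3 → Mat) (m : Measure C3), IsLocallyFiniteMeasure m ∧ IsPos univ Θ m ∧
      ∀ A f, A.IsHermitian → Test univ f → L A f = ∫ z, f z * (A * Θ z).trace.re ∂m := by
  classical
  -- the linear functional of a test function
  let ℓ : ∀ f, Test univ f → (Mat →ₗ[ℝ] ℝ) := fun f hf =>
    { toFun := fun A => L A f
      map_add' := fun A B => haddA A B f hf
      map_smul' := fun c A => hsmulA c A f hf }
  have hℓ : ∀ f hf A, L A f = ℓ f hf A := fun _ _ _ => rfl
  have hv' : ∀ v : C3, ∃ μ : Measure C3, IsLocallyFiniteMeasure μ ∧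
      ∀ f, Test univ f → L (rk v) f = ∫ z, f z ∂μ := fun v =>
    exists_measure (L (rk v)) (fun f g hf hg => hadd _ f g hf hg) (fun c f hf => hsmul c _ f hf)
      (fun f hf h0 => hpos _ f (rk_posSemidef v) hf h0)
  choose μ hμl hμ using hv'
  let vec : (Fin 3 × Fin 3 × Bool) ⊕ Fin 3 → C3 := Sum.elim hv ev
  let m₀ : Measure C3 := ∑ i, μ (vec i)
  have hm₀ : IsLocallyFiniteMeasure m₀ := locFin_sum _ _ fun i => hμl _
  have hg' : ∀ i, ∃ g : C3 → ℝ, Measurable g ∧ (∀ z, 0 ≤ g z) ∧ (∀ z, g z ≤ 1) ∧
      ∀ f : C3 → ℝ, ∫ z, f z ∂(μ (vec i)) = ∫ z, f z * g z ∂m₀ := fun i => by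
    have := hμl (vec i)
    exact exists_density (le_sum_measure _ (fun i => μ (vec i)) (Finset.mem_univ i))
  choose g hgm hg0 hg1 hg using hg'
  let h : C3 → Fin 3 × Fin 3 × Bool → ℝ := fun z i => g (.inl i) z - g (.inr i.1) z - g (.inr i.2.1) z
  have hh : ∀ z i, |h z i| ≤ 2 := by
    intro z i
    rw [abs_le]
    have a1 := hg0 (.inl i) z
    have a2 := hg1 (.inl i) z
    have a3 := hg0 (.inr i.1) z
    have a4 := hg1 (.inr i.1) z
    have a5 := hg0 (.inr i.2.1) z
    have a6 := hg1 (.inr i.2.1) z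
    constructor <;> simp only [h] <;> linarith
  have hhm : ∀ i, Measurable fun z => h z i := fun i => ((hgm _).sub (hgm _)).sub (hgm _)
  have hgi : ∀ f, Test univ f → ∀ i, Integrable (fun z => f z * g i z) m₀ := fun f hf i =>
    hf.integrable_mul m₀ (hgm i) (C := 1) fun z => by
      rw [abs_of_nonneg (hg0 i z)]
      exact hg1 i z
  have hLb : ∀ f, Test univ f → ∀ i, L (hb i) f = ∫ z, f z * h z i ∂m₀ := by
    intro f hf i
    rw [hb_eq, hℓ f hf, map_sub, map_sub]
    change L (rk (hv i)) f - L (rk (ev i.1)) f - L (rk (ev i.2.1)) f = _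
    have e1 := (hμ (hv i) f hf).trans (hg (.inl i) f)
    have e2 := (hμ (ev i.1) f hf).trans (hg (.inr i.1) f)
    have e3 := (hμ (ev i.2.1) f hf).trans (hg (.inr i.2.1) f)
    rw [e1, e2, e3]
    have j1 : Integrable (fun z => f z * g (.inl i) z - f z * g (.inr i.1) z) m₀ :=
      (hgi f hf _).sub (hgi f hf _)
    simp only [h, mul_sub]
    rw [integral_sub j1 (hgi f hf _), integral_sub (hgi f hf _) (hgi f hf _)]
  have hhi : ∀ f, Test univ f → ∀ i, Integrable (fun z => f z * h z i) m₀ := fun f hf i =>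
    hf.integrable_mul m₀ (hhm i) fun z => hh z i
  -- the representation
  have hrep : ∀ A f, A.IsHermitian → Test univ f → L A f = ∫ z, f z * (A * hmat (h z)).trace.re ∂m₀ := by
    intro A f hA hf
    conv_lhs => rw [hermitian_eq hA]
    rw [hℓ f hf]
    simp only [map_sum, map_add, map_smul, trace_hmat hA, Finset.mul_sum, mul_add]
    have e : ∀ i, (ℓ f hf) (hb i) = ∫ z, f z * h z i ∂m₀ := fun i => hLb f hf i
    simp only [e]
    have i1 : ∀ (c : ℝ) (i : Fin 3 × Fin 3 × Bool), Integrable (fun z => f z * (c * h z i)) m₀ := by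
      intro c i
      have := (hhi f hf i).const_mul c
      refine this.congr (ae_of_all _ fun z => ?_)
      show c * (f z * h z i) = f z * (c * h z i)
      ring
    have i2 : ∀ j k, Integrable (fun z => f z * ((A j k).re / 2 * h z (j, k, true)) +
        f z * ((A j k).im / 2 * h z (j, k, false))) m₀ := fun j k => (i1 _ _).add (i1 _ _)
    have i3 : ∀ j, Integrable (fun z => ∑ k, (f z * ((A j k).re / 2 * h z (j, k, true)) +
        f z * ((A j k).im / 2 * h z (j, k, false)))) m₀ := fun j => integrable_finsetSum _ fun k _ => i2 j k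
    rw [integral_finsetSum _ fun j _ => i3 j]
    refine Finset.sum_congr rfl fun j _ => ?_
    rw [integral_finsetSum _ fun k _ => i2 j k]
    refine Finset.sum_congr rfl fun k _ => ?_
    rw [integral_add (i1 _ _) (i1 _ _), smul_eq_mul, smul_eq_mul, ← integral_const_mul, ← integral_const_mul]
    congr 1 <;> (congr 1; ext z; ring)
  -- positivity
  have hmm : ∀ A : Mat, A.IsHermitian → Measurable fun z => (A * hmat (h z)).trace.re := by
    intro A hA
    simp only [trace_hmat hA]
    exact Finset.measurable_sum _ fun j _ => Finset.measurable_sum _ fun k _ =>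
      ((hhm _).const_mul _).add ((hhm _).const_mul _)
  have hbd : ∀ A : Mat, A.IsHermitian → ∃ C, ∀ z, |(A * hmat (h z)).trace.re| ≤ C := by
    intro A hA
    refine ⟨∑ j, ∑ k, (|(A j k).re / 2| * 2 + |(A j k).im / 2| * 2), fun z => ?_⟩
    rw [trace_hmat hA]
    refine (Finset.abs_sum_le_sum_abs _ _).trans (Finset.sum_le_sum fun j _ => ?_)
    refine (Finset.abs_sum_le_sum_abs _ _).trans (Finset.sum_le_sum fun k _ => ?_)
    refine (abs_add_le _ _).trans (add_le_add ?_ ?_) <;> rw [abs_mul] <;>
      exact mul_le_mul_of_nonneg_left (hh z _) (abs_nonneg _)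
  have hae : ∀ n, ∀ᵐ z ∂m₀, 0 ≤ (rk (TopologicalSpace.denseSeq C3 n) * hmat (h z)).trace.re := by
    intro n
    obtain ⟨C, hC⟩ := hbd _ (rk_posSemidef (TopologicalSpace.denseSeq C3 n)).1
    refine ae_nonneg_of_test (hmm _ (rk_posSemidef _).1) hC fun f hf h0 => ?_
    rw [← hrep _ _ (rk_posSemidef _).1 hf]
    exact hpos _ f (rk_posSemidef _) hf h0
  have hall : ∀ᵐ z ∂m₀, ∀ x : C3, 0 ≤ (rk x * hmat (h z)).trace.re := by
    filter_upwards [ae_all_iff.2 hae] with z hz x
    have hcont : Continuous fun x : C3 => (rk x * hmat (h z)).trace.re := by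
      simp only [Matrix.trace, Matrix.diag_apply, Matrix.mul_apply, rk_apply]
      refine Complex.continuous_re.comp (continuous_finsetSum _ fun j _ => continuous_finsetSum _ fun k _ => ?_)
      exact ((continuous_apply j).mul (Complex.continuous_conj.comp (continuous_apply k))).mul continuous_const
    exact (TopologicalSpace.denseRange_denseSeq C3).induction_on (p := fun x => 0 ≤ (rk x * hmat (h z)).trace.re) x
      (isClosed_le continuous_const hcont) hz
  obtain ⟨N, hN, hNm, hN0⟩ := exists_measurable_superset_of_null (ae_iff.1 hall)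
  have hout : ∀ z, z ∉ N → ∀ x : C3, 0 ≤ (rk x * hmat (h z)).trace.re := fun z hz => by
    by_contra hcon
    exact hz (hN hcon)
  refine ⟨fun z => if z ∈ N then 0 else (1 / 2 : ℝ) • hmat (h z), (2 : NNReal) • m₀, inferInstance, ?_, ?_⟩
  · refine ⟨fun K hK _ => ?_, fun j k => ?_, fun z => ?_, fun z j k => ?_⟩
    · have : IsLocallyFiniteMeasure ((2 : NNReal) • m₀) := inferInstance
      exact hK.measure_lt_top
    · have e1 : (fun z => (if z ∈ N then (0 : Mat) else (1 / 2 : ℝ) • hmat (h z)) j k) =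
          fun z => if z ∈ N then (0 : ℂ) else (1 / 2 : ℝ) • (⟨(h z (j, k, true) + h z (k, j, true)) / 4,
            (h z (j, k, false) - h z (k, j, false)) / 4⟩ : ℂ) := by
        ext z
        by_cases hz : z ∈ N
        · rw [if_pos hz, if_pos hz]; rfl
        · rw [if_neg hz, if_neg hz]; rfl
      rw [e1]
      have e2 : Measurable fun z => (⟨(h z (j, k, true) + h z (k, j, true)) / 4,
            (h z (j, k, false) - h z (k, j, false)) / 4⟩ : ℂ) :=
        Complex.measurableEquivRealProd.symm.measurable.comp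
          ((((hhm _).add (hhm _)).div_const _).prodMk (((hhm _).sub (hhm _)).div_const _))
      exact Measurable.ite hNm measurable_const (e2.const_smul (1 / 2 : ℝ))
    · by_cases hz : z ∈ N
      · simp only [if_pos hz]
        exact Matrix.PosSemidef.zero
      · simp only [if_neg hz]
        have h1 := posSemidef_of_trace (hmat_isHermitian (h z)) (hout z hz)
        exact h1.smul (by norm_num)
    · by_cases hz : z ∈ N
      · simp only [if_pos hz]
        simp
      · simp only [if_neg hz, Matrix.smul_apply, norm_smul]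
        have := norm_hmat_le (hh z) j k
        rw [Real.norm_of_nonneg (by norm_num : (0 : ℝ) ≤ 1 / 2)]
        linarith
  · intro A f hA hf
    rw [hrep A f hA hf, integral_smul_nnreal_measure, NNReal.smul_def, smul_eq_mul, ← integral_const_mul]
    refine integral_congr_ae ?_
    have hz : ∀ᵐ z ∂m₀, z ∉ N := by
      rw [ae_iff]
      simpa using hN0
    filter_upwards [hz] with z hz
    simp only [if_neg hz, Matrix.mul_smul, Matrix.trace_smul, Complex.smul_re, smul_eq_mul]
    push_cast
    ring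

end KOL
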